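import Pool.Agent.Lib.MP_eeed5c_co_T.Base

/-!
# Four-cycles

`wc G v u` is the number of pairs `(a, c)` such that `v, u, a, c` is a 4-cycle. For adjacent `v`,
`u` the defect `(r-1)^2 - wc G v u` counts pairs `(a, c)`, `a` adjacent to `u`, `c` adjacent to `a`,
`c` not adjacent to `v`; the sum of the defects over all oriented edges is at most the sum of
`loc / 4 + r * tri`.
-/

set_option autoImplicit false

namespace Pool.Agent.Lib.MP_eeed5c_coT

open Finset Pool.Agent.Lib.MP_eeed5c_co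

open scoped Classical in
/-- The number of 4-cycles through the oriented edge `(v, u)`. -/
noncomputable def wc {V : Type*} [Fintype V] (G : SimpleGraph V) (v u : V) : ℕ :=
  (univ.filter fun p : V × V =>
    G.Adj u p.1 ∧ p.1 ≠ v ∧ G.Adj p.1 p.2 ∧ p.2 ≠ u ∧ G.Adj p.2 v).card

open scoped Classical in
/-- The oriented edges. -/
noncomputable def prA {V : Type*} [Fintype V] (G : SimpleGraph V) : Finset (V × V) :=
  univ.filter fun q => G.Adj q.1 q.2

/-- The total defect. -/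
noncomputable def dfc {V : Type*} [Fintype V] (G : SimpleGraph V) (r : ℕ) : ℝ :=
  ∑ q ∈ prA G, (((r : ℝ) - 1) ^ 2 - wc G q.1 q.2)

private def FC_P {V : Type*} (G : SimpleGraph V) (v u : V) (p : V × V) : Prop :=
  G.Adj u p.1 ∧ ¬ G.Adj v p.1 ∧ p.1 ≠ v ∧ G.Adj p.1 p.2 ∧ ¬ G.Adj v p.2

open scoped Classical in
/-- The pairs `(a, c)` with `a` adjacent to `u` and not to `v` and so on. -/
private noncomputable def FC_S {V : Type*} [Fintype V] (G : SimpleGraph V) (v u : V) :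
    Finset (V × V) :=
  (univ : Finset (V × V)).filter (FC_P G v u)

private theorem FC_mem {V : Type*} [Fintype V] {G : SimpleGraph V} {v u : V} {p : V × V} :
    p ∈ FC_S G v u ↔
      G.Adj u p.1 ∧ ¬ G.Adj v p.1 ∧ p.1 ≠ v ∧ G.Adj p.1 p.2 ∧ ¬ G.Adj v p.2 := by
  unfold FC_S
  simp only [Finset.mem_filter, Finset.mem_univ, true_and]
  exact Iff.rfl

open scoped Classical in
private theorem FC_sub {V : Type*} [Fintype V] {G : SimpleGraph V} {v u : V} (h : G.Adj v u) :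
    ∀ p ∈ FC_S G v u, p ∈ prs G v u := by
  intro p hp
  obtain ⟨h1, h2, h3, h4, h5⟩ := FC_mem.1 hp
  unfold prs
  rw [Finset.mem_filter]
  refine ⟨Finset.mem_univ _, h4, h3, ?_, ?_, ?_⟩
  · intro e
    rw [e] at h1
    exact G.irrefl h1
  · intro e
    rw [e] at h4
    exact h2 h4.symm
  · intro e
    rw [e] at h5
    exact h5 h

open scoped Classical in
private theorem FC_prs_comm {V : Type*} [Fintype V] {G : SimpleGraph V} {v u : V} (p : V × V)
    (h : p ∈ prs G u v) : p ∈ prs G v u := by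
  unfold prs at h ⊢
  rw [Finset.mem_filter] at h ⊢
  exact ⟨h.1, h.2.1, h.2.2.2.1, h.2.2.1, h.2.2.2.2.2, h.2.2.2.2.1⟩

open scoped Classical in
private theorem FC_prs_swap {V : Type*} [Fintype V] {G : SimpleGraph V} {v u : V} (p : V × V)
    (h : p ∈ prs G v u) : p.swap ∈ prs G v u := by
  unfold prs at h ⊢
  rw [Finset.mem_filter] at h ⊢
  exact ⟨Finset.mem_univ _, h.2.1.symm, h.2.2.2.2.1, h.2.2.2.2.2, h.2.2.1, h.2.2.2.1⟩

open scoped Classical in
private theorem FC_sum {V : Type*} [Fintype V] {G : SimpleGraph V} {v u : V} (S : Finset (V × V))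
    (h : ∀ p ∈ S, p ∈ prs G v u) :
    (S.card : ℝ) ≤ ∑ p ∈ prs G v u, (if p ∈ S then (1 : ℝ) else 0) := by
  rw [Finset.sum_ite_mem, Finset.sum_const, nsmul_eq_mul, mul_one]
  have : S ⊆ prs G v u ∩ S := fun p hp => Finset.mem_inter.2 ⟨h p hp, hp⟩
  exact_mod_cast Finset.card_le_card this

open scoped Classical in
private theorem FC_sum' {V : Type*} [Fintype V] {G : SimpleGraph V} {v u : V} (S : Finset (V × V))
    (h : ∀ p ∈ S, p ∈ prs G v u) :
    (S.card : ℝ) ≤ ∑ p ∈ prs G v u, (if p.swap ∈ S then (1 : ℝ) else 0) := by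
  have h1 := FC_sum (G := G) (v := v) (u := u) (S.image Prod.swap) (by
    intro p hp
    obtain ⟨q, hq, rfl⟩ := Finset.mem_image.1 hp
    exact FC_prs_swap q (h q hq))
  rw [Finset.card_image_of_injective _ Prod.swap_injective] at h1
  refine le_trans h1 (le_of_eq (Finset.sum_congr rfl fun p _ => ?_))
  have : p ∈ S.image Prod.swap ↔ p.swap ∈ S := by
    rw [Finset.mem_image]
    constructor
    · rintro ⟨q, hq, rfl⟩
      rw [Prod.swap_swap]; exact hq
    · intro hq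
      exact ⟨p.swap, hq, Prod.swap_swap p⟩
  by_cases hp : p.swap ∈ S
  · rw [if_pos hp, if_pos (this.2 hp)]
  · rw [if_neg hp, if_neg (fun h => hp (this.1 h))]

private theorem FC_ite {P : Prop} [Decidable P] {x : ℝ} (hx : 0 ≤ x) (h : P → 1 ≤ x) :
    (if P then (1 : ℝ) else 0) ≤ x := by
  by_cases hP : P
  · rw [if_pos hP]; exact h hP
  · rw [if_neg hP]; exact hx

private theorem FC_bool (a b c d : ℝ) (ha : a = 0 ∨ a = 1) (hb : b = 0 ∨ b = 1)
    (hc : c = 0 ∨ c = 1) (hd : d = 0 ∨ d = 1) :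
    a * (1 - c) * (1 - d) + b * (1 - c) * (1 - d) + c * (1 - a) * (1 - b) + d * (1 - a) * (1 - b)
      ≤ (a + b - c - d) ^ 2 := by
  rcases ha with rfl | rfl <;> rcases hb with rfl | rfl <;> rcases hc with rfl | rfl <;>
    rcases hd with rfl | rfl <;> norm_num

open scoped Classical in
private noncomputable def FC_i (P : Prop) : ℝ := if P then 1 else 0

private theorem FC_i01 (P : Prop) : FC_i P = 0 ∨ FC_i P = 1 := by
  unfold FC_i
  split_ifs
  · exact Or.inr rfl
  · exact Or.inl rfl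

private theorem FC_i1 {P : Prop} (h : P) : FC_i P = 1 := by unfold FC_i; rw [if_pos h]

private theorem FC_i0 {P : Prop} (h : ¬ P) : FC_i P = 0 := by unfold FC_i; rw [if_neg h]

private theorem FC_nn (P Q R : Prop) : 0 ≤ FC_i P * (1 - FC_i Q) * (1 - FC_i R) := by
  rcases FC_i01 P with h | h <;> rcases FC_i01 Q with h' | h' <;> rcases FC_i01 R with h'' | h'' <;>
    rw [h, h', h''] <;> norm_num

open scoped Classical in
private theorem FC_pt {V : Type*} [Fintype V] {G : SimpleGraph V} {v u : V} (p : V × V) :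
    (if p ∈ FC_S G v u then (1 : ℝ) else 0) + (if p.swap ∈ FC_S G v u then (1 : ℝ) else 0) +
    (if p ∈ FC_S G u v then (1 : ℝ) else 0) + (if p.swap ∈ FC_S G u v then (1 : ℝ) else 0) ≤
    (sg G v u p) ^ 2 := by
  have e1 : p.swap.1 = p.2 := rfl
  have e2 : p.swap.2 = p.1 := rfl
  have hsg : sg G v u p = FC_i (G.Adj u p.1) + FC_i (G.Adj u p.2) - FC_i (G.Adj v p.1) -
      FC_i (G.Adj v p.2) := rfl
  have hb := FC_bool _ _ _ _ (FC_i01 (G.Adj u p.1)) (FC_i01 (G.Adj u p.2)) (FC_i01 (G.Adj v p.1))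
    (FC_i01 (G.Adj v p.2))
  rw [hsg]
  have n1 : (if p ∈ FC_S G v u then (1 : ℝ) else 0) ≤
      FC_i (G.Adj u p.1) * (1 - FC_i (G.Adj v p.1)) * (1 - FC_i (G.Adj v p.2)) := by
    apply FC_ite (FC_nn _ _ _)
    intro h
    obtain ⟨a1, a2, _, _, a5⟩ := FC_mem.1 h
    rw [FC_i1 a1, FC_i0 a2, FC_i0 a5]; norm_num
  have n2 : (if p.swap ∈ FC_S G v u then (1 : ℝ) else 0) ≤
      FC_i (G.Adj u p.2) * (1 - FC_i (G.Adj v p.1)) * (1 - FC_i (G.Adj v p.2)) := by
    apply FC_ite (FC_nn _ _ _)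
    intro h
    obtain ⟨a1, a2, _, _, a5⟩ := FC_mem.1 h
    rw [e1] at a1 a2
    rw [e2] at a5
    rw [FC_i1 a1, FC_i0 a2, FC_i0 a5]; norm_num
  have n3 : (if p ∈ FC_S G u v then (1 : ℝ) else 0) ≤
      FC_i (G.Adj v p.1) * (1 - FC_i (G.Adj u p.1)) * (1 - FC_i (G.Adj u p.2)) := by
    apply FC_ite (FC_nn _ _ _)
    intro h
    obtain ⟨a1, a2, _, _, a5⟩ := FC_mem.1 h
    rw [FC_i1 a1, FC_i0 a2, FC_i0 a5]; norm_num
  have n4 : (if p.swap ∈ FC_S G u v then (1 : ℝ) else 0) ≤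
      FC_i (G.Adj v p.2) * (1 - FC_i (G.Adj u p.1)) * (1 - FC_i (G.Adj u p.2)) := by
    apply FC_ite (FC_nn _ _ _)
    intro h
    obtain ⟨a1, a2, _, _, a5⟩ := FC_mem.1 h
    rw [e1] at a1 a2
    rw [e2] at a5
    rw [FC_i1 a1, FC_i0 a2, FC_i0 a5]; norm_num
  linarith


open scoped Classical in
/-- Walks of length two which continue the oriented edge `(v, u)`. -/
private noncomputable def FC_W {V : Type*} [Fintype V] (G : SimpleGraph V) (v u : V) :
    Finset (V × V) :=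
  univ.filter fun p : V × V => G.Adj u p.1 ∧ p.1 ≠ v ∧ G.Adj p.1 p.2 ∧ p.2 ≠ u

open scoped Classical in
private theorem FC_fib {V : Type*} [Fintype V] {G : SimpleGraph V} {r : ℕ} (hreg : Reg G r)
    (A : Finset V) (u : V) (hA : ∀ a ∈ A, G.Adj u a) :
    (univ.filter fun p : V × V => p.1 ∈ A ∧ G.Adj p.1 p.2 ∧ p.2 ≠ u).card = A.card * (r - 1) := by
  have hmaps : ∀ p ∈ (univ.filter fun p : V × V => p.1 ∈ A ∧ G.Adj p.1 p.2 ∧ p.2 ≠ u),
      p.1 ∈ A := fun p hp => (Finset.mem_filter.1 hp).2.1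
  rw [Finset.card_eq_sum_card_fiberwise (f := fun p : V × V => p.1) (t := A) hmaps]
  have h1 : ∀ a ∈ A, ((univ.filter fun p : V × V => p.1 ∈ A ∧ G.Adj p.1 p.2 ∧ p.2 ≠ u).filter
      (fun p : V × V => p.1 = a)).card = r - 1 := by
    intro a ha
    have h2 : ((univ.filter fun p : V × V => p.1 ∈ A ∧ G.Adj p.1 p.2 ∧ p.2 ≠ u).filter
      (fun p : V × V => p.1 = a)) = ((univ.filter fun c => G.Adj a c).erase u).image
        (fun c => (a, c)) := by
      ext ⟨x, y⟩
      simp only [Finset.mem_filter, Finset.mem_univ, true_and, Finset.mem_image, Finset.mem_erase,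
        Prod.mk.injEq]
      constructor
      · rintro ⟨⟨_, k2, k3⟩, rfl⟩
        exact ⟨y, ⟨k3, k2⟩, rfl, rfl⟩
      · rintro ⟨z, ⟨k1, k2⟩, rfl, rfl⟩
        exact ⟨⟨ha, k2, k1⟩, rfl⟩
    rw [h2, Finset.card_image_of_injective _ (fun c d h => (Prod.mk.inj h).2),
      Finset.card_erase_of_mem, hreg a]
    rw [Finset.mem_filter]
    exact ⟨Finset.mem_univ _, (hA a ha).symm⟩
  rw [Finset.sum_congr rfl h1, Finset.sum_const, smul_eq_mul]

open scoped Classical in
private theorem FC_W_card {V : Type*} [Fintype V] {G : SimpleGraph V} {r : ℕ} (hreg : Reg G r)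
    (v u : V) (h : G.Adj v u) : (FC_W G v u).card = (r - 1) * (r - 1) := by
  have h1 : FC_W G v u = (univ.filter fun p : V × V =>
      p.1 ∈ (univ.filter fun a => G.Adj u a).erase v ∧ G.Adj p.1 p.2 ∧ p.2 ≠ u) := by
    unfold FC_W
    ext p
    simp only [Finset.mem_filter, Finset.mem_univ, true_and, Finset.mem_erase]
    tauto
  rw [h1, FC_fib hreg _ u (by
    intro a ha
    rw [Finset.mem_erase, Finset.mem_filter] at ha
    exact ha.2.2), Finset.card_erase_of_mem, hreg u]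
  rw [Finset.mem_filter]
  exact ⟨Finset.mem_univ _, h.symm⟩

open scoped Classical in
private theorem FC_cover {V : Type*} [Fintype V] {G : SimpleGraph V} {r : ℕ} (hreg : Reg G r)
    (v u : V) (h : G.Adj v u) :
    (r - 1) * (r - 1) ≤ wc G v u + (FC_S G v u).card +
      (univ.filter fun w => G.Adj v w ∧ G.Adj u w).card * (r - 1) := by
  rw [← FC_W_card hreg v u h]
  have h3 := FC_fib hreg (univ.filter fun w => G.Adj v w ∧ G.Adj u w) u (by
    intro a ha
    exact (Finset.mem_filter.1 ha).2.2)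
  rw [← h3]
  unfold wc
  refine (Finset.card_le_card (t := ((univ.filter fun p : V × V =>
    G.Adj u p.1 ∧ p.1 ≠ v ∧ G.Adj p.1 p.2 ∧ p.2 ≠ u ∧ G.Adj p.2 v) ∪ FC_S G v u) ∪
      (univ.filter fun p : V × V => p.1 ∈ (univ.filter fun w => G.Adj v w ∧ G.Adj u w) ∧
        G.Adj p.1 p.2 ∧ p.2 ≠ u)) ?_).trans ((Finset.card_union_le _ _).trans
          (Nat.add_le_add_right (Finset.card_union_le _ _) _))
  intro p hp
  unfold FC_W at hp
  obtain ⟨_, k1, k2, k3, k4⟩ := Finset.mem_filter.1 hp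
  rw [Finset.mem_union, Finset.mem_union]
  by_cases hc : G.Adj p.2 v
  · left; left
    rw [Finset.mem_filter]
    exact ⟨Finset.mem_univ _, k1, k2, k3, k4, hc⟩
  · by_cases ha : G.Adj v p.1
    · right
      rw [Finset.mem_filter, Finset.mem_filter]
      exact ⟨Finset.mem_univ _, ⟨Finset.mem_univ _, ha, k1⟩, k3, k4⟩
    · left; right
      rw [FC_mem]
      exact ⟨k1, ha, k2, k3, fun h' => hc h'.symm⟩

open scoped Classical in
private theorem FC_loc {V : Type*} [Fintype V] {G : SimpleGraph V} (v u : V) (hvu : G.Adj v u) :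
    2 * ((FC_S G v u).card : ℝ) + 2 * ((FC_S G u v).card : ℝ) ≤ loc G v u := by
  have s1 := FC_sum (FC_S G v u) (FC_sub hvu)
  have s2 := FC_sum' (FC_S G v u) (FC_sub hvu)
  have hsub : ∀ p ∈ FC_S G u v, p ∈ prs G v u := fun p hp => FC_prs_comm p (FC_sub hvu.symm p hp)
  have s3 := FC_sum (FC_S G u v) hsub
  have s4 := FC_sum' (FC_S G u v) hsub
  have hloc : ∑ p ∈ prs G v u, ((if p ∈ FC_S G v u then (1 : ℝ) else 0) +
      (if p.swap ∈ FC_S G v u then (1 : ℝ) else 0) +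
      (if p ∈ FC_S G u v then (1 : ℝ) else 0) + (if p.swap ∈ FC_S G u v then (1 : ℝ) else 0)) ≤
      loc G v u := by
    unfold loc
    exact Finset.sum_le_sum fun p _ => FC_pt p
  rw [Finset.sum_add_distrib, Finset.sum_add_distrib, Finset.sum_add_distrib] at hloc
  linarith

theorem mem_prA {V : Type*} [Fintype V] {G : SimpleGraph V} {q : V × V} :
    q ∈ prA G ↔ G.Adj q.1 q.2 := by
  unfold prA
  simp

theorem sum_prA_swap {V : Type*} [Fintype V] {G : SimpleGraph V} (f : V × V → ℝ) :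
    ∑ q ∈ prA G, f q.swap = ∑ q ∈ prA G, f q := by
  refine Finset.sum_bij' (fun q _ => q.swap) (fun q _ => q.swap) ?_ ?_ ?_ ?_ ?_
  · intro q hq
    rw [mem_prA] at hq ⊢
    exact hq.symm
  · intro q hq
    rw [mem_prA] at hq ⊢
    exact hq.symm
  · intro q _; exact Prod.swap_swap q
  · intro q _; exact Prod.swap_swap q
  · intro q _; rfl

/-- The defect is at most the sum of the local quantities. -/
theorem dfc_le {V : Type*} [Fintype V] {G : SimpleGraph V} {r : ℕ} (hr : 1 ≤ r)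
    (hreg : Reg G r) :
    dfc G r ≤ ∑ q ∈ prA G, (loc G q.1 q.2 / 4 + r * tri G q.1 q.2) := by
  classical
  have h1 : ∑ q ∈ prA G, (((FC_S G q.1 q.2).card : ℝ) + ((r : ℝ) - 1) * tri G q.1 q.2) ≤
      ∑ q ∈ prA G, (loc G q.1 q.2 / 4 + r * tri G q.1 q.2) := by
    have h2 : ∑ q ∈ prA G, ((FC_S G q.1 q.2).card : ℝ) ≤ ∑ q ∈ prA G, loc G q.1 q.2 / 4 := by
      have h3 : ∑ q ∈ prA G, ((FC_S G q.2 q.1).card : ℝ) = ∑ q ∈ prA G, ((FC_S G q.1 q.2).card : ℝ) :=
        sum_prA_swap (G := G) (fun q => ((FC_S G q.1 q.2).card : ℝ))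
      have h4 : ∑ q ∈ prA G, (((FC_S G q.1 q.2).card : ℝ) / 2 + ((FC_S G q.2 q.1).card : ℝ) / 2) ≤
          ∑ q ∈ prA G, loc G q.1 q.2 / 4 := by
        refine Finset.sum_le_sum fun q hq => ?_
        have := FC_loc q.1 q.2 (mem_prA.1 hq)
        linarith
      rw [Finset.sum_add_distrib, ← Finset.sum_div, ← Finset.sum_div, h3] at h4
      linarith
    rw [Finset.sum_add_distrib, Finset.sum_add_distrib]
    refine add_le_add h2 (Finset.sum_le_sum fun q _ => ?_)
    have : 0 ≤ tri G q.1 q.2 := by unfold tri; positivity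
    exact mul_le_mul_of_nonneg_right (by linarith) this
  refine le_trans ?_ h1
  unfold dfc
  refine Finset.sum_le_sum fun q hq => ?_
  have h5 := FC_cover hreg q.1 q.2 (mem_prA.1 hq)
  have h6 : (((r - 1) * (r - 1) : ℕ) : ℝ) ≤ (wc G q.1 q.2 : ℝ) + (FC_S G q.1 q.2).card +
      (univ.filter fun w => G.Adj q.1 w ∧ G.Adj q.2 w).card * ((r - 1 : ℕ) : ℝ) := by
    exact_mod_cast h5
  rw [Nat.cast_mul, Nat.cast_sub hr] at h6
  push_cast at h6
  unfold tri
  linarith

end Pool.Agent.Lib.MP_eeed5c_coT
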