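import Pool.Agent.Lib.MP_eeed5c_co_T.Base

/-!
# A lower bound for the second moment of `D v - D u`

Fix adjacent `v`, `u`. `F(N) = [v, u ∈ free N]`, `X(N) = D G N v - D G N u`, `σ(p) = sg G v u p`, `adm(N) = (prs G v u).filter (p.1 ∈ free N ∧ p.2 ∈ free N)`, `W(N) = ∑_{p : s(p.1,p.2) ∈ N} σ(p) - x ∑_{p ∈ adm(N)} σ(p)`, `A = WS (F(N) ∑_{p ∈ adm(N)} σ(p)^2)`.
(1) For any function `Y` on matchings: `WS (F Y W) = x WS (F(N) ∑_{p ∈ adm(N)} σ(p) (Y(insert s(p) N) - Y(N)))`. Indeed `WS (∑_{p : s(p) ∈ M} F(M) Y(M) σ(p)) = x WS (∑_{p : p.1, p.2 ∈ free N, adj} F(insert s(p) N) Y(insert s(p) N) σ(p))` by `WS_insert`, and for a pair `p` of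
adjacent free vertices `F(insert s(p) N) = F(N) [p ∈ prs]` (`mem_free_insert`).
(2) For `N` with `v, u` free and `p ∈ adm(N)`: `X(insert s(p) N) = X(N) + σ(p)`: `D (insert s(p) N) v = D N v - [v ~ p.1] - [v ~ p.2]` (`nb` of `v` loses exactly those of `p.1`, `p.2` which are adjacent to `v`; `p.1 ≠ p.2`). So `WS (F X W) = x A`.
(3) `W(insert s(p) N) - W(N) = 2 σ(p) + x ∑_{p' ∈ adm(N), p' touches p} σ(p')`, where `p'` touches `p` if one of `p'.1, p'.2` is `p.1` or `p.2`: the oriented edges of `insert s(p) N` are those of `N` and the two `p`, `p.swap` (`σ` is symmetric, `p ≠ p.swap`, and they are not in `N`), and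
`adm(insert s(p) N)` is the set of `p' ∈ adm(N)` which do not touch `p`. So `WS (F W W) = x WS (F ∑_{p ∈ adm} (2 σ(p)^2 + x ∑_{p' ∈ adm touching p} σ(p) σ(p')))`. As `σ(p) σ(p') ≤ (σ(p)^2 + σ(p')^2)/2`, touching is symmetric and every `p` is touched by at most `4 r` pairs `p'` of
adjacent vertices (`p'.1 = p.1`: at most `r`, etc.), the inner double sum is at most `4 r ∑ σ(p)^2`: `WS (F W W) ≤ 2 x (1 + 2 x r) A`.
(4) Cauchy-Schwarz for the weighted sum (`F ≥ 0`, `F^2 = F`): `(x A)^2 ≤ WS (F X X) * WS (F W W) ≤ WS (F X X) * 2 x (1 + 2 x r) A` (a convenient form: for every real `s`, `0 ≤ WS (F (X - s W)^2) = WS(F X^2) - 2 s x A + s^2 WS (F W^2)`; take `s = 1/(2(1 + 2 x r))`: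
`WS (F X^2) ≥ 2 s x A - s^2 * 2 x (1 + 2 x r) A = x A / (2 (1 + 2 x r))`; no division by `A` is needed).
-/

set_option autoImplicit false

namespace Pool.Agent.Lib.MP_eeed5c_coT

open Finset Pool.Agent.Lib.MP_eeed5c_co

section

variable {V : Type*} [Fintype V]

open scoped Classical in
private noncomputable def SD_F (v u : V) (N : Finset (Sym2 V)) : ℝ :=
  if v ∈ free N ∧ u ∈ free N then 1 else 0

open scoped Classical in
private noncomputable def SD_adm (G : SimpleGraph V) (v u : V) (N : Finset (Sym2 V)) : Finset (V × V) :=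
  (prs G v u).filter (fun p => p.1 ∈ free N ∧ p.2 ∈ free N)

open scoped Classical in
private noncomputable def SD_or (N : Finset (Sym2 V)) : Finset (V × V) :=
  univ.filter (fun p : V × V => s(p.1, p.2) ∈ N)

private noncomputable def SD_X (G : SimpleGraph V) (v u : V) (N : Finset (Sym2 V)) : ℝ :=
  (D G N v : ℝ) - D G N u

private noncomputable def SD_W (G : SimpleGraph V) (x : ℝ) (v u : V) (N : Finset (Sym2 V)) : ℝ :=
  ∑ p ∈ SD_or N, sg G v u p - x * ∑ p ∈ SD_adm G v u N, sg G v u p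

private theorem SD_mem_adm {G : SimpleGraph V} {v u : V} {N : Finset (Sym2 V)} {p : V × V} :
    p ∈ SD_adm G v u N ↔ (G.Adj p.1 p.2 ∧ p.1 ≠ v ∧ p.1 ≠ u ∧ p.2 ≠ v ∧ p.2 ≠ u) ∧
      p.1 ∈ free N ∧ p.2 ∈ free N := by
  classical
  unfold SD_adm prs
  simp only [Finset.mem_filter, Finset.mem_univ, true_and]

private theorem SD_mem_or {N : Finset (Sym2 V)} {p : V × V} : p ∈ SD_or N ↔ s(p.1, p.2) ∈ N := by
  classical
  unfold SD_or
  simp only [Finset.mem_filter, Finset.mem_univ, true_and]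

private theorem SD_sg_symm (G : SimpleGraph V) (v u a b : V) : sg G v u (a, b) = sg G v u (b, a) := by
  unfold sg
  simp only
  ring

private theorem SD_F_sq (v u : V) (N : Finset (Sym2 V)) : SD_F v u N * SD_F v u N = SD_F v u N := by
  unfold SD_F
  split_ifs <;> norm_num

private theorem SD_F_nonneg (v u : V) (N : Finset (Sym2 V)) : 0 ≤ SD_F v u N := by
  unfold SD_F
  split_ifs <;> norm_num

open scoped Classical in
private theorem SD_F_insert (v u : V) (N : Finset (Sym2 V)) (a b : V) :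
    SD_F v u (insert s(a, b) N) =
      SD_F v u N * (if a ≠ v ∧ a ≠ u ∧ b ≠ v ∧ b ≠ u then 1 else 0) := by
  unfold SD_F
  by_cases h1 : v ∈ free N ∧ u ∈ free N
  · rw [if_pos h1, one_mul]
    by_cases h2 : a ≠ v ∧ a ≠ u ∧ b ≠ v ∧ b ≠ u
    · rw [if_pos h2, if_pos]
      exact ⟨mem_free_insert.2 ⟨h1.1, h2.1.symm, h2.2.2.1.symm⟩,
        mem_free_insert.2 ⟨h1.2, h2.2.1.symm, h2.2.2.2.symm⟩⟩
    · rw [if_neg h2, if_neg]
      rintro ⟨h3, h4⟩
      have h5 := mem_free_insert.1 h3
      have h6 := mem_free_insert.1 h4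
      exact h2 ⟨h5.2.1.symm, h6.2.1.symm, h5.2.2.symm, h6.2.2.symm⟩
  · rw [if_neg h1, zero_mul, if_neg]
    rintro ⟨h3, h4⟩
    exact h1 ⟨(mem_free_insert.1 h3).1, (mem_free_insert.1 h4).1⟩

open scoped Classical in
private theorem SD_stein (G : SimpleGraph V) (x : ℝ) (v u : V) (Y : Finset (Sym2 V) → ℝ) :
    WS G x (fun N => SD_F v u N * Y N * SD_W G x v u N) =
      x * WS G x (fun N => SD_F v u N * ∑ p ∈ SD_adm G v u N,
        sg G v u p * (Y (insert s(p.1, p.2) N) - Y N)) := by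
  have h := WS_insert (G := G) x (fun M p => SD_F v u M * Y M * sg G v u p)
  have h1 : WS G x (fun N => SD_F v u N * Y N * SD_W G x v u N) =
      WS G x (fun M => ∑ p ∈ univ.filter (fun p : V × V => s(p.1, p.2) ∈ M),
        SD_F v u M * Y M * sg G v u p) -
      x * WS G x (fun N => SD_F v u N * Y N * ∑ p ∈ SD_adm G v u N, sg G v u p) := by
    rw [← WS_smul, ← WS_sub]
    refine WS_congr x fun N _ => ?_
    unfold SD_W SD_or
    rw [← Finset.mul_sum]
    ring
  have h2 : WS G x (fun N => ∑ p ∈ univ.filter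
        (fun p : V × V => p.1 ∈ free N ∧ p.2 ∈ free N ∧ G.Adj p.1 p.2),
        SD_F v u (insert s(p.1, p.2) N) * Y (insert s(p.1, p.2) N) * sg G v u p) =
      WS G x (fun N => SD_F v u N * ∑ p ∈ SD_adm G v u N, sg G v u p * Y (insert s(p.1, p.2) N)) := by
    refine WS_congr x fun N _ => ?_
    rw [Finset.mul_sum]
    have hsub : SD_adm G v u N ⊆ univ.filter
        (fun p : V × V => p.1 ∈ free N ∧ p.2 ∈ free N ∧ G.Adj p.1 p.2) := by
      intro p hp
      have h3 := SD_mem_adm.1 hp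
      rw [Finset.mem_filter]
      exact ⟨Finset.mem_univ _, h3.2.1, h3.2.2, h3.1.1⟩
    rw [← Finset.sum_subset hsub]
    · refine Finset.sum_congr rfl fun p hp => ?_
      have h3 := SD_mem_adm.1 hp
      rw [SD_F_insert, if_pos h3.1.2]
      ring
    · intro p hp hnp
      rw [Finset.mem_filter] at hp
      rw [SD_F_insert, if_neg]
      · ring
      · intro h3
        exact hnp (SD_mem_adm.2 ⟨⟨hp.2.2.2, h3⟩, hp.2.1, hp.2.2.1⟩)
  rw [h1, h, h2, ← mul_sub, ← WS_sub]
  congr 1
  refine WS_congr x fun N _ => ?_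
  simp_rw [mul_sub]
  rw [Finset.sum_sub_distrib, mul_sub, ← Finset.sum_mul]
  ring

open scoped Classical in
private theorem SD_D (G : SimpleGraph V) (N : Finset (Sym2 V)) (v : V) :
    (D G N v : ℝ) = ∑ w ∈ free N, if G.Adj v w then (1 : ℝ) else 0 := by
  unfold D nb
  rw [Finset.card_filter]
  push_cast
  rfl

open scoped Classical in
private theorem SD_free_insert (N : Finset (Sym2 V)) (a b : V) :
    free (insert s(a, b) N) = ((free N).erase a).erase b := by
  ext w
  rw [mem_free_insert, Finset.mem_erase, Finset.mem_erase]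
  tauto

open scoped Classical in
private theorem SD_D_insert (G : SimpleGraph V) (N : Finset (Sym2 V)) (v : V) {a b : V}
    (ha : a ∈ free N) (hb : b ∈ free N) (hab : a ≠ b) :
    (D G (insert s(a, b) N) v : ℝ) = (D G N v : ℝ) - (if G.Adj v a then 1 else 0) -
      (if G.Adj v b then 1 else 0) := by
  rw [SD_D, SD_D, SD_free_insert]
  have h1 : b ∈ (free N).erase a := Finset.mem_erase.2 ⟨hab.symm, hb⟩
  rw [← Finset.sum_erase_add _ _ ha, ← Finset.sum_erase_add _ _ h1]
  ring

open scoped Classical in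
private theorem SD_X_insert (G : SimpleGraph V) (v u : V) (N : Finset (Sym2 V)) {p : V × V}
    (hp : p ∈ SD_adm G v u N) :
    SD_X G v u (insert s(p.1, p.2) N) - SD_X G v u N = sg G v u p := by
  have h := SD_mem_adm.1 hp
  unfold SD_X
  rw [SD_D_insert G N v h.2.1 h.2.2 h.1.1.ne, SD_D_insert G N u h.2.1 h.2.2 h.1.1.ne]
  unfold sg
  ring

private def SD_tch (p q : V × V) : Prop := (q.1 = p.1 ∨ q.1 = p.2) ∨ (q.2 = p.1 ∨ q.2 = p.2)

private theorem SD_tch_symm {p q : V × V} : SD_tch p q ↔ SD_tch q p := by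
  unfold SD_tch
  constructor
  · rintro ((h | h) | (h | h))
    · exact Or.inl (Or.inl h.symm)
    · exact Or.inr (Or.inl h.symm)
    · exact Or.inl (Or.inr h.symm)
    · exact Or.inr (Or.inr h.symm)
  · rintro ((h | h) | (h | h))
    · exact Or.inl (Or.inl h.symm)
    · exact Or.inr (Or.inl h.symm)
    · exact Or.inl (Or.inr h.symm)
    · exact Or.inr (Or.inr h.symm)

open scoped Classical in
private theorem SD_or_insert (N : Finset (Sym2 V)) (a b : V) :
    SD_or (insert s(a, b) N) = insert (a, b) (insert (b, a) (SD_or N)) := by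
  ext ⟨c, d⟩
  rw [Finset.mem_insert, Finset.mem_insert, SD_mem_or, SD_mem_or, Finset.mem_insert]
  simp only [Sym2.eq_iff, Prod.mk.injEq]
  tauto

open scoped Classical in
private theorem SD_W_insert (G : SimpleGraph V) (x : ℝ) (v u : V) (N : Finset (Sym2 V)) {p : V × V}
    (hp : p ∈ SD_adm G v u N) :
    SD_W G x v u (insert s(p.1, p.2) N) - SD_W G x v u N = 2 * sg G v u p +
      x * ∑ q ∈ (SD_adm G v u N).filter (fun q => SD_tch p q), sg G v u q := by
  obtain ⟨a, b⟩ := p
  have h := SD_mem_adm.1 hp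
  have hab : a ≠ b := h.1.1.ne
  have hna : ∀ c : V, s(a, c) ∉ N := fun c hc => mem_free.1 h.2.1 _ hc (by simp)
  have e1 : ∑ q ∈ SD_or (insert s(a, b) N), sg G v u q =
      2 * sg G v u (a, b) + ∑ q ∈ SD_or N, sg G v u q := by
    rw [SD_or_insert, Finset.sum_insert, Finset.sum_insert]
    · rw [SD_sg_symm G v u b a]
      ring
    · rw [SD_mem_or]
      intro hc
      apply hna b
      rw [Sym2.eq_swap]
      exact hc
    · rw [Finset.mem_insert, SD_mem_or]
      rintro (hc | hc)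
      · exact hab (congrArg Prod.fst hc)
      · exact hna b hc
  have e2 : SD_adm G v u (insert s(a, b) N) = (SD_adm G v u N).filter (fun q => ¬ SD_tch (a, b) q) := by
    ext q
    rw [Finset.mem_filter, SD_mem_adm, SD_mem_adm, mem_free_insert, mem_free_insert]
    unfold SD_tch
    simp only
    tauto
  have e3 := Finset.sum_filter_add_sum_filter_not (SD_adm G v u N) (fun q => SD_tch (a, b) q)
    (fun q => sg G v u q)
  show SD_W G x v u (insert s(a, b) N) - SD_W G x v u N = _
  unfold SD_W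
  rw [e1, e2, ← e3]
  ring

open scoped Classical in
private theorem SD_card (G : SimpleGraph V) {r : ℕ} (hreg : Reg G r) (v u : V) (N : Finset (Sym2 V))
    (p : V × V) : (((SD_adm G v u N).filter (fun q => SD_tch p q)).card : ℝ) ≤ 4 * r := by
  have hA : ∀ w : V, (univ.filter (fun q : V × V => q.1 = w ∧ G.Adj q.1 q.2)).card ≤ r := by
    intro w
    rw [← hreg w]
    refine Finset.card_le_card_of_injOn (fun q => q.2) ?_ ?_
    · intro q hq
      have hq' := (Finset.mem_filter.1 hq).2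
      have h1 : G.Adj w q.2 := by
        have h2 := hq'.2
        rwa [hq'.1] at h2
      exact Finset.mem_coe.2 (Finset.mem_filter.2 ⟨Finset.mem_univ _, h1⟩)
    · intro q hq q' hq' hqq
      have h1 := (Finset.mem_filter.1 hq).2.1
      have h2 := (Finset.mem_filter.1 hq').2.1
      exact Prod.ext (h1.trans h2.symm) hqq
  have hB : ∀ w : V, (univ.filter (fun q : V × V => q.2 = w ∧ G.Adj q.1 q.2)).card ≤ r := by
    intro w
    rw [← hreg w]
    refine Finset.card_le_card_of_injOn (fun q => q.1) ?_ ?_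
    · intro q hq
      have hq' := (Finset.mem_filter.1 hq).2
      have h1 : G.Adj w q.1 := by
        have h2 := hq'.2
        rw [hq'.1] at h2
        exact h2.symm
      exact Finset.mem_coe.2 (Finset.mem_filter.2 ⟨Finset.mem_univ _, h1⟩)
    · intro q hq q' hq' hqq
      have h1 := (Finset.mem_filter.1 hq).2.1
      have h2 := (Finset.mem_filter.1 hq').2.1
      exact Prod.ext hqq (h1.trans h2.symm)
  have hsub : (SD_adm G v u N).filter (fun q => SD_tch p q) ⊆
      ((univ.filter (fun q : V × V => q.1 = p.1 ∧ G.Adj q.1 q.2)) ∪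
        (univ.filter (fun q : V × V => q.1 = p.2 ∧ G.Adj q.1 q.2))) ∪
      ((univ.filter (fun q : V × V => q.2 = p.1 ∧ G.Adj q.1 q.2)) ∪
        (univ.filter (fun q : V × V => q.2 = p.2 ∧ G.Adj q.1 q.2))) := by
    intro q hq
    rw [Finset.mem_filter, SD_mem_adm] at hq
    simp only [Finset.mem_union, Finset.mem_filter, Finset.mem_univ, true_and]
    have hadj := hq.1.1.1
    rcases hq.2 with (h | h) | (h | h)
    · exact Or.inl (Or.inl ⟨h, hadj⟩)
    · exact Or.inl (Or.inr ⟨h, hadj⟩)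
    · exact Or.inr (Or.inl ⟨h, hadj⟩)
    · exact Or.inr (Or.inr ⟨h, hadj⟩)
  have h1 := Finset.card_le_card hsub
  have h2 := (h1.trans (Finset.card_union_le _ _)).trans
    (Nat.add_le_add (Finset.card_union_le _ _) (Finset.card_union_le _ _))
  have h3 : ((SD_adm G v u N).filter (fun q => SD_tch p q)).card ≤ 4 * r := by
    have a1 := hA p.1
    have a2 := hA p.2
    have a3 := hB p.1
    have a4 := hB p.2
    omega
  exact_mod_cast h3

open scoped Classical in
private theorem SD_double (G : SimpleGraph V) {r : ℕ} (hreg : Reg G r) (v u : V)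
    (N : Finset (Sym2 V)) :
    ∑ p ∈ SD_adm G v u N, ∑ q ∈ (SD_adm G v u N).filter (fun q => SD_tch p q),
      sg G v u p * sg G v u q ≤ 4 * r * ∑ p ∈ SD_adm G v u N, (sg G v u p) ^ 2 := by
  have h1 : ∑ p ∈ SD_adm G v u N, ∑ q ∈ (SD_adm G v u N).filter (fun q => SD_tch p q),
      sg G v u p * sg G v u q ≤
      ∑ p ∈ SD_adm G v u N, ∑ q ∈ (SD_adm G v u N).filter (fun q => SD_tch p q),
      ((sg G v u p) ^ 2 / 2 + (sg G v u q) ^ 2 / 2) := by
    refine Finset.sum_le_sum fun p _ => Finset.sum_le_sum fun q _ => ?_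
    have := sq_nonneg (sg G v u p - sg G v u q)
    nlinarith [this]
  have h2 : ∑ p ∈ SD_adm G v u N, ∑ q ∈ (SD_adm G v u N).filter (fun q => SD_tch p q),
      (sg G v u q) ^ 2 / 2 =
      ∑ p ∈ SD_adm G v u N, ∑ q ∈ (SD_adm G v u N).filter (fun q => SD_tch p q),
      (sg G v u p) ^ 2 / 2 := by
    simp_rw [Finset.sum_filter]
    rw [Finset.sum_comm]
    refine Finset.sum_congr rfl fun p _ => Finset.sum_congr rfl fun q _ => ?_
    by_cases h : SD_tch p q
    · rw [if_pos h, if_pos (SD_tch_symm.1 h)]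
    · rw [if_neg h, if_neg (fun h' => h (SD_tch_symm.1 h'))]
  have h3 : ∑ p ∈ SD_adm G v u N, ∑ q ∈ (SD_adm G v u N).filter (fun q => SD_tch p q),
      ((sg G v u p) ^ 2 / 2 + (sg G v u q) ^ 2 / 2) =
      ∑ p ∈ SD_adm G v u N,
        (((SD_adm G v u N).filter (fun q => SD_tch p q)).card : ℝ) * (sg G v u p) ^ 2 := by
    simp_rw [Finset.sum_add_distrib]
    rw [h2, ← Finset.sum_add_distrib]
    refine Finset.sum_congr rfl fun p _ => ?_
    rw [Finset.sum_const, nsmul_eq_mul]
    ring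
  refine h1.trans ?_
  rw [h3, Finset.mul_sum]
  exact Finset.sum_le_sum fun p _ => mul_le_mul_of_nonneg_right (SD_card G hreg v u N p) (sq_nonneg _)

end

open scoped Classical in
theorem second_moment {V : Type*} [Fintype V] {G : SimpleGraph V} {r : ℕ} (hreg : Reg G r) {x : ℝ}
    (hx : 0 < x) (v u : V) (hvu : G.Adj v u) :
    x / (2 * (1 + 2 * x * r)) * WS G x (fun N => if v ∈ free N ∧ u ∈ free N then
        ∑ p ∈ (prs G v u).filter (fun p => p.1 ∈ free N ∧ p.2 ∈ free N), (sg G v u p) ^ 2 else 0) ≤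
      WS G x (fun N => if v ∈ free N ∧ u ∈ free N then ((D G N v : ℝ) - D G N u) ^ 2 else 0) := by
  set c : ℝ := 1 + 2 * x * r with hc
  have hcpos : 0 < c := by
    have : (0 : ℝ) ≤ r := Nat.cast_nonneg r
    have h1 : 0 ≤ 2 * x * r := by positivity
    linarith
  set A : ℝ := WS G x (fun N => SD_F v u N * ∑ p ∈ SD_adm G v u N, (sg G v u p) ^ 2) with hA
  have e1 : WS G x (fun N => if v ∈ free N ∧ u ∈ free N then
        ∑ p ∈ (prs G v u).filter (fun p => p.1 ∈ free N ∧ p.2 ∈ free N), (sg G v u p) ^ 2 else 0) = A := by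
    rw [hA]
    refine WS_congr x fun N _ => ?_
    unfold SD_F SD_adm
    split_ifs
    · rw [one_mul]
    · rw [zero_mul]
  have e2 : WS G x (fun N => if v ∈ free N ∧ u ∈ free N then ((D G N v : ℝ) - D G N u) ^ 2 else 0) =
      WS G x (fun N => SD_F v u N * (SD_X G v u N) ^ 2) := by
    refine WS_congr x fun N _ => ?_
    unfold SD_F SD_X
    split_ifs
    · rw [one_mul]
    · rw [zero_mul]
  rw [e1, e2]
  have hXW : WS G x (fun N => SD_F v u N * SD_X G v u N * SD_W G x v u N) = x * A := by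
    rw [SD_stein G x v u (SD_X G v u), hA]
    congr 1
    refine WS_congr x fun N _ => ?_
    congr 1
    refine Finset.sum_congr rfl fun p hp => ?_
    rw [SD_X_insert G v u N hp]
    ring
  have hWW : WS G x (fun N => SD_F v u N * SD_W G x v u N * SD_W G x v u N) ≤ 2 * x * c * A := by
    rw [SD_stein G x v u (SD_W G x v u)]
    have h1 : WS G x (fun N => SD_F v u N * ∑ p ∈ SD_adm G v u N,
        sg G v u p * (SD_W G x v u (insert s(p.1, p.2) N) - SD_W G x v u N)) ≤
        WS G x (fun N => (2 * c) * (SD_F v u N * ∑ p ∈ SD_adm G v u N, (sg G v u p) ^ 2)) := by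
      refine WS_mono hx.le fun N _ => ?_
      have h2 : ∑ p ∈ SD_adm G v u N,
          sg G v u p * (SD_W G x v u (insert s(p.1, p.2) N) - SD_W G x v u N) =
          2 * ∑ p ∈ SD_adm G v u N, (sg G v u p) ^ 2 + x * ∑ p ∈ SD_adm G v u N,
            ∑ q ∈ (SD_adm G v u N).filter (fun q => SD_tch p q), sg G v u p * sg G v u q := by
        rw [Finset.mul_sum, Finset.mul_sum, ← Finset.sum_add_distrib]
        refine Finset.sum_congr rfl fun p hp => ?_
        rw [SD_W_insert G x v u N hp, ← Finset.mul_sum]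
        ring
      rw [h2]
      have h3 := mul_le_mul_of_nonneg_left (SD_double G hreg v u N) hx.le
      have h4 : 2 * ∑ p ∈ SD_adm G v u N, (sg G v u p) ^ 2 + x * ∑ p ∈ SD_adm G v u N,
            ∑ q ∈ (SD_adm G v u N).filter (fun q => SD_tch p q), sg G v u p * sg G v u q ≤
          2 * c * ∑ p ∈ SD_adm G v u N, (sg G v u p) ^ 2 := by
        have h5 : 2 * c * ∑ p ∈ SD_adm G v u N, (sg G v u p) ^ 2 =
            2 * ∑ p ∈ SD_adm G v u N, (sg G v u p) ^ 2 +
              x * (4 * r * ∑ p ∈ SD_adm G v u N, (sg G v u p) ^ 2) := by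
          rw [hc]
          ring
        rw [h5]
        linarith
      have h6 := mul_le_mul_of_nonneg_left h4 (SD_F_nonneg v u N)
      calc _ ≤ SD_F v u N * (2 * c * ∑ p ∈ SD_adm G v u N, (sg G v u p) ^ 2) := h6
        _ = _ := by ring
    rw [WS_smul, ← hA] at h1
    calc _ ≤ x * (2 * c * A) := mul_le_mul_of_nonneg_left h1 hx.le
      _ = _ := by ring
  set t : ℝ := 1 / (2 * c) with ht
  have hsq : 0 ≤ WS G x (fun N => SD_F v u N * (SD_X G v u N - t * SD_W G x v u N) ^ 2) :=
    WS_nonneg hx.le fun N _ => mul_nonneg (SD_F_nonneg v u N) (sq_nonneg _)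
  have hexp : WS G x (fun N => SD_F v u N * (SD_X G v u N - t * SD_W G x v u N) ^ 2) =
      WS G x (fun N => SD_F v u N * (SD_X G v u N) ^ 2) -
        2 * t * WS G x (fun N => SD_F v u N * SD_X G v u N * SD_W G x v u N) +
        t ^ 2 * WS G x (fun N => SD_F v u N * SD_W G x v u N * SD_W G x v u N) := by
    rw [← WS_smul, ← WS_smul, ← WS_sub, ← WS_add]
    refine WS_congr x fun N _ => ?_
    ring
  rw [hexp, hXW] at hsq
  have h7 : t ^ 2 * WS G x (fun N => SD_F v u N * SD_W G x v u N * SD_W G x v u N) ≤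
      t ^ 2 * (2 * x * c * A) := mul_le_mul_of_nonneg_left hWW (sq_nonneg t)
  have h8 : 2 * t * (x * A) - t ^ 2 * (2 * x * c * A) = x / (2 * c) * A := by
    rw [ht]
    field_simp
    ring
  linarith

end Pool.Agent.Lib.MP_eeed5c_coT
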