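import Pool.Agent.Lib.MP_eeed5c_co_T.GA
import Pool.Agent.Lib.MP_eeed5c_co_T.SE2

/-!
# The gap in terms of the total defect
-/

set_option autoImplicit false

namespace Pool.Agent.Lib.MP_eeed5c_coT

open Finset Pool.Agent.Lib.MP_eeed5c_co

open scoped Classical in
private theorem GB_BB_nonneg {V : Type*} [Fintype V] (G : SimpleGraph V) {x : ℝ} (hx : 0 ≤ x) :
    0 ≤ BB G x := by
  unfold BB
  refine WS_nonneg hx fun N _ => ?_
  unfold bq
  refine add_nonneg (mul_nonneg (by norm_num) ?_) ?_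
  · exact Finset.sum_nonneg fun a _ => Finset.sum_nonneg fun v _ => sq_nonneg _
  · exact Finset.sum_nonneg fun a _ => Finset.sum_nonneg fun v _ => Nat.cast_nonneg _

private theorem GB_slack {V : Type*} [Fintype V] {G : SimpleGraph V} {q r : ℕ} (hr : 1 ≤ r)
    (hV : Fintype.card V = 2 * (q * r)) (hreg : Reg G r) {x : ℝ} (hx : 0 < x) :
    (mp G).derivative.eval x / (mp G).eval x +
      x ^ 2 / ((1 + x * r) * (1 + 2 * x * r) ^ 2) * BB G x / (2 * (mp G).eval x) ≤
      q * ((Lp r).derivative.eval x / (Lp r).eval x) := by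
  obtain ⟨u, hu, hmono⟩ := exists_u hr hx
  have hδ : 0 ≤ x ^ 2 / ((1 + x * r) * (1 + 2 * x * r) ^ 2) := by positivity
  have h := slack hreg hx.le hδ u hu hmono
  have hL : 0 < (Lp r).eval x := by linarith [Lp_pos r hx.le]
  have hZ : 0 < (mp G).eval x := by linarith [mp_eval_pos (G := G) hx.le]
  have hr0 : (0 : ℝ) < r := by exact_mod_cast hr
  have h1 : al r x * Fintype.card V * (mp G).eval x =
      2 * x * (mp G).eval x * (q * ((Lp r).derivative.eval x / (Lp r).eval x)) := by
    rw [hV]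
    unfold al
    push_cast
    field_simp
  rw [h1] at h
  set δ : ℝ := x ^ 2 / ((1 + x * r) * (1 + 2 * x * r) ^ 2)
  have h2 : ((mp G).derivative.eval x / (mp G).eval x + δ * BB G x / (2 * (mp G).eval x)) *
      (2 * x * (mp G).eval x) ≤
      (q * ((Lp r).derivative.eval x / (Lp r).eval x)) * (2 * x * (mp G).eval x) := by
    have e : ((mp G).derivative.eval x / (mp G).eval x + δ * BB G x / (2 * (mp G).eval x)) *
      (2 * x * (mp G).eval x) = 2 * (x * (mp G).derivative.eval x) + x * δ * BB G x := by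
      field_simp
    rw [e]
    linarith
  exact le_of_mul_le_mul_right h2 (by positivity)

theorem log_deriv_gap2 {V : Type*} [Fintype V] {G : SimpleGraph V} {q r : ℕ} (hr : 1 ≤ r)
    (hV : Fintype.card V = 2 * (q * r)) (hreg : Reg G r) {D : ℝ} (hD0 : 0 ≤ D) (hD : D ≤ dfc G r)
    {x : ℝ} (hx : 0 < x) (hx1 : x * r ≤ 1) :
    (mp G).derivative.eval x / (mp G).eval x + D * x ^ 3 / (2 * (1 + 2 * x * r) ^ 8) ≤
      q * ((Lp r).derivative.eval x / (Lp r).eval x) := by
  have h := GB_slack hr hV hreg hx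
  have hZ : 0 < (mp G).eval x := by linarith [mp_eval_pos (G := G) hx.le]
  have hr0 : (0 : ℝ) < r := by exact_mod_cast hr
  have h0 : D * (x * (mp G).eval x / (1 + 2 * x * r) ^ 5) ≤ BB G x :=
    (mul_le_mul_of_nonneg_right hD (by positivity)).trans (BB_lower2 hr hreg hx hx1)
  have h2 : D * x ^ 3 / (2 * (1 + 2 * x * r) ^ 8) ≤
      x ^ 2 / ((1 + x * r) * (1 + 2 * x * r) ^ 2) * BB G x / (2 * (mp G).eval x) := by
    have h3 : x ^ 2 / ((1 + x * r) * (1 + 2 * x * r) ^ 2) *
        (D * (x * (mp G).eval x / (1 + 2 * x * r) ^ 5)) ≤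
        x ^ 2 / ((1 + x * r) * (1 + 2 * x * r) ^ 2) * BB G x :=
      mul_le_mul_of_nonneg_left h0 (by positivity)
    have h4 := div_le_div_of_nonneg_right h3 (show 0 ≤ 2 * (mp G).eval x by positivity)
    refine le_trans ?_ h4
    have e : x ^ 2 / ((1 + x * r) * (1 + 2 * x * r) ^ 2) *
        (D * (x * (mp G).eval x / (1 + 2 * x * r) ^ 5)) /
        (2 * (mp G).eval x) =
        D * x ^ 3 / (2 * ((1 + x * r) * (1 + 2 * x * r) ^ 7)) := by
      field_simp
    rw [e]
    refine div_le_div_of_nonneg_left (by positivity) (by positivity) ?_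
    refine mul_le_mul_of_nonneg_left ?_ (by norm_num)
    rw [pow_succ' (1 + 2 * x * r) 7]
    refine mul_le_mul_of_nonneg_right ?_ (by positivity)
    have := mul_pos hx hr0
    linarith
  linarith

theorem gap2 {V : Type*} [Fintype V] {G : SimpleGraph V} {q r : ℕ} (hr : 1 ≤ r)
    (hV : Fintype.card V = 2 * (q * r)) (hreg : Reg G r) {D : ℝ} (hD0 : 0 ≤ D) (hD : D ≤ dfc G r)
    {x0 x : ℝ} (hx0 : 0 < x0) (hx1 : x0 * r ≤ 1) (hx : x0 ≤ x) :
    (mp G).eval x ≤ Real.exp (-(D * x0 ^ 4 / (8 * (1 + 2 * x0 * r) ^ 8))) *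
      (Lp r).eval x ^ q := by
  have hr0 : (0 : ℝ) < r := by exact_mod_cast hr
  have hL : ∀ y : ℝ, 0 ≤ y → 0 < (Lp r).eval y := fun y hy => by linarith [Lp_pos r hy]
  have hZ : ∀ y : ℝ, 0 ≤ y → 0 < (mp G).eval y := fun y hy => by
    linarith [mp_eval_pos (G := G) hy]
  let h : ℝ → ℝ := fun y => q * Real.log ((Lp r).eval y) - Real.log ((mp G).eval y)
  have hd : ∀ y : ℝ, 0 ≤ y → HasDerivAt h (q * ((Lp r).derivative.eval y / (Lp r).eval y) -
      (mp G).derivative.eval y / (mp G).eval y) y := by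
    intro y hy
    have h1 := ((Lp r).hasDerivAt y).log (hL y hy).ne'
    have h2 := ((mp G).hasDerivAt y).log (hZ y hy).ne'
    exact (h1.const_mul (q : ℝ)).sub h2
  set c : ℝ := D / (8 * (1 + 2 * x0 * r) ^ 8) with hc
  have hc0 : 0 ≤ c := by positivity
  -- first part
  have hpart1 : c * x0 ^ 4 ≤ h x0 := by
    have hdg : ∀ y : ℝ, 0 ≤ y → HasDerivAt (fun y => h y - c * y ^ 4)
        (q * ((Lp r).derivative.eval y / (Lp r).eval y) -
      (mp G).derivative.eval y / (mp G).eval y - c * (4 * y ^ 3)) y := by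
      intro y hy
      have h1 := (hasDerivAt_pow 4 y).const_mul c
      exact (hd y hy).sub (by simpa using h1)
    have hm : MonotoneOn (fun y => h y - c * y ^ 4) (Set.Icc 0 x0) := by
      refine monotoneOn_of_deriv_nonneg (convex_Icc 0 x0) ?_ ?_ ?_
      · exact fun y hy => (hdg y hy.1).continuousAt.continuousWithinAt
      · intro y hy
        rw [interior_Icc] at hy
        exact (hdg y hy.1.le).differentiableAt.differentiableWithinAt
      · intro y hy
        rw [interior_Icc] at hy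
        rw [(hdg y hy.1.le).deriv]
        have h1 := log_deriv_gap2 hr hV hreg hD0 hD hy.1
          ((mul_le_mul_of_nonneg_right hy.2.le hr0.le).trans hx1)
        have h2 : c * (4 * y ^ 3) ≤ D * y ^ 3 / (2 * (1 + 2 * y * r) ^ 8) := by
          have e : c * (4 * y ^ 3) = D * y ^ 3 / (2 * (1 + 2 * x0 * r) ^ 8) := by
            rw [hc]
            field_simp
            ring
          rw [e]
          have hy0 := hy.1
          refine div_le_div_of_nonneg_left (by positivity) (by positivity) ?_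
          refine mul_le_mul_of_nonneg_left ?_ (by norm_num)
          refine pow_le_pow_left₀ (by positivity) ?_ 8
          have := mul_le_mul_of_nonneg_right hy.2.le hr0.le
          linarith
        linarith
    have h1 := hm (Set.left_mem_Icc.2 hx0.le) (Set.right_mem_Icc.2 hx0.le) hx0.le
    have h2 : h 0 = 0 := by
      show (q : ℝ) * Real.log ((Lp r).eval 0) - Real.log ((mp G).eval 0) = 0
      rw [← Polynomial.coeff_zero_eq_eval_zero, ← Polynomial.coeff_zero_eq_eval_zero, Lp_coeff,
        ell_zero, mp_coeff, card_mats_zero]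
      simp
    have h3 : h 0 - c * 0 ^ 4 ≤ h x0 - c * x0 ^ 4 := h1
    rw [h2] at h3
    linarith
  have hpart2 : h x0 ≤ h x := by
    have hm : MonotoneOn h (Set.Icc x0 x) := by
      refine monotoneOn_of_deriv_nonneg (convex_Icc x0 x) ?_ ?_ ?_
      · exact fun y hy => (hd y (hx0.le.trans hy.1)).continuousAt.continuousWithinAt
      · intro y hy
        rw [interior_Icc] at hy
        exact (hd y (hx0.le.trans hy.1.le)).differentiableAt.differentiableWithinAt
      · intro y hy
        rw [interior_Icc] at hy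
        rw [(hd y (hx0.le.trans hy.1.le)).deriv]
        have h1 := log_deriv_le hr hV hreg (hx0.trans hy.1)
        linarith
    exact hm (Set.left_mem_Icc.2 hx) (Set.right_mem_Icc.2 hx) hx
  have hx' : 0 ≤ x := hx0.le.trans hx
  have hfin : Real.log ((mp G).eval x) ≤ -(c * x0 ^ 4) + q * Real.log ((Lp r).eval x) := by
    have : c * x0 ^ 4 ≤ q * Real.log ((Lp r).eval x) - Real.log ((mp G).eval x) :=
      hpart1.trans hpart2
    linarith
  have e : D * x0 ^ 4 / (8 * (1 + 2 * x0 * r) ^ 8) = c * x0 ^ 4 := by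
    rw [hc]
    ring
  rw [e]
  have h3 := Real.exp_le_exp.2 hfin
  rw [Real.exp_log (hZ x hx'), Real.exp_add, mul_comm (q : ℝ), Real.exp_mul,
    Real.exp_log (hL x hx'), Real.rpow_natCast] at h3
  exact h3

end Pool.Agent.Lib.MP_eeed5c_coT
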