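import Pool.Agent.Lib.MP_eeed5c_co_T.UA

/-!
# The matching polynomial of `q K_{r,r}`

* `mp_KK_one`: coefficient `j` of `mp (KK 1 r)` is `|mats (KK 1 r) j|`, which satisfies `KK_one_rec : (j+1) m_{j+1} = (r-j)^2 m_j` and `m_0 = 1` (`card_mats_zero`), as `ell r j` does (`ell_succ`, `ell_zero`); induction on `j`. `Polynomial.ext`, `mp_coeff`, `Lp_coeff`.
* `mp_KK`: induction on `q`. `q = 0`: the vertex type is empty, `Fintype.card = 0`, `mp G = monomial 0 |mats G 0| = 1` (`card_mats_zero`). Step: `mp_union` with `G = KK (q+1) r`, `G1 = KK q r`, `G2 = KK 1 r`, `f1 (c, s, i) = (Fin.castSucc c, s, i)`, `f2 (c, s, i) = (Fin.last q, s, i)`;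
adjacency is `KK_adj`. For `c, c' : Fin 1` `c = c'` always (`Subsingleton.elim`).
* `card_mats_KK`: `|mats (KK q r) k| = T r q k`.
-/

set_option autoImplicit false

namespace Pool.Agent.Lib.MP_eeed5c_coT

open Finset Pool.Agent.Lib.MP_eeed5c_co

theorem mp_KK_one (r : ℕ) : mp (KK 1 r) = Lp r := by
  have h : ∀ j : ℕ, ((mats (KK 1 r) j).card : ℝ) = ell r j := by
    intro j
    induction j with
    | zero => rw [card_mats_zero, ell_zero, Nat.cast_one]
    | succ j ih =>
      have h1 := KK_one_rec r j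
      have h2 := ell_succ r j
      rw [ih, ← h2] at h1
      have h3 : ((j : ℝ) + 1) ≠ 0 := by positivity
      exact mul_left_cancel₀ h3 h1
  ext j
  rw [mp_coeff, Lp_coeff, h j]

theorem mp_KK (q r : ℕ) : mp (KK q r) = (Lp r) ^ q := by
  induction q with
  | zero =>
    rw [pow_zero]
    ext j
    rw [mp_coeff, Polynomial.coeff_one]
    rcases Nat.eq_zero_or_pos j with rfl | hj
    · rw [card_mats_zero, if_pos rfl, Nat.cast_one]
    · rw [if_neg (by omega), card_mats_eq_zero (by rw [KK_card]; omega), Nat.cast_zero]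
  | succ q ih =>
    rw [pow_succ, ← ih, ← mp_KK_one]
    refine mp_union (G := KK (q + 1) r) (G1 := KK q r) (G2 := KK 1 r)
      (fun p => (Fin.castSucc p.1, p.2)) (fun p => (Fin.last q, p.2)) ?_ ?_ ?_ ?_ ?_ ?_ ?_
    · rintro ⟨a, b⟩ ⟨c, d⟩ h
      have h1 : Fin.castSucc a = Fin.castSucc c := congrArg Prod.fst h
      have h2 : b = d := congrArg Prod.snd h
      rw [Fin.castSucc_injective q h1, h2]
    · rintro ⟨a, b⟩ ⟨c, d⟩ h
      have h2 : b = d := congrArg Prod.snd h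
      rw [Subsingleton.elim a c, h2]
    · rintro ⟨a, b⟩ ⟨c, d⟩ h
      have h1 : Fin.castSucc a = Fin.last q := congrArg Prod.fst h
      exact Fin.castSucc_ne_last a h1
    · rintro ⟨c, p⟩
      rcases Fin.eq_castSucc_or_eq_last c with ⟨a, rfl⟩ | rfl
      · exact Or.inl ⟨(a, p), rfl⟩
      · exact Or.inr ⟨(0, p), rfl⟩
    · rintro ⟨a, b⟩ ⟨c, d⟩
      rw [KK_adj, KK_adj]
      exact and_congr (Fin.castSucc_injective q).eq_iff Iff.rfl
    · rintro ⟨a, b⟩ ⟨c, d⟩
      rw [KK_adj, KK_adj]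
      exact and_congr ⟨fun _ => Subsingleton.elim _ _, fun _ => rfl⟩ Iff.rfl
    · rintro ⟨a, b⟩ ⟨c, d⟩ h
      rw [KK_adj] at h
      exact Fin.castSucc_ne_last a h.1

theorem card_mats_KK (q r k : ℕ) : ((mats (KK q r) k).card : ℝ) = T r q k := by
  rw [← mp_coeff, mp_KK]
  rfl

end Pool.Agent.Lib.MP_eeed5c_coT
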