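import Pool.Agent.Lib.MP_eeed5c_co_T.WDefs

/-!
# Second moments in the block model

Notation `w j = ell r j * x^j`, `L = (Lp r).eval x = ∑_{j ≤ r} w j > 0` (`Lp_eval`, `Lp_pos`), `mb = ∑ j w j / L` (`Lp_eval_deriv`), `x > 0`.
* `mb_facts`: `0 ≤ mb ≤ r` (`j ≤ r`). By `ell_succ`: `(j+1) w (j+1) = x (r-j)^2 w j`, so `∑ j w j = ∑_{j<r} (j+1) w(j+1) = x ∑_{j ≤ r} (r-j)^2 w j` (the term `j = r` vanishes): `(D2) ∑ (r-j)^2 w j = (mb / x) L`. For integers `0 ≤ r - j ≤ (r-j)^2`: `r - mb ≤ mb / x ≤ r / x`.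
* `vb_le_one`: `vb ≤ mb ≤ r`. `∑ j^2 w j = ∑_{j<r} (j+1) * (j+1) w(j+1) = x ∑_j (j+1)(r-j)^2 w j`. Chebyshev: `L ∑_j (j+1)(r-j)^2 w j ≤ (∑_j (j+1) w j)(∑_j (r-j)^2 w j)`, because `∑_{i,j} w i w j ((i+1) - (j+1)) ((r-i)^2 - (r-j)^2) ≤ 0` (for `i ≤ j ≤ r` the first factor is `≤ 0`, the second `≥ 0`).
With `(D2)`: `∑ j^2 w j ≤ (mb + 1) * mb * L`. So `vb = ∑ j^2 w j / L - mb^2 ≤ mb`.
* `vb_le_two`: `vb ≤ r / x`: `∑ (j - mb)^2 w j ≤ ∑ (j - r)^2 w j = (mb/x) L ≤ (r/x) L` (the variance is the minimum: `∑ (j-c)^2 w j = ∑ (j-mb)^2 w j + (mb - c)^2 L`).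
* `sum_sq`: induction on `q`, for all `y`: `∑_{i ≤ q r} T r q i x^i (i-y)^2 = L^q (q vb + (q mb - y)^2)`. `q = 0`: `T r 0 0 = 1`: `y^2`. Step: `T r (q+1) m = ∑_{(i,j) ∈ antidiagonal m} T r q i * ell r j` (`T_succ`), so the sum is `∑_{j ≤ r} ∑_{i ≤ q r} T r q i x^i w j (i + j - y)^2` (reindex; `T r q i = 0`
for `i > q r`, `ell r j = 0` for `j > r`; it may be convenient to write all sums over large ranges or to use `Polynomial`/`Finsupp` sums) `= ∑_j w j * L^q (q vb + (q mb - (y - j))^2)` and `∑_j w j (j + (q mb - y))^2 = L (vb + (mb + q mb - y)^2)`.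
* `WA_main`: with `y = q r - s`, `μ = q (r - mb)`: `(q mb - y)^2 = (s - μ)^2 ≤ μ`, so the sum is at most `L^q (q vb + μ)`; `q vb ≤ q r` and `≤ q r / x`; `μ = q (r - mb) ≤ q r` and `≤ q r / x`. So `q vb + μ ≤ 2 q r / max 1 x`.
-/

set_option autoImplicit false

namespace Pool.Agent.Lib.MP_eeed5c_coT

open Finset Pool.Agent.Lib.MP_eeed5c_co

private theorem WA_shift (r : ℕ) (x : ℝ) (f : ℕ → ℝ) :
    ∑ j ∈ range (r + 1), f j * ((j : ℝ) * (ell r j * x ^ j)) =
      x * ∑ j ∈ range (r + 1), f (j + 1) * (((r : ℝ) - j) ^ 2 * (ell r j * x ^ j)) := by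
  rw [Finset.sum_range_succ', Finset.sum_range_succ]
  simp only [Nat.cast_zero, zero_mul, mul_zero, add_zero, sub_self, ne_eq, OfNat.ofNat_ne_zero,
    not_false_eq_true, zero_pow]
  rw [Finset.mul_sum]
  refine Finset.sum_congr rfl fun j _ => ?_
  have h := ell_succ r j
  push_cast
  calc f (j + 1) * (((j : ℝ) + 1) * (ell r (j + 1) * x ^ (j + 1)))
      = f (j + 1) * ((((j : ℝ) + 1) * ell r (j + 1)) * x ^ (j + 1)) := by ring
    _ = _ := by
      rw [h]
      ring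

private theorem WA_D2 (r : ℕ) (x : ℝ) :
    x * ∑ j ∈ range (r + 1), ((r : ℝ) - j) ^ 2 * (ell r j * x ^ j) = x * (Lp r).derivative.eval x := by
  rw [Lp_eval_deriv]
  have h := WA_shift r x (fun _ => 1)
  simp only [one_mul] at h
  exact h.symm

private theorem WA_M_le (r : ℕ) {x : ℝ} (hx : 0 < x) :
    x * (Lp r).derivative.eval x ≤ r * (Lp r).eval x := by
  rw [Lp_eval_deriv, Lp_eval, Finset.mul_sum]
  refine Finset.sum_le_sum fun j hj => ?_
  have hj' : j ≤ r := by have := Finset.mem_range.1 hj; omega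
  exact mul_le_mul_of_nonneg_right (by exact_mod_cast hj')
    (mul_nonneg (ell_nonneg _ _) (pow_nonneg hx.le _))

private theorem WA_mb_mul (r : ℕ) {x : ℝ} (hx : 0 < x) :
    mb r x * (Lp r).eval x = x * (Lp r).derivative.eval x := by
  have hL := Lp_pos r hx.le
  unfold mb
  rw [div_mul_cancel₀]
  linarith

private theorem WA_vb_mul (r : ℕ) {x : ℝ} (hx : 0 < x) :
    vb r x * (Lp r).eval x = ∑ j ∈ range (r + 1), ((j : ℝ) - mb r x) ^ 2 * (ell r j * x ^ j) := by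
  have hL := Lp_pos r hx.le
  unfold vb
  rw [div_mul_cancel₀]
  linarith

/-- The second moment about any point. -/
private theorem WA_var (r : ℕ) {x : ℝ} (hx : 0 < x) (c : ℝ) :
    ∑ j ∈ range (r + 1), ((j : ℝ) - c) ^ 2 * (ell r j * x ^ j) =
      (vb r x + (mb r x - c) ^ 2) * (Lp r).eval x := by
  have h1 := WA_vb_mul r hx
  have h2 := WA_mb_mul r hx
  have h3 := Lp_eval r x
  have h4 := Lp_eval_deriv r x
  have h5 : ∀ m : ℝ, ∑ j ∈ range (r + 1), ((j : ℝ) - m) ^ 2 * (ell r j * x ^ j) =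
      ∑ j ∈ range (r + 1), (j : ℝ) ^ 2 * (ell r j * x ^ j) - 2 * m * (x * (Lp r).derivative.eval x) +
        m ^ 2 * (Lp r).eval x := by
    intro m
    rw [h3, h4, Finset.mul_sum, Finset.mul_sum, ← Finset.sum_sub_distrib, ← Finset.sum_add_distrib]
    exact Finset.sum_congr rfl fun j _ => by ring
  rw [h5 c]
  rw [h5 (mb r x)] at h1
  rw [add_mul, h1, ← h2]
  ring

private theorem WA_cheb {s : Finset ℕ} {w a b : ℕ → ℝ} (hw : ∀ i ∈ s, 0 ≤ w i)
    (hab : ∀ i ∈ s, ∀ j ∈ s, (a i - a j) * (b i - b j) ≤ 0) :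
    (∑ i ∈ s, w i) * (∑ i ∈ s, a i * b i * w i) ≤ (∑ i ∈ s, a i * w i) * (∑ i ∈ s, b i * w i) := by
  have h1 : ∑ i ∈ s, ∑ j ∈ s, (w i * w j) * ((a i - a j) * (b i - b j)) ≤ 0 :=
    Finset.sum_nonpos fun i hi => Finset.sum_nonpos fun j hj =>
      mul_nonpos_of_nonneg_of_nonpos (mul_nonneg (hw i hi) (hw j hj)) (hab i hi j hj)
  have h2 : ∑ i ∈ s, ∑ j ∈ s, (w i * w j) * ((a i - a j) * (b i - b j)) =
      2 * ((∑ i ∈ s, w i) * (∑ i ∈ s, a i * b i * w i) -
        (∑ i ∈ s, a i * w i) * (∑ i ∈ s, b i * w i)) := by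
    have h3 : ∀ i j : ℕ, (w i * w j) * ((a i - a j) * (b i - b j)) =
        (a i * b i * w i) * w j + w i * (a j * b j * w j) - (a i * w i) * (b j * w j) -
          (b i * w i) * (a j * w j) := fun i j => by ring
    simp only [h3, Finset.sum_sub_distrib, Finset.sum_add_distrib, ← Finset.mul_sum, ← Finset.sum_mul]
    ring
  linarith

theorem mb_facts (r : ℕ) {x : ℝ} (hx : 0 < x) :
    0 ≤ mb r x ∧ mb r x ≤ r ∧ (r : ℝ) - mb r x ≤ r / x := by
  have hL := Lp_pos r hx.le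
  have hL0 : 0 < (Lp r).eval x := by linarith
  have hM0 : 0 ≤ x * (Lp r).derivative.eval x := by
    rw [Lp_eval_deriv]
    exact Finset.sum_nonneg fun j _ => mul_nonneg (Nat.cast_nonneg j)
      (mul_nonneg (ell_nonneg _ _) (pow_nonneg hx.le _))
  have hMr := WA_M_le r hx
  refine ⟨?_, ?_, ?_⟩
  · unfold mb
    exact div_nonneg hM0 hL0.le
  · unfold mb
    rw [div_le_iff₀ hL0]
    exact hMr
  · have h1 := WA_D2 r x
    have h2 : ((r : ℝ) * (Lp r).eval x - x * (Lp r).derivative.eval x) ≤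
        ∑ j ∈ range (r + 1), ((r : ℝ) - j) ^ 2 * (ell r j * x ^ j) := by
      rw [Lp_eval, Lp_eval_deriv, Finset.mul_sum, ← Finset.sum_sub_distrib]
      refine Finset.sum_le_sum fun j hj => ?_
      have hj' : j ≤ r := by have := Finset.mem_range.1 hj; omega
      have hw : 0 ≤ ell r j * x ^ j := mul_nonneg (ell_nonneg _ _) (pow_nonneg hx.le _)
      have hd : (r : ℝ) - j ≤ ((r : ℝ) - j) ^ 2 := by
        rw [← Nat.cast_sub hj']
        have : r - j ≤ (r - j) ^ 2 := Nat.le_self_pow (by norm_num) _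
        exact_mod_cast this
      have h3 := mul_le_mul_of_nonneg_right hd hw
      linarith
    have h4 : ((r : ℝ) - mb r x) * x ≤ r := by
      have h5 : ((r : ℝ) - mb r x) * (Lp r).eval x =
          (r : ℝ) * (Lp r).eval x - x * (Lp r).derivative.eval x := by
        rw [sub_mul, WA_mb_mul r hx]
      have h6 : ((r : ℝ) - mb r x) * x * (Lp r).eval x ≤ r * (Lp r).eval x := by
        calc ((r : ℝ) - mb r x) * x * (Lp r).eval x = x * (((r : ℝ) - mb r x) * (Lp r).eval x) := by ring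
          _ ≤ x * ∑ j ∈ range (r + 1), ((r : ℝ) - j) ^ 2 * (ell r j * x ^ j) := by
              rw [h5]
              exact mul_le_mul_of_nonneg_left h2 hx.le
          _ = x * (Lp r).derivative.eval x := h1
          _ ≤ _ := hMr
      exact le_of_mul_le_mul_right h6 hL0
    rw [le_div_iff₀ hx]
    exact h4

theorem vb_le_one (r : ℕ) {x : ℝ} (hx : 0 < x) : vb r x ≤ r := by
  have hL := Lp_pos r hx.le
  have hL0 : 0 < (Lp r).eval x := by linarith
  obtain ⟨hm0, hmr, -⟩ := mb_facts r hx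
  refine le_trans ?_ hmr
  have hw : ∀ j ∈ range (r + 1), 0 ≤ ell r j * x ^ j :=
    fun j _ => mul_nonneg (ell_nonneg _ _) (pow_nonneg hx.le _)
  -- the second moment
  have hS : ∑ j ∈ range (r + 1), (j : ℝ) ^ 2 * (ell r j * x ^ j) =
      x * ∑ j ∈ range (r + 1), ((j : ℝ) + 1) * ((r : ℝ) - j) ^ 2 * (ell r j * x ^ j) := by
    have h := WA_shift r x (fun j => (j : ℝ))
    have h' : ∑ j ∈ range (r + 1), (j : ℝ) ^ 2 * (ell r j * x ^ j) =
        ∑ j ∈ range (r + 1), (j : ℝ) * ((j : ℝ) * (ell r j * x ^ j)) :=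
      Finset.sum_congr rfl fun j _ => by ring
    rw [h', h]
    congr 1
    refine Finset.sum_congr rfl fun j _ => ?_
    push_cast
    ring
  have hC : (∑ j ∈ range (r + 1), ell r j * x ^ j) *
      (∑ j ∈ range (r + 1), ((j : ℝ) + 1) * ((r : ℝ) - j) ^ 2 * (ell r j * x ^ j)) ≤
      (∑ j ∈ range (r + 1), ((j : ℝ) + 1) * (ell r j * x ^ j)) *
      (∑ j ∈ range (r + 1), ((r : ℝ) - j) ^ 2 * (ell r j * x ^ j)) := by
    refine WA_cheb hw ?_
    intro i hi j hj
    have hi' : (i : ℝ) ≤ r := by have := Finset.mem_range.1 hi; exact_mod_cast (by omega : i ≤ r)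
    have hj' : (j : ℝ) ≤ r := by have := Finset.mem_range.1 hj; exact_mod_cast (by omega : j ≤ r)
    have e : ((i : ℝ) + 1 - ((j : ℝ) + 1)) * (((r : ℝ) - i) ^ 2 - ((r : ℝ) - j) ^ 2) =
        -(((i : ℝ) - j) ^ 2 * (((r : ℝ) - i) + ((r : ℝ) - j))) := by ring
    rw [e]
    have : 0 ≤ ((i : ℝ) - j) ^ 2 * (((r : ℝ) - i) + ((r : ℝ) - j)) :=
      mul_nonneg (sq_nonneg _) (by linarith)
    linarith
  have hD := WA_D2 r x
  have hM := WA_mb_mul r hx
  have h1 : ∑ j ∈ range (r + 1), ((j : ℝ) + 1) * (ell r j * x ^ j) =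
      (mb r x + 1) * (Lp r).eval x := by
    rw [add_mul, hM, one_mul, Lp_eval_deriv, Lp_eval, ← Finset.sum_add_distrib]
    exact Finset.sum_congr rfl fun j _ => by ring
  rw [h1, ← Lp_eval] at hC
  -- second moment bound
  have h2 : ∑ j ∈ range (r + 1), (j : ℝ) ^ 2 * (ell r j * x ^ j) ≤
      (mb r x + 1) * mb r x * (Lp r).eval x := by
    rw [hS]
    have h3 : (Lp r).eval x *
        (x * ∑ j ∈ range (r + 1), ((j : ℝ) + 1) * ((r : ℝ) - j) ^ 2 * (ell r j * x ^ j)) ≤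
        (Lp r).eval x * ((mb r x + 1) * mb r x * (Lp r).eval x) := by
      have h4 := mul_le_mul_of_nonneg_left hC hx.le
      calc (Lp r).eval x *
            (x * ∑ j ∈ range (r + 1), ((j : ℝ) + 1) * ((r : ℝ) - j) ^ 2 * (ell r j * x ^ j))
          = x * ((Lp r).eval x *
            ∑ j ∈ range (r + 1), ((j : ℝ) + 1) * ((r : ℝ) - j) ^ 2 * (ell r j * x ^ j)) := by ring
        _ ≤ x * ((mb r x + 1) * (Lp r).eval x *
            ∑ j ∈ range (r + 1), ((r : ℝ) - j) ^ 2 * (ell r j * x ^ j)) := h4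
        _ = (mb r x + 1) * (Lp r).eval x *
            (x * ∑ j ∈ range (r + 1), ((r : ℝ) - j) ^ 2 * (ell r j * x ^ j)) := by ring
        _ = (mb r x + 1) * (Lp r).eval x * (mb r x * (Lp r).eval x) := by rw [hD, hM]
        _ = _ := by ring
    exact le_of_mul_le_mul_left h3 hL0
  have h5 := WA_var r hx 0
  simp only [sub_zero] at h5
  rw [h5] at h2
  have h6 := le_of_mul_le_mul_right h2 hL0
  nlinarith only [h6]

theorem vb_le_two (r : ℕ) {x : ℝ} (hx : 0 < x) : vb r x ≤ r / x := by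
  have hL := Lp_pos r hx.le
  have hL0 : 0 < (Lp r).eval x := by linarith
  have h1 := WA_var r hx r
  have h2 : ∑ j ∈ range (r + 1), ((j : ℝ) - r) ^ 2 * (ell r j * x ^ j) =
      ∑ j ∈ range (r + 1), ((r : ℝ) - j) ^ 2 * (ell r j * x ^ j) :=
    Finset.sum_congr rfl fun j _ => by ring
  have h3 := WA_D2 r x
  have h4 := WA_M_le r hx
  rw [h2] at h1
  rw [h1] at h3
  rw [le_div_iff₀ hx]
  have h5 : 0 ≤ x * ((mb r x - r) ^ 2 * (Lp r).eval x) := by positivity
  have h6 : vb r x * x * (Lp r).eval x ≤ r * (Lp r).eval x := by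
    calc vb r x * x * (Lp r).eval x ≤ x * ((vb r x + (mb r x - r) ^ 2) * (Lp r).eval x) := by
          nlinarith only [h5]
      _ = x * (Lp r).derivative.eval x := h3
      _ ≤ _ := h4
  exact le_of_mul_le_mul_right h6 hL0

/-- The Euler operator. -/
private noncomputable def WA_D (P : Polynomial ℝ) : Polynomial ℝ := Polynomial.X * P.derivative

private theorem WA_D_coeff (P : Polynomial ℝ) (i : ℕ) : (WA_D P).coeff i = (i : ℝ) * P.coeff i := by
  unfold WA_D
  cases i with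
  | zero => simp
  | succ i =>
    rw [Polynomial.coeff_X_mul, Polynomial.coeff_derivative]
    push_cast
    ring

private theorem WA_D_mul (P Q : Polynomial ℝ) : WA_D (P * Q) = WA_D P * Q + P * WA_D Q := by
  unfold WA_D
  rw [Polynomial.derivative_mul]
  ring

private theorem WA_D_add (P Q : Polynomial ℝ) : WA_D (P + Q) = WA_D P + WA_D Q := by
  unfold WA_D
  rw [Polynomial.derivative_add]
  ring

private theorem WA_D_natDegree {P : Polynomial ℝ} {n : ℕ} (h : P.natDegree ≤ n) :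
    (WA_D P).natDegree ≤ n := by
  rw [Polynomial.natDegree_le_iff_coeff_eq_zero] at h ⊢
  intro N hN
  rw [WA_D_coeff, h N hN, mul_zero]

private theorem WA_D_eval {P : Polynomial ℝ} {n : ℕ} (h : P.natDegree ≤ n) {x : ℝ} :
    (WA_D P).eval x = ∑ i ∈ range (n + 1), (i : ℝ) * P.coeff i * x ^ i := by
  rw [Polynomial.eval_eq_sum_range' (n := n + 1) (lt_of_le_of_lt (WA_D_natDegree h) (Nat.lt_succ_self _))]
  exact Finset.sum_congr rfl fun i _ => by rw [WA_D_coeff]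

private theorem WA_D_L (r : ℕ) {x : ℝ} (hx : 0 < x) :
    (WA_D (Lp r)).eval x = mb r x * (Lp r).eval x := by
  rw [WA_mb_mul r hx]
  unfold WA_D
  rw [Polynomial.eval_mul, Polynomial.eval_X]

private theorem WA_DD_L (r : ℕ) {x : ℝ} (hx : 0 < x) :
    (WA_D (WA_D (Lp r))).eval x = (vb r x + mb r x ^ 2) * (Lp r).eval x := by
  have h1 := WA_var r hx 0
  simp only [sub_zero] at h1
  rw [← h1, WA_D_eval (WA_D_natDegree (Lp_natDegree_le r))]
  refine Finset.sum_congr rfl fun i _ => ?_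
  rw [WA_D_coeff, Lp_coeff]
  ring

private theorem WA_Dpow (r q : ℕ) {x : ℝ} (hx : 0 < x) :
    (WA_D ((Lp r) ^ q)).eval x = q * mb r x * (Lp r).eval x ^ q := by
  induction q with
  | zero =>
    unfold WA_D
    simp
  | succ q ih =>
    rw [pow_succ, WA_D_mul, Polynomial.eval_add, Polynomial.eval_mul, Polynomial.eval_mul, ih,
      WA_D_L r hx, Polynomial.eval_pow]
    push_cast
    ring

private theorem WA_DDpow (r q : ℕ) {x : ℝ} (hx : 0 < x) :
    (WA_D (WA_D ((Lp r) ^ q))).eval x =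
      (q * vb r x + (q * mb r x) ^ 2) * (Lp r).eval x ^ q := by
  induction q with
  | zero =>
    unfold WA_D
    simp
  | succ q ih =>
    rw [pow_succ, WA_D_mul, WA_D_add, WA_D_mul, WA_D_mul, Polynomial.eval_add, Polynomial.eval_add,
      Polynomial.eval_add, Polynomial.eval_mul, Polynomial.eval_mul, Polynomial.eval_mul,
      ih, WA_Dpow r q hx, WA_D_L r hx, WA_DD_L r hx, Polynomial.eval_pow]
    push_cast
    ring

theorem sum_sq (r q : ℕ) {x : ℝ} (hx : 0 < x) (y : ℝ) :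
    ∑ i ∈ range (q * r + 1), T r q i * x ^ i * ((i : ℝ) - y) ^ 2 =
      (Lp r).eval x ^ q * (q * vb r x + (q * mb r x - y) ^ 2) := by
  have h1 : ∑ i ∈ range (q * r + 1), T r q i * x ^ i * ((i : ℝ) - y) ^ 2 =
      (WA_D (WA_D ((Lp r) ^ q))).eval x - 2 * y * (WA_D ((Lp r) ^ q)).eval x +
        y ^ 2 * ((Lp r) ^ q).eval x := by
    have hd := Lp_pow_natDegree_le r q
    rw [WA_D_eval (WA_D_natDegree hd), WA_D_eval hd,
      Polynomial.eval_eq_sum_range' (n := q * r + 1) (lt_of_le_of_lt hd (Nat.lt_succ_self _)),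
      Finset.mul_sum, Finset.mul_sum, ← Finset.sum_sub_distrib, ← Finset.sum_add_distrib]
    refine Finset.sum_congr rfl fun i _ => ?_
    rw [WA_D_coeff]
    unfold T
    ring
  rw [h1, WA_DDpow r q hx, WA_Dpow r q hx, Polynomial.eval_pow]
  ring

theorem WA_main {r q : ℕ} {x : ℝ} (hx : 0 < x) {s : ℕ}
    (hs : ((q : ℝ) * (r - mb r x) - s) ^ 2 ≤ q * (r - mb r x)) :
    ∑ i ∈ range (q * r + 1), T r q i * x ^ i * ((i : ℝ) - ((q : ℝ) * r - s)) ^ 2 ≤
      (Lp r).eval x ^ q * (2 * (q * r) / max 1 x) := by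
  have hL := Lp_pos r hx.le
  obtain ⟨hm0, hmr, hmx⟩ := mb_facts r hx
  have h1 := vb_le_one r hx
  have h2 := vb_le_two r hx
  rw [sum_sq r q hx]
  refine mul_le_mul_of_nonneg_left ?_ (pow_nonneg (by linarith) _)
  have e : ((q : ℝ) * mb r x - ((q : ℝ) * r - s)) ^ 2 = ((q : ℝ) * (r - mb r x) - s) ^ 2 := by ring
  rw [e]
  have hq : (0 : ℝ) ≤ q := Nat.cast_nonneg q
  have h3 : (q : ℝ) * vb r x + q * (r - mb r x) ≤ 2 * (q * r) := by
    have h4 := mul_le_mul_of_nonneg_left h1 hq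
    have h5 := mul_nonneg hq hm0
    nlinarith only [h4, h5]
  have h6 : (q : ℝ) * vb r x + q * (r - mb r x) ≤ 2 * (q * r) / x := by
    have h4 := mul_le_mul_of_nonneg_left h2 hq
    have h5 := mul_le_mul_of_nonneg_left hmx hq
    have h7 : 2 * ((q : ℝ) * r) / x = q * (r / x) + q * (r / x) := by ring
    rw [h7]
    linarith
  rcases le_total x 1 with hx1 | hx1
  · rw [max_eq_left hx1, div_one]
    linarith
  · rw [max_eq_right hx1]
    linarith

end Pool.Agent.Lib.MP_eeed5c_coT
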