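import Pool.Agent.Lib.MP_eeed5c_co_T.Base

/-!
# Coefficients of the powers of `L = Lp r`

Everything is a coefficientwise inequality for `L` (`ell_succ : (j+1) ell r (j+1) = (r-j)^2 ell r j`, `ell r j = 0` for `j > r`), multiplied by `t L^(t-1)` (nonnegative coefficients: `CLe_mul_left`, `NN_pow`,
`NN_Lp`), and then read off at a coefficient. Notation: `θ P = X P'`; `(L^t)' = t L^(t-1) L'` (`Polynomial.derivative_pow`), `coeff (P') m = (m+1) coeff P (m+1)` (`Polynomial.coeff_derivative`), `coeff (X P') m = m coeff P m`. `t = 0` is trivial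
(`T_zero`).
* `T_up`: `L' ≤ r^2 L` coefficientwise (`(m+1) ell (m+1) = (r-m)^2 ell m ≤ r^2 ell m` for `m ≤ r`, both sides `0` for `m > r`). So `(L^t)' = t L^(t-1) L' ≤ t r^2 L^t`.
* `T_low`: `r L - θ L ≤ L'` coefficientwise (`(r-m) ell m ≤ (r-m)^2 ell m` as `r - m` is a nonnegative integer when `m ≤ r`). Multiply by `t L^(t-1)`: `t r L^t - θ (L^t) ≤ (L^t)'`.
* `T_mid`: `L' ≤ r (r L - θ L)` coefficientwise (`(r-m)^2 ell m ≤ r (r-m) ell m`). So `(L^t)' ≤ r (t r L^t - θ (L^t))`.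
* `T_end`: (i) `ell r (r-1) X^(r-1) ≤ r L - θ L` coefficientwise (coefficient `r - 1`: `(r - (r-1)) ell (r-1) = ell (r-1)`; the others of the right side are `≥ 0`), `r ≥ 1`; (ii) `L - (r L - θ L) ≤ ell r r X^r` (coefficient `m`: `(1 - (r-m)) ell m ≤ 0` for `m < r`,
`= ell r` for `m = r`, `0` beyond). And `ell r (r-1) = r * ell r r` (`ell_succ` with `j = r - 1`: `r * ell r r = 1 * ell r (r-1)`). Hence `t L^(t-1) ell_r X^r ≥ t L^t - (t r L^t - θ L^t)` and
`X * (t r L^t - θ L^t) ≥ t L^(t-1) ell_(r-1) X^r = r * t L^(t-1) ell_r X^r ≥ r * (t L^t - (t r L^t - θ L^t))`. Coefficient at `m + 1`: `(t r - m) T m ≥ r (t - (t r - (m+1))) T (m+1)`.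
* `T_top`: the coefficient of `X^(t r)` of `L^t` is `(ell r r)^t` (`Polynomial.coeff_pow_mul_natDegree` style lemma, or induction with `T_succ`: the only nonzero term of the antidiagonal is `(t r, r)`).
* `Lp_eval_le`: for `x > 0` `L(x) = ∑_{j ≤ r} ell r j x^j`; put `e = r - j` (`Finset.sum_range_reflect`), `ell r (r-e) = C(r,e)^2 (r-e)! = r! * C(r,e) / e! ≤ r! * r^e / e!` (`Nat.choose_le_pow`: `C(r,e) ≤ r^e / e!`, at most `r^e`), so
`L(x) ≤ r! x^r ∑_{e ≤ r} (r/x)^e / e! ≤ r! x^r exp(r/x)` (`Real.sum_le_exp_of_nonneg`).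
-/

set_option autoImplicit false

namespace Pool.Agent.Lib.MP_eeed5c_coT

open Finset Pool.Agent.Lib.MP_eeed5c_co

private theorem PA_cd (r j : ℕ) : (Lp r).derivative.coeff j = ((r : ℝ) - j) ^ 2 * ell r j := by
  rw [Polynomial.coeff_derivative, Lp_coeff, ← ell_succ]
  ring

private noncomputable def PA_A (r : ℕ) : Polynomial ℝ :=
  Polynomial.C (r : ℝ) * Lp r - Polynomial.X * (Lp r).derivative

private theorem PA_cA (r j : ℕ) : (PA_A r).coeff j = ((r : ℝ) - j) * ell r j := by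
  unfold PA_A
  rw [Polynomial.coeff_sub, Polynomial.coeff_C_mul, Lp_coeff]
  rcases Nat.eq_zero_or_pos j with rfl | hj
  · rw [Polynomial.coeff_X_mul_zero]
    simp
  · obtain ⟨i, rfl⟩ : ∃ i, j = i + 1 := ⟨j - 1, by omega⟩
    rw [Polynomial.coeff_X_mul, Polynomial.coeff_derivative, Lp_coeff]
    push_cast
    ring

private theorem PA_D (r s m : ℕ) : ((s : ℝ) + 1) * ((Lp r) ^ s * (Lp r).derivative).coeff m =
    ((m : ℝ) + 1) * T r (s + 1) (m + 1) := by
  have h := congrArg (fun P => Polynomial.coeff P m) (Polynomial.derivative_pow_succ (Lp r) s)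
  rw [Polynomial.coeff_derivative, mul_assoc, Polynomial.coeff_C_mul] at h
  unfold T
  rw [← h]
  ring

private theorem PA_E (r s m : ℕ) : ((s : ℝ) + 1) * ((Lp r) ^ s * PA_A r).coeff m =
    (((s : ℝ) + 1) * r - m) * T r (s + 1) m := by
  have e : (Lp r) ^ s * PA_A r = Polynomial.C (r : ℝ) * (Lp r) ^ (s + 1) -
      Polynomial.X * ((Lp r) ^ s * (Lp r).derivative) := by
    unfold PA_A
    ring
  rw [e, Polynomial.coeff_sub, Polynomial.coeff_C_mul]
  rcases Nat.eq_zero_or_pos m with rfl | hm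
  · rw [Polynomial.coeff_X_mul_zero]
    unfold T
    push_cast
    ring
  · obtain ⟨i, rfl⟩ : ∃ i, m = i + 1 := ⟨m - 1, by omega⟩
    rw [Polynomial.coeff_X_mul, mul_sub, PA_D]
    unfold T
    push_cast
    ring

private theorem PA_T0 (r m : ℕ) : T r 0 (m + 1) = 0 := by
  rw [T_zero, if_neg (by omega)]

private theorem PA_T0' (r m : ℕ) : (m : ℝ) * T r 0 m = 0 := by
  rcases Nat.eq_zero_or_pos m with rfl | hm
  · simp
  · obtain ⟨i, rfl⟩ : ∃ i, m = i + 1 := ⟨m - 1, by omega⟩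
    rw [PA_T0, mul_zero]

private theorem PA_c1 (r : ℕ) : CLe (Lp r).derivative (Polynomial.C ((r : ℝ) ^ 2) * Lp r) := by
  intro j
  rw [PA_cd, Polynomial.coeff_C_mul, Lp_coeff]
  rcases Nat.lt_or_ge r j with h | h
  · rw [ell_eq_zero h]
    simp
  · have h1 : (j : ℝ) ≤ r := by exact_mod_cast h
    have h2 : (0 : ℝ) ≤ j := Nat.cast_nonneg j
    exact mul_le_mul_of_nonneg_right (by nlinarith) (ell_nonneg r j)

private theorem PA_int {r j : ℕ} (h : j < r) : (1 : ℝ) ≤ (r : ℝ) - j := by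
  have h1 : ((j + 1 : ℕ) : ℝ) ≤ r := by exact_mod_cast h
  push_cast at h1
  linarith

private theorem PA_c2 (r : ℕ) : CLe (PA_A r) (Lp r).derivative := by
  intro j
  rw [PA_cd, PA_cA]
  rcases lt_trichotomy r j with h | h | h
  · rw [ell_eq_zero h]
    simp
  · subst h
    simp
  · have h1 := PA_int h
    exact mul_le_mul_of_nonneg_right (by nlinarith) (ell_nonneg r j)

private theorem PA_c3 (r : ℕ) : CLe (Lp r).derivative (Polynomial.C (r : ℝ) * PA_A r) := by
  intro j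
  rw [PA_cd, Polynomial.coeff_C_mul, PA_cA]
  rcases Nat.lt_or_ge r j with h | h
  · rw [ell_eq_zero h]
    simp
  · have h1 : (j : ℝ) ≤ r := by exact_mod_cast h
    have h2 : (0 : ℝ) ≤ j := Nat.cast_nonneg j
    rw [← mul_assoc]
    exact mul_le_mul_of_nonneg_right (by nlinarith) (ell_nonneg r j)

private theorem PA_c4 (r : ℕ) : CLe (Lp r - PA_A r) (Polynomial.monomial r (ell r r)) := by
  intro j
  rw [Polynomial.coeff_sub, Lp_coeff, PA_cA, Polynomial.coeff_monomial]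
  rcases lt_trichotomy r j with h | h | h
  · rw [ell_eq_zero h, if_neg (by omega)]
    simp
  · subst h
    rw [if_pos rfl]
    simp
  · rw [if_neg (by omega)]
    have h1 := PA_int h
    have h2 := ell_nonneg r j
    nlinarith

private theorem PA_c5 {r : ℕ} (hr : 1 ≤ r) :
    CLe (Polynomial.monomial (r - 1) ((r : ℝ) * ell r r)) (PA_A r) := by
  intro j
  rw [Polynomial.coeff_monomial, PA_cA]
  by_cases h : r - 1 = j
  · rw [if_pos h]
    obtain ⟨i, rfl⟩ : ∃ i, r = i + 1 := ⟨r - 1, by omega⟩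
    have hj : j = i := by omega
    subst hj
    have h1 := ell_succ (j + 1) j
    push_cast at h1 ⊢
    linarith
  · rw [if_neg h]
    rcases Nat.lt_or_ge r j with h2 | h2
    · rw [ell_eq_zero h2, mul_zero]
    · have h3 : (j : ℝ) ≤ r := by exact_mod_cast h2
      exact mul_nonneg (by linarith) (ell_nonneg r j)

theorem T_up (r t m : ℕ) : ((m : ℝ) + 1) * T r t (m + 1) ≤ (t : ℝ) * r ^ 2 * T r t m := by
  rcases Nat.eq_zero_or_pos t with rfl | ht
  · rw [PA_T0]
    simp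
  · obtain ⟨s, rfl⟩ : ∃ s, t = s + 1 := ⟨t - 1, by omega⟩
    rw [← PA_D]
    have h := CLe_mul_left (PA_c1 r) (NN_pow (NN_Lp r) s) m
    have e : (Lp r) ^ s * (Polynomial.C ((r : ℝ) ^ 2) * Lp r) =
        Polynomial.C ((r : ℝ) ^ 2) * (Lp r) ^ (s + 1) := by ring
    rw [e, Polynomial.coeff_C_mul] at h
    have hs : (0 : ℝ) ≤ (s : ℝ) + 1 := by positivity
    have h2 := mul_le_mul_of_nonneg_left h hs
    refine h2.trans (le_of_eq ?_)
    unfold T
    push_cast
    ring

theorem T_low (r t m : ℕ) : ((t : ℝ) * r - m) * T r t m ≤ ((m : ℝ) + 1) * T r t (m + 1) := by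
  rcases Nat.eq_zero_or_pos t with rfl | ht
  · rw [PA_T0]
    have h := PA_T0' r m
    have e : (((0 : ℕ) : ℝ) * r - m) * T r 0 m = -((m : ℝ) * T r 0 m) := by
      push_cast
      ring
    rw [e, h]
    simp
  · obtain ⟨s, rfl⟩ : ∃ s, t = s + 1 := ⟨t - 1, by omega⟩
    rw [← PA_D]
    push_cast
    rw [← PA_E]
    exact mul_le_mul_of_nonneg_left (CLe_mul_left (PA_c2 r) (NN_pow (NN_Lp r) s) m) (by positivity)

theorem T_mid (r t m : ℕ) : ((m : ℝ) + 1) * T r t (m + 1) ≤ (r : ℝ) * (((t : ℝ) * r - m) * T r t m) := by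
  rcases Nat.eq_zero_or_pos t with rfl | ht
  · rw [PA_T0]
    have h := PA_T0' r m
    have e : (((0 : ℕ) : ℝ) * r - m) * T r 0 m = -((m : ℝ) * T r 0 m) := by
      push_cast
      ring
    rw [e, h]
    simp
  · obtain ⟨s, rfl⟩ : ∃ s, t = s + 1 := ⟨t - 1, by omega⟩
    rw [← PA_D]
    push_cast
    rw [← PA_E]
    have h := CLe_mul_left (PA_c3 r) (NN_pow (NN_Lp r) s) m
    have e : (Lp r) ^ s * (Polynomial.C (r : ℝ) * PA_A r) =
        Polynomial.C (r : ℝ) * ((Lp r) ^ s * PA_A r) := by ring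
    rw [e, Polynomial.coeff_C_mul] at h
    have hs : (0 : ℝ) ≤ (s : ℝ) + 1 := by positivity
    have h2 := mul_le_mul_of_nonneg_left h hs
    refine h2.trans (le_of_eq ?_)
    ring

theorem T_end {r : ℕ} (hr : 1 ≤ r) (t m : ℕ) :
    (r : ℝ) * ((t : ℝ) - ((t : ℝ) * r - (m + 1))) * T r t (m + 1) ≤ ((t : ℝ) * r - m) * T r t m := by
  rcases Nat.eq_zero_or_pos t with rfl | ht
  · rw [PA_T0]
    have h := PA_T0' r m
    have e : (((0 : ℕ) : ℝ) * r - m) * T r 0 m = -((m : ℝ) * T r 0 m) := by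
      push_cast
      ring
    rw [e, h]
    simp
  · obtain ⟨s, rfl⟩ : ∃ s, t = s + 1 := ⟨t - 1, by omega⟩
    have hs : (0 : ℝ) ≤ (s : ℝ) + 1 := by positivity
    have hr0 : (0 : ℝ) ≤ r := Nat.cast_nonneg r
    have h4 := CLe_mul_left (PA_c4 r) (NN_pow (NN_Lp r) s) (m + 1)
    have h5 := CLe_mul_left (PA_c5 hr) (NN_pow (NN_Lp r) s) m
    have e4 : ((s : ℝ) + 1) * ((Lp r) ^ s * (Lp r - PA_A r)).coeff (m + 1) =
        (((s : ℝ) + 1) - (((s : ℝ) + 1) * r - (m + 1))) * T r (s + 1) (m + 1) := by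
      have e1 : (Lp r) ^ s * (Lp r - PA_A r) = (Lp r) ^ (s + 1) - (Lp r) ^ s * PA_A r := by ring
      have e2 := PA_E r s (m + 1)
      rw [e1, Polynomial.coeff_sub, mul_sub, e2]
      unfold T
      push_cast
      ring
    have e5 : (r : ℝ) * ((Lp r) ^ s * Polynomial.monomial r (ell r r)).coeff (m + 1) =
        ((Lp r) ^ s * Polynomial.monomial (r - 1) ((r : ℝ) * ell r r)).coeff m := by
      have e1 : Polynomial.C (r : ℝ) * ((Lp r) ^ s * Polynomial.monomial r (ell r r)) =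
          Polynomial.X * ((Lp r) ^ s * Polynomial.monomial (r - 1) ((r : ℝ) * ell r r)) := by
        have e2 : Polynomial.X * Polynomial.monomial (r - 1) ((r : ℝ) * ell r r) =
            Polynomial.C (r : ℝ) * Polynomial.monomial r (ell r r) := by
          rw [Polynomial.X_mul_monomial, Polynomial.C_mul_monomial, Nat.sub_add_cancel hr]
        calc Polynomial.C (r : ℝ) * ((Lp r) ^ s * Polynomial.monomial r (ell r r))
            = (Lp r) ^ s * (Polynomial.C (r : ℝ) * Polynomial.monomial r (ell r r)) := by ring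
          _ = _ := by rw [← e2]; ring
      rw [← Polynomial.coeff_C_mul, e1, Polynomial.coeff_X_mul]
    have h6 := PA_E r s m
    push_cast
    calc (r : ℝ) * (((s : ℝ) + 1) - (((s : ℝ) + 1) * r - (m + 1))) * T r (s + 1) (m + 1)
        = (r : ℝ) * (((s : ℝ) + 1) * ((Lp r) ^ s * (Lp r - PA_A r)).coeff (m + 1)) := by
          rw [e4]
          ring
      _ ≤ (r : ℝ) * (((s : ℝ) + 1) *
            ((Lp r) ^ s * Polynomial.monomial r (ell r r)).coeff (m + 1)) :=
          mul_le_mul_of_nonneg_left (mul_le_mul_of_nonneg_left h4 hs) hr0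
      _ = ((s : ℝ) + 1) *
            ((Lp r) ^ s * Polynomial.monomial (r - 1) ((r : ℝ) * ell r r)).coeff m := by
          rw [← e5]
          ring
      _ ≤ ((s : ℝ) + 1) * ((Lp r) ^ s * PA_A r).coeff m := mul_le_mul_of_nonneg_left h5 hs
      _ = _ := h6

theorem T_top (r t : ℕ) : T r t (t * r) = (r.factorial : ℝ) ^ t := by
  unfold T
  rw [Polynomial.coeff_pow_of_natDegree_le (Lp_natDegree_le r), Lp_coeff, ell_self]

private theorem PA_term {r e : ℕ} (he : e ≤ r) {x : ℝ} (hx : 0 < x) :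
    ell r (r - e) * x ^ (r - e) ≤ (r.factorial : ℝ) * x ^ r * ((r / x) ^ e / (e.factorial : ℝ)) := by
  have h1 : (r.choose e : ℝ) * (e.factorial : ℝ) * ((r - e).factorial : ℝ) = (r.factorial : ℝ) := by
    exact_mod_cast Nat.choose_mul_factorial_mul_factorial he
  have h2 : (r.choose e : ℝ) ≤ (r : ℝ) ^ e := by
    exact_mod_cast Nat.choose_le_pow r e
  have h3 : (0 : ℝ) < (e.factorial : ℝ) := by positivity
  have h4 : (0 : ℝ) < ((r - e).factorial : ℝ) := by positivity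
  have h5 : ell r (r - e) = (r.choose e : ℝ) * ((r.factorial : ℝ) / (e.factorial : ℝ)) := by
    unfold ell
    rw [Nat.choose_symm he, ← h1]
    field_simp
  have h6 : x ^ (r - e) = x ^ r / x ^ e := by
    rw [eq_div_iff (by positivity), ← pow_add, Nat.sub_add_cancel he]
  rw [h5, h6, div_pow]
  have h7 : (r.factorial : ℝ) * x ^ r * ((r : ℝ) ^ e / x ^ e / (e.factorial : ℝ)) =
      (r : ℝ) ^ e * ((r.factorial : ℝ) / (e.factorial : ℝ)) * (x ^ r / x ^ e) := by
    field_simp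
  rw [h7]
  have h8 : (0 : ℝ) ≤ (r.factorial : ℝ) / (e.factorial : ℝ) := by positivity
  have h9 : (0 : ℝ) ≤ x ^ r / x ^ e := by positivity
  exact mul_le_mul_of_nonneg_right (mul_le_mul_of_nonneg_right h2 h8) h9

theorem Lp_eval_le (r : ℕ) {x : ℝ} (hx : 0 < x) :
    (Lp r).eval x ≤ (r.factorial : ℝ) * x ^ r * Real.exp (r / x) := by
  rw [Lp_eval, ← Finset.sum_range_reflect]
  calc ∑ j ∈ range (r + 1), ell r (r + 1 - 1 - j) * x ^ (r + 1 - 1 - j)
      ≤ ∑ e ∈ range (r + 1), (r.factorial : ℝ) * x ^ r * ((r / x) ^ e / (e.factorial : ℝ)) := by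
        refine Finset.sum_le_sum fun e he => ?_
        rw [Nat.add_sub_cancel]
        exact PA_term (by have := Finset.mem_range.1 he; omega) hx
    _ = (r.factorial : ℝ) * x ^ r * ∑ e ∈ range (r + 1), (r / x) ^ e / (e.factorial : ℝ) := by
        rw [Finset.mul_sum]
    _ ≤ _ := by
        refine mul_le_mul_of_nonneg_left ?_ (by positivity)
        exact Real.sum_le_exp_of_nonneg (by positivity) _

end Pool.Agent.Lib.MP_eeed5c_coT
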