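import Pool.Agent.Lib.MP_eeed5c_co_T.Defs

/-!
# Basic facts
-/

set_option autoImplicit false

namespace Pool.Agent.Lib.MP_eeed5c_coT

open Finset Pool.Agent.Lib.MP_eeed5c_co

/-! ### coefficients -/

theorem ell_nonneg (r j : ℕ) : 0 ≤ ell r j := by unfold ell; positivity

theorem ell_pos {r j : ℕ} (h : j ≤ r) : 0 < ell r j := by
  unfold ell
  have : 0 < r.choose j := Nat.choose_pos h
  positivity

theorem ell_zero (r : ℕ) : ell r 0 = 1 := by simp [ell]

theorem ell_eq_zero {r j : ℕ} (h : r < j) : ell r j = 0 := by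
  unfold ell
  rw [Nat.choose_eq_zero_of_lt h]
  simp

theorem ell_self (r : ℕ) : ell r r = (r.factorial : ℝ) := by simp [ell]

/-- The recursion. -/
theorem ell_succ (r j : ℕ) : ((j : ℝ) + 1) * ell r (j + 1) = ((r : ℝ) - j) ^ 2 * ell r j := by
  rcases Nat.lt_or_ge r j with h | h
  · rw [ell_eq_zero h, ell_eq_zero (by omega)]; ring
  · have h1 : ((r.choose (j + 1) : ℕ) : ℝ) * ((j : ℝ) + 1) = (r.choose j : ℝ) * ((r : ℝ) - j) := by
      have h2 := Nat.choose_succ_right_eq r j
      have h3 : ((r - j : ℕ) : ℝ) = (r : ℝ) - j := by rw [Nat.cast_sub h]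
      rw [← h3]
      exact_mod_cast h2
    unfold ell
    rw [Nat.factorial_succ]
    push_cast
    calc ((j : ℝ) + 1) * ((r.choose (j + 1) : ℝ) ^ 2 * (((j : ℝ) + 1) * (j.factorial : ℝ)))
        = ((r.choose (j + 1) : ℝ) * ((j : ℝ) + 1)) ^ 2 * (j.factorial : ℝ) := by ring
      _ = _ := by rw [h1]; ring

theorem Lp_coeff (r j : ℕ) : (Lp r).coeff j = ell r j := by
  unfold Lp
  rw [Polynomial.finsetSum_coeff]
  simp only [Polynomial.coeff_monomial]
  by_cases h : j ≤ r
  · rw [Finset.sum_ite_eq' (range (r + 1)) j, if_pos (Finset.mem_range.2 (by omega))]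
  · rw [Finset.sum_ite_eq' (range (r + 1)) j, if_neg (by rw [Finset.mem_range]; omega),
      ell_eq_zero (by omega)]

theorem NN_Lp (r : ℕ) : NN (Lp r) := fun m => by rw [Lp_coeff]; exact ell_nonneg r m

theorem Lp_eval (r : ℕ) (x : ℝ) : (Lp r).eval x = ∑ j ∈ range (r + 1), ell r j * x ^ j := by
  unfold Lp
  rw [Polynomial.eval_finsetSum]
  exact Finset.sum_congr rfl fun j _ => by rw [Polynomial.eval_monomial]

theorem Lp_eval_deriv (r : ℕ) (x : ℝ) :
    x * (Lp r).derivative.eval x = ∑ j ∈ range (r + 1), (j : ℝ) * (ell r j * x ^ j) := by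
  unfold Lp
  rw [Polynomial.derivative_sum, Polynomial.eval_finsetSum, Finset.mul_sum]
  refine Finset.sum_congr rfl fun j _ => ?_
  rw [Polynomial.derivative_monomial, Polynomial.eval_monomial]
  rcases Nat.eq_zero_or_pos j with rfl | hj
  · simp
  · obtain ⟨i, rfl⟩ : ∃ i, j = i + 1 := ⟨j - 1, by omega⟩
    rw [Nat.add_sub_cancel, pow_succ]
    push_cast
    ring

theorem Lp_pos (r : ℕ) {x : ℝ} (hx : 0 ≤ x) : 1 ≤ (Lp r).eval x := by
  rw [Lp_eval, Finset.sum_range_succ']
  rw [ell_zero, pow_zero, mul_one]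
  have : 0 ≤ ∑ k ∈ range r, ell r (k + 1) * x ^ (k + 1) :=
    Finset.sum_nonneg fun k _ => mul_nonneg (ell_nonneg _ _) (pow_nonneg hx _)
  linarith

theorem NN_mul {P Q : Polynomial ℝ} (hP : NN P) (hQ : NN Q) : NN (P * Q) := by
  intro m
  rw [Polynomial.coeff_mul]
  exact Finset.sum_nonneg fun p _ => mul_nonneg (hP _) (hQ _)

theorem NN_one : NN (1 : Polynomial ℝ) := by
  intro m
  rw [Polynomial.coeff_one]
  split_ifs <;> norm_num

theorem NN_pow {P : Polynomial ℝ} (hP : NN P) (t : ℕ) : NN (P ^ t) := by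
  induction t with
  | zero => rw [pow_zero]; exact NN_one
  | succ t ih => rw [pow_succ]; exact NN_mul ih hP

theorem CLe_refl (P : Polynomial ℝ) : CLe P P := fun _ => le_refl _

theorem CLe_trans {P Q R : Polynomial ℝ} (h1 : CLe P Q) (h2 : CLe Q R) : CLe P R :=
  fun m => (h1 m).trans (h2 m)

theorem CLe_mul_left {P Q R : Polynomial ℝ} (h : CLe P Q) (hR : NN R) : CLe (R * P) (R * Q) := by
  intro m
  rw [Polynomial.coeff_mul, Polynomial.coeff_mul]
  exact Finset.sum_le_sum fun p _ => mul_le_mul_of_nonneg_left (h _) (hR _)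

theorem CLe_mul_right {P Q R : Polynomial ℝ} (h : CLe P Q) (hR : NN R) : CLe (P * R) (Q * R) := by
  rw [mul_comm P, mul_comm Q]
  exact CLe_mul_left h hR

theorem eval_nonneg {P : Polynomial ℝ} (hP : NN P) {x : ℝ} (hx : 0 ≤ x) : 0 ≤ P.eval x := by
  rw [Polynomial.eval_eq_sum_range]
  exact Finset.sum_nonneg fun k _ => mul_nonneg (hP _) (pow_nonneg hx _)

/-- One term is at most the value. -/
theorem term_le_eval {P : Polynomial ℝ} (hP : NN P) {x : ℝ} (hx : 0 ≤ x) (m : ℕ) :
    P.coeff m * x ^ m ≤ P.eval x := by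
  by_cases hm : m ≤ P.natDegree
  · rw [Polynomial.eval_eq_sum_range]
    exact Finset.single_le_sum (f := fun k => P.coeff k * x ^ k)
      (fun k _ => mul_nonneg (hP _) (pow_nonneg hx _)) (Finset.mem_range.2 (by omega))
  · rw [Polynomial.coeff_eq_zero_of_natDegree_lt (by omega), zero_mul]
    exact eval_nonneg hP hx

theorem Lp_natDegree_le (r : ℕ) : (Lp r).natDegree ≤ r := by
  unfold Lp
  refine Polynomial.natDegree_sum_le_of_forall_le _ _ fun j hj => ?_
  exact (Polynomial.natDegree_monomial_le _).trans (by have := Finset.mem_range.1 hj; omega)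

theorem Lp_pow_natDegree_le (r t : ℕ) : ((Lp r) ^ t).natDegree ≤ t * r :=
  Polynomial.natDegree_pow_le.trans (Nat.mul_le_mul_left _ (Lp_natDegree_le r))

theorem T_nonneg (r t m : ℕ) : 0 ≤ T r t m := NN_pow (NN_Lp r) t m

theorem T_eq_zero {r t m : ℕ} (h : t * r < m) : T r t m = 0 :=
  Polynomial.coeff_eq_zero_of_natDegree_lt (lt_of_le_of_lt (Lp_pow_natDegree_le r t) h)

theorem T_succ (r t m : ℕ) : T r (t + 1) m =
    ∑ p ∈ antidiagonal m, T r t p.1 * ell r p.2 := by
  unfold T
  rw [pow_succ, Polynomial.coeff_mul]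
  exact Finset.sum_congr rfl fun p _ => by rw [Lp_coeff]

theorem T_zero (r m : ℕ) : T r 0 m = if m = 0 then 1 else 0 := by
  unfold T
  rw [pow_zero, Polynomial.coeff_one]

theorem T_pos {r t m : ℕ} (h : m ≤ t * r) : 0 < T r t m := by
  induction t generalizing m with
  | zero =>
    have : m = 0 := by omega
    subst this
    rw [T_zero, if_pos rfl]; norm_num
  | succ t ih =>
    rw [T_succ]
    have hmem : (min m (t * r), m - min m (t * r)) ∈ antidiagonal m := by
      rw [Finset.HasAntidiagonal.mem_antidiagonal]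
      omega
    have hle : m - min m (t * r) ≤ r := by
      have e : (t + 1) * r = t * r + r := by ring
      omega
    refine lt_of_lt_of_le (mul_pos (ih (min_le_right m (t * r))) (ell_pos hle)) ?_
    exact Finset.single_le_sum (f := fun p : ℕ × ℕ => T r t p.1 * ell r p.2)
      (fun p _ => mul_nonneg (T_nonneg _ _ _) (ell_nonneg _ _)) hmem

theorem Lp_pow_eval (r t : ℕ) (x : ℝ) :
    ((Lp r).eval x) ^ t = ∑ m ∈ range (t * r + 1), T r t m * x ^ m := by
  rw [← Polynomial.eval_pow, Polynomial.eval_eq_sum_range' (n := t * r + 1)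
    (lt_of_le_of_lt (Lp_pow_natDegree_le r t) (by omega))]
  rfl

/-! ### graphs -/

section

variable {V : Type*} [Fintype V] {G : SimpleGraph V}

theorem mp_coeff (i : ℕ) : (mp G).coeff i = (mats G i).card := by
  unfold mp
  rw [Polynomial.finsetSum_coeff]
  simp only [Polynomial.coeff_monomial]
  rw [Finset.sum_ite_eq' (range (Fintype.card V + 1)) i]
  by_cases h : i ≤ Fintype.card V
  · rw [if_pos (Finset.mem_range.2 (by omega))]
  · rw [if_neg (by rw [Finset.mem_range]; omega), card_mats_eq_zero (by omega)]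
    simp

theorem NN_mp : NN (mp G) := fun m => by rw [mp_coeff]; positivity

theorem mp_eval (x : ℝ) : (mp G).eval x =
    ∑ i ∈ range (Fintype.card V + 1), ((mats G i).card : ℝ) * x ^ i := by
  unfold mp
  rw [Polynomial.eval_finsetSum]
  exact Finset.sum_congr rfl fun j _ => by rw [Polynomial.eval_monomial]

theorem mp_eval_pos {x : ℝ} (hx : 0 ≤ x) : 1 ≤ (mp G).eval x := by
  have h := term_le_eval (NN_mp (G := G)) hx 0
  rw [mp_coeff, card_mats_zero] at h
  simpa using h

theorem mp_natDegree_le {n : ℕ} (hV : Fintype.card V = 2 * n) : (mp G).natDegree ≤ n := by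
  rw [Polynomial.natDegree_le_iff_coeff_eq_zero]
  intro N hN
  rw [mp_coeff, card_mats_eq_zero (by omega)]
  simp

theorem mem_Mt {N : Finset (Sym2 V)} : N ∈ Mt G ↔ N ∈ mats G N.card := by
  rw [mem_mats]
  unfold Mt
  simp

theorem mats_sub_Mt {i : ℕ} {N : Finset (Sym2 V)} (h : N ∈ mats G i) : N ∈ Mt G := by
  rw [mem_Mt, (mem_mats.1 h).2.1]
  exact h

theorem card_le_of_mem {N : Finset (Sym2 V)} (h : N ∈ Mt G) : 2 * N.card ≤ Fintype.card V := by
  have := card_free (mem_Mt.1 h)
  omega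

/-- The sum over all matchings by the number of edges. -/
theorem WS_levels (x : ℝ) (F : Finset (Sym2 V) → ℝ) {K : ℕ} (hK : Fintype.card V < 2 * K) :
    WS G x F = ∑ i ∈ range K, x ^ i * ∑ N ∈ mats G i, F N := by
  classical
  have h1 : Mt G = (range K).biUnion fun i => mats G i := by
    ext N
    rw [Finset.mem_biUnion]
    constructor
    · intro h
      refine ⟨N.card, ?_, mem_Mt.1 h⟩
      have := card_le_of_mem h
      rw [Finset.mem_range]; omega
    · rintro ⟨i, _, h⟩
      exact mats_sub_Mt h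
  unfold WS
  rw [h1, Finset.sum_biUnion]
  · refine Finset.sum_congr rfl fun i _ => ?_
    rw [Finset.mul_sum]
    refine Finset.sum_congr rfl fun N hN => ?_
    rw [(mem_mats.1 hN).2.1]
  · intro i _ j _ hij
    rw [Function.onFun, Finset.disjoint_left]
    intro N h1 h2
    exact hij ((mem_mats.1 h1).2.1.symm.trans (mem_mats.1 h2).2.1)

theorem WS_one (x : ℝ) : WS G x (fun _ => 1) = (mp G).eval x := by
  rw [WS_levels x _ (K := Fintype.card V + 1) (by omega), mp_eval]
  refine Finset.sum_congr rfl fun i _ => ?_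
  rw [Finset.sum_const, nsmul_eq_mul]
  ring

theorem WS_mono {x : ℝ} (hx : 0 ≤ x) {F F' : Finset (Sym2 V) → ℝ}
    (h : ∀ N ∈ Mt G, F N ≤ F' N) : WS G x F ≤ WS G x F' :=
  Finset.sum_le_sum fun N hN => mul_le_mul_of_nonneg_left (h N hN) (pow_nonneg hx _)

theorem WS_nonneg {x : ℝ} (hx : 0 ≤ x) {F : Finset (Sym2 V) → ℝ}
    (h : ∀ N ∈ Mt G, 0 ≤ F N) : 0 ≤ WS G x F :=
  Finset.sum_nonneg fun N hN => mul_nonneg (pow_nonneg hx _) (h N hN)

theorem WS_add (x : ℝ) (F F' : Finset (Sym2 V) → ℝ) :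
    WS G x (fun N => F N + F' N) = WS G x F + WS G x F' := by
  unfold WS
  rw [← Finset.sum_add_distrib]
  exact Finset.sum_congr rfl fun N _ => by ring

theorem WS_sub (x : ℝ) (F F' : Finset (Sym2 V) → ℝ) :
    WS G x (fun N => F N - F' N) = WS G x F - WS G x F' := by
  unfold WS
  rw [← Finset.sum_sub_distrib]
  exact Finset.sum_congr rfl fun N _ => by ring

theorem WS_smul (x c : ℝ) (F : Finset (Sym2 V) → ℝ) :
    WS G x (fun N => c * F N) = c * WS G x F := by
  unfold WS
  rw [Finset.mul_sum]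
  exact Finset.sum_congr rfl fun N _ => by ring

theorem WS_congr (x : ℝ) {F F' : Finset (Sym2 V) → ℝ} (h : ∀ N ∈ Mt G, F N = F' N) :
    WS G x F = WS G x F' :=
  Finset.sum_congr rfl fun N hN => by rw [h N hN]

theorem WS_sum {ι : Type*} (s : Finset ι) (x : ℝ) (F : ι → Finset (Sym2 V) → ℝ) :
    WS G x (fun N => ∑ i ∈ s, F i N) = ∑ i ∈ s, WS G x (F i) := by
  unfold WS
  rw [Finset.sum_comm]
  exact Finset.sum_congr rfl fun N _ => by rw [Finset.mul_sum]

open scoped Classical in
/-- The insertion lemma for weighted sums: sums over all oriented edges of the matching are sums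
over all oriented edges which can be added. -/
theorem WS_insert (x : ℝ) (F : Finset (Sym2 V) → V × V → ℝ) :
    WS G x (fun M => ∑ p ∈ univ.filter (fun p : V × V => s(p.1, p.2) ∈ M), F M p) =
      x * WS G x (fun N => ∑ p ∈ univ.filter
        (fun p : V × V => p.1 ∈ free N ∧ p.2 ∈ free N ∧ G.Adj p.1 p.2),
        F (insert s(p.1, p.2) N) p) := by
  rw [WS_levels x _ (K := Fintype.card V + 2) (by omega),
    WS_levels x _ (K := Fintype.card V + 1) (by omega), Finset.sum_range_succ']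
  have h0 : ∑ N ∈ mats G 0, ∑ p ∈ univ.filter (fun p : V × V => s(p.1, p.2) ∈ N), F N p = 0 := by
    refine Finset.sum_eq_zero fun N hN => ?_
    have : N = ∅ := Finset.card_eq_zero.1 (mem_mats.1 hN).2.1
    subst this
    simp
  rw [h0, mul_zero, add_zero, Finset.mul_sum]
  refine Finset.sum_congr rfl fun i _ => ?_
  rw [sum_insert (G := G) i F, pow_succ]
  ring

end

end Pool.Agent.Lib.MP_eeed5c_coT
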