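import Pool.Agent.Lib.MP_eeed5c_co_T.Base

/-!
# Log-concavity of the powers

`LC a` for a sequence `a : ℕ → ℝ`: `0 ≤ a`, and `a i * a (j+1) ≤ a (i+1) * a j` for all `i ≤ j`.
* `LC_ell`: `ell r (j+1) / ell r j = (r-j)^2/(j+1)` is nonincreasing: multiply by `(i+1)(j+1) > 0`: `(j+1) ell (j+1) = (r-j)^2 ell j`, `(i+1) ell (i+1) = (r-i)^2 ell i`; the claim becomes `(i+1) (r-j)^2 ell i ell j ≤ (j+1) (r-i)^2 ell i ell j`. For `j ≤ r`
`(r-j)^2 ≤ (r-i)^2` and `i+1 ≤ j+1`; for `j > r` the left side is `0` (`ell r j = 0`).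
* `LC_shift`: `a i * a (j+p) ≤ a (i+p) * a j` for `i ≤ j` and all `p`. Induction/steps: moving one unit from the larger index to the smaller does not decrease the product `a s * a (N - s)` as long as `s < N - s`, i.e. `a s * a (N-s) ≤ a (s+1) * a (N-s-1)` when `s ≤ N-s-1`
(this is `LC` with `i = s, j = N-s-1`). With `N = i+j+p`: `s = i` up to `s = min (i+p) j` (the pair `{i+p, j}`), and at every `s < min (i+p) j` one has `s ≤ N - s - 1`. (So: by `Nat.le_induction` on `s`: `a i * a (N-i) ≤ a s * a (N-s)` for `i ≤ s ≤ min (i+p) j`.)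
* `LC_conv`: for `a`, `b` with `LC` the Cauchy product `c n = ∑_{(k,l) ∈ antidiagonal n} a k b l` is `LC`. Proof (Cauchy-Binet for 2x2 minors of the Toeplitz kernels): put `A(i,k) = if k ≤ i then a (i-k) else 0`, `B(k,j) = if j ≤ k then b (k-j) else 0`. Then for `j ≤ i < M`:
`c (i-j) = ∑_{k ∈ range M} A(i,k) B(k,j)` (terms with `j ≤ k ≤ i`, `k - j` and `i - k` run through the antidiagonal). `LC_shift` says: for `i1 ≤ i2`, `k ≤ l`: `A(i1,l) A(i2,k) ≤ A(i1,k) A(i2,l)` (if `l > i1` the left side is `0`; otherwise all indices are natural and it is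
`a (i1-l) * a (i2-k) ≤ a (i1-k) * a (i2-l)`: `LC_shift` with `i := i1-l`, `p := l-k`, `j := i2-l`), similarly `B(k,j2) B(l,j1) ≤ B(k,j1) B(l,j2)` for `k ≤ l`, `j1 ≤ j2`. To prove `c i * c (j+1) ≤ c (i+1) * c j` for `i ≤ j` use rows `i1 = i+1`, `i2 = j+1`, columns `j1 = 0`, `j2 = 1`:
`c(i+1) = C(i1,j1)`, `c j = C(i2,j2)`, `c i = C(i1,j2)`, `c(j+1) = C(i2,j1)` and
`C(i1,j1) C(i2,j2) - C(i1,j2) C(i2,j1) = ∑_{k,l} A(i1,k) A(i2,l) [B(k,j1) B(l,j2) - B(k,j2) B(l,j1)]`. Swapping the names `k,l` and adding: twice this is `∑_{k,l} [A(i1,k) A(i2,l) - A(i1,l) A(i2,k)] [B(k,j1) B(l,j2) - B(k,j2) B(l,j1)]`, and every term is `≥ 0`: for `k ≤ l` both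
brackets are `≥ 0`, for `l ≤ k` both are `≤ 0`.
* `T_lc`: induction on `t` with `T_succ` (`T r 0` is `1, 0, 0, …`).
-/

set_option autoImplicit false

namespace Pool.Agent.Lib.MP_eeed5c_coT

open Finset Pool.Agent.Lib.MP_eeed5c_co

/-- Log-concave sequences of nonnegative numbers. -/
def LC (a : ℕ → ℝ) : Prop := (∀ i, 0 ≤ a i) ∧ ∀ i j, i ≤ j → a i * a (j + 1) ≤ a (i + 1) * a j

theorem LC_ell (r : ℕ) : LC (ell r) := by
  refine ⟨fun i => ell_nonneg r i, fun i j hij => ?_⟩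
  rcases Nat.lt_or_ge r j with h | h
  · rw [ell_eq_zero h, ell_eq_zero (show r < j + 1 by omega), mul_zero, mul_zero]
  · have hi := ell_succ r i
    have hj := ell_succ r j
    have hi0 : (0 : ℝ) ≤ i := Nat.cast_nonneg i
    have hij' : (i : ℝ) ≤ j := by exact_mod_cast hij
    have hjr : (j : ℝ) ≤ r := by exact_mod_cast h
    have hc : (0 : ℝ) < ((i : ℝ) + 1) * ((j : ℝ) + 1) := by positivity
    refine le_of_mul_le_mul_left ?_ hc
    have e1 : ((i : ℝ) + 1) * ((j : ℝ) + 1) * (ell r i * ell r (j + 1)) =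
        (((i : ℝ) + 1) * ((r : ℝ) - j) ^ 2) * (ell r i * ell r j) := by
      calc ((i : ℝ) + 1) * ((j : ℝ) + 1) * (ell r i * ell r (j + 1))
          = ((i : ℝ) + 1) * ell r i * (((j : ℝ) + 1) * ell r (j + 1)) := by ring
        _ = _ := by rw [hj]; ring
    have e2 : ((i : ℝ) + 1) * ((j : ℝ) + 1) * (ell r (i + 1) * ell r j) =
        (((j : ℝ) + 1) * ((r : ℝ) - i) ^ 2) * (ell r i * ell r j) := by
      calc ((i : ℝ) + 1) * ((j : ℝ) + 1) * (ell r (i + 1) * ell r j)
          = ((j : ℝ) + 1) * ell r j * (((i : ℝ) + 1) * ell r (i + 1)) := by ring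
        _ = _ := by rw [hi]; ring
    rw [e1, e2]
    refine mul_le_mul_of_nonneg_right ?_ (mul_nonneg (ell_nonneg _ _) (ell_nonneg _ _))
    refine mul_le_mul (by linarith) ?_ (by positivity) (by positivity)
    exact pow_le_pow_left₀ (by linarith) (by linarith) 2

theorem LC_shift {a : ℕ → ℝ} (ha : LC a) {i j : ℕ} (h : i ≤ j) (p : ℕ) :
    a i * a (j + p) ≤ a (i + p) * a j := by
  have key : ∀ t : ℕ, t ≤ p → i + t ≤ j → a i * a (j + p) ≤ a (i + t) * a (j + p - t) := by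
    intro t
    induction t with
    | zero =>
      intro _ _
      rw [Nat.add_zero, Nat.sub_zero]
    | succ t ih =>
      intro h1 h2
      refine (ih (by omega) (by omega)).trans ?_
      have h3 := ha.2 (i + t) (j + p - (t + 1)) (by omega)
      have h4 : j + p - (t + 1) + 1 = j + p - t := by omega
      rw [h4] at h3
      exact h3
  by_cases hp : i + p ≤ j
  · have h1 := key p le_rfl hp
    rwa [Nat.add_sub_cancel] at h1
  · have h1 := key (j - i) (by omega) (by omega)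
    have h2 : i + (j - i) = j := by omega
    have h3 : j + p - (j - i) = i + p := by omega
    rw [h2, h3, mul_comm (a j)] at h1
    exact h1

/-- the first matrix -/
private def PB_A (a : ℕ → ℝ) (i k : ℕ) : ℝ := if k ≤ i then a (i - k) else 0

/-- the second matrix -/
private def PB_B (b : ℕ → ℝ) (k j : ℕ) : ℝ := if j ≤ k then b (k - j) else 0

private theorem PB_A_nonneg {a : ℕ → ℝ} (ha : LC a) (i k : ℕ) : 0 ≤ PB_A a i k := by
  unfold PB_A
  split_ifs
  · exact ha.1 _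
  · exact le_rfl

private theorem PB_B_nonneg {b : ℕ → ℝ} (hb : LC b) (k j : ℕ) : 0 ≤ PB_B b k j := by
  unfold PB_B
  split_ifs
  · exact hb.1 _
  · exact le_rfl

private theorem PB_conv (a b : ℕ → ℝ) {i j M : ℕ} (hj : j ≤ i) (hM : i < M) :
    ∑ p ∈ antidiagonal (i - j), a p.1 * b p.2 = ∑ k ∈ range M, PB_A a i k * PB_B b k j := by
  have h1 : ∑ k ∈ range M, PB_A a i k * PB_B b k j =
      ∑ k ∈ Ico j (i + 1), a (i - k) * b (k - j) := by
    symm
    have hsub : Ico j (i + 1) ⊆ range M := by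
      intro k hk
      rw [mem_Ico] at hk
      rw [mem_range]
      omega
    rw [← Finset.sum_subset hsub (f := fun k => PB_A a i k * PB_B b k j)]
    · refine Finset.sum_congr rfl fun k hk => ?_
      rw [mem_Ico] at hk
      unfold PB_A PB_B
      rw [if_pos (by omega), if_pos hk.1]
    · intro k _ hk
      rw [mem_Ico, not_and_or] at hk
      unfold PB_A PB_B
      rcases hk with hk | hk
      · rw [if_neg hk, mul_zero]
      · rw [if_neg (show ¬ k ≤ i by omega), zero_mul]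
  rw [h1, Finset.sum_Ico_eq_sum_range, ← Finset.Nat.sum_antidiagonal_swap,
    Finset.Nat.sum_antidiagonal_eq_sum_range_succ_mk]
  have h2 : (i - j).succ = i + 1 - j := by omega
  rw [h2]
  refine Finset.sum_congr rfl fun t ht => ?_
  rw [mem_range] at ht
  have h3 : i - (j + t) = i - j - t := by omega
  have h4 : j + t - j = t := by omega
  rw [h3, h4]
  rfl

private theorem PB_A_minor {a : ℕ → ℝ} (ha : LC a) {i1 i2 k l : ℕ} (hi : i1 ≤ i2) (hk : k ≤ l) :
    PB_A a i1 l * PB_A a i2 k ≤ PB_A a i1 k * PB_A a i2 l := by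
  by_cases hl : l ≤ i1
  · unfold PB_A
    rw [if_pos hl, if_pos (show k ≤ i2 by omega), if_pos (show k ≤ i1 by omega),
      if_pos (show l ≤ i2 by omega)]
    have h1 := LC_shift ha (i := i1 - l) (j := i2 - l) (by omega) (l - k)
    have h2 : i2 - l + (l - k) = i2 - k := by omega
    have h3 : i1 - l + (l - k) = i1 - k := by omega
    rwa [h2, h3] at h1
  · have h1 : PB_A a i1 l = 0 := by
      unfold PB_A
      rw [if_neg hl]
    rw [h1, zero_mul]
    exact mul_nonneg (PB_A_nonneg ha _ _) (PB_A_nonneg ha _ _)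

private theorem PB_B_minor {b : ℕ → ℝ} (hb : LC b) {j1 j2 k l : ℕ} (hj : j1 ≤ j2) (hk : k ≤ l) :
    PB_B b k j2 * PB_B b l j1 ≤ PB_B b k j1 * PB_B b l j2 := by
  by_cases hl : j2 ≤ k
  · unfold PB_B
    rw [if_pos hl, if_pos (show j1 ≤ l by omega), if_pos (show j1 ≤ k by omega),
      if_pos (show j2 ≤ l by omega)]
    have h1 := LC_shift hb (i := k - j2) (j := l - j2) (by omega) (j2 - j1)
    have h2 : l - j2 + (j2 - j1) = l - j1 := by omega
    have h3 : k - j2 + (j2 - j1) = k - j1 := by omega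
    rwa [h2, h3] at h1
  · have h1 : PB_B b k j2 = 0 := by
      unfold PB_B
      rw [if_neg hl]
    rw [h1, zero_mul]
    exact mul_nonneg (PB_B_nonneg hb _ _) (PB_B_nonneg hb _ _)

private theorem PB_cb (s : Finset ℕ) (x y u v : ℕ → ℝ)
    (h1 : ∀ k l, k ≤ l → x l * y k ≤ x k * y l) (h2 : ∀ k l, k ≤ l → v k * u l ≤ u k * v l) :
    (∑ k ∈ s, x k * v k) * (∑ l ∈ s, y l * u l) ≤ (∑ k ∈ s, x k * u k) * (∑ l ∈ s, y l * v l) := by
  have e1 : (∑ k ∈ s, x k * u k) * (∑ l ∈ s, y l * v l) -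
      (∑ k ∈ s, x k * v k) * (∑ l ∈ s, y l * u l) =
      ∑ k ∈ s, ∑ l ∈ s, (x k * y l) * (u k * v l - v k * u l) := by
    rw [Finset.sum_mul_sum, Finset.sum_mul_sum, ← Finset.sum_sub_distrib]
    refine Finset.sum_congr rfl fun k _ => ?_
    rw [← Finset.sum_sub_distrib]
    exact Finset.sum_congr rfl fun l _ => by ring
  have e2 : (∑ k ∈ s, x k * u k) * (∑ l ∈ s, y l * v l) -
      (∑ k ∈ s, x k * v k) * (∑ l ∈ s, y l * u l) =
      ∑ k ∈ s, ∑ l ∈ s, (x l * y k) * (u l * v k - v l * u k) := by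
    rw [e1, Finset.sum_comm]
  have e3 : 2 * ((∑ k ∈ s, x k * u k) * (∑ l ∈ s, y l * v l) -
      (∑ k ∈ s, x k * v k) * (∑ l ∈ s, y l * u l)) =
      ∑ k ∈ s, ∑ l ∈ s, (x k * y l - x l * y k) * (u k * v l - v k * u l) := by
    rw [two_mul]
    nth_rewrite 1 [e1]
    rw [e2, ← Finset.sum_add_distrib]
    refine Finset.sum_congr rfl fun k _ => ?_
    rw [← Finset.sum_add_distrib]
    exact Finset.sum_congr rfl fun l _ => by ring
  have h3 : 0 ≤ ∑ k ∈ s, ∑ l ∈ s, (x k * y l - x l * y k) * (u k * v l - v k * u l) := by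
    refine Finset.sum_nonneg fun k _ => Finset.sum_nonneg fun l _ => ?_
    rcases le_total k l with h | h
    · exact mul_nonneg (sub_nonneg.2 (h1 k l h)) (sub_nonneg.2 (h2 k l h))
    · refine mul_nonneg_of_nonpos_of_nonpos ?_ ?_
      · have := h1 l k h
        linarith
      · have := h2 l k h
        linarith [mul_comm (v l) (u k), mul_comm (u l) (v k)]
  linarith

theorem LC_conv {a b : ℕ → ℝ} (ha : LC a) (hb : LC b) :
    LC (fun n => ∑ p ∈ antidiagonal n, a p.1 * b p.2) := by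
  refine ⟨fun n => Finset.sum_nonneg fun p _ => mul_nonneg (ha.1 _) (hb.1 _), fun i j hij => ?_⟩
  have c1 : ∑ p ∈ antidiagonal i, a p.1 * b p.2 =
      ∑ k ∈ range (j + 2), PB_A a (i + 1) k * PB_B b k 1 :=
    PB_conv a b (i := i + 1) (j := 1) (by omega) (by omega)
  have c2 : ∑ p ∈ antidiagonal (j + 1), a p.1 * b p.2 =
      ∑ k ∈ range (j + 2), PB_A a (j + 1) k * PB_B b k 0 :=
    PB_conv a b (i := j + 1) (j := 0) (by omega) (by omega)
  have c3 : ∑ p ∈ antidiagonal (i + 1), a p.1 * b p.2 =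
      ∑ k ∈ range (j + 2), PB_A a (i + 1) k * PB_B b k 0 :=
    PB_conv a b (i := i + 1) (j := 0) (by omega) (by omega)
  have c4 : ∑ p ∈ antidiagonal j, a p.1 * b p.2 =
      ∑ k ∈ range (j + 2), PB_A a (j + 1) k * PB_B b k 1 :=
    PB_conv a b (i := j + 1) (j := 1) (by omega) (by omega)
  simp only
  rw [c1, c2, c3, c4]
  exact PB_cb (range (j + 2)) (PB_A a (i + 1)) (PB_A a (j + 1)) (fun k => PB_B b k 0)
    (fun k => PB_B b k 1) (fun k l hkl => PB_A_minor ha (by omega) hkl)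
    (fun k l hkl => PB_B_minor hb (by omega) hkl)

private theorem PB_T (r t : ℕ) : LC (T r t) := by
  induction t with
  | zero =>
    refine ⟨fun i => T_nonneg r 0 i, fun i j _ => ?_⟩
    rw [T_zero r (j + 1), T_zero r (i + 1), if_neg (by omega), if_neg (by omega), mul_zero,
      zero_mul]
  | succ t ih =>
    have h1 : T r (t + 1) = fun n => ∑ p ∈ antidiagonal n, T r t p.1 * ell r p.2 := by
      funext n
      exact T_succ r t n
    rw [h1]
    exact LC_conv ih (LC_ell r)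

theorem T_lc (r t : ℕ) {i j : ℕ} (h : i ≤ j) :
    T r t i * T r t (j + 1) ≤ T r t (i + 1) * T r t j := by
  exact (PB_T r t).2 i j h

end Pool.Agent.Lib.MP_eeed5c_coT
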