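import Pool.Agent.Lib.MP_eeed5c_co_T.PA
import Pool.Agent.Lib.MP_eeed5c_co_T.PB

/-!
# Two cases of the comparison

* `max_term`: if `1 ≤ k ≤ q r` and `x = T (k-1)/T k` (`T = T r q`), then `T j x^j ≤ T k x^k` for all `j`: for `j < k`: `T (i) x^i ≤ T (i+1) x^(i+1)` for `i + 1 ≤ k` because `T i / T (i+1) ≤ T (k-1)/T k = x` (`T_lc`); for `j ≥ k`: `T (i+1) x ≤ T i` for `i ≥ k` (`T_lc`, positivity of `T k`).
(Zero values beyond `q r` are no problem: `T_lc` says `T (k-1) T (i+1) ≤ T k T i`.)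
* `case_one`. `x = T (k-1)/T k > 0`; `T_up` at `k-1`: `k T k ≤ q r^2 T (k-1)`, so `k ≤ q r^2 x` and `x0 q r^2 ≤ k ≤ q r^2 x` gives `x0 ≤ x` (`q r^2 > 0`). Then `P.coeff k * x^k ≤ P.eval x ≤ exp(-h) L(x)^q` (`term_le_eval`), `L(x)^q = ∑_{j ≤ q r} T j x^j ≤ (q r + 1) T k x^k` (`Lp_pow_eval`, `max_term`), and
`exp(-h) (q r + 1) ≤ 1`. Divide by `x^k > 0`.
* `case_near`. `k = (q+t) r - d`, `2 d ≤ t`. `μ = (2d+1)/(r t) > 0`. For `1 ≤ e ≤ d`: `T_end` with `m = t r - e` (`t r - m = e`): `r (t - (e-1)) T(t r - e + 1) ≤ e T (t r - e)`; so with `h_e = T r t (t r - e)`: `h_(e-1) ≤ e/(r (t-e+1)) h_e ≤ μ h_e` (`e/(t-e+1) ≤ d/(t-d) ≤ 2d/t`). So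
`h_(d-s) ≤ μ^s h_d` for `s ≤ d`. `(P * L^t).coeff k = ∑_{(i,m) ∈ antidiagonal k} P_i T m`; a nonzero term has `i ≤ q r` and `m ≤ t r`; put `s = q r - i`; `m = k - i = t r - d + s` so `s ≤ d` and `T m = h_(d-s) ≤ μ^s h_d`. So the coefficient is at most
`h_d ∑_{i ≤ q r} P_i μ^(q r - i) = h_d μ^(q r) P.eval (1/μ) ≤ h_d μ^(q r) exp(-h) L(1/μ)^q ≤ h_d exp(-h) (r!)^q exp(q r μ)` by `Lp_eval_le` (`L(1/μ) ≤ r! μ^(-r) exp(r μ)`), and `q r μ = q (2d+1)/t ≤ h`. So it is at most `(r!)^q h_d`. On the other side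
`T r (q+t) k = (L^q * L^t).coeff k ≥ T r q (q r) * T r t (k - q r) = (r!)^q h_d` (one term of the antidiagonal, `T_top`; `k - q r = t r - d`).
-/

set_option autoImplicit false

namespace Pool.Agent.Lib.MP_eeed5c_coT

open Finset Pool.Agent.Lib.MP_eeed5c_co

private theorem CA_up {q r k : ℕ} (hk1 : 1 ≤ k) (hk : k ≤ q * r) {i : ℕ} (hi : i + 1 ≤ k) :
    T r q i * (T r q (k - 1) / T r q k) ^ i ≤
      T r q (i + 1) * (T r q (k - 1) / T r q k) ^ (i + 1) := by
  have hT : 0 < T r q k := T_pos hk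
  have hx : 0 ≤ T r q (k - 1) / T r q k := div_nonneg (T_nonneg _ _ _) hT.le
  have h := T_lc r q (i := i) (j := k - 1) (by omega)
  rw [Nat.sub_add_cancel hk1] at h
  have h2 : T r q i ≤ T r q (i + 1) * (T r q (k - 1) / T r q k) := by
    rw [← mul_div_assoc, le_div_iff₀ hT]
    exact h
  calc T r q i * (T r q (k - 1) / T r q k) ^ i
      ≤ (T r q (i + 1) * (T r q (k - 1) / T r q k)) * (T r q (k - 1) / T r q k) ^ i :=
        mul_le_mul_of_nonneg_right h2 (pow_nonneg hx _)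
    _ = _ := by ring

private theorem CA_down {q r k : ℕ} (hk1 : 1 ≤ k) (hk : k ≤ q * r) {i : ℕ} (hi : k ≤ i) :
    T r q (i + 1) * (T r q (k - 1) / T r q k) ^ (i + 1) ≤
      T r q i * (T r q (k - 1) / T r q k) ^ i := by
  have hT : 0 < T r q k := T_pos hk
  have hx : 0 ≤ T r q (k - 1) / T r q k := div_nonneg (T_nonneg _ _ _) hT.le
  have h := T_lc r q (i := k - 1) (j := i) (by omega)
  rw [Nat.sub_add_cancel hk1] at h
  have h2 : T r q (i + 1) * (T r q (k - 1) / T r q k) ≤ T r q i := by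
    rw [← mul_div_assoc, div_le_iff₀ hT]
    linarith
  calc T r q (i + 1) * (T r q (k - 1) / T r q k) ^ (i + 1)
      = (T r q (i + 1) * (T r q (k - 1) / T r q k)) * (T r q (k - 1) / T r q k) ^ i := by ring
    _ ≤ _ := mul_le_mul_of_nonneg_right h2 (pow_nonneg hx _)

theorem max_term {q r k : ℕ} (hk1 : 1 ≤ k) (hk : k ≤ q * r) (j : ℕ) :
    T r q j * (T r q (k - 1) / T r q k) ^ j ≤ T r q k * (T r q (k - 1) / T r q k) ^ k := by
  rcases le_total j k with hj | hj
  · have key : ∀ n, n ≤ k → T r q (k - n) * (T r q (k - 1) / T r q k) ^ (k - n) ≤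
        T r q k * (T r q (k - 1) / T r q k) ^ k := by
      intro n
      induction n with
      | zero => intro _; exact le_refl _
      | succ n ih =>
        intro hn
        have h1 := CA_up hk1 hk (i := k - (n + 1)) (by omega)
        rw [show k - (n + 1) + 1 = k - n by omega] at h1
        exact h1.trans (ih (by omega))
    have := key (k - j) (by omega)
    rwa [show k - (k - j) = j by omega] at this
  · induction j, hj using Nat.le_induction with
    | base => exact le_refl _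
    | succ n hn ih => exact (CA_down hk1 hk hn).trans ih

theorem case_one {q r k : ℕ} (hr : 1 ≤ r) (hk1 : 1 ≤ k) (hk : k ≤ q * r) {P : Polynomial ℝ}
    (hP : NN P) {x0 h : ℝ} (hx0 : x0 * (q * (r : ℝ) ^ 2) ≤ k)
    (hh : Real.log ((q : ℝ) * r + 1) ≤ h)
    (hgap : ∀ x, x0 ≤ x → P.eval x ≤ Real.exp (-h) * (Lp r).eval x ^ q) :
    P.coeff k ≤ T r q k := by
  have hT : 0 < T r q k := T_pos hk
  have hT1 : 0 < T r q (k - 1) := T_pos (by omega)
  have hq : 0 < q := by
    rcases Nat.eq_zero_or_pos q with h0 | h0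
    · rw [h0, Nat.zero_mul] at hk
      omega
    · exact h0
  have hqr : (0 : ℝ) < (q : ℝ) * (r : ℝ) ^ 2 := by
    have h1 : (0 : ℝ) < q := by exact_mod_cast hq
    have h2 : (0 : ℝ) < r := by exact_mod_cast hr
    positivity
  set x : ℝ := T r q (k - 1) / T r q k with hx
  have hxp : 0 < x := div_pos hT1 hT
  have hup := T_up r q (k - 1)
  rw [Nat.sub_add_cancel hk1] at hup
  have hc : ((k - 1 : ℕ) : ℝ) + 1 = k := by
    rw [Nat.cast_sub hk1]
    push_cast
    ring
  rw [hc] at hup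
  have h1 : (k : ℝ) ≤ (q : ℝ) * (r : ℝ) ^ 2 * x := by
    rw [hx, ← mul_div_assoc, le_div_iff₀ hT]
    exact hup
  have h2 : x0 ≤ x := by
    have h3 : x0 * ((q : ℝ) * (r : ℝ) ^ 2) ≤ x * ((q : ℝ) * (r : ℝ) ^ 2) := by linarith
    exact le_of_mul_le_mul_right h3 hqr
  have h3 := hgap x h2
  have h4 := term_le_eval hP hxp.le k
  rw [Lp_pow_eval] at h3
  have h5 : ∑ m ∈ range (q * r + 1), T r q m * x ^ m ≤
      ((q : ℝ) * r + 1) * (T r q k * x ^ k) := by
    calc ∑ m ∈ range (q * r + 1), T r q m * x ^ m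
        ≤ ∑ _m ∈ range (q * r + 1), T r q k * x ^ k :=
          Finset.sum_le_sum fun m _ => max_term hk1 hk m
      _ = _ := by
          rw [Finset.sum_const, Finset.card_range, nsmul_eq_mul]
          push_cast
          ring
  have h6 : Real.exp (-h) * ((q : ℝ) * r + 1) ≤ 1 := by
    have hpos : (0 : ℝ) < (q : ℝ) * r + 1 := by positivity
    have h7 : (q : ℝ) * r + 1 ≤ Real.exp h := by
      rw [← Real.exp_log hpos]
      exact Real.exp_le_exp.2 hh
    calc Real.exp (-h) * ((q : ℝ) * r + 1) ≤ Real.exp (-h) * Real.exp h :=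
          mul_le_mul_of_nonneg_left h7 (Real.exp_pos _).le
      _ = 1 := by rw [← Real.exp_add]; simp
  have h7 : P.coeff k * x ^ k ≤ T r q k * x ^ k := by
    calc P.coeff k * x ^ k ≤ Real.exp (-h) * ∑ m ∈ range (q * r + 1), T r q m * x ^ m :=
          h4.trans h3
      _ ≤ Real.exp (-h) * (((q : ℝ) * r + 1) * (T r q k * x ^ k)) :=
          mul_le_mul_of_nonneg_left h5 (Real.exp_pos _).le
      _ = (Real.exp (-h) * ((q : ℝ) * r + 1)) * (T r q k * x ^ k) := by ring
      _ ≤ 1 * (T r q k * x ^ k) := mul_le_mul_of_nonneg_right h6 (by positivity)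
      _ = _ := one_mul _
  exact le_of_mul_le_mul_right h7 (pow_pos hxp k)

private theorem CA_step {t r d e : ℕ} (hr : 1 ≤ r) (ht : 1 ≤ t) (hdt : 2 * d ≤ t) (he1 : 1 ≤ e)
    (hed : e ≤ d) :
    T r t (t * r - (e - 1)) ≤ ((2 * d + 1) / ((r : ℝ) * t)) * T r t (t * r - e) := by
  have htr : t ≤ t * r := Nat.le_mul_of_pos_right t hr
  have hle : e ≤ t * r := by omega
  have h := T_end hr t (t * r - e)
  rw [show t * r - e + 1 = t * r - (e - 1) by omega] at h
  have hc : ((t * r - e : ℕ) : ℝ) = (t : ℝ) * r - e := by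
    rw [Nat.cast_sub hle]
    push_cast
    ring
  rw [hc] at h
  have hb : 0 ≤ T r t (t * r - e) := T_nonneg _ _ _
  generalize T r t (t * r - (e - 1)) = A at *
  generalize T r t (t * r - e) = B at *
  have hr' : (0 : ℝ) < r := by exact_mod_cast hr
  have ht' : (0 : ℝ) < t := by exact_mod_cast ht
  have hd' : (0 : ℝ) ≤ d := by positivity
  have hde : (e : ℝ) ≤ d := by exact_mod_cast hed
  have he' : (1 : ℝ) ≤ e := by exact_mod_cast he1
  have hdt' : 2 * (d : ℝ) ≤ t := by exact_mod_cast hdt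
  have h' : (r : ℝ) * ((t : ℝ) - e + 1) * A ≤ e * B := by
    have e1 : (t : ℝ) * r - ((t : ℝ) * r - e) = e := by ring
    have e2 : (t : ℝ) - ((t : ℝ) * r - ((t : ℝ) * r - e + 1)) = (t : ℝ) - e + 1 := by ring
    rw [e1, e2] at h
    exact h
  rw [div_mul_eq_mul_div, le_div_iff₀ (by positivity)]
  have hpos : (0 : ℝ) < (t : ℝ) - e + 1 := by linarith
  have hkey : (e : ℝ) * t ≤ (2 * d + 1) * ((t : ℝ) - e + 1) := by
    have p1 : 0 ≤ (2 * (d : ℝ) - e) * ((t : ℝ) - 2 * d) := mul_nonneg (by linarith) (by linarith)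
    have p2 : 0 ≤ (d : ℝ) * ((d : ℝ) - e) := mul_nonneg hd' (by linarith)
    nlinarith [p1, p2]
  have hfin : A * ((r : ℝ) * t) * ((t : ℝ) - e + 1) ≤ (2 * d + 1) * B * ((t : ℝ) - e + 1) := by
    calc A * ((r : ℝ) * t) * ((t : ℝ) - e + 1) = t * ((r : ℝ) * ((t : ℝ) - e + 1) * A) := by ring
      _ ≤ t * (e * B) := mul_le_mul_of_nonneg_left h' ht'.le
      _ = (e * t) * B := by ring
      _ ≤ ((2 * d + 1) * ((t : ℝ) - e + 1)) * B := mul_le_mul_of_nonneg_right hkey hb
      _ = _ := by ring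
  exact le_of_mul_le_mul_right hfin hpos

private theorem CA_pow {t r d : ℕ} (hr : 1 ≤ r) (ht : 1 ≤ t) (hdt : 2 * d ≤ t) {s : ℕ}
    (hs : s ≤ d) :
    T r t (t * r - (d - s)) ≤ ((2 * d + 1) / ((r : ℝ) * t)) ^ s * T r t (t * r - d) := by
  induction s with
  | zero => simp
  | succ s ih =>
    have h1 := CA_step hr ht hdt (e := d - s) (by omega) (by omega)
    rw [show d - s - 1 = d - (s + 1) by omega] at h1
    have h2 := ih (by omega)
    have hμ : (0 : ℝ) ≤ (2 * d + 1) / ((r : ℝ) * t) := by positivity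
    calc T r t (t * r - (d - (s + 1)))
        ≤ ((2 * d + 1) / ((r : ℝ) * t)) * T r t (t * r - (d - s)) := h1
      _ ≤ ((2 * d + 1) / ((r : ℝ) * t)) *
          (((2 * d + 1) / ((r : ℝ) * t)) ^ s * T r t (t * r - d)) :=
          mul_le_mul_of_nonneg_left h2 hμ
      _ = _ := by ring

theorem case_near {q t r d : ℕ} (hr : 1 ≤ r) (ht : 1 ≤ t) (hdt : 2 * d ≤ t) {P : Polynomial ℝ}
    (hP : NN P) (hdeg : P.natDegree ≤ q * r) {x0 h : ℝ} (hx0 : x0 * (2 * d + 1) ≤ (r : ℝ) * t)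
    (hh : (q : ℝ) * (2 * d + 1) ≤ h * t)
    (hgap : ∀ x, x0 ≤ x → P.eval x ≤ Real.exp (-h) * (Lp r).eval x ^ q) :
    (P * (Lp r) ^ t).coeff ((q + t) * r - d) ≤ T r (q + t) ((q + t) * r - d) := by
  have htr : t ≤ t * r := Nat.le_mul_of_pos_right t hr
  have hdtr : d ≤ t * r := by omega
  have hkk : (q + t) * r - d = q * r + (t * r - d) := by
    have h1 : (q + t) * r = q * r + t * r := by ring
    omega
  have hr' : (0 : ℝ) < r := by exact_mod_cast hr
  have ht' : (0 : ℝ) < t := by exact_mod_cast ht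
  have hpw : ∀ s, s ≤ d → T r t (t * r - (d - s)) ≤
      ((2 * d + 1) / ((r : ℝ) * t)) ^ s * T r t (t * r - d) := fun s hs => CA_pow hr ht hdt hs
  have hinv : x0 ≤ 1 / ((2 * d + 1) / ((r : ℝ) * t)) := by
    rw [one_div_div, le_div_iff₀ (by positivity)]
    exact hx0
  have h4 : (q : ℝ) * (r * ((2 * d + 1) / ((r : ℝ) * t))) ≤ h := by
    have h5 : (q : ℝ) * (r * ((2 * d + 1) / ((r : ℝ) * t))) = q * (2 * d + 1) / t := by
      field_simp
    rw [h5, div_le_iff₀ ht']
    exact hh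
  have hμ : (0 : ℝ) < (2 * d + 1) / ((r : ℝ) * t) := by positivity
  generalize (2 * d + 1) / ((r : ℝ) * t) = μ at *
  have hB0 : 0 ≤ T r t (t * r - d) := T_nonneg _ _ _
  have hL : (P * (Lp r) ^ t).coeff ((q + t) * r - d) ≤
      T r t (t * r - d) * (μ ^ (q * r) * P.eval (1 / μ)) := by
    rw [hkk, Polynomial.coeff_mul, Finset.Nat.sum_antidiagonal_eq_sum_range_succ_mk]
    have hsub : ∑ i ∈ range (q * r + 1),
        P.coeff i * ((Lp r) ^ t).coeff (q * r + (t * r - d) - i)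
        = ∑ i ∈ range (q * r + (t * r - d)).succ,
          P.coeff i * ((Lp r) ^ t).coeff (q * r + (t * r - d) - i) := by
      refine Finset.sum_subset ?_ ?_
      · intro i hi
        rw [Finset.mem_range] at hi ⊢
        omega
      · intro i _ hi
        rw [Finset.mem_range] at hi
        rw [Polynomial.coeff_eq_zero_of_natDegree_lt (by omega), zero_mul]
    refine le_trans (le_of_eq hsub.symm) ?_
    rw [Polynomial.eval_eq_sum_range' (n := q * r + 1) (by omega), Finset.mul_sum,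
      Finset.mul_sum]
    refine Finset.sum_le_sum fun i hi => ?_
    rw [Finset.mem_range] at hi
    have hTi : ((Lp r) ^ t).coeff (q * r + (t * r - d) - i) ≤
        μ ^ (q * r - i) * T r t (t * r - d) := by
      rcases Nat.lt_or_ge d (q * r - i) with hlt | hge
      · have h1 : ((Lp r) ^ t).coeff (q * r + (t * r - d) - i) = 0 := T_eq_zero (by omega)
        rw [h1]
        exact mul_nonneg (pow_nonneg hμ.le _) hB0
      · have h1 := hpw (q * r - i) hge
        rw [show t * r - (d - (q * r - i)) = q * r + (t * r - d) - i by omega] at h1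
        exact h1
    have hμi : μ ^ (q * r) * (1 / μ) ^ i = μ ^ (q * r - i) := by
      rw [one_div, inv_pow, pow_sub₀ _ hμ.ne' (by omega)]
    calc P.coeff i * ((Lp r) ^ t).coeff (q * r + (t * r - d) - i)
        ≤ P.coeff i * (μ ^ (q * r - i) * T r t (t * r - d)) :=
          mul_le_mul_of_nonneg_left hTi (hP i)
      _ = P.coeff i * ((μ ^ (q * r) * (1 / μ) ^ i) * T r t (t * r - d)) := by rw [hμi]
      _ = _ := by ring
  have hR : (r.factorial : ℝ) ^ q * T r t (t * r - d) ≤ T r (q + t) ((q + t) * r - d) := by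
    have h1 : T r (q + t) ((q + t) * r - d) =
        ∑ p ∈ antidiagonal ((q + t) * r - d), T r q p.1 * T r t p.2 := by
      unfold T
      rw [pow_add, Polynomial.coeff_mul]
    rw [h1, ← T_top r q]
    have hmem : (q * r, t * r - d) ∈ antidiagonal ((q + t) * r - d) := by
      rw [Finset.HasAntidiagonal.mem_antidiagonal]
      exact hkk.symm
    exact Finset.single_le_sum (f := fun p : ℕ × ℕ => T r q p.1 * T r t p.2)
      (fun p _ => mul_nonneg (T_nonneg _ _ _) (T_nonneg _ _ _)) hmem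
  have hE := hgap (1 / μ) hinv
  have hLp := Lp_eval_le r (x := 1 / μ) (by positivity)
  have hM : μ ^ (q * r) * P.eval (1 / μ) ≤ (r.factorial : ℝ) ^ q := by
    have h1 : (Lp r).eval (1 / μ) ^ q ≤
        ((r.factorial : ℝ) * (1 / μ) ^ r * Real.exp (r / (1 / μ))) ^ q := by
      have h0 := Lp_pos r (x := 1 / μ) (by positivity)
      exact pow_le_pow_left₀ (by linarith) hLp q
    have h2 : ((r.factorial : ℝ) * (1 / μ) ^ r * Real.exp (r / (1 / μ))) ^ q =
        (r.factorial : ℝ) ^ q * ((1 / μ) ^ (q * r)) * Real.exp (q * (r * μ)) := by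
      rw [mul_pow, mul_pow, ← pow_mul, ← Real.exp_nat_mul, mul_comm r q, div_div_eq_mul_div,
        div_one]
    have h3 : μ ^ (q * r) * (1 / μ) ^ (q * r) = 1 := by
      rw [← mul_pow, mul_one_div_cancel hμ.ne', one_pow]
    have h5 : Real.exp (-h) * Real.exp (q * (r * μ)) ≤ 1 := by
      rw [← Real.exp_add]
      exact Real.exp_le_one_iff.2 (by linarith)
    calc μ ^ (q * r) * P.eval (1 / μ)
        ≤ μ ^ (q * r) * (Real.exp (-h) *
          ((r.factorial : ℝ) ^ q * ((1 / μ) ^ (q * r)) * Real.exp (q * (r * μ)))) := by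
          refine mul_le_mul_of_nonneg_left ?_ (pow_nonneg hμ.le _)
          refine hE.trans (mul_le_mul_of_nonneg_left ?_ (Real.exp_pos _).le)
          rw [← h2]
          exact h1
      _ = (μ ^ (q * r) * (1 / μ) ^ (q * r)) * (r.factorial : ℝ) ^ q *
          (Real.exp (-h) * Real.exp (q * (r * μ))) := by ring
      _ ≤ 1 * (r.factorial : ℝ) ^ q * 1 := by
          rw [h3]
          exact mul_le_mul_of_nonneg_left h5 (by positivity)
      _ = _ := by ring
  calc (P * (Lp r) ^ t).coeff ((q + t) * r - d)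
      ≤ T r t (t * r - d) * (μ ^ (q * r) * P.eval (1 / μ)) := hL
    _ ≤ T r t (t * r - d) * (r.factorial : ℝ) ^ q := mul_le_mul_of_nonneg_left hM hB0
    _ = (r.factorial : ℝ) ^ q * T r t (t * r - d) := mul_comm _ _
    _ ≤ _ := hR

end Pool.Agent.Lib.MP_eeed5c_coT
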