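import Pool.Agent.Lib.MP_eeed5c_co_T.RA
import Pool.Agent.Lib.MP_eeed5c_co_T.PB

/-!
# The coefficients near the maximum

`T m = T r t m`, `lam m = T (m-1) / T m` for `1 ≤ m ≤ t r` (nondecreasing in `m` by `T_lc`), `ε_m = (lam m + 2 r)/m`. `T_rev` (with `i + 1 = m`): `T m^2 (1 - ε_m) ≤ T (m+1) T (m-1)`, i.e. for `m + 1 ≤ t r`: `lam m ≥ (1 - ε_m) lam (m+1)`. Given `1 ≤ j`, `j + 1 ≤ t r`, `lam j ≤ x ≤ lam (j+1)` (written
without division), `m0 > 0`, `m0 ≤ j`, `ε = 2 (x + r) / m0 ≤ 1/4`. Claim: `T j x^j (1 - 2 ε (m-j)^2) ≤ T m x^m` for all `m ≥ m0`.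
* Down (`m = j - a`, `m ≥ m0`, `m ≥ 0`): for `m0 ≤ l ≤ j`, `l ≥ 1`: `lam l ≤ lam j ≤ x`, `ε_l ≤ (x + 2 r)/m0 ≤ ε`. So `lam l ≥ (1-ε)^(j+1-l) x` for `max m0 1 ≤ l ≤ j` by descending induction from `lam (j+1) ≥ x`. Hence `T (l-1) x^(l-1) = (lam l / x) T l x^l ≥ (1-ε)^(j+1-l) T l x^l` and by
induction `T (j-a) x^(j-a) ≥ (1-ε)^(a(a+1)/2) T j x^j ≥ (1-ε)^(a^2) T j x^j ≥ (1 - a^2 ε) T j x^j` (`one_add_mul_le_pow` (Bernoulli)) as long as all the `l` used (`j-a+1, …, j`) are `≥ m0`. (A convenient induction: claim for `a` with `(1-ε)^(a*a)`: one step multiplies by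
`(1-ε)^(a+1)` and `a*a + (a+1) ≤ (a+1)*(a+1)`.)
* Up (`m = j + a`): if `a ε > 1/2` then `4 ε^2 a^2 > 1`, and `4 ε^2 ≤ ε`... so `2 ε a^2 ≥ 8 ε^2 a^2 > 1` (as `ε ≤ 1/4`) and the claim is trivial (`T ≥ 0`, `x > 0`). Otherwise show by induction on `a` with `a ε ≤ 1/2`: `T (j+a) > 0`, `lam (j+a) ≤ x / (1-ε)^a ≤ 2 x` (`(1-ε)^a ≥ 1 - a ε ≥ 1/2`), so
`ε_(j+a) ≤ (2 x + 2 r)/(j+a) ≤ ε`, so (`T_rev` at `m = j+a`, needs `j + a ≤ t r`, true because `T (j+a) > 0`) `T (j+a+1) T (j+a-1) ≥ (1-ε) T (j+a)^2`, which gives `T (j+a+1) > 0` and `lam (j+a+1) ≤ lam (j+a)/(1-ε) ≤ x/(1-ε)^(a+1)`; and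
`T (j+a+1) x^(j+a+1) = (x / lam (j+a+1)) T (j+a) x^(j+a) ≥ (1-ε)^(a+1) T (j+a) x^(j+a)`. So `T (j+a) x^(j+a) ≥ (1-ε)^(a^2) T j x^j ≥ (1 - a^2 ε) T j x^j`.
-/

set_option autoImplicit false

namespace Pool.Agent.Lib.MP_eeed5c_coT

open Finset Pool.Agent.Lib.MP_eeed5c_co

private theorem WB_rev {r t i : ℕ} (hr : 1 ≤ r) {x m0 ε : ℝ} (hx : 0 < x) (hm0 : 0 < m0)
    (hε : ε = 2 * (x + r) / m0) (hi : i + 1 ≤ t * r) (hmi : m0 ≤ (i : ℝ) + 1)
    (h : T r t i ≤ 2 * x * T r t (i + 1)) :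
    T r t (i + 1) ^ 2 * (1 - ε) ≤ T r t (i + 2) * T r t i := by
  have hT : 0 < T r t (i + 1) := T_pos hi
  have h1 : T r t i / T r t (i + 1) ≤ 2 * x := by
    rw [div_le_iff₀ hT]
    exact h
  have hr0 : (0 : ℝ) ≤ r := Nat.cast_nonneg r
  have h2 : (T r t i / T r t (i + 1) + 2 * r) / ((i : ℝ) + 1) ≤ ε := by
    rw [hε]
    refine div_le_div₀ (by positivity) ?_ hm0 hmi
    linarith
  refine le_trans ?_ (T_rev hr hi)
  refine mul_le_mul_of_nonneg_left ?_ (sq_nonneg _)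
  linarith

private theorem WB_down {r t j : ℕ} (hr : 1 ≤ r) (hj2 : j + 1 ≤ t * r) {x : ℝ} (hx : 0 < x)
    (h1 : ∀ l, l + 1 ≤ j → T r t l ≤ x * T r t (l + 1)) (h2 : x * T r t (j + 1) ≤ T r t j)
    {m0 ε : ℝ} (hm0 : 0 < m0) (hε : ε = 2 * (x + r) / m0) (hε1 : ε ≤ 1) :
    ∀ a l : ℕ, l + 1 + a = j → m0 ≤ (l : ℝ) + 1 →
      (1 - ε) ^ (a + 1) * (x * T r t (l + 1)) ≤ T r t l := by
  have hε0 : 0 ≤ 1 - ε := by linarith
  intro a
  induction a with
  | zero =>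
    intro l hl hml
    have hlj : l + 1 = j := by omega
    have hT : 0 < T r t (l + 1) := T_pos (by omega)
    have hb := h1 l (by omega)
    have hrev := WB_rev hr hx hm0 hε (by omega : l + 1 ≤ t * r) hml
      (by have := mul_nonneg hx.le hT.le; linarith)
    have h3 : x * T r t (l + 2) ≤ T r t (l + 1) := by
      rw [← hlj] at h2
      exact h2
    have h4 : T r t (l + 1) * ((1 - ε) ^ (0 + 1) * (x * T r t (l + 1))) ≤
        T r t (l + 1) * T r t l := by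
      calc T r t (l + 1) * ((1 - ε) ^ (0 + 1) * (x * T r t (l + 1)))
          = x * (T r t (l + 1) ^ 2 * (1 - ε)) := by ring
        _ ≤ x * (T r t (l + 2) * T r t l) := mul_le_mul_of_nonneg_left hrev hx.le
        _ = (x * T r t (l + 2)) * T r t l := by ring
        _ ≤ T r t (l + 1) * T r t l := mul_le_mul_of_nonneg_right h3 (T_nonneg _ _ _)
    exact le_of_mul_le_mul_left h4 hT
  | succ a ih =>
    intro l hl hml
    have hT : 0 < T r t (l + 1) := T_pos (by omega)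
    have hT2 : 0 < T r t (l + 2) := T_pos (by omega)
    have hb := h1 l (by omega)
    have hrev := WB_rev hr hx hm0 hε (by omega : l + 1 ≤ t * r) hml
      (by have := mul_nonneg hx.le hT.le; linarith)
    have h3 := ih (l + 1) (by omega) (by push_cast; linarith)
    have h4 : T r t (l + 2) * ((1 - ε) ^ (a + 1 + 1) * (x * T r t (l + 1))) ≤
        T r t (l + 2) * T r t l := by
      calc T r t (l + 2) * ((1 - ε) ^ (a + 1 + 1) * (x * T r t (l + 1)))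
          = ((1 - ε) * T r t (l + 1)) * ((1 - ε) ^ (a + 1) * (x * T r t (l + 2))) := by
            rw [pow_succ (1 - ε) (a + 1)]; ring
        _ ≤ ((1 - ε) * T r t (l + 1)) * T r t (l + 1) :=
            mul_le_mul_of_nonneg_left h3 (mul_nonneg hε0 hT.le)
        _ = T r t (l + 1) ^ 2 * (1 - ε) := by ring
        _ ≤ T r t (l + 2) * T r t l := hrev
    exact le_of_mul_le_mul_left h4 hT2

private theorem WB_down2 {r t j : ℕ} (hr : 1 ≤ r) (hj2 : j + 1 ≤ t * r) {x : ℝ} (hx : 0 < x)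
    (h1 : ∀ l, l + 1 ≤ j → T r t l ≤ x * T r t (l + 1)) (h2 : x * T r t (j + 1) ≤ T r t j)
    {m0 ε : ℝ} (hm0 : 0 < m0) (hε : ε = 2 * (x + r) / m0) (hεp : 0 ≤ ε) (hε1 : ε ≤ 1) :
    ∀ a l : ℕ, l + a = j → m0 ≤ (l : ℝ) →
      (1 - ε) ^ (a * a) * (T r t j * x ^ j) ≤ T r t l * x ^ l := by
  have hε0 : 0 ≤ 1 - ε := by linarith
  intro a
  induction a with
  | zero =>
    intro l hl hml
    have : l = j := by omega
    subst this
    simp
  | succ a ih =>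
    intro l hl hml
    have h3 := ih (l + 1) (by omega) (by push_cast; linarith)
    have h4 := WB_down hr hj2 hx h1 h2 hm0 hε hε1 a l (by omega) (by linarith)
    have hA : 0 ≤ T r t j * x ^ j := mul_nonneg (T_nonneg _ _ _) (pow_nonneg hx.le _)
    have h5 : (1 - ε) ^ ((a + 1) * (a + 1)) ≤ (1 - ε) ^ (a + 1) * (1 - ε) ^ (a * a) := by
      rw [← pow_add]
      exact pow_le_pow_of_le_one hε0 (by linarith) (by nlinarith)
    calc (1 - ε) ^ ((a + 1) * (a + 1)) * (T r t j * x ^ j)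
        ≤ ((1 - ε) ^ (a + 1) * (1 - ε) ^ (a * a)) * (T r t j * x ^ j) :=
          mul_le_mul_of_nonneg_right h5 hA
      _ = (1 - ε) ^ (a + 1) * ((1 - ε) ^ (a * a) * (T r t j * x ^ j)) := by ring
      _ ≤ (1 - ε) ^ (a + 1) * (T r t (l + 1) * x ^ (l + 1)) :=
          mul_le_mul_of_nonneg_left h3 (pow_nonneg hε0 _)
      _ = ((1 - ε) ^ (a + 1) * (x * T r t (l + 1))) * x ^ l := by rw [pow_succ x l]; ring
      _ ≤ T r t l * x ^ l := mul_le_mul_of_nonneg_right h4 (pow_nonneg hx.le _)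

private theorem WB_up {r t j : ℕ} (hr : 1 ≤ r) (hj2 : j + 1 + 1 ≤ t * r) {x : ℝ} (hx : 0 < x)
    (h1 : T r t j ≤ x * T r t (j + 1))
    {m0 ε : ℝ} (hm0 : 0 < m0) (hm0j : m0 ≤ (j : ℝ) + 1) (hε : ε = 2 * (x + r) / m0) (hεp : 0 ≤ ε)
    (hε1 : ε ≤ 1 / 4) :
    ∀ a : ℕ, (a : ℝ) * ε ≤ 1 / 2 → (j + 1 + a ≤ t * r ∧
      (1 - ε) ^ a * T r t (j + a) ≤ x * T r t (j + a + 1) ∧
      (1 - ε) ^ (a * a) * (T r t (j + 1) * x ^ (j + 1)) ≤ T r t (j + 1 + a) * x ^ (j + 1 + a)) := by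
  have hε0 : 0 ≤ 1 - ε := by linarith
  intro a
  induction a with
  | zero =>
    intro _
    exact ⟨by omega, by simpa using h1, by simp⟩
  | succ a ih =>
    intro ha
    push_cast at ha
    have ha' : (a : ℝ) * ε ≤ 1 / 2 := by linarith
    obtain ⟨i1, i2, i3⟩ := ih ha'
    have hT : 0 < T r t (j + a + 1) := T_pos (by omega)
    have hTa : 0 < T r t (j + a) := T_pos (by omega)
    have hber : 1 / 2 ≤ (1 - ε) ^ a := by
      have h5 := one_add_mul_le_pow (by linarith : (-2 : ℝ) ≤ -ε) a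
      have h6 : (1 : ℝ) + -ε = 1 - ε := by ring
      rw [h6] at h5
      linarith
    have h7 : T r t (j + a) ≤ 2 * x * T r t (j + a + 1) := by
      have h8 : 1 / 2 * T r t (j + a) ≤ (1 - ε) ^ a * T r t (j + a) :=
        mul_le_mul_of_nonneg_right hber hTa.le
      linarith
    have hrev := WB_rev hr hx hm0 hε (by omega : j + a + 1 ≤ t * r)
      (by push_cast; have : (0 : ℝ) ≤ a := Nat.cast_nonneg a; linarith) h7
    have hpos : 0 < T r t (j + a + 2) * T r t (j + a) := by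
      refine lt_of_lt_of_le ?_ hrev
      have : 0 < 1 - ε := by linarith
      positivity
    have hpos2 : 0 < T r t (j + a + 2) := by
      by_contra hcon
      push Not at hcon
      have := mul_nonneg (sub_nonneg.2 hcon) hTa.le
      linarith
    have hle : j + a + 2 ≤ t * r := by
      by_contra hcon
      push Not at hcon
      rw [T_eq_zero hcon] at hpos2
      exact lt_irrefl _ hpos2
    have h9 : (1 - ε) ^ (a + 1) * T r t (j + a + 1) ≤ x * T r t (j + a + 2) := by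
      have h10 : T r t (j + a + 1) * ((1 - ε) ^ (a + 1) * T r t (j + a + 1)) ≤
          T r t (j + a + 1) * (x * T r t (j + a + 2)) := by
        calc T r t (j + a + 1) * ((1 - ε) ^ (a + 1) * T r t (j + a + 1))
            = (1 - ε) ^ a * (T r t (j + a + 1) ^ 2 * (1 - ε)) := by rw [pow_succ (1 - ε) a]; ring
          _ ≤ (1 - ε) ^ a * (T r t (j + a + 2) * T r t (j + a)) :=
              mul_le_mul_of_nonneg_left hrev (pow_nonneg hε0 _)
          _ = T r t (j + a + 2) * ((1 - ε) ^ a * T r t (j + a)) := by ring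
          _ ≤ T r t (j + a + 2) * (x * T r t (j + a + 1)) :=
              mul_le_mul_of_nonneg_left i2 hpos2.le
          _ = T r t (j + a + 1) * (x * T r t (j + a + 2)) := by ring
      exact le_of_mul_le_mul_left h10 hT
    refine ⟨by omega, h9, ?_⟩
    have hA : 0 ≤ T r t (j + 1) * x ^ (j + 1) := mul_nonneg (T_nonneg _ _ _) (pow_nonneg hx.le _)
    have h5 : (1 - ε) ^ ((a + 1) * (a + 1)) ≤ (1 - ε) ^ (a + 1) * (1 - ε) ^ (a * a) := by
      rw [← pow_add]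
      exact pow_le_pow_of_le_one hε0 (by linarith) (by nlinarith)
    have e1 : j + 1 + a = j + a + 1 := by omega
    have e2 : j + 1 + (a + 1) = j + a + 2 := by omega
    rw [e1] at i3
    rw [e2]
    calc (1 - ε) ^ ((a + 1) * (a + 1)) * (T r t (j + 1) * x ^ (j + 1))
        ≤ ((1 - ε) ^ (a + 1) * (1 - ε) ^ (a * a)) * (T r t (j + 1) * x ^ (j + 1)) :=
          mul_le_mul_of_nonneg_right h5 hA
      _ = (1 - ε) ^ (a + 1) * ((1 - ε) ^ (a * a) * (T r t (j + 1) * x ^ (j + 1))) := by ring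
      _ ≤ (1 - ε) ^ (a + 1) * (T r t (j + a + 1) * x ^ (j + a + 1)) :=
          mul_le_mul_of_nonneg_left i3 (pow_nonneg hε0 _)
      _ = ((1 - ε) ^ (a + 1) * T r t (j + a + 1)) * x ^ (j + a + 1) := by ring
      _ ≤ (x * T r t (j + a + 2)) * x ^ (j + a + 1) :=
          mul_le_mul_of_nonneg_right h9 (pow_nonneg hx.le _)
      _ = T r t (j + a + 2) * x ^ (j + a + 2) := by rw [pow_succ x (j + a + 1)]; ring

theorem window {r t j : ℕ} (hr : 1 ≤ r) (hj1 : 1 ≤ j) (hj2 : j + 1 ≤ t * r) {x : ℝ} (hx : 0 < x)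
    (h1 : T r t (j - 1) ≤ x * T r t j) (h2 : x * T r t (j + 1) ≤ T r t j) {m0 ε : ℝ}
    (hm0 : 0 < m0) (hm0j : m0 ≤ j) (hε : ε = 2 * (x + r) / m0) (hε4 : ε ≤ 1 / 4) (m : ℕ)
    (hm : m0 ≤ m) :
    T r t j * x ^ j * (1 - 2 * ε * ((m : ℝ) - j) ^ 2) ≤ T r t m * x ^ m := by
  obtain ⟨i, rfl⟩ : ∃ i, j = i + 1 := ⟨j - 1, by omega⟩
  rw [Nat.add_sub_cancel] at h1
  have hr0 : (0 : ℝ) ≤ r := Nat.cast_nonneg r
  have hεp : 0 ≤ ε := by rw [hε]; positivity
  have hTj : 0 < T r t (i + 1) := T_pos (by omega)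
  have hA : 0 ≤ T r t (i + 1) * x ^ (i + 1) := by positivity
  have key : ∀ a : ℕ, (1 - ε) ^ (a * a) * (T r t (i + 1) * x ^ (i + 1)) ≤ T r t m * x ^ m →
      ((m : ℝ) - (i + 1 : ℕ)) ^ 2 = (a : ℝ) ^ 2 →
      T r t (i + 1) * x ^ (i + 1) * (1 - 2 * ε * ((m : ℝ) - (i + 1 : ℕ)) ^ 2) ≤
        T r t m * x ^ m := by
    intro a ha hsq
    rw [hsq]
    refine le_trans ?_ ha
    rw [mul_comm]
    refine mul_le_mul_of_nonneg_right ?_ hA
    have h5 := one_add_mul_le_pow (by linarith : (-2 : ℝ) ≤ -ε) (a * a)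
    have h6 : (1 : ℝ) + -ε = 1 - ε := by ring
    rw [h6] at h5
    push_cast at h5
    have h7 : 0 ≤ ε * (a : ℝ) ^ 2 := by positivity
    linarith
  rcases Nat.lt_or_ge m (i + 1) with hmi | hmi
  · have h3 : ∀ l, l + 1 ≤ i + 1 → T r t l ≤ x * T r t (l + 1) := by
      intro l hl
      have h4 := T_lc r t (by omega : l ≤ i)
      have h5 : T r t (i + 1) * T r t l ≤ T r t (i + 1) * (x * T r t (l + 1)) := by
        calc T r t (i + 1) * T r t l = T r t l * T r t (i + 1) := mul_comm _ _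
          _ ≤ T r t (l + 1) * T r t i := h4
          _ ≤ T r t (l + 1) * (x * T r t (i + 1)) :=
              mul_le_mul_of_nonneg_left h1 (T_nonneg _ _ _)
          _ = T r t (i + 1) * (x * T r t (l + 1)) := by ring
      exact le_of_mul_le_mul_left h5 hTj
    have h4 := WB_down2 hr hj2 hx h3 h2 hm0 hε hεp (by linarith) (i + 1 - m) m (by omega) hm
    refine key _ h4 ?_
    rw [Nat.cast_sub hmi.le]
    ring
  · obtain ⟨a, rfl⟩ : ∃ a, m = i + 1 + a := ⟨m - (i + 1), by omega⟩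
    rcases le_or_gt ((a : ℝ) * ε) (1 / 2) with ha | ha
    · have h4 := (WB_up hr hj2 hx h1 hm0 (by push_cast at hm0j; exact hm0j) hε hεp hε4 a ha).2.2
      refine key a h4 ?_
      push_cast
      ring
    · have ha0 : (0 : ℝ) ≤ a := Nat.cast_nonneg a
      have h5 : 2 < (a : ℝ) := by
        by_contra hcon
        push Not at hcon
        have h6 : (a : ℝ) * ε ≤ 2 * (1 / 4) := mul_le_mul hcon hε4 hεp (by norm_num)
        linarith
      have h6 : (((i + 1 + a : ℕ) : ℝ) - (i + 1 : ℕ)) ^ 2 = (a : ℝ) ^ 2 := by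
        push_cast
        ring
      rw [h6]
      have h7 : 1 / 2 * (a : ℝ) ≤ (a : ℝ) * ε * a := mul_le_mul_of_nonneg_right ha.le ha0
      have h8 : 1 - 2 * ε * (a : ℝ) ^ 2 ≤ 0 := by
        have h9 : 2 * ε * (a : ℝ) ^ 2 = 2 * ((a : ℝ) * ε * a) := by ring
        rw [h9]
        linarith
      have h10 : T r t (i + 1) * x ^ (i + 1) * (1 - 2 * ε * (a : ℝ) ^ 2) ≤ 0 :=
        mul_nonpos_of_nonneg_of_nonpos hA h8
      exact h10.trans (mul_nonneg (T_nonneg _ _ _) (pow_nonneg hx.le _))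

end Pool.Agent.Lib.MP_eeed5c_coT
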