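import Pool.Agent.Lib.MP_eeed5c_co_T.WA
import Pool.Agent.Lib.MP_eeed5c_co_T.PA
import Pool.Agent.Lib.MP_eeed5c_co_T.PB

/-!
# The choice of the fugacity

`T m = T r t m`, `j_s = t r - d + s`, `u_s = T j_s / T (j_s + 1)` for `0 ≤ s ≤ d-1` (so `j_s + 1 ≤ t r`, all these `T` are positive: `T_pos`), `μ(x) = q (r - mb r x)`; `μ(x) ≤ q r / x` and `0 ≤ μ(x) ≤ q r` for `x > 0` (`mb_facts`); `μ` is continuous on `(0, ∞)` (`Lp r` has positive values there,
`Polynomial.continuous`). `u_s ≤ u_(s+1)` by `T_lc`.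
Let `s` be the least element of `{0, …, d-1}` with `μ(u_s) ≤ s + 1`. It exists, and `2 s ≤ d`, because `s1 = d / 2` (integer part, `≤ d - 1`) has the property: `D = t r - j_{s1} = d - s1 ≤ (d+1)/2`, by `T_mid` `(j+1) T (j+1) ≤ r D T j`, so `u_{s1} ≥ (j+1)/(r D)` with
`j + 1 ≥ t r - d ≥ t r / 12` (`hd2`), hence `u_{s1} ≥ (t r/12)/(r (d+1)/2) = t/(6(d+1))` and `μ(u_{s1}) ≤ q r/u_{s1} ≤ 6 q r (d+1)/t ≤ (d+1)/2 ≤ s1 + 1` (`12 q r ≤ t`). (`t ≥ 1` since `d < t r`.)
Choice of `x` (with `j = j_s`, note `j ≥ t r - d ≥ 1`, `T (j-1)/T j ≤ T j/T(j+1) = u_s` by `T_lc`; for `s ≥ 1` `T (j-1)/T j = u_(s-1)`):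
* `s = 0`: `x = u_0`. `μ(x) ≤ 1`, so `(μ - 0)^2 ≤ μ`.
* `s ≥ 1`: by minimality `μ(u_(s-1)) > s`. If `μ(u_s) ≥ s`: `x = u_s`, `s ≤ μ(x) ≤ s+1`, `(μ - s)^2 ≤ 1 ≤ s ≤ μ`. If `μ(u_s) < s`: by the intermediate value theorem (`intermediate_value_Icc'` on `[u_(s-1), u_s]`) there is `x` in between with `μ(x) = s`: `0 ≤ μ(x)`.
In all cases `T (j-1) ≤ x T j`, `x T (j+1) ≤ T j`, `0 < x ≤ u_s`. `s ≤ q r`: trivial for `s = 0`, and `s ≤ μ(x) ≤ q r` for `s ≥ 1` (cast). `x ≤ u_s ≤ (j+1)/(t r - j)` by `T_low` (`(t r - j) T j ≤ (j+1) T (j+1)`), `j + 1 ≤ t r`, `t r - j = d - s ≥ d/2`: `x ≤ 2 t r / d`.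
-/

set_option autoImplicit false

namespace Pool.Agent.Lib.MP_eeed5c_coT

open Finset Pool.Agent.Lib.MP_eeed5c_co

private theorem WC_cont (r q : ℕ) {a b : ℝ} (ha : 0 < a) :
    ContinuousOn (fun x => (q : ℝ) * (r - mb r x)) (Set.Icc a b) := by
  unfold mb
  refine ContinuousOn.mul continuousOn_const (ContinuousOn.sub continuousOn_const ?_)
  refine ContinuousOn.div ?_ ?_ ?_
  · exact (continuous_id.mul (Lp r).derivative.continuous).continuousOn
  · exact (Lp r).continuous.continuousOn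
  · intro x hx
    have := Lp_pos r (ha.le.trans hx.1)
    linarith

theorem select {r t q d : ℕ} (hr : 1 ≤ r) (hd : 1 ≤ d) (hdt : d < t * r)
    (hd2 : t * r ≤ 12 * (t * r - d)) (ht : 12 * (q * r) ≤ t) :
    ∃ (s : ℕ) (x : ℝ), s < d ∧ 2 * s ≤ d ∧ s ≤ q * r ∧ 0 < x ∧ x ≤ 2 * (t * r) / d ∧
      T r t (t * r - d + s - 1) ≤ x * T r t (t * r - d + s) ∧
      x * T r t (t * r - d + s + 1) ≤ T r t (t * r - d + s) ∧
      ((q : ℝ) * (r - mb r x) - s) ^ 2 ≤ q * (r - mb r x) := by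
  classical
  obtain ⟨b, hb⟩ : ∃ b, b = t * r - d := ⟨_, rfl⟩
  rw [← hb] at hd2 ⊢
  have hbd : b + d = t * r := by omega
  have hb1 : 1 ≤ b := by omega
  have hrp : (0 : ℝ) < r := by exact_mod_cast (by omega : 0 < r)
  have hq0 : (0 : ℝ) ≤ q := Nat.cast_nonneg q
  have hbdr : (b : ℝ) + d = t * r := by exact_mod_cast hbd
  set μ : ℝ → ℝ := fun x => (q : ℝ) * (r - mb r x) with hμ
  have hμ0 : ∀ x, 0 < x → 0 ≤ μ x := fun x hx =>
    mul_nonneg hq0 (by have := (mb_facts r hx).2.1; linarith)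
  have hμ1 : ∀ x, 0 < x → μ x ≤ q * r := fun x hx =>
    mul_le_mul_of_nonneg_left (by have := (mb_facts r hx).1; linarith) hq0
  have hμ2 : ∀ x, 0 < x → x * μ x ≤ q * r := by
    intro x hx
    have h1 := (mb_facts r hx).2.2
    rw [le_div_iff₀ hx] at h1
    have h2 := mul_le_mul_of_nonneg_left h1 hq0
    calc x * μ x = q * ((r - mb r x) * x) := by rw [hμ]; ring
      _ ≤ q * r := h2
  set u : ℕ → ℝ := fun s => T r t (b + s) / T r t (b + s + 1) with hu
  have hT1 : ∀ s, s < d → 0 < T r t (b + s + 1) := fun s hs => T_pos (by omega)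
  have hT0 : ∀ s, s < d → 0 < T r t (b + s) := fun s hs => T_pos (by omega)
  have hup : ∀ s, s < d → 0 < u s := fun s hs => div_pos (hT0 s hs) (hT1 s hs)
  have hue : ∀ s, s < d → u s * T r t (b + s + 1) = T r t (b + s) := fun s hs =>
    div_mul_cancel₀ _ (hT1 s hs).ne'
  -- the value at d / 2
  have hmid : d / 2 < d ∧ μ (u (d / 2)) ≤ ((d / 2 : ℕ) : ℝ) + 1 := by
    have hs1 : d / 2 < d := by omega
    refine ⟨hs1, ?_⟩
    obtain ⟨s1, hs1e⟩ : ∃ s1, s1 = d / 2 := ⟨_, rfl⟩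
    rw [← hs1e] at hs1 ⊢
    have hT' := hT1 s1 hs1
    have hTT := hT0 s1 hs1
    have h1 := T_mid r t (b + s1)
    push_cast at h1
    have hd1 : (d : ℝ) ≤ 2 * s1 + 1 := by exact_mod_cast (by omega : d ≤ 2 * s1 + 1)
    have hbq : (q : ℝ) * r * r ≤ b := by
      have h2 : q * r * r ≤ b := by
        have h3 : 12 * (q * r) * r ≤ t * r := Nat.mul_le_mul_right r ht
        have h4 : 12 * (q * r) * r = 12 * (q * r * r) := by ring
        omega
      exact_mod_cast h2
    have h5 : (r : ℝ) * ((q : ℝ) * r * T r t (b + s1 + 1)) ≤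
        (r : ℝ) * (((s1 : ℝ) + 1) * T r t (b + s1)) := by
      calc (r : ℝ) * ((q : ℝ) * r * T r t (b + s1 + 1))
          = ((q : ℝ) * r * r) * T r t (b + s1 + 1) := by ring
        _ ≤ ((b : ℝ) + s1 + 1) * T r t (b + s1 + 1) := by
            refine mul_le_mul_of_nonneg_right ?_ hT'.le
            have : (0 : ℝ) ≤ s1 := Nat.cast_nonneg s1
            linarith
        _ ≤ (r : ℝ) * (((t : ℝ) * r - ((b : ℝ) + s1)) * T r t (b + s1)) := h1
        _ ≤ (r : ℝ) * (((s1 : ℝ) + 1) * T r t (b + s1)) := by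
            refine mul_le_mul_of_nonneg_left ?_ hrp.le
            refine mul_le_mul_of_nonneg_right ?_ hTT.le
            linarith
    have h6 : (q : ℝ) * r * T r t (b + s1 + 1) ≤ ((s1 : ℝ) + 1) * T r t (b + s1) :=
      le_of_mul_le_mul_left h5 hrp
    have h7 := hμ2 (u s1) (hup s1 hs1)
    have h8 : T r t (b + s1) * μ (u s1) ≤ T r t (b + s1) * ((s1 : ℝ) + 1) := by
      calc T r t (b + s1) * μ (u s1) = (u s1 * μ (u s1)) * T r t (b + s1 + 1) := by
            rw [← hue s1 hs1]; ring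
        _ ≤ ((q : ℝ) * r) * T r t (b + s1 + 1) := mul_le_mul_of_nonneg_right h7 hT'.le
        _ ≤ ((s1 : ℝ) + 1) * T r t (b + s1) := h6
        _ = T r t (b + s1) * ((s1 : ℝ) + 1) := mul_comm _ _
    exact le_of_mul_le_mul_left h8 hTT
  have hex : ∃ s : ℕ, s < d ∧ μ (u s) ≤ (s : ℝ) + 1 := ⟨d / 2, hmid⟩
  obtain ⟨s, hs⟩ : ∃ s, s = Nat.find hex := ⟨_, rfl⟩
  have hsp : s < d ∧ μ (u s) ≤ (s : ℝ) + 1 := by rw [hs]; exact Nat.find_spec hex
  have hsd : s ≤ d / 2 := by rw [hs]; exact Nat.find_min' hex hmid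
  have hmin : ∀ k, k < s → ¬ (k < d ∧ μ (u k) ≤ (k : ℝ) + 1) := by
    intro k hk
    rw [hs] at hk
    exact Nat.find_min hex hk
  -- the choice of x
  have hx : ∃ x : ℝ, 0 < x ∧ x ≤ u s ∧ T r t (b + s - 1) ≤ x * T r t (b + s) ∧
      (μ x - s) ^ 2 ≤ μ x ∧ (s : ℝ) ≤ q * r := by
    rcases Nat.eq_zero_or_pos s with h0 | h0
    · rw [h0] at hsp ⊢
      have hx0 := hup 0 hsp.1
      refine ⟨u 0, hx0, le_refl _, ?_, ?_, by
        rw [Nat.cast_zero]; exact mul_nonneg hq0 hrp.le⟩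
      · have h1 := T_lc r t (by omega : b - 1 ≤ b)
        have h2 : b - 1 + 1 = b := by omega
        rw [h2] at h1
        have h3 : u 0 * T r t (b + 1) = T r t b := hue 0 hsp.1
        have h4 : 0 < T r t (b + 1) := hT1 0 hsp.1
        show T r t (b - 1) ≤ u 0 * T r t b
        have h5 : T r t (b + 1) * T r t (b - 1) ≤ T r t (b + 1) * (u 0 * T r t b) := by
          calc T r t (b + 1) * T r t (b - 1) = T r t (b - 1) * T r t (b + 1) := mul_comm _ _
            _ ≤ T r t b * T r t b := h1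
            _ = (u 0 * T r t (b + 1)) * T r t b := by rw [h3]
            _ = T r t (b + 1) * (u 0 * T r t b) := by ring
        exact le_of_mul_le_mul_left h5 h4
      · have h1 := hμ0 _ hx0
        have h2 := hsp.2
        rw [Nat.cast_zero] at h2 ⊢
        nlinarith
    · obtain ⟨k, rfl⟩ : ∃ k, s = k + 1 := ⟨s - 1, by omega⟩
      have hkd : k < d := by omega
      have hk := hmin k (by omega)
      have hk' : (k : ℝ) + 1 < μ (u k) := by
        by_contra hcon
        push Not at hcon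
        exact hk ⟨hkd, hcon⟩
      have huk := hup k hkd
      have hus := hup (k + 1) hsp.1
      have e1 : b + (k + 1) = b + k + 1 := by omega
      have e2 : b + (k + 1) - 1 = b + k := by omega
      have hT2 := hT1 (k + 1) hsp.1
      have hle : u k ≤ u (k + 1) := by
        have h1 := T_lc r t (by omega : b + k ≤ b + k + 1)
        have h2 := hue k hkd
        have h3 := hue (k + 1) hsp.1
        rw [e1] at h3 hT2
        have h4 := hT1 k hkd
        have h5 : (T r t (b + k + 1) * T r t (b + k + 1 + 1)) * u k ≤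
            (T r t (b + k + 1) * T r t (b + k + 1 + 1)) * u (k + 1) := by
          calc (T r t (b + k + 1) * T r t (b + k + 1 + 1)) * u k
              = (u k * T r t (b + k + 1)) * T r t (b + k + 1 + 1) := by ring
            _ = T r t (b + k) * T r t (b + k + 1 + 1) := by rw [h2]
            _ ≤ T r t (b + k + 1) * T r t (b + k + 1) := h1
            _ = T r t (b + k + 1) * (u (k + 1) * T r t (b + k + 1 + 1)) := by rw [h3]
            _ = (T r t (b + k + 1) * T r t (b + k + 1 + 1)) * u (k + 1) := by ring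
        exact le_of_mul_le_mul_left h5 (mul_pos h4 hT2)
      have hlow : ∀ x, u k ≤ x → T r t (b + (k + 1) - 1) ≤ x * T r t (b + (k + 1)) := by
        intro x hx
        rw [e2, e1, ← hue k hkd]
        exact mul_le_mul_of_nonneg_right hx (hT1 k hkd).le
      have hsq : (((k + 1 : ℕ) : ℝ)) ≤ q * r := by
        have h1 := hμ1 _ huk
        push_cast
        linarith
      rcases le_or_gt (((k + 1 : ℕ) : ℝ)) (μ (u (k + 1))) with h1 | h1
      · refine ⟨u (k + 1), hus, le_refl _, hlow _ hle, ?_, hsq⟩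
        have h2 := hsp.2
        have h3 : (1 : ℝ) ≤ ((k + 1 : ℕ) : ℝ) := by exact_mod_cast (by omega : 1 ≤ k + 1)
        have h4 : 0 ≤ μ (u (k + 1)) - ((k + 1 : ℕ) : ℝ) := by linarith
        have h5 : μ (u (k + 1)) - ((k + 1 : ℕ) : ℝ) ≤ 1 := by linarith
        have h6 : (μ (u (k + 1)) - ((k + 1 : ℕ) : ℝ)) ^ 2 ≤ 1 := by
          rw [pow_two]
          have h7 := mul_le_mul h5 h5 h4 (by norm_num : (0 : ℝ) ≤ 1)
          linarith
        linarith
      · have hcont := WC_cont r q (b := u (k + 1)) huk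
        have himg := intermediate_value_Icc' hle hcont
        have hmem : ((k + 1 : ℕ) : ℝ) ∈ Set.Icc (μ (u (k + 1))) (μ (u k)) := by
          refine ⟨h1.le, ?_⟩
          push_cast
          exact hk'.le
        obtain ⟨x, hx, hxe⟩ := himg hmem
        have hxe' : μ x = ((k + 1 : ℕ) : ℝ) := hxe
        refine ⟨x, huk.trans_le hx.1, hx.2, hlow x hx.1, ?_, hsq⟩
        rw [hxe', sub_self]
        have : (0 : ℝ) ≤ ((k + 1 : ℕ) : ℝ) := Nat.cast_nonneg _
        simpa using this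
  obtain ⟨x, hx0, hxu, hx1, hx2, hx3⟩ := hx
  have hxT : x * T r t (b + s + 1) ≤ T r t (b + s) := by
    rw [← hue s hsp.1]
    exact mul_le_mul_of_nonneg_right hxu (hT1 s hsp.1).le
  refine ⟨s, x, hsp.1, by omega, by exact_mod_cast hx3, hx0, ?_, hx1, hxT, hx2⟩
  have hdp : (0 : ℝ) < d := by exact_mod_cast (by omega : 0 < d)
  rw [le_div_iff₀ hdp]
  have h1 := T_low r t (b + s)
  push_cast at h1
  have hT' := hT1 s hsp.1
  have h2 : T r t (b + s + 1) * (x * d) ≤ T r t (b + s + 1) * (2 * (t * r)) := by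
    have hs2 : 2 * (s : ℝ) ≤ d := by exact_mod_cast (by omega : 2 * s ≤ d)
    have hsd' : (s : ℝ) + 1 ≤ d := by exact_mod_cast (by omega : s + 1 ≤ d)
    calc T r t (b + s + 1) * (x * d) = d * (x * T r t (b + s + 1)) := by ring
      _ ≤ d * T r t (b + s) := mul_le_mul_of_nonneg_left hxT hdp.le
      _ ≤ (2 * ((t : ℝ) * r - (b + s))) * T r t (b + s) := by
          refine mul_le_mul_of_nonneg_right ?_ (T_nonneg _ _ _)
          linarith
      _ = 2 * (((t : ℝ) * r - (b + s)) * T r t (b + s)) := by ring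
      _ ≤ 2 * (((b : ℝ) + s + 1) * T r t (b + s + 1)) :=
          mul_le_mul_of_nonneg_left h1 (by norm_num)
      _ ≤ 2 * (((t : ℝ) * r) * T r t (b + s + 1)) := by
          refine mul_le_mul_of_nonneg_left ?_ (by norm_num)
          refine mul_le_mul_of_nonneg_right ?_ hT'.le
          linarith
      _ = T r t (b + s + 1) * (2 * (t * r)) := by ring
  exact le_of_mul_le_mul_left h2 hT'

end Pool.Agent.Lib.MP_eeed5c_coT
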