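import Pool.Agent.Lib.MP_eeed5c_co_T.WA
import Pool.Agent.Lib.MP_eeed5c_co_T.WB
import Pool.Agent.Lib.MP_eeed5c_co_T.WC

/-!
# The middle case

`select` gives `s`, `x`; `j = t r - d + s`, `k = (q+t) r - d`. `m0 = t r / 12` (real), `ε = 2 (x + r)/m0 = 24 (x + r)/(t r) ≤ 1/4` (`x ≤ Λ`, `96 (Λ + r) ≤ t r`). `m0 ≤ t r - d ≤ j` by `hd2`. `window` for every `m ≥ m0`: `T j x^j (1 - 2 ε (m-j)^2) ≤ T m x^m` (`T = T r t`).
`x ≥ x0`: `T_up` at `j - 1`: `j T j ≤ t r^2 T (j-1) ≤ t r^2 x T j`, so `x ≥ j/(t r^2) ≥ (t r/12)/(t r^2) = 1/(12 r) ≥ x0` (`hx0`).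
(0) `T m x^m ≤ T j x^j` for all `m` (log-concavity, as in `max_term`: `T i / T (i+1) ≤ T (j-1)/T j ≤ x` for `i < j`, and `x ≤ T j / T (j+1)`, `T (i+1) x ≤ T i` for `i ≥ j`).
(1) Upper bound: `(P L^t).coeff k = ∑_{(i,m) ∈ antidiagonal k} P_i T m`, times `x^k`: `∑ P_i x^i T m x^m ≤ T j x^j P.eval x ≤ T j x^j exp(-h) L(x)^q` (`L(x) = (Lp r).eval x`).
(2) Lower bound: `T r (q+t) k = (L^q L^t).coeff k = ∑_{(i,m) ∈ antidiagonal k} T r q i * T m`; times `x^k` and only `i ≤ q r` (then `m = k - i ≥ t r - d ≥ m0`; `k ≥ q r`): with `m - j = (k - i) - j = q r - s - i`, i.e. `(m-j)^2 = (i - (q r - s))^2`: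
`x^k T r (q+t) k ≥ ∑_{i ≤ q r} T r q i x^i * T j x^j (1 - 2 ε (i - (q r - s))^2) = T j x^j (L^q - 2 ε ∑ T r q i x^i (i - (q r - s))^2) ≥ T j x^j L^q (1 - 2 ε * 2 q r / max 1 x)` (`Lp_pow_eval`, `WA_main`).
(3) `2 ε * 2 q r / max 1 x = 96 q (x + r)/(t max 1 x) ≤ 96 q (1 + r)/t ≤ 192 q r/t ≤ h/(1+h)` (`hh`; `x ≤ max 1 x`, `1 ≤ max 1 x`), and `exp(-h) ≤ 1/(1+h) = 1 - h/(1+h)` (`Real.add_one_le_exp`). So (1) ≤ (2); divide by `x^k > 0`.
-/

set_option autoImplicit false

namespace Pool.Agent.Lib.MP_eeed5c_coT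

open Finset Pool.Agent.Lib.MP_eeed5c_co

private theorem CC_peak {r t j : ℕ} (hj1 : 1 ≤ j) (hj2 : j ≤ t * r) {x : ℝ} (hx : 0 < x)
    (h1 : T r t (j - 1) ≤ x * T r t j) (h2 : x * T r t (j + 1) ≤ T r t j) (m : ℕ) :
    T r t m * x ^ m ≤ T r t j * x ^ j := by
  have hTj : 0 < T r t j := T_pos hj2
  have down : ∀ i, i < j → T r t i * x ^ i ≤ T r t (i + 1) * x ^ (i + 1) := by
    intro i hi
    have hlc := T_lc r t (i := i) (j := j - 1) (by omega)
    rw [Nat.sub_add_cancel hj1] at hlc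
    have h3 : T r t i * T r t j ≤ (T r t (i + 1) * x) * T r t j := by
      calc T r t i * T r t j ≤ T r t (i + 1) * T r t (j - 1) := hlc
        _ ≤ T r t (i + 1) * (x * T r t j) := mul_le_mul_of_nonneg_left h1 (T_nonneg _ _ _)
        _ = _ := by ring
    have h4 : T r t i ≤ T r t (i + 1) * x := le_of_mul_le_mul_right h3 hTj
    calc T r t i * x ^ i ≤ (T r t (i + 1) * x) * x ^ i :=
          mul_le_mul_of_nonneg_right h4 (pow_nonneg hx.le _)
      _ = _ := by rw [pow_succ]; ring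
  have up : ∀ i, j ≤ i → T r t (i + 1) * x ^ (i + 1) ≤ T r t i * x ^ i := by
    intro i hi
    have hlc := T_lc r t (i := j) (j := i) hi
    have h3 : (T r t (i + 1) * x) * T r t j ≤ T r t i * T r t j := by
      calc (T r t (i + 1) * x) * T r t j = x * (T r t j * T r t (i + 1)) := by ring
        _ ≤ x * (T r t (j + 1) * T r t i) := mul_le_mul_of_nonneg_left hlc hx.le
        _ = (x * T r t (j + 1)) * T r t i := by ring
        _ ≤ T r t j * T r t i := mul_le_mul_of_nonneg_right h2 (T_nonneg _ _ _)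
        _ = _ := by ring
    have h4 := le_of_mul_le_mul_right h3 hTj
    calc T r t (i + 1) * x ^ (i + 1) = (T r t (i + 1) * x) * x ^ i := by rw [pow_succ]; ring
      _ ≤ _ := mul_le_mul_of_nonneg_right h4 (pow_nonneg hx.le _)
  rcases Nat.le_total m j with h | h
  · have key : ∀ a, a ≤ j → T r t (j - a) * x ^ (j - a) ≤ T r t j * x ^ j := by
      intro a
      induction a with
      | zero => intro _; exact le_refl _
      | succ a ih =>
        intro ha
        have h5 := down (j - (a + 1)) (by omega)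
        rw [show j - (a + 1) + 1 = j - a by omega] at h5
        exact h5.trans (ih (by omega))
    have h6 := key (j - m) (by omega)
    rwa [show j - (j - m) = m by omega] at h6
  · have key : ∀ a, T r t (j + a) * x ^ (j + a) ≤ T r t j * x ^ j := by
      intro a
      induction a with
      | zero => exact le_refl _
      | succ a ih => exact (up (j + a) (by omega)).trans ih
    have h6 := key (m - j)
    rwa [show j + (m - j) = m by omega] at h6

private theorem CC_upper {r t j k : ℕ} {x : ℝ} (hx : 0 < x) {P : Polynomial ℝ} (hP : NN P)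
    (hpk : ∀ m, T r t m * x ^ m ≤ T r t j * x ^ j) :
    (P * (Lp r) ^ t).coeff k * x ^ k ≤ T r t j * x ^ j * P.eval x := by
  rw [Polynomial.coeff_mul, Finset.sum_mul]
  calc ∑ p ∈ antidiagonal k, P.coeff p.1 * ((Lp r) ^ t).coeff p.2 * x ^ k
      ≤ ∑ p ∈ antidiagonal k, (T r t j * x ^ j) * (P.coeff p.1 * x ^ p.1) := by
        refine Finset.sum_le_sum fun p hp => ?_
        have e : p.1 + p.2 = k := Finset.HasAntidiagonal.mem_antidiagonal.1 hp
        have h1 : P.coeff p.1 * ((Lp r) ^ t).coeff p.2 * x ^ k =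
            (P.coeff p.1 * x ^ p.1) * (T r t p.2 * x ^ p.2) := by
          rw [← e, pow_add]
          unfold T
          ring
        rw [h1, mul_comm (T r t j * x ^ j)]
        exact mul_le_mul_of_nonneg_left (hpk p.2) (mul_nonneg (hP _) (pow_nonneg hx.le _))
    _ = T r t j * x ^ j * ∑ i ∈ range (k + 1), P.coeff i * x ^ i := by
        rw [← Finset.mul_sum,
          Finset.Nat.sum_antidiagonal_eq_sum_range_succ_mk (fun p : ℕ × ℕ => P.coeff p.1 * x ^ p.1)]
    _ ≤ _ := by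
        refine mul_le_mul_of_nonneg_left ?_ (mul_nonneg (T_nonneg _ _ _) (pow_nonneg hx.le _))
        rw [Polynomial.eval_eq_sum_range' (n := max (k + 1) (P.natDegree + 1)) (by omega)]
        exact Finset.sum_le_sum_of_subset_of_nonneg
          (Finset.range_subset_range.2 (le_max_left _ _))
          fun i _ _ => mul_nonneg (hP i) (pow_nonneg hx.le i)

private theorem CC_lower {r t q j k : ℕ} (hk : q * r ≤ k) {x : ℝ} (hx : 0 < x) {A c : ℝ}
    (hw : ∀ i, i ≤ q * r →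
      A * (1 - c * (((k - i : ℕ) : ℝ) - j) ^ 2) ≤ T r t (k - i) * x ^ (k - i)) :
    ∑ i ∈ range (q * r + 1), T r q i * x ^ i * (A * (1 - c * (((k - i : ℕ) : ℝ) - j) ^ 2)) ≤
      T r (q + t) k * x ^ k := by
  have h0 : T r (q + t) k * x ^ k =
      ∑ i ∈ range (k + 1), (T r q i * x ^ i) * (T r t (k - i) * x ^ (k - i)) := by
    rw [← Finset.Nat.sum_antidiagonal_eq_sum_range_succ
      (fun a b => (T r q a * x ^ a) * (T r t b * x ^ b))]
    unfold T
    rw [pow_add, Polynomial.coeff_mul, Finset.sum_mul]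
    refine Finset.sum_congr rfl fun p hp => ?_
    have e : p.1 + p.2 = k := Finset.HasAntidiagonal.mem_antidiagonal.1 hp
    rw [← e, pow_add]
    ring
  rw [h0]
  calc ∑ i ∈ range (q * r + 1), T r q i * x ^ i * (A * (1 - c * (((k - i : ℕ) : ℝ) - j) ^ 2))
      ≤ ∑ i ∈ range (q * r + 1), (T r q i * x ^ i) * (T r t (k - i) * x ^ (k - i)) := by
        refine Finset.sum_le_sum fun i hi => ?_
        have hi' := Finset.mem_range.1 hi
        exact mul_le_mul_of_nonneg_left (hw i (by omega))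
          (mul_nonneg (T_nonneg _ _ _) (pow_nonneg hx.le _))
    _ ≤ _ := Finset.sum_le_sum_of_subset_of_nonneg
        (Finset.range_subset_range.2 (by omega))
        fun i _ _ => mul_nonneg (mul_nonneg (T_nonneg _ _ _) (pow_nonneg hx.le _))
          (mul_nonneg (T_nonneg _ _ _) (pow_nonneg hx.le _))

/-- The numerical inequality. -/
private theorem CC_num {q t r : ℕ} (hr : 1 ≤ r) (ht : 1 ≤ t) {x h ε : ℝ}
    (hh0 : 0 ≤ h) (hε : ε = 2 * (x + r) / ((t : ℝ) * r / 12))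
    (hh : 192 * ((q : ℝ) * r) * (1 + h) ≤ h * t) :
    Real.exp (-h) ≤ 1 - 2 * ε * (2 * ((q : ℝ) * r) / max 1 x) := by
  have hr' : (1 : ℝ) ≤ r := by exact_mod_cast hr
  have ht' : (1 : ℝ) ≤ t := by exact_mod_cast ht
  have hM1 : 1 ≤ max 1 x := le_max_left _ _
  have hMx : x ≤ max 1 x := le_max_right _ _
  set M := max 1 x with hM
  have hM0 : 0 < M := by linarith
  have hq : (0 : ℝ) ≤ (q : ℝ) * r := by positivity
  have h1h : 0 < 1 + h := by linarith
  -- the fugacity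
  have e1 : ε = 24 * (x + r) / ((t : ℝ) * r) := by
    rw [hε]
    field_simp
    ring
  have e2 : x + r ≤ 2 * r * M := by
    have h3 : (r : ℝ) ≤ r * M := by
      have := mul_le_mul_of_nonneg_left hM1 (by linarith : (0 : ℝ) ≤ r)
      linarith
    have h4 : M ≤ r * M := by
      have := mul_le_mul_of_nonneg_right hr' hM0.le
      linarith
    linarith
  have e3 : ε ≤ 48 * M / t := by
    rw [e1, div_le_div_iff₀ (by positivity) (by positivity)]
    have h5 := mul_le_mul_of_nonneg_left e2 (by positivity : (0 : ℝ) ≤ 24 * t)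
    calc 24 * (x + r) * (t : ℝ) = 24 * t * (x + r) := by ring
      _ ≤ 24 * t * (2 * r * M) := h5
      _ = _ := by ring
  have e4 : 2 * ε * (2 * ((q : ℝ) * r) / M) ≤ 192 * (q * r) / t := by
    have h6 : 0 ≤ 2 * (2 * ((q : ℝ) * r) / M) := by positivity
    have h7 := mul_le_mul_of_nonneg_left e3 h6
    calc 2 * ε * (2 * ((q : ℝ) * r) / M) = 2 * (2 * ((q : ℝ) * r) / M) * ε := by ring
      _ ≤ 2 * (2 * ((q : ℝ) * r) / M) * (48 * M / t) := h7
      _ = 192 * (q * r) / t := by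
        field_simp
        ring
  have e5 : 192 * ((q : ℝ) * r) / t ≤ h / (1 + h) := by
    rw [div_le_div_iff₀ (by positivity) h1h]
    exact hh
  have e6 : Real.exp (-h) ≤ 1 - h / (1 + h) := by
    have h8 : 1 - h / (1 + h) = 1 / (1 + h) := by
      field_simp
      ring
    rw [h8, Real.exp_neg, ← one_div]
    have h9 : 1 + h ≤ Real.exp h := by
      have := Real.add_one_le_exp h
      linarith
    exact one_div_le_one_div_of_le h1h h9
  linarith

theorem case_mid {q t r d : ℕ} (hr : 1 ≤ r) (hd : 1 ≤ d) (hdt : d < t * r)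
    (hd2 : t * r ≤ 12 * (t * r - d)) (ht : 12 * (q * r) ≤ t) {P : Polynomial ℝ}
    (hP : NN P) {x0 h Λ : ℝ} (hx0 : x0 * (12 * r) ≤ 1) (hh0 : 0 ≤ h)
    (hΛ : 2 * ((t : ℝ) * r) / d ≤ Λ) (hε : 96 * (Λ + r) ≤ (t : ℝ) * r)
    (hh : 192 * ((q : ℝ) * r) * (1 + h) ≤ h * t)
    (hgap : ∀ x, x0 ≤ x → P.eval x ≤ Real.exp (-h) * (Lp r).eval x ^ q) :
    (P * (Lp r) ^ t).coeff ((q + t) * r - d) ≤ T r (q + t) ((q + t) * r - d) := by
  obtain ⟨s, x, hsd, _, hsq, hx, hxΛ, h1, h2, h3⟩ := select hr hd hdt hd2 ht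
  have hr' : (1 : ℝ) ≤ r := by exact_mod_cast hr
  have ht1 : 1 ≤ t := by
    rcases Nat.eq_zero_or_pos t with h | h
    · subst h; omega
    · exact h
  have ht' : (1 : ℝ) ≤ t := by exact_mod_cast ht1
  have htr : (0 : ℝ) < (t : ℝ) * r := by positivity
  have hk : (q + t) * r - d = q * r + (t * r - d) := by
    rw [Nat.add_mul]
    omega
  rw [hk]
  -- the indices
  obtain ⟨b, hb⟩ : ∃ b, b = t * r - d := ⟨_, rfl⟩
  rw [← hb] at h1 h2 ⊢
  rw [← hb] at hd2
  have hb1 : 1 ≤ b := by omega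
  have hbd : b + d = t * r := by omega
  have hm0b : (t : ℝ) * r / 12 ≤ b := by
    have h4 : ((t * r : ℕ) : ℝ) ≤ ((12 * b : ℕ) : ℝ) := by exact_mod_cast hd2
    push_cast at h4
    linarith
  have hj1 : 1 ≤ b + s := by omega
  have hj2 : b + s + 1 ≤ t * r := by omega
  have hTj : 0 < T r t (b + s) := T_pos (by omega)
  have hxk : 0 < x ^ (q * r + b) := pow_pos hx _
  -- the constant
  obtain ⟨ε, hεd⟩ : ∃ ε : ℝ, ε = 2 * (x + r) / ((t : ℝ) * r / 12) := ⟨_, rfl⟩
  have hε4 : ε ≤ 1 / 4 := by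
    rw [hεd, div_le_iff₀ (by positivity)]
    have h5 : x ≤ Λ := hxΛ.trans hΛ
    linarith
  -- the lower bound for the fugacity
  have hx0x : x0 ≤ x := by
    have h5 := T_up r t (b + s - 1)
    rw [Nat.sub_add_cancel hj1] at h5
    have h6 : (((b + s - 1 : ℕ) : ℝ) + 1) = (b : ℝ) + s := by
      rw [Nat.cast_sub hj1]
      push_cast
      ring
    rw [h6] at h5
    have h7 : ((b : ℝ) + s) * T r t (b + s) ≤ ((t : ℝ) * r ^ 2 * x) * T r t (b + s) := by
      calc ((b : ℝ) + s) * T r t (b + s) ≤ (t : ℝ) * r ^ 2 * T r t (b + s - 1) := h5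
        _ ≤ (t : ℝ) * r ^ 2 * (x * T r t (b + s)) :=
          mul_le_mul_of_nonneg_left h1 (by positivity)
        _ = _ := by ring
    have h8 : (b : ℝ) + s ≤ (t : ℝ) * r ^ 2 * x := le_of_mul_le_mul_right h7 hTj
    have hs0 : (0 : ℝ) ≤ s := Nat.cast_nonneg s
    have h9 : ((t : ℝ) * r) * (1 / 12) ≤ ((t : ℝ) * r) * (r * x) := by
      calc ((t : ℝ) * r) * (1 / 12) = (t : ℝ) * r / 12 := by ring
        _ ≤ (b : ℝ) + s := by linarith
        _ ≤ (t : ℝ) * r ^ 2 * x := h8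
        _ = _ := by ring
    have h10 : 1 / 12 ≤ (r : ℝ) * x := le_of_mul_le_mul_left h9 htr
    have h11 : (12 * (r : ℝ)) * x0 ≤ (12 * (r : ℝ)) * x := by
      calc (12 * (r : ℝ)) * x0 = x0 * (12 * r) := by ring
        _ ≤ 1 := hx0
        _ ≤ _ := by linarith
    exact le_of_mul_le_mul_left h11 (by linarith)
  -- the two bounds
  have hup := CC_upper (k := q * r + b) hx hP (fun m => CC_peak hj1 (by omega) hx h1 h2 m)
  have hwin : ∀ i, i ≤ q * r →
      T r t (b + s) * x ^ (b + s) *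
        (1 - 2 * ε * (((q * r + b - i : ℕ) : ℝ) - (b + s : ℕ)) ^ 2) ≤
      T r t (q * r + b - i) * x ^ (q * r + b - i) := by
    intro i hi
    refine window hr hj1 hj2 hx h1 h2 (m0 := (t : ℝ) * r / 12) (by positivity) ?_ hεd hε4
      (q * r + b - i) ?_
    · push_cast
      have hs0 : (0 : ℝ) ≤ s := Nat.cast_nonneg s
      linarith
    · have h5 : b ≤ q * r + b - i := by omega
      have h6 : (b : ℝ) ≤ ((q * r + b - i : ℕ) : ℝ) := by exact_mod_cast h5
      linarith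
  have hlo := CC_lower (q := q) (r := r) (t := t) (j := b + s) (k := q * r + b) (by omega) hx
    (A := T r t (b + s) * x ^ (b + s)) (c := 2 * ε) hwin
  -- the sum in the lower bound
  have hsum : ∑ i ∈ range (q * r + 1), T r q i * x ^ i * (T r t (b + s) * x ^ (b + s) *
      (1 - 2 * ε * (((q * r + b - i : ℕ) : ℝ) - (b + s : ℕ)) ^ 2)) =
      T r t (b + s) * x ^ (b + s) * ((Lp r).eval x ^ q - 2 * ε *
        ∑ i ∈ range (q * r + 1), T r q i * x ^ i * ((i : ℝ) - ((q : ℝ) * r - s)) ^ 2) := by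
    rw [Lp_pow_eval, Finset.mul_sum, ← Finset.sum_sub_distrib, Finset.mul_sum]
    refine Finset.sum_congr rfl fun i hi => ?_
    have hi' := Finset.mem_range.1 hi
    have h5 : ((q * r + b - i : ℕ) : ℝ) = (q : ℝ) * r + b - i := by
      rw [Nat.cast_sub (by omega)]
      push_cast
      ring
    rw [h5]
    push_cast
    ring
  rw [hsum] at hlo
  have hA : 0 ≤ T r t (b + s) * x ^ (b + s) := mul_nonneg hTj.le (pow_nonneg hx.le _)
  have hε0 : 0 ≤ ε := by
    rw [hεd]
    positivity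
  have hWA := WA_main hx h3
  have hLq : 0 ≤ (Lp r).eval x ^ q := pow_nonneg (by linarith [Lp_pos r hx.le]) _
  have hnum := CC_num (q := q) hr ht1 hh0 hεd hh
  have hfin : (P * (Lp r) ^ t).coeff (q * r + b) * x ^ (q * r + b) ≤
      T r (q + t) (q * r + b) * x ^ (q * r + b) := by
    calc (P * (Lp r) ^ t).coeff (q * r + b) * x ^ (q * r + b)
        ≤ T r t (b + s) * x ^ (b + s) * P.eval x := hup
      _ ≤ T r t (b + s) * x ^ (b + s) * (Real.exp (-h) * (Lp r).eval x ^ q) :=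
          mul_le_mul_of_nonneg_left (hgap x hx0x) hA
      _ ≤ T r t (b + s) * x ^ (b + s) *
          ((1 - 2 * ε * (2 * ((q : ℝ) * r) / max 1 x)) * (Lp r).eval x ^ q) :=
          mul_le_mul_of_nonneg_left (mul_le_mul_of_nonneg_right hnum hLq) hA
      _ = T r t (b + s) * x ^ (b + s) * ((Lp r).eval x ^ q - 2 * ε *
          ((Lp r).eval x ^ q * (2 * ((q : ℝ) * r) / max 1 x))) := by ring
      _ ≤ T r t (b + s) * x ^ (b + s) * ((Lp r).eval x ^ q - 2 * ε *
          ∑ i ∈ range (q * r + 1), T r q i * x ^ i * ((i : ℝ) - ((q : ℝ) * r - s)) ^ 2) := by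
          refine mul_le_mul_of_nonneg_left ?_ hA
          have h5 := mul_le_mul_of_nonneg_left hWA (by linarith : (0 : ℝ) ≤ 2 * ε)
          linarith
      _ ≤ _ := hlo
  exact le_of_mul_le_mul_right hfin hxk

end Pool.Agent.Lib.MP_eeed5c_coT
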