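import Pool.Agent.Lib.MP_eeed5c_co.Chain

/-!
# Definitions

`ell r j = C(r,j)^2 j!` is the number of matchings with `j` edges of `K_{r,r}`, `Lp r` its matching
polynomial, `T r t m` the coefficients of the power `(Lp r) ^ t`; `mp G` is the matching polynomial
of a graph. `WS G x F` is the sum of `x ^ |N| F(N)` over all matchings `N` of `G`.
-/

set_option autoImplicit false

namespace Pool.Agent.Lib.MP_eeed5c_coT

open Finset Pool.Agent.Lib.MP_eeed5c_co

/-- The number of matchings with `j` edges of `K_{r,r}`. -/
noncomputable def ell (r j : ℕ) : ℝ := (r.choose j : ℝ) ^ 2 * (j.factorial : ℝ)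

/-- The matching polynomial of `K_{r,r}`. -/
noncomputable def Lp (r : ℕ) : Polynomial ℝ :=
  ∑ j ∈ range (r + 1), Polynomial.monomial j (ell r j)

/-- The coefficients of the powers. -/
noncomputable def T (r t m : ℕ) : ℝ := ((Lp r) ^ t).coeff m

/-- The coefficientwise order. -/
def CLe (P Q : Polynomial ℝ) : Prop := ∀ m, P.coeff m ≤ Q.coeff m

/-- Nonnegative coefficients. -/
def NN (P : Polynomial ℝ) : Prop := ∀ m, 0 ≤ P.coeff m

/-- The mean of the number of edges, divided by `r`. -/
noncomputable def al (r : ℕ) (x : ℝ) : ℝ :=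
  x * (Lp r).derivative.eval x / (r * (Lp r).eval x)

section

variable {V : Type*} [Fintype V]

/-- The matching polynomial. -/
noncomputable def mp (G : SimpleGraph V) : Polynomial ℝ :=
  ∑ i ∈ range (Fintype.card V + 1), Polynomial.monomial i ((mats G i).card : ℝ)

open scoped Classical in
/-- `G` is `r`-regular. -/
def Reg (G : SimpleGraph V) (r : ℕ) : Prop := ∀ v : V, (univ.filter fun u => G.Adj v u).card = r

open scoped Classical in
/-- All matchings. -/
noncomputable def Mt (G : SimpleGraph V) : Finset (Finset (Sym2 V)) :=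
  univ.filter fun s => (↑s : Set (Sym2 V)) ⊆ G.edgeSet ∧
    (↑s : Set (Sym2 V)).Pairwise (fun e f => ∀ v : V, v ∈ e → v ∉ f)

/-- Weighted sums over all matchings. -/
noncomputable def WS (G : SimpleGraph V) (x : ℝ) (F : Finset (Sym2 V) → ℝ) : ℝ :=
  ∑ N ∈ Mt G, x ^ N.card * F N

open scoped Classical in
/-- The weight of the matchings which do not cover the vertices of `S`. -/
noncomputable def ZS (G : SimpleGraph V) (x : ℝ) (S : Finset V) : ℝ :=
  WS G x (fun N => if S ⊆ free N then 1 else 0)

open scoped Classical in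
/-- The change of `D v - D u` when the edge `p` is added. -/
noncomputable def sg (G : SimpleGraph V) (v u : V) (p : V × V) : ℝ :=
  (if G.Adj u p.1 then 1 else 0) + (if G.Adj u p.2 then 1 else 0) -
    (if G.Adj v p.1 then 1 else 0) - (if G.Adj v p.2 then 1 else 0)

open scoped Classical in
/-- The oriented edges disjoint from `v` and `u`. -/
noncomputable def prs (G : SimpleGraph V) (v u : V) : Finset (V × V) :=
  univ.filter fun p => G.Adj p.1 p.2 ∧ p.1 ≠ v ∧ p.1 ≠ u ∧ p.2 ≠ v ∧ p.2 ≠ u

/-- The sum of the squares of the changes. -/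
noncomputable def loc (G : SimpleGraph V) (v u : V) : ℝ := ∑ p ∈ prs G v u, (sg G v u p) ^ 2

open scoped Classical in
/-- The number of common neighbours. -/
noncomputable def tri (G : SimpleGraph V) (v u : V) : ℝ :=
  ((univ.filter fun w => G.Adj v w ∧ G.Adj u w).card : ℝ)

/-- A quantitative form of being different from unions of complete bipartite graphs. -/
def Far (G : SimpleGraph V) (κ : ℝ) : Prop :=
  ∀ v u, G.Adj v u → κ ≤ loc G v u / 2 + 2 * tri G v u

open scoped Classical in
/-- The quantity of one matching measuring the loss. -/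
noncomputable def bq (G : SimpleGraph V) (N : Finset (Sym2 V)) : ℝ :=
  (1 / 2) * ∑ a ∈ free N, ∑ v ∈ nb G N a, ((D G N a : ℝ) - D G N v) ^ 2 +
    ∑ a ∈ free N, ∑ b ∈ nb G N a, (((nb G N a).filter (fun v => G.Adj v b)).card : ℝ)

/-- The sum measuring the loss. -/
noncomputable def BB (G : SimpleGraph V) (x : ℝ) : ℝ := WS G x (bq G)

end

end Pool.Agent.Lib.MP_eeed5c_coT
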