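import Pool.Agent.Lib.MP_eeed5c_co_T.FC

/-!
# The total defect: four-cycles, codegrees, components
-/

set_option autoImplicit false

namespace Pool.Agent.Lib.MP_eeed5c_coT

open Finset Pool.Agent.Lib.MP_eeed5c_co

section

variable {V : Type*} [Fintype V] {G : SimpleGraph V}

theorem card_prA {r : ℕ} (hreg : Reg G r) : (prA G).card = Fintype.card V * r := by
  classical
  unfold prA
  rw [Finset.card_filter, Fintype.sum_prod_type]
  have h2 : ∀ a : V, (∑ b : V, if G.Adj a b then 1 else 0) = r := by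
    intro a
    rw [← Finset.card_filter]
    have h3 := hreg a
    rw [← h3]
  rw [Finset.sum_congr rfl (fun a _ => h2 a), Finset.sum_const, smul_eq_mul, Finset.card_univ]

/-- The number of oriented and rooted 4-cycles. -/
noncomputable def c4 {V : Type*} (G : SimpleGraph V) : ℕ :=
  Set.ncard {p : V × V × V × V | G.Adj p.1 p.2.1 ∧ G.Adj p.2.1 p.2.2.1 ∧
    G.Adj p.2.2.1 p.2.2.2 ∧ G.Adj p.2.2.2 p.1 ∧ p.1 ≠ p.2.2.1 ∧ p.2.1 ≠ p.2.2.2}

theorem c4_eq : c4 G = ∑ q ∈ prA G, wc G q.1 q.2 := by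
  classical
  have h1 : {p : V × V × V × V | G.Adj p.1 p.2.1 ∧ G.Adj p.2.1 p.2.2.1 ∧
      G.Adj p.2.2.1 p.2.2.2 ∧ G.Adj p.2.2.2 p.1 ∧ p.1 ≠ p.2.2.1 ∧ p.2.1 ≠ p.2.2.2} =
      (((prA G).sigma (fun q => univ.filter fun p : V × V =>
        G.Adj q.2 p.1 ∧ p.1 ≠ q.1 ∧ G.Adj p.1 p.2 ∧ p.2 ≠ q.2 ∧ G.Adj p.2 q.1)).image
        (fun x => (x.1.1, x.1.2, x.2.1, x.2.2)) : Finset (V × V × V × V)) := by
    ext ⟨v, u, a, c⟩
    simp only [Set.mem_ofPred_eq, Finset.coe_image, Set.mem_image, Finset.mem_coe,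
      Finset.mem_sigma, Finset.mem_filter, Finset.mem_univ, true_and, mem_prA, Prod.mk.injEq,
      Sigma.exists, Prod.exists]
    constructor
    · rintro ⟨k1, k2, k3, k4, k5, k6⟩
      exact ⟨v, u, a, c, ⟨k1, k2, k5.symm, k3, k6.symm, k4⟩, rfl, rfl, rfl, rfl⟩
    · rintro ⟨v', u', a', c', ⟨k1, k2, k3, k4, k5, k6⟩, rfl, rfl, rfl, rfl⟩
      exact ⟨k1, k2, k4, k6, k3.symm, k5.symm⟩
  unfold c4
  rw [h1, Set.ncard_coe_finset, Finset.card_image_of_injective, Finset.card_sigma]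
  · rfl
  · rintro ⟨⟨v, u⟩, ⟨a, c⟩⟩ ⟨⟨v', u'⟩, ⟨a', c'⟩⟩ h
    simp only [Prod.mk.injEq] at h
    obtain ⟨rfl, rfl, rfl, rfl⟩ := h
    rfl

theorem dfc_eq {r : ℕ} (hreg : Reg G r) :
    dfc G r = (Fintype.card V : ℝ) * r * ((r : ℝ) - 1) ^ 2 - c4 G := by
  unfold dfc
  rw [Finset.sum_sub_distrib, Finset.sum_const, nsmul_eq_mul, card_prA hreg, c4_eq]
  push_cast
  ring

/-- A lower bound for the defect from a lower bound for every oriented edge. -/
theorem dfc_ge {r : ℕ} (hreg : Reg G r) {e : ℝ}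
    (h : ∀ v u, G.Adj v u → (wc G v u : ℝ) ≤ ((r : ℝ) - 1) ^ 2 - e) :
    (Fintype.card V : ℝ) * r * e ≤ dfc G r := by
  have h1 : ∑ q ∈ prA G, e ≤ dfc G r := by
    unfold dfc
    refine Finset.sum_le_sum fun q hq => ?_
    have := h q.1 q.2 (mem_prA.1 hq)
    linarith
  rw [Finset.sum_const, nsmul_eq_mul, card_prA hreg] at h1
  push_cast at h1
  exact h1

open scoped Classical in
/-- Small codegrees. -/
theorem wc_le_codeg {r s : ℕ} (hr : 1 ≤ r) (hs : 1 ≤ s) (hreg : Reg G r)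
    (hco : ∀ v u, v ≠ u → (univ.filter fun w => G.Adj v w ∧ G.Adj u w).card ≤ s)
    (v u : V) (h : G.Adj v u) : (wc G v u : ℝ) ≤ ((r : ℝ) - 1) ^ 2 - ((r : ℝ) - 1) * (r - s) := by
  have h1 : wc G v u ≤ (r - 1) * (s - 1) := by
    unfold wc
    obtain ⟨A, hA⟩ : ∃ A : Finset V, A = (univ.filter fun a => G.Adj u a).erase v := ⟨_, rfl⟩
    have hAc : A.card = r - 1 := by
      rw [hA, Finset.card_erase_of_mem, hreg u]
      rw [Finset.mem_filter]
      exact ⟨Finset.mem_univ _, h.symm⟩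
    have hmaps : ∀ p ∈ (univ.filter fun p : V × V =>
        G.Adj u p.1 ∧ p.1 ≠ v ∧ G.Adj p.1 p.2 ∧ p.2 ≠ u ∧ G.Adj p.2 v), p.1 ∈ A := by
      intro p hp
      have hp' := (Finset.mem_filter.1 hp).2
      rw [hA, Finset.mem_erase, Finset.mem_filter]
      exact ⟨hp'.2.1, Finset.mem_univ _, hp'.1⟩
    rw [Finset.card_eq_sum_card_fiberwise (f := fun p : V × V => p.1) (t := A) hmaps]
    have h2 : ∀ a ∈ A, ((univ.filter fun p : V × V =>
        G.Adj u p.1 ∧ p.1 ≠ v ∧ G.Adj p.1 p.2 ∧ p.2 ≠ u ∧ G.Adj p.2 v).filter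
        (fun p : V × V => p.1 = a)).card ≤ s - 1 := by
      intro a ha
      rw [hA, Finset.mem_erase, Finset.mem_filter] at ha
      have h3 : ((univ.filter fun p : V × V =>
          G.Adj u p.1 ∧ p.1 ≠ v ∧ G.Adj p.1 p.2 ∧ p.2 ≠ u ∧ G.Adj p.2 v).filter
          (fun p : V × V => p.1 = a)) ⊆
          ((univ.filter fun w => G.Adj a w ∧ G.Adj v w).erase u).image (fun c => (a, c)) := by
        intro p hp
        obtain ⟨hp1, hp2⟩ := Finset.mem_filter.1 hp
        obtain ⟨_, k1, k2, k3, k4, k5⟩ := Finset.mem_filter.1 hp1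
        rw [Finset.mem_image]
        refine ⟨p.2, ?_, ?_⟩
        · rw [Finset.mem_erase, Finset.mem_filter]
          rw [hp2] at k3
          exact ⟨k4, Finset.mem_univ _, k3, k5.symm⟩
        · rw [← hp2]
      refine (Finset.card_le_card h3).trans (Finset.card_image_le.trans ?_)
      rw [Finset.card_erase_of_mem]
      · have := hco a v ha.1
        omega
      · rw [Finset.mem_filter]
        exact ⟨Finset.mem_univ _, ha.2.2.symm, h⟩
    calc _ ≤ ∑ a ∈ A, (s - 1) := Finset.sum_le_sum h2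
      _ = (r - 1) * (s - 1) := by rw [Finset.sum_const, smul_eq_mul, hAc]
  have h2 : (wc G v u : ℝ) ≤ (((r - 1) * (s - 1) : ℕ) : ℝ) := by exact_mod_cast h1
  rw [Nat.cast_mul, Nat.cast_sub hr, Nat.cast_sub hs] at h2
  push_cast at h2
  linarith [h2, show ((r : ℝ) - 1) ^ 2 - ((r : ℝ) - 1) * (r - s) = ((r : ℝ) - 1) * (s - 1) by ring]

/-- Graphs without a closed set of `2 r` vertices. -/
theorem wc_le_noblock {r : ℕ} (hr : 1 ≤ r) (hreg : Reg G r)
    (hno : ∀ S : Set V, (∀ a b, G.Adj a b → (a ∈ S ↔ b ∈ S)) → S.ncard ≠ 2 * r)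
    (v u : V) (h : G.Adj v u) : (wc G v u : ℝ) ≤ ((r : ℝ) - 1) ^ 2 - 1 := by
  classical
  by_contra hlt
  have hlt' := not_le.1 hlt
  -- all walks are closed by 4-cycles
  obtain ⟨W, hW⟩ : ∃ W : Finset (V × V), W = univ.filter fun p : V × V =>
      G.Adj u p.1 ∧ p.1 ≠ v ∧ G.Adj p.1 p.2 ∧ p.2 ≠ u := ⟨_, rfl⟩
  have hWc : W.card ≤ (r - 1) * (r - 1) := by
    obtain ⟨A, hA⟩ : ∃ A : Finset V, A = (univ.filter fun a => G.Adj u a).erase v := ⟨_, rfl⟩
    have hAc : A.card = r - 1 := by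
      rw [hA, Finset.card_erase_of_mem, hreg u]
      rw [Finset.mem_filter]
      exact ⟨Finset.mem_univ _, h.symm⟩
    have hmaps : ∀ p ∈ W, p.1 ∈ A := by
      intro p hp
      rw [hW] at hp
      have hp' := (Finset.mem_filter.1 hp).2
      rw [hA, Finset.mem_erase, Finset.mem_filter]
      exact ⟨hp'.2.1, Finset.mem_univ _, hp'.1⟩
    rw [Finset.card_eq_sum_card_fiberwise (f := fun p : V × V => p.1) (t := A) hmaps]
    have h2 : ∀ a ∈ A, (W.filter (fun p : V × V => p.1 = a)).card ≤ r - 1 := by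
      intro a ha
      rw [hA, Finset.mem_erase, Finset.mem_filter] at ha
      have h3 : (W.filter (fun p : V × V => p.1 = a)) ⊆
          ((univ.filter fun w => G.Adj a w).erase u).image (fun c => (a, c)) := by
        intro p hp
        obtain ⟨hp1, hp2⟩ := Finset.mem_filter.1 hp
        rw [hW] at hp1
        obtain ⟨_, k1, k2, k3, k4⟩ := Finset.mem_filter.1 hp1
        rw [Finset.mem_image]
        refine ⟨p.2, ?_, ?_⟩
        · rw [Finset.mem_erase, Finset.mem_filter]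
          rw [hp2] at k3
          exact ⟨k4, Finset.mem_univ _, k3⟩
        · rw [← hp2]
      refine (Finset.card_le_card h3).trans (Finset.card_image_le.trans ?_)
      rw [Finset.card_erase_of_mem, hreg a]
      rw [Finset.mem_filter]
      exact ⟨Finset.mem_univ _, ha.2.2.symm⟩
    calc _ ≤ ∑ a ∈ A, (r - 1) := Finset.sum_le_sum h2
      _ = (r - 1) * (r - 1) := by rw [Finset.sum_const, smul_eq_mul, hAc]
  have hsub : (univ.filter fun p : V × V =>
      G.Adj u p.1 ∧ p.1 ≠ v ∧ G.Adj p.1 p.2 ∧ p.2 ≠ u ∧ G.Adj p.2 v) ⊆ W := by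
    intro p hp
    obtain ⟨k0, k1, k2, k3, k4, k5⟩ := Finset.mem_filter.1 hp
    rw [hW, Finset.mem_filter]
    exact ⟨k0, k1, k2, k3, k4⟩
  have hwcW : W.card ≤ wc G v u := by
    have h1 : ((r : ℝ) - 1) ^ 2 < wc G v u + 1 := by linarith
    have h2 : (((r - 1) * (r - 1) : ℕ) : ℝ) < ((wc G v u + 1 : ℕ) : ℝ) := by
      rw [Nat.cast_mul, Nat.cast_sub hr]
      push_cast
      linarith [show ((r : ℝ) - 1) * (r - 1) = ((r : ℝ) - 1) ^ 2 by ring]
    have h3 : (r - 1) * (r - 1) < wc G v u + 1 := by exact_mod_cast h2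
    omega
  have heq : (univ.filter fun p : V × V =>
      G.Adj u p.1 ∧ p.1 ≠ v ∧ G.Adj p.1 p.2 ∧ p.2 ≠ u ∧ G.Adj p.2 v) = W :=
    Finset.eq_of_subset_of_card_le hsub hwcW
  have hall : ∀ a c, G.Adj u a → a ≠ v → G.Adj a c → c ≠ u → G.Adj c v := by
    intro a c h1 h2 h3 h4
    have hm : (a, c) ∈ W := by
      rw [hW, Finset.mem_filter]
      exact ⟨Finset.mem_univ _, h1, h2, h3, h4⟩
    rw [← heq] at hm
    exact (Finset.mem_filter.1 hm).2.2.2.2.2
  -- neighbourhoods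
  have hN : ∀ a, G.Adj u a → ∀ c, G.Adj a c ↔ G.Adj v c := by
    intro a ha
    have hsub' : (univ.filter fun c => G.Adj a c) ⊆ (univ.filter fun c => G.Adj v c) := by
      intro c hc
      rw [Finset.mem_filter] at hc ⊢
      refine ⟨Finset.mem_univ _, ?_⟩
      by_cases hav : a = v
      · rw [← hav]; exact hc.2
      · by_cases hcu : c = u
        · rw [hcu]; exact h
        · exact (hall a c ha hav hc.2 hcu).symm
    have he := Finset.eq_of_subset_of_card_le hsub' (by rw [hreg a, hreg v])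
    intro c
    have := Finset.ext_iff.1 he c
    simpa using this
  have hN2 : ∀ b, G.Adj v b → ∀ c, G.Adj b c ↔ G.Adj u c := by
    intro b hb
    have hsub' : (univ.filter fun c => G.Adj u c) ⊆ (univ.filter fun c => G.Adj b c) := by
      intro c hc
      rw [Finset.mem_filter] at hc ⊢
      exact ⟨Finset.mem_univ _, ((hN c hc.2 b).2 hb).symm⟩
    have he := Finset.eq_of_subset_of_card_le hsub' (by rw [hreg b, hreg u])
    intro c
    have := Finset.ext_iff.1 he c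
    simp only [Finset.mem_filter, Finset.mem_univ, true_and] at this
    exact this.symm
  have hclosed : ∀ a b, G.Adj a b → (G.Adj u a ∨ G.Adj v a) → (G.Adj u b ∨ G.Adj v b) := by
    rintro a b hab (ha | ha)
    · exact Or.inr ((hN a ha b).1 hab)
    · exact Or.inl ((hN2 a ha b).1 hab)
  refine hno {w | G.Adj u w ∨ G.Adj v w} (fun a b hab => ⟨hclosed a b hab, hclosed b a hab.symm⟩) ?_
  have e1 : {w | G.Adj u w ∨ G.Adj v w} =
      (((univ.filter fun w => G.Adj u w) ∪ (univ.filter fun w => G.Adj v w) : Finset V) :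
        Set V) := by
    ext w
    simp
  rw [e1, Set.ncard_coe_finset, Finset.card_union_of_disjoint, hreg u, hreg v]
  · ring
  · rw [Finset.disjoint_left]
    intro w hw1 hw2
    rw [Finset.mem_filter] at hw1 hw2
    exact G.irrefl ((hN w hw1.2 w).2 hw2.2)

end

end Pool.Agent.Lib.MP_eeed5c_coT
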