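import Pool.Agent.Lib.MP_eeed5c_co_T.SB1

/-!
# The weights

* `exists_u`. Put `P e = ell r (r-e) x^(r-e)` for `e ≤ r` (`ell r (r-e) = C(r,e)^2 (r-e)!`), `P e = 0` for `e > r`. From `ell_succ` with `j = r-e-1`: `(r-e) ell r (r-e) = (e+1)^2 ell r (r-e-1)`, so `(P1) (r-e) P e = x (e+1)^2 P (e+1)` for `e < r` (both sides `0` for `e = r`).
`L = ∑_{e ≤ r} P e = (Lp r).eval x` (`Lp_eval`, `Finset.sum_range_reflect`), `M := ∑ (r-e) P e = x L'(x)` (`Lp_eval_deriv`). By `(P1)` `M = x ∑ e^2 P e`. With `α = al r x = M/(r L)`, `1 - α = ∑ e P e / (r L)`, `β = x (1-α)`: `(P2) ∑_{e ≤ r} e P e (α - β e) = α ∑ e P e - β ∑ e^2 P e =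
α (1-α) r L - (1-α) M = 0`.
Define `u 0 = α / r`, `u d = (∑_{e ∈ range (d+1)} e P e (α - β e)) / (d P d (r-d))` for `1 ≤ d ≤ r-1` (`P d > 0`), and anything (say `0`) for `d ≥ r`. Recursion: `d = 0` clear. `1 ≤ d ≤ r-1`: `(r-d) u(d) d P d = d P d (α - β d) + ∑_{e ≤ d-1} e P e (α - β e)`, the last sum is
`(d-1) P (d-1) (r-d+1) u(d-1)` (for `d = 1` it is `0`), and by `(P1)` `(r-d+1) P (d-1) = x d^2 P d`; divide by `d P d`. `d = r`: by `(P2)` `r P r (α - β r) + (r-1) P (r-1) * 1 * u(r-1) = 0` and `P (r-1) = x r^2 P r`; divide by `- r P r` (for `r = 1`: `α - β = 0` directly and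
the term `d (d-1) u(d-1)` is `0`). Lower bound: `β = x (1 - α)` and `M = x ∑ e^2 P e ≤ x r ∑ e P e` gives `α ≤ x r (1-α)`, so `1 - α ≥ 1/(1 + x r)` and `β ≥ x/(1 + x r)`. Conclude with `u_gap`.
-/

set_option autoImplicit false

namespace Pool.Agent.Lib.MP_eeed5c_coT

open Finset Pool.Agent.Lib.MP_eeed5c_co

private noncomputable def SB_P (r : ℕ) (x : ℝ) (e : ℕ) : ℝ := ell r (r - e) * x ^ (r - e)

private theorem SB_P_pos {r : ℕ} {x : ℝ} (hx : 0 < x) (e : ℕ) : 0 < SB_P r x e := by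
  unfold SB_P
  exact mul_pos (ell_pos (Nat.sub_le r e)) (pow_pos hx _)

private theorem SB_P1 {r : ℕ} {x : ℝ} {e : ℕ} (he : e < r) :
    ((r : ℝ) - e) * SB_P r x e = x * (((e : ℝ) + 1) ^ 2 * SB_P r x (e + 1)) := by
  obtain ⟨j, rfl⟩ : ∃ j, r = e + 1 + j := ⟨r - (e + 1), by omega⟩
  have h := ell_succ (e + 1 + j) j
  unfold SB_P
  have h1 : e + 1 + j - e = j + 1 := by omega
  have h2 : e + 1 + j - (e + 1) = j := by omega
  rw [h1, h2, pow_succ]
  push_cast at h ⊢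
  have h3 : ((e : ℝ) + 1 + j - e) = j + 1 := by ring
  have h4 : ((e : ℝ) + 1 + j - j) = e + 1 := by ring
  rw [h3]
  rw [h4] at h
  calc ((j : ℝ) + 1) * (ell (e + 1 + j) (j + 1) * (x ^ j * x))
      = (((j : ℝ) + 1) * ell (e + 1 + j) (j + 1)) * (x ^ j * x) := by ring
    _ = _ := by rw [h]; ring

private theorem SB_L (r : ℕ) (x : ℝ) : ∑ e ∈ range (r + 1), SB_P r x e = (Lp r).eval x := by
  rw [Lp_eval]
  have h := Finset.sum_range_reflect (fun j => ell r j * x ^ j) (r + 1)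
  rw [← h]
  refine Finset.sum_congr rfl fun j _ => ?_
  unfold SB_P
  simp

private theorem SB_M (r : ℕ) (x : ℝ) :
    ∑ e ∈ range (r + 1), ((r : ℝ) - e) * SB_P r x e = x * (Lp r).derivative.eval x := by
  rw [Lp_eval_deriv]
  have h := Finset.sum_range_reflect (fun j => (j : ℝ) * (ell r j * x ^ j)) (r + 1)
  rw [← h]
  refine Finset.sum_congr rfl fun j hj => ?_
  have hj' : j ≤ r := by have := Finset.mem_range.1 hj; omega
  have h1 : r + 1 - 1 - j = r - j := by omega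
  unfold SB_P
  rw [h1, Nat.cast_sub hj']

private theorem SB_M2 (r : ℕ) (x : ℝ) :
    ∑ e ∈ range (r + 1), ((r : ℝ) - e) * SB_P r x e =
      x * ∑ e ∈ range (r + 1), (e : ℝ) ^ 2 * SB_P r x e := by
  rw [Finset.sum_range_succ, Finset.sum_range_succ' (fun e : ℕ => (e : ℝ) ^ 2 * SB_P r x e)]
  rw [sub_self, zero_mul, add_zero]
  have h0 : ((0 : ℕ) : ℝ) ^ 2 * SB_P r x 0 = 0 := by simp
  rw [h0, add_zero, Finset.mul_sum]
  refine Finset.sum_congr rfl fun e he => ?_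
  rw [SB_P1 (Finset.mem_range.1 he)]
  push_cast
  ring

private theorem SB_rL (r : ℕ) (x : ℝ) :
    ∑ e ∈ range (r + 1), ((r : ℝ) - e) * SB_P r x e + ∑ e ∈ range (r + 1), (e : ℝ) * SB_P r x e =
      r * ∑ e ∈ range (r + 1), SB_P r x e := by
  rw [← Finset.sum_add_distrib, Finset.mul_sum]
  exact Finset.sum_congr rfl fun e _ => by ring

private theorem SB_N (r : ℕ) {x : ℝ} (hx : 0 < x) :
    ∑ e ∈ range (r + 1), (e : ℝ) ^ 2 * SB_P r x e ≤
      r * ∑ e ∈ range (r + 1), (e : ℝ) * SB_P r x e := by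
  rw [Finset.mul_sum]
  refine Finset.sum_le_sum fun e he => ?_
  have h1 : (e : ℝ) ≤ r := by
    have := Finset.mem_range.1 he
    exact_mod_cast (by omega : e ≤ r)
  have h2 : 0 ≤ (e : ℝ) * SB_P r x e := mul_nonneg (Nat.cast_nonneg e) (SB_P_pos hx e).le
  calc (e : ℝ) ^ 2 * SB_P r x e = e * ((e : ℝ) * SB_P r x e) := by ring
    _ ≤ r * ((e : ℝ) * SB_P r x e) := mul_le_mul_of_nonneg_right h1 h2

private noncomputable def SB_S (r : ℕ) (x α β : ℝ) (d : ℕ) : ℝ :=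
  ∑ e ∈ range (d + 1), (e : ℝ) * SB_P r x e * (α - β * e)

private noncomputable def SB_u (r : ℕ) (x α β : ℝ) (d : ℕ) : ℝ :=
  if d = 0 then α / r else if d < r then SB_S r x α β d / (d * SB_P r x d * ((r : ℝ) - d)) else 0

private theorem SB_S_zero (r : ℕ) (x α β : ℝ) : SB_S r x α β 0 = 0 := by
  unfold SB_S; simp

private theorem SB_S_succ (r : ℕ) (x α β : ℝ) (d : ℕ) :
    SB_S r x α β (d + 1) = SB_S r x α β d +
      ((d + 1 : ℕ) : ℝ) * SB_P r x (d + 1) * (α - β * ((d + 1 : ℕ) : ℝ)) := by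
  unfold SB_S
  rw [Finset.sum_range_succ _ (d + 1)]

private theorem SB_A {r : ℕ} {x : ℝ} (hx : 0 < x) (α β : ℝ) {d : ℕ} (hd : d < r) :
    x * (((d + 1 : ℕ) : ℝ) * (((d + 1 : ℕ) : ℝ) - 1) * SB_u r x α β d) =
      SB_S r x α β d / (((d + 1 : ℕ) : ℝ) * SB_P r x (d + 1)) := by
  rcases Nat.eq_zero_or_pos d with rfl | hpos
  · rw [SB_S_zero]; simp
  · have hne : d ≠ 0 := by omega
    unfold SB_u
    rw [if_neg hne, if_pos hd]
    have hP := SB_P_pos (r := r) hx d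
    have hP1 := SB_P_pos (r := r) hx (d + 1)
    have hrec := SB_P1 (x := x) hd
    have hd0 : (0 : ℝ) < d := by exact_mod_cast hpos
    have hrd : (0 : ℝ) < (r : ℝ) - d := by
      have : (d : ℝ) < r := by exact_mod_cast hd
      linarith
    push_cast
    have h1 : (d : ℝ) + 1 - 1 = d := by ring
    rw [h1]
    have hden : (d : ℝ) * SB_P r x d * ((r : ℝ) - d) =
        d * (x * (((d : ℝ) + 1) ^ 2 * SB_P r x (d + 1))) := by
      rw [← hrec]; ring
    rw [hden]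
    field_simp

private theorem SB_B {r : ℕ} {x : ℝ} (hx : 0 < x) (α β : ℝ) (hS : SB_S r x α β r = 0) {d : ℕ}
    (hd : d + 1 ≤ r) : ((r : ℝ) - ((d + 1 : ℕ) : ℝ)) * SB_u r x α β (d + 1) =
      SB_S r x α β (d + 1) / (((d + 1 : ℕ) : ℝ) * SB_P r x (d + 1)) := by
  rcases Nat.lt_or_ge (d + 1) r with h | h
  · unfold SB_u
    rw [if_neg (by omega), if_pos h]
    have hP1 := SB_P_pos (r := r) hx (d + 1)
    have hd0 : (0 : ℝ) < ((d + 1 : ℕ) : ℝ) := by positivity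
    have hrd : (0 : ℝ) < (r : ℝ) - ((d + 1 : ℕ) : ℝ) := by
      have : ((d + 1 : ℕ) : ℝ) < r := by exact_mod_cast h
      linarith
    field_simp
  · have he : d + 1 = r := by omega
    rw [he, hS]
    simp

theorem exists_u {r : ℕ} (hr : 1 ≤ r) {x : ℝ} (hx : 0 < x) :
    ∃ u : ℕ → ℝ, (∀ d : ℕ, d ≤ r → ((r : ℝ) - d) * u d - x * (d * ((d : ℝ) - 1) * u (d - 1)) =
      al r x - x * (1 - al r x) * d) ∧
      ∀ d, d + 1 < r → x ^ 2 / ((1 + x * r) * (1 + 2 * x * r) ^ 2) ≤ u d - u (d + 1) := by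
  have hr0 : (0 : ℝ) < r := by exact_mod_cast hr
  have hLpos : 0 < (Lp r).eval x := lt_of_lt_of_le one_pos (Lp_pos r hx.le)
  obtain ⟨α, hα⟩ : ∃ α, α = al r x := ⟨_, rfl⟩
  obtain ⟨β, hβ⟩ : ∃ β, β = x * (1 - α) := ⟨_, rfl⟩
  obtain ⟨L, hL⟩ : ∃ L, L = (Lp r).eval x := ⟨_, rfl⟩
  obtain ⟨M, hM⟩ : ∃ M, M = x * (Lp r).derivative.eval x := ⟨_, rfl⟩
  obtain ⟨N1, hN1⟩ : ∃ N1, N1 = ∑ e ∈ range (r + 1), (e : ℝ) * SB_P r x e := ⟨_, rfl⟩
  obtain ⟨N2, hN2⟩ : ∃ N2, N2 = ∑ e ∈ range (r + 1), (e : ℝ) ^ 2 * SB_P r x e := ⟨_, rfl⟩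
  have hαM : α * (r * L) = M := by
    rw [hα, al, ← hL, ← hM]
    rw [← hL] at hLpos
    field_simp
  have e1 : M + N1 = r * L := by
    rw [hM, hN1, hL, ← SB_M, ← SB_L]
    exact SB_rL r x
  have e2 : M = x * N2 := by
    rw [hM, hN2, ← SB_M]
    exact SB_M2 r x
  have e3 : N2 ≤ r * N1 := by
    rw [hN1, hN2]
    exact SB_N r hx
  have hLp : 0 < L := by rw [hL]; exact hLpos
  have hrL : 0 < r * L := mul_pos hr0 hLp
  have hS : SB_S r x α β r = 0 := by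
    have h1 : SB_S r x α β r = α * N1 - β * N2 := by
      unfold SB_S
      rw [hN1, hN2, Finset.mul_sum, Finset.mul_sum, ← Finset.sum_sub_distrib]
      exact Finset.sum_congr rfl fun e _ => by ring
    rw [h1, hβ]
    have h2 : N1 = r * L * (1 - α) := by linarith
    have h3 : x * (1 - α) * N2 = (1 - α) * M := by rw [e2]; ring
    rw [h3, h2, ← hαM]
    ring
  have hαle : α ≤ x * r * (1 - α) := by
    have h1 : α * (r * L) ≤ x * r * (1 - α) * (r * L) := by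
      rw [hαM, e2]
      have h2 : N1 = r * L * (1 - α) := by linarith
      have h3 : x * N2 ≤ x * (r * N1) := mul_le_mul_of_nonneg_left e3 hx.le
      rw [h2] at h3
      linarith
    exact le_of_mul_le_mul_right h1 hrL
  have hxr : 0 < 1 + x * r := by positivity
  have hβle : x / (1 + x * r) ≤ β := by
    rw [hβ, div_le_iff₀ hxr]
    have h1 : 1 ≤ (1 - α) * (1 + x * r) := by linarith
    calc x = x * 1 := by ring
      _ ≤ x * ((1 - α) * (1 + x * r)) := mul_le_mul_of_nonneg_left h1 hx.le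
      _ = _ := by ring
  have hβ0 : 0 ≤ β := le_trans (by positivity) hβle
  have hrec : ∀ d : ℕ, d ≤ r → ((r : ℝ) - d) * SB_u r x α β d -
      x * (d * ((d : ℝ) - 1) * SB_u r x α β (d - 1)) = α - β * d := by
    intro d hd
    rcases Nat.eq_zero_or_pos d with rfl | hpos
    · unfold SB_u
      rw [if_pos rfl]
      simp only [Nat.cast_zero, sub_zero, zero_mul, mul_zero]
      field_simp
    · obtain ⟨k, rfl⟩ : ∃ k, d = k + 1 := ⟨d - 1, by omega⟩
      rw [Nat.add_sub_cancel, SB_A hx α β (by omega : k < r), SB_B hx α β hS hd, SB_S_succ]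
      have hP1 := SB_P_pos (r := r) hx (k + 1)
      have hd0 : (0 : ℝ) < ((k + 1 : ℕ) : ℝ) := by positivity
      field_simp
      ring
  refine ⟨SB_u r x α β, ?_, ?_⟩
  · intro d hd
    rw [hrec d hd, hβ, hα]
  · intro d hd
    refine le_trans ?_ (u_gap hx hβ0 (SB_u r x α β) hrec d hd)
    have h2 : 0 < (1 + 2 * x * r) ^ 2 := by positivity
    rw [div_mul_eq_div_div, div_le_div_iff_of_pos_right h2]
    calc x ^ 2 / (1 + x * r) = x * (x / (1 + x * r)) := by ring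
      _ ≤ x * β := mul_le_mul_of_nonneg_left hβle hx.le

end Pool.Agent.Lib.MP_eeed5c_coT
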