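import Pool.Agent.Lib.MP_eeed5c_co_T.SC
import Pool.Agent.Lib.MP_eeed5c_co_T.SD

/-!
# Lower bound for the loss

`BB = (1/2) ∑_{(v,u) adjacent} WS ([v,u ∈ free N] (D v - D u)^2) + ∑_{(v,u) adjacent} ∑_{w ~ v, w ~ u} WS [v, u, w ∈ free N]` (exchange of sums: `WS_sum`, `∑ a ∈ free N, ∑ v ∈ nb G N a, f a v = ∑_{(a,v) : G.Adj a v} (if a ∈ free N ∧ v ∈ free N then f a v else 0)`; the cardinality of
`(nb G N a).filter (Adj · b)` is the sum over `w` adjacent to `a` and `b` of `[w ∈ free N]`).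
By `second_moment` and `∑_{p ∈ adm(N)} σ(p)^2 = ∑_{p ∈ prs} σ(p)^2 [p.1, p.2 ∈ free N]`: `WS ([v,u free] (D v - D u)^2) ≥ x/(2(1+2xr)) ∑_{p ∈ prs} σ(p)^2 ZS {v, u, p.1, p.2} ≥ x/(2(1+2xr)) loc * Z/(1+xr)^4` (`ZS_four`). The last terms: `ZS {v,u,w} ≥ Z/(1+xr)^3` (`ZS_three`), so their
sum over `w` is at least `tri * Z/(1+xr)^3`. With `x ≤ 1`, `1 ≥ x/(1+2xr)` and `1/(1+xr)^3 ≥ 1/(1+xr)^4`:
`BB ≥ ∑_{(v,u) adjacent} x Z/((1+2xr)(1+xr)^4) * (loc/4 + tri) ≥ (card V * r) * x Z/(1+2xr)^5 * κ/2` (`Far`: `loc/4 + tri ≥ κ/2`, the number of ordered adjacent pairs is `card V * r`, `(1+xr)^4 ≤ (1+2xr)^4`).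
-/

set_option autoImplicit false

namespace Pool.Agent.Lib.MP_eeed5c_coT

open Finset Pool.Agent.Lib.MP_eeed5c_co

section

variable {V : Type*} [Fintype V] {G : SimpleGraph V}

open scoped Classical in
private noncomputable def SE_A (G : SimpleGraph V) : Finset (V × V) := univ.filter fun q => G.Adj q.1 q.2

open scoped Classical in
private noncomputable def SE_C (G : SimpleGraph V) (v u : V) : Finset V := univ.filter fun w => G.Adj v w ∧ G.Adj u w

open scoped Classical in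
private theorem SE_pairs (N : Finset (Sym2 V)) (f : V → V → ℝ) :
    ∑ a ∈ free N, ∑ v ∈ nb G N a, f a v =
      ∑ q ∈ SE_A G, if q.1 ∈ free N ∧ q.2 ∈ free N then f q.1 q.2 else 0 := by
  unfold SE_A
  rw [Finset.sum_filter, Fintype.sum_prod_type]
  have h1 : ∑ a ∈ free N, ∑ v ∈ nb G N a, f a v = ∑ a, if a ∈ free N then ∑ v ∈ nb G N a, f a v else 0 := by
    rw [← Finset.sum_filter]
    refine Finset.sum_congr ?_ fun _ _ => rfl
    ext a
    simp
  rw [h1]
  refine Finset.sum_congr rfl fun a _ => ?_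
  by_cases ha : a ∈ free N
  · rw [if_pos ha]
    have h2 : ∑ v ∈ nb G N a, f a v = ∑ v, if v ∈ nb G N a then f a v else 0 := by
      rw [← Finset.sum_filter]
      refine Finset.sum_congr ?_ fun _ _ => rfl
      ext v
      simp
    rw [h2]
    refine Finset.sum_congr rfl fun v _ => ?_
    by_cases hv : v ∈ free N
    · by_cases hadj : G.Adj a v
      · rw [if_pos (mem_nb.2 ⟨hv, hadj⟩), if_pos hadj, if_pos ⟨ha, hv⟩]
      · rw [if_neg (fun h => hadj (mem_nb.1 h).2), if_neg hadj]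
    · rw [if_neg (fun h => hv (mem_nb.1 h).1)]
      by_cases hadj : G.Adj a v
      · rw [if_pos hadj, if_neg (fun h => hv h.2)]
      · rw [if_neg hadj]
  · rw [if_neg ha]
    refine (Finset.sum_eq_zero fun v _ => ?_).symm
    by_cases hadj : G.Adj a v
    · rw [if_pos hadj, if_neg (fun h => ha h.1)]
    · rw [if_neg hadj]

open scoped Classical in
private theorem SE_common (N : Finset (Sym2 V)) (a b : V) :
    (if a ∈ free N ∧ b ∈ free N then (((nb G N a).filter (fun v => G.Adj v b)).card : ℝ) else 0) =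
      ∑ w ∈ SE_C G a b, if ({a, b, w} : Finset V) ⊆ free N then (1 : ℝ) else 0 := by
  by_cases h : a ∈ free N ∧ b ∈ free N
  · rw [if_pos h]
    have h1 : ∀ w, (({a, b, w} : Finset V) ⊆ free N) ↔ w ∈ free N := by
      intro w
      simp only [Finset.insert_subset_iff, Finset.singleton_subset_iff]
      exact ⟨fun k => k.2.2, fun k => ⟨h.1, h.2, k⟩⟩
    simp only [h1]
    rw [← Finset.sum_filter, Finset.sum_const, nsmul_eq_mul, mul_one]
    have h2 : (nb G N a).filter (fun v => G.Adj v b) = (SE_C G a b).filter (fun w => w ∈ free N) := by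
      ext w
      unfold SE_C
      simp only [Finset.mem_filter, mem_nb, Finset.mem_univ, true_and]
      constructor
      · rintro ⟨⟨k1, k2⟩, k3⟩
        exact ⟨⟨k2, k3.symm⟩, k1⟩
      · rintro ⟨⟨k2, k3⟩, k1⟩
        exact ⟨⟨k1, k2⟩, k3.symm⟩
    rw [h2]
  · rw [if_neg h]
    refine (Finset.sum_eq_zero fun w _ => ?_).symm
    rw [if_neg]
    intro k
    simp only [Finset.insert_subset_iff, Finset.singleton_subset_iff] at k
    exact h ⟨k.1, k.2.1⟩

open scoped Classical in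
private theorem SE_BB (x : ℝ) : BB G x = ∑ q ∈ SE_A G,
    (1 / 2 * WS G x (fun N => if q.1 ∈ free N ∧ q.2 ∈ free N then ((D G N q.1 : ℝ) - D G N q.2) ^ 2 else 0) +
      ∑ w ∈ SE_C G q.1 q.2, ZS G x {q.1, q.2, w}) := by
  have h1 : BB G x = WS G x (fun N => ∑ q ∈ SE_A G,
      (1 / 2 * (if q.1 ∈ free N ∧ q.2 ∈ free N then ((D G N q.1 : ℝ) - D G N q.2) ^ 2 else 0) +
        ∑ w ∈ SE_C G q.1 q.2, if ({q.1, q.2, w} : Finset V) ⊆ free N then (1 : ℝ) else 0)) := by
    refine WS_congr x fun N _ => ?_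
    rw [Finset.sum_add_distrib, ← Finset.mul_sum]
    unfold bq
    rw [SE_pairs N (fun a v => ((D G N a : ℝ) - D G N v) ^ 2),
      SE_pairs N (fun a b => (((nb G N a).filter (fun v => G.Adj v b)).card : ℝ))]
    refine congrArg₂ _ rfl (Finset.sum_congr rfl fun q _ => ?_)
    exact SE_common N q.1 q.2
  rw [h1, WS_sum]
  refine Finset.sum_congr rfl fun q _ => ?_
  rw [WS_add, WS_smul, WS_sum]
  rfl

open scoped Classical in
private theorem SE_four (x : ℝ) (v u : V) :
    WS G x (fun N => if v ∈ free N ∧ u ∈ free N then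
        ∑ p ∈ (prs G v u).filter (fun p => p.1 ∈ free N ∧ p.2 ∈ free N), (sg G v u p) ^ 2 else 0) =
      ∑ p ∈ prs G v u, (sg G v u p) ^ 2 * ZS G x {v, u, p.1, p.2} := by
  unfold ZS
  simp only [← WS_smul]
  rw [← WS_sum]
  refine WS_congr x fun N _ => ?_
  by_cases h : v ∈ free N ∧ u ∈ free N
  · rw [if_pos h, Finset.sum_filter]
    refine Finset.sum_congr rfl fun p _ => ?_
    by_cases hp : p.1 ∈ free N ∧ p.2 ∈ free N
    · rw [if_pos hp, if_pos, mul_one]
      simp only [Finset.insert_subset_iff, Finset.singleton_subset_iff]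
      exact ⟨h.1, h.2, hp.1, hp.2⟩
    · rw [if_neg hp, if_neg, mul_zero]
      intro k
      simp only [Finset.insert_subset_iff, Finset.singleton_subset_iff] at k
      exact hp ⟨k.2.2.1, k.2.2.2⟩
  · rw [if_neg h]
    refine (Finset.sum_eq_zero fun p _ => ?_).symm
    rw [if_neg, mul_zero]
    intro k
    simp only [Finset.insert_subset_iff, Finset.singleton_subset_iff] at k
    exact h ⟨k.1, k.2.1⟩

private theorem SE_card {r : ℕ} (hreg : Reg G r) : ((SE_A G).card : ℝ) = Fintype.card V * r := by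
  classical
  have h1 : (SE_A G).card = Fintype.card V * r := by
    unfold SE_A
    rw [Finset.card_filter, Fintype.sum_prod_type]
    have h2 : ∀ a : V, (∑ b : V, if G.Adj a b then 1 else 0) = r := by
      intro a
      rw [← Finset.card_filter]
      have h3 := hreg a
      rw [← h3]
    rw [Finset.sum_congr rfl (fun a _ => h2 a), Finset.sum_const, smul_eq_mul, Finset.card_univ]
  rw [h1]
  push_cast
  rfl

private theorem SE_arith {x Z a b κ L t W S : ℝ} (hx : 0 < x) (hx1 : x ≤ 1) (hZ : 0 < Z) (ha : 1 ≤ a) (hab : a ≤ b)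
    (hκ : 0 ≤ κ) (ht : 0 ≤ t) (hF : κ ≤ L / 2 + 2 * t)
    (hW : x / (2 * b) * (L * (Z / a ^ 4)) ≤ W) (hS : t * (Z / a ^ 3) ≤ S) :
    κ / 2 * (x * Z / b ^ 5) ≤ 1 / 2 * W + S := by
  have ha0 : 0 < a := by linarith
  have hb0 : 0 < b := by linarith
  have e1 : x / (2 * b) * (L * (Z / a ^ 4)) = L / 2 * (x * Z / (b * a ^ 4)) := by
    field_simp
  have e2 : x * Z / (b * a ^ 4) ≤ Z / a ^ 3 := by
    rw [div_le_div_iff₀ (by positivity) (by positivity)]
    have h3 : x ≤ b * a := by nlinarith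
    have h4 : x * (Z * a ^ 3) ≤ b * a * (Z * a ^ 3) := mul_le_mul_of_nonneg_right h3 (by positivity)
    linarith [h4, show b * a * (Z * a ^ 3) = Z * (b * a ^ 4) by ring, show x * (Z * a ^ 3) = x * Z * a ^ 3 by ring]
  have e3 : x * Z / b ^ 5 ≤ x * Z / (b * a ^ 4) := by
    refine div_le_div_of_nonneg_left (by positivity) (by positivity) ?_
    have h5 : a ^ 4 ≤ b ^ 4 := pow_le_pow_left₀ ha0.le hab 4
    calc b * a ^ 4 ≤ b * b ^ 4 := mul_le_mul_of_nonneg_left h5 hb0.le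
      _ = b ^ 5 := by ring
  have hy : 0 ≤ x * Z / (b * a ^ 4) := by positivity
  have h6 : κ / 2 * (x * Z / b ^ 5) ≤ κ / 2 * (x * Z / (b * a ^ 4)) :=
    mul_le_mul_of_nonneg_left e3 (by linarith)
  have h7 : κ / 2 * (x * Z / (b * a ^ 4)) ≤ (L / 4 + t) * (x * Z / (b * a ^ 4)) :=
    mul_le_mul_of_nonneg_right (by linarith) hy
  have h8 : t * (x * Z / (b * a ^ 4)) ≤ t * (Z / a ^ 3) := mul_le_mul_of_nonneg_left e2 ht
  rw [e1] at hW
  nlinarith [h6, h7, h8, hW, hS]

end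

theorem BB_lower {V : Type*} [Fintype V] {G : SimpleGraph V} {r : ℕ} (hreg : Reg G r) {x : ℝ}
    (hx : 0 < x) (hx1 : x ≤ 1) {κ : ℝ} (hκ : 0 ≤ κ) (hF : Far G κ) :
    κ / 2 * (Fintype.card V * r) * (x * (mp G).eval x / (1 + 2 * x * r) ^ 5) ≤ BB G x := by
  classical
  have hZ : 0 < (mp G).eval x := lt_of_lt_of_le one_pos (mp_eval_pos hx.le)
  have hr : (0 : ℝ) ≤ r := Nat.cast_nonneg r
  have ha : (1 : ℝ) ≤ 1 + x * r := by nlinarith
  have hab : 1 + x * r ≤ 1 + 2 * x * r := by nlinarith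
  have ha0 : (0 : ℝ) < 1 + x * r := by linarith
  rw [SE_BB]
  have key : ∀ q ∈ SE_A G, κ / 2 * (x * (mp G).eval x / (1 + 2 * x * r) ^ 5) ≤
      1 / 2 * WS G x (fun N => if q.1 ∈ free N ∧ q.2 ∈ free N then ((D G N q.1 : ℝ) - D G N q.2) ^ 2 else 0) +
      ∑ w ∈ SE_C G q.1 q.2, ZS G x {q.1, q.2, w} := by
    intro q hq
    have hadj : G.Adj q.1 q.2 := by
      unfold SE_A at hq
      exact (Finset.mem_filter.1 hq).2
    have ht : 0 ≤ tri G q.1 q.2 := by
      unfold tri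
      positivity
    refine SE_arith hx hx1 hZ ha hab hκ ht (hF q.1 q.2 hadj) ?_ ?_
    · have h1 := second_moment hreg hx q.1 q.2 hadj
      rw [SE_four] at h1
      refine le_trans ?_ h1
      refine mul_le_mul_of_nonneg_left ?_ (by positivity)
      unfold loc
      rw [Finset.sum_mul]
      refine Finset.sum_le_sum fun p _ => mul_le_mul_of_nonneg_left ?_ (sq_nonneg _)
      rw [div_le_iff₀ (by positivity), mul_comm]
      exact ZS_four hreg hx.le q.1 q.2 p.1 p.2
    · have h2 : tri G q.1 q.2 * ((mp G).eval x / (1 + x * r) ^ 3) =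
          ∑ w ∈ SE_C G q.1 q.2, (mp G).eval x / (1 + x * r) ^ 3 := by
        rw [Finset.sum_const, nsmul_eq_mul]
        rfl
      rw [h2]
      refine Finset.sum_le_sum fun w _ => ?_
      rw [div_le_iff₀ (by positivity), mul_comm]
      exact ZS_three hreg hx.le q.1 q.2 w
  have h := Finset.sum_le_sum key
  rw [Finset.sum_const, nsmul_eq_mul, SE_card hreg] at h
  refine le_trans (le_of_eq ?_) h
  ring

end Pool.Agent.Lib.MP_eeed5c_coT
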