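import Pool.Agent.Lib.MP_eeed5c_co_T.SA
import Pool.Agent.Lib.MP_eeed5c_co_T.SB
import Pool.Agent.Lib.MP_eeed5c_co_T.SE

/-!
# The gap

Notation: `n = q r`, `card V = 2 n`, `L = (Lp r).eval`, `L' = (Lp r).derivative.eval`, `Z = (mp G).eval`, `Z' = (mp G).derivative.eval`; `L, Z ≥ 1` on `[0,∞)` (`Lp_pos`, `mp_eval_pos`).
* `log_deriv_le`: `slack` with `exists_u` and `δ = x^2/((1+xr)(1+2xr)^2)` (and `BB ≥ 0`: all terms are; `WS_nonneg`), `α = al r x`: `0 ≤ α 2 q r Z - 2 x Z'` with `α r = x L'/L`: divide by `2 x Z`: `Z'/Z ≤ q L'/L`.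
* `log_deriv_gap`: the same with `BB_lower`: `2 x (q L'/L) Z - 2 x Z' ≥ x * x^2/((1+xr)(1+2xr)^2) * κ/2 * 2 q r * r * x Z/(1+2xr)^5 ≥ κ q r^2 x^4 Z/(1+2xr)^8` (use `1 + x r ≤ 1 + 2 x r`); divide by `2 x Z`.
* `gap`: `h(y) = q log L(y) - log Z(y)`, continuous on `[0,∞)`, differentiable with `h' = q L'/L - Z'/Z` (`Polynomial.hasDerivAt`, `Real.hasDerivAt_log`). On `[0,x0]` (`x0 ≤ 1`) `h'(y) ≥ κ q r^2 y^3/(2 (1+2yr)^8) ≥ c * 4 y^3` for `0 < y < x0`, with `c = κ q r^2/(8 (1+2 x0 r)^8)`. So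
`h(y) - c y^4` is monotone on `[0,x0]` (`monotoneOn_of_deriv_nonneg`): `h(x0) ≥ c x0^4 + h(0)`, and `h(0) = q log 1 - log 1 = 0` (`L(0) = ell r 0 = 1`, `Z(0) = |mats G 0| = 1`). On `[x0, ∞)` `h` is monotone. Hence `h(x) ≥ c x0^4` for `x ≥ x0`, i.e. `Z(x) ≤ exp(- c x0^4) L(x)^q`.
-/

set_option autoImplicit false

namespace Pool.Agent.Lib.MP_eeed5c_coT

open Finset Pool.Agent.Lib.MP_eeed5c_co

open scoped Classical in
private theorem GA_BB_nonneg {V : Type*} [Fintype V] (G : SimpleGraph V) {x : ℝ} (hx : 0 ≤ x) :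
    0 ≤ BB G x := by
  unfold BB
  refine WS_nonneg hx fun N _ => ?_
  unfold bq
  refine add_nonneg (mul_nonneg (by norm_num) ?_) ?_
  · exact Finset.sum_nonneg fun a _ => Finset.sum_nonneg fun v _ => sq_nonneg _
  · exact Finset.sum_nonneg fun a _ => Finset.sum_nonneg fun v _ => Nat.cast_nonneg _

private theorem GA_slack {V : Type*} [Fintype V] {G : SimpleGraph V} {q r : ℕ} (hr : 1 ≤ r)
    (hV : Fintype.card V = 2 * (q * r)) (hreg : Reg G r) {x : ℝ} (hx : 0 < x) :
    (mp G).derivative.eval x / (mp G).eval x +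
      x ^ 2 / ((1 + x * r) * (1 + 2 * x * r) ^ 2) * BB G x / (2 * (mp G).eval x) ≤
      q * ((Lp r).derivative.eval x / (Lp r).eval x) := by
  obtain ⟨u, hu, hmono⟩ := exists_u hr hx
  have hδ : 0 ≤ x ^ 2 / ((1 + x * r) * (1 + 2 * x * r) ^ 2) := by positivity
  have h := slack hreg hx.le hδ u hu hmono
  have hL : 0 < (Lp r).eval x := by linarith [Lp_pos r hx.le]
  have hZ : 0 < (mp G).eval x := by linarith [mp_eval_pos (G := G) hx.le]
  have hr0 : (0 : ℝ) < r := by exact_mod_cast hr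
  have h1 : al r x * Fintype.card V * (mp G).eval x =
      2 * x * (mp G).eval x * (q * ((Lp r).derivative.eval x / (Lp r).eval x)) := by
    rw [hV]
    unfold al
    push_cast
    field_simp
  rw [h1] at h
  set δ : ℝ := x ^ 2 / ((1 + x * r) * (1 + 2 * x * r) ^ 2)
  have h2 : ((mp G).derivative.eval x / (mp G).eval x + δ * BB G x / (2 * (mp G).eval x)) *
      (2 * x * (mp G).eval x) ≤
      (q * ((Lp r).derivative.eval x / (Lp r).eval x)) * (2 * x * (mp G).eval x) := by
    have e : ((mp G).derivative.eval x / (mp G).eval x + δ * BB G x / (2 * (mp G).eval x)) *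
      (2 * x * (mp G).eval x) = 2 * (x * (mp G).derivative.eval x) + x * δ * BB G x := by
      field_simp
    rw [e]
    linarith
  exact le_of_mul_le_mul_right h2 (by positivity)

theorem log_deriv_le {V : Type*} [Fintype V] {G : SimpleGraph V} {q r : ℕ} (hr : 1 ≤ r)
    (hV : Fintype.card V = 2 * (q * r)) (hreg : Reg G r) {x : ℝ} (hx : 0 < x) :
    (mp G).derivative.eval x / (mp G).eval x ≤
      q * ((Lp r).derivative.eval x / (Lp r).eval x) := by
  have h := GA_slack hr hV hreg hx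
  have hZ : 0 < (mp G).eval x := by linarith [mp_eval_pos (G := G) hx.le]
  have h1 : 0 ≤ x ^ 2 / ((1 + x * r) * (1 + 2 * x * r) ^ 2) * BB G x / (2 * (mp G).eval x) :=
    div_nonneg (mul_nonneg (by positivity) (GA_BB_nonneg G hx.le)) (by positivity)
  linarith

theorem log_deriv_gap {V : Type*} [Fintype V] {G : SimpleGraph V} {q r : ℕ} (hr : 1 ≤ r)
    (hV : Fintype.card V = 2 * (q * r)) (hreg : Reg G r) {κ : ℝ} (hκ : 0 ≤ κ) (hF : Far G κ)
    {x : ℝ} (hx : 0 < x) (hx1 : x ≤ 1) :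
    (mp G).derivative.eval x / (mp G).eval x + κ * q * r ^ 2 * x ^ 3 / (2 * (1 + 2 * x * r) ^ 8) ≤
      q * ((Lp r).derivative.eval x / (Lp r).eval x) := by
  have h := GA_slack hr hV hreg hx
  have hZ : 0 < (mp G).eval x := by linarith [mp_eval_pos (G := G) hx.le]
  have hr0 : (0 : ℝ) < r := by exact_mod_cast hr
  have h1 := BB_lower hreg hx hx1 hκ hF
  have h2 : κ * q * r ^ 2 * x ^ 3 / (2 * (1 + 2 * x * r) ^ 8) ≤
      x ^ 2 / ((1 + x * r) * (1 + 2 * x * r) ^ 2) * BB G x / (2 * (mp G).eval x) := by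
    have h3 : x ^ 2 / ((1 + x * r) * (1 + 2 * x * r) ^ 2) *
        (κ / 2 * (Fintype.card V * r) * (x * (mp G).eval x / (1 + 2 * x * r) ^ 5)) ≤
        x ^ 2 / ((1 + x * r) * (1 + 2 * x * r) ^ 2) * BB G x :=
      mul_le_mul_of_nonneg_left h1 (by positivity)
    have h4 := div_le_div_of_nonneg_right h3 (show 0 ≤ 2 * (mp G).eval x by positivity)
    refine le_trans ?_ h4
    have e : x ^ 2 / ((1 + x * r) * (1 + 2 * x * r) ^ 2) *
        (κ / 2 * (Fintype.card V * r) * (x * (mp G).eval x / (1 + 2 * x * r) ^ 5)) /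
        (2 * (mp G).eval x) =
        κ * q * r ^ 2 * x ^ 3 / (2 * ((1 + x * r) * (1 + 2 * x * r) ^ 7)) := by
      rw [hV]
      push_cast
      field_simp
    rw [e]
    refine div_le_div_of_nonneg_left (by positivity) (by positivity) ?_
    refine mul_le_mul_of_nonneg_left ?_ (by norm_num)
    rw [pow_succ' (1 + 2 * x * r) 7]
    refine mul_le_mul_of_nonneg_right ?_ (by positivity)
    nlinarith [mul_pos hx hr0]
  linarith

theorem gap {V : Type*} [Fintype V] {G : SimpleGraph V} {q r : ℕ} (hr : 1 ≤ r)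
    (hV : Fintype.card V = 2 * (q * r)) (hreg : Reg G r) {κ : ℝ} (hκ : 0 ≤ κ) (hF : Far G κ)
    {x0 x : ℝ} (hx0 : 0 < x0) (hx1 : x0 ≤ 1) (hx : x0 ≤ x) :
    (mp G).eval x ≤ Real.exp (-(κ * q * r ^ 2 * x0 ^ 4 / (8 * (1 + 2 * x0 * r) ^ 8))) *
      (Lp r).eval x ^ q := by
  have hr0 : (0 : ℝ) < r := by exact_mod_cast hr
  have hL : ∀ y : ℝ, 0 ≤ y → 0 < (Lp r).eval y := fun y hy => by linarith [Lp_pos r hy]
  have hZ : ∀ y : ℝ, 0 ≤ y → 0 < (mp G).eval y := fun y hy => by
    linarith [mp_eval_pos (G := G) hy]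
  let h : ℝ → ℝ := fun y => q * Real.log ((Lp r).eval y) - Real.log ((mp G).eval y)
  have hd : ∀ y : ℝ, 0 ≤ y → HasDerivAt h (q * ((Lp r).derivative.eval y / (Lp r).eval y) -
      (mp G).derivative.eval y / (mp G).eval y) y := by
    intro y hy
    have h1 := ((Lp r).hasDerivAt y).log (hL y hy).ne'
    have h2 := ((mp G).hasDerivAt y).log (hZ y hy).ne'
    exact (h1.const_mul (q : ℝ)).sub h2
  set c : ℝ := κ * q * r ^ 2 / (8 * (1 + 2 * x0 * r) ^ 8) with hc
  have hc0 : 0 ≤ c := by positivity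
  -- first part
  have hpart1 : c * x0 ^ 4 ≤ h x0 := by
    have hdg : ∀ y : ℝ, 0 ≤ y → HasDerivAt (fun y => h y - c * y ^ 4)
        (q * ((Lp r).derivative.eval y / (Lp r).eval y) -
      (mp G).derivative.eval y / (mp G).eval y - c * (4 * y ^ 3)) y := by
      intro y hy
      have h1 := (hasDerivAt_pow 4 y).const_mul c
      exact (hd y hy).sub (by simpa using h1)
    have hm : MonotoneOn (fun y => h y - c * y ^ 4) (Set.Icc 0 x0) := by
      refine monotoneOn_of_deriv_nonneg (convex_Icc 0 x0) ?_ ?_ ?_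
      · exact fun y hy => (hdg y hy.1).continuousAt.continuousWithinAt
      · intro y hy
        rw [interior_Icc] at hy
        exact (hdg y hy.1.le).differentiableAt.differentiableWithinAt
      · intro y hy
        rw [interior_Icc] at hy
        rw [(hdg y hy.1.le).deriv]
        have h1 := log_deriv_gap hr hV hreg hκ hF hy.1 (hy.2.le.trans hx1)
        have h2 : c * (4 * y ^ 3) ≤ κ * q * r ^ 2 * y ^ 3 / (2 * (1 + 2 * y * r) ^ 8) := by
          have e : c * (4 * y ^ 3) = κ * q * r ^ 2 * y ^ 3 / (2 * (1 + 2 * x0 * r) ^ 8) := by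
            rw [hc]
            field_simp
            ring
          rw [e]
          have hy0 := hy.1
          refine div_le_div_of_nonneg_left (by positivity) (by positivity) ?_
          refine mul_le_mul_of_nonneg_left ?_ (by norm_num)
          refine pow_le_pow_left₀ (by positivity) ?_ 8
          have := mul_le_mul_of_nonneg_right hy.2.le hr0.le
          linarith
        linarith
    have h1 := hm (Set.left_mem_Icc.2 hx0.le) (Set.right_mem_Icc.2 hx0.le) hx0.le
    have h2 : h 0 = 0 := by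
      show (q : ℝ) * Real.log ((Lp r).eval 0) - Real.log ((mp G).eval 0) = 0
      rw [← Polynomial.coeff_zero_eq_eval_zero, ← Polynomial.coeff_zero_eq_eval_zero, Lp_coeff,
        ell_zero, mp_coeff, card_mats_zero]
      simp
    have h3 : h 0 - c * 0 ^ 4 ≤ h x0 - c * x0 ^ 4 := h1
    rw [h2] at h3
    linarith
  have hpart2 : h x0 ≤ h x := by
    have hm : MonotoneOn h (Set.Icc x0 x) := by
      refine monotoneOn_of_deriv_nonneg (convex_Icc x0 x) ?_ ?_ ?_
      · exact fun y hy => (hd y (hx0.le.trans hy.1)).continuousAt.continuousWithinAt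
      · intro y hy
        rw [interior_Icc] at hy
        exact (hd y (hx0.le.trans hy.1.le)).differentiableAt.differentiableWithinAt
      · intro y hy
        rw [interior_Icc] at hy
        rw [(hd y (hx0.le.trans hy.1.le)).deriv]
        have h1 := log_deriv_le hr hV hreg (hx0.trans hy.1)
        linarith
    exact hm (Set.left_mem_Icc.2 hx) (Set.right_mem_Icc.2 hx) hx
  have hx' : 0 ≤ x := hx0.le.trans hx
  have hfin : Real.log ((mp G).eval x) ≤ -(c * x0 ^ 4) + q * Real.log ((Lp r).eval x) := by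
    have : c * x0 ^ 4 ≤ q * Real.log ((Lp r).eval x) - Real.log ((mp G).eval x) :=
      hpart1.trans hpart2
    linarith
  have e : κ * q * r ^ 2 * x0 ^ 4 / (8 * (1 + 2 * x0 * r) ^ 8) = c * x0 ^ 4 := by
    rw [hc]
    ring
  rw [e]
  have h3 := Real.exp_le_exp.2 hfin
  rw [Real.exp_log (hZ x hx'), Real.exp_add, mul_comm (q : ℝ), Real.exp_mul,
    Real.exp_log (hL x hx'), Real.rpow_natCast] at h3
  exact h3

end Pool.Agent.Lib.MP_eeed5c_coT
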