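import Pool.Agent.Lib.MP_eeed5c_co_T.UE
import Pool.Agent.Lib.MP_eeed5c_co_T.GA
import Pool.Agent.Lib.MP_eeed5c_co_T.CA
import Pool.Agent.Lib.MP_eeed5c_co_T.CC

/-!
# The upper matching conjecture for many blocks
-/

set_option autoImplicit false

namespace Pool.Agent.Lib.MP_eeed5c_coT

open Finset Pool.Agent.Lib.MP_eeed5c_co

theorem gap_good {V : Type} [Fintype V] {G : SimpleGraph V} {q r : ℕ} (hr : 1 ≤ r)
    (hV : Fintype.card V = 2 * (q * r)) (hreg : Reg G r) (hF : Far G 1) :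
    ∀ x, 1 / (12 * (r : ℝ)) ≤ x → (mp G).eval x ≤
      Real.exp (-((q : ℝ) / (600000 * (r : ℝ) ^ 2))) * (Lp r).eval x ^ q := by
  intro x hx
  have hr' : (1 : ℝ) ≤ r := by exact_mod_cast hr
  have hr0 : (0 : ℝ) < r := by linarith
  have hx0 : (0 : ℝ) < 1 / (12 * (r : ℝ)) := by positivity
  have hx1 : 1 / (12 * (r : ℝ)) ≤ 1 := by
    rw [div_le_one (by positivity)]
    linarith
  have h := gap hr hV hreg (κ := 1) (by norm_num) hF hx0 hx1 hx
  refine h.trans (mul_le_mul_of_nonneg_right ?_ ?_)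
  · apply Real.exp_le_exp.2
    apply neg_le_neg
    have e : 1 + 2 * (1 / (12 * (r : ℝ))) * r = 7 / 6 := by field_simp; norm_num
    rw [e]
    rw [div_le_div_iff₀ (by positivity) (by norm_num)]
    have e2 : 1 * (q : ℝ) * (r : ℝ) ^ 2 * (1 / (12 * (r : ℝ))) ^ 4 * (600000 * (r : ℝ) ^ 2) =
        q * (600000 / 20736) := by
      field_simp
      norm_num
    rw [e2]
    have hq : (0 : ℝ) ≤ q := Nat.cast_nonneg q
    have h7 : (8 : ℝ) * (7 / 6) ^ 8 ≤ 600000 / 20736 := by norm_num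
    exact mul_le_mul_of_nonneg_left h7 hq
  · exact pow_nonneg (by have := Lp_pos r (le_trans hx0.le hx); linarith) _

/-- The numerical inequalities. -/
theorem fin_num {q' t q r : ℕ} {l : ℝ} (hr2 : 2 ≤ r) (hqt : q' + t = q) (hl1 : 1 ≤ l)
    (hq : 250000000 * (r : ℝ) ^ 3 * l ≤ q) (hB : (q' : ℝ) / (600000 * (r : ℝ) ^ 2) < l) :
    249700000 * (r : ℝ) ^ 3 * l ≤ t ∧ 249700000 * (r : ℝ) ^ 3 ≤ t ∧ 12 * (q' * r) ≤ t := by
  have hr2' : (2 : ℝ) ≤ r := by exact_mod_cast hr2
  have hr0 : (0 : ℝ) < r := by linarith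
  have hqt' : (q' : ℝ) + t = q := by exact_mod_cast hqt
  have hr2p : (0 : ℝ) < (r : ℝ) ^ 2 := by positivity
  have hr3 : (0 : ℝ) < (r : ℝ) ^ 3 := by positivity
  have hq'l : (q' : ℝ) ≤ 600000 * ((r : ℝ) ^ 2 * l) := by
    rw [div_lt_iff₀ (by positivity)] at hB
    linarith
  have hr23 : (r : ℝ) ^ 2 * 2 ≤ (r : ℝ) ^ 3 := by
    have : (r : ℝ) ^ 3 = (r : ℝ) ^ 2 * r := by ring
    rw [this]
    exact mul_le_mul_of_nonneg_left hr2' hr2p.le
  have h1 : (r : ℝ) ^ 2 * l * 2 ≤ (r : ℝ) ^ 3 * l := by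
    calc (r : ℝ) ^ 2 * l * 2 = (r : ℝ) ^ 2 * 2 * l := by ring
      _ ≤ (r : ℝ) ^ 3 * l := mul_le_mul_of_nonneg_right hr23 (by linarith)
  have h2 : (r : ℝ) ^ 3 ≤ (r : ℝ) ^ 3 * l := by
    calc (r : ℝ) ^ 3 = (r : ℝ) ^ 3 * 1 := by ring
      _ ≤ (r : ℝ) ^ 3 * l := mul_le_mul_of_nonneg_left hl1 hr3.le
  have h3 : (q' : ℝ) * r ≤ 600000 * ((r : ℝ) ^ 3 * l) := by
    calc (q' : ℝ) * r ≤ 600000 * ((r : ℝ) ^ 2 * l) * r :=
          mul_le_mul_of_nonneg_right hq'l hr0.le
      _ = 600000 * ((r : ℝ) ^ 3 * l) := by ring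
  have h4 : 250000000 * ((r : ℝ) ^ 3 * l) ≤ q := by
    calc 250000000 * ((r : ℝ) ^ 3 * l) = 250000000 * (r : ℝ) ^ 3 * l := by ring
      _ ≤ (q : ℝ) := hq
  refine ⟨?_, ?_, ?_⟩
  · linarith
  · linarith
  · have : 12 * ((q' : ℝ) * r) ≤ t := by linarith
    exact_mod_cast this

/-- The main theorem for large numbers of blocks. -/
theorem main_large {q r k : ℕ} {V : Type} [Fintype V] {G : SimpleGraph V}
    (hq : 250000000 * (r : ℝ) ^ 3 * Real.log ((q : ℝ) * r + 1) ≤ q)
    (hV : Fintype.card V = 2 * (q * r)) (hreg : Reg G r) :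
    (mats G k).card ≤ (mats (KK q r) k).card := by
  -- small matchings and trivial cases
  by_cases hsmall : (6 * r - 5) * (k - 1) ≤ q * r ^ 2
  · exact small_matchings hV hreg hsmall
  by_cases hkn : k ≤ q * r
  swap
  · rw [card_mats_eq_zero (by omega)]
    exact Nat.zero_le _
  have hsmall' := not_le.1 hsmall
  have hk1 : 1 ≤ k := by
    rcases Nat.eq_zero_or_pos k with rfl | h
    · simp at hsmall'
    · exact h
  have hr2 : 2 ≤ r := by
    by_contra hlt
    have h01 : r = 0 ∨ r = 1 := by omega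
    rcases h01 with rfl | rfl
    · simp at hsmall'
    · simp only [mul_one, one_pow] at hsmall' hkn
      omega
  have hr1 : 1 ≤ r := by omega
  have hkq : q * r ≤ 6 * k := by
    have h1 : 6 * r - 5 ≤ 6 * r := by omega
    have h2 : q * r * r < 6 * r * (k - 1) := by
      calc q * r * r = q * r ^ 2 := by ring
        _ < (6 * r - 5) * (k - 1) := hsmall'
        _ ≤ 6 * r * (k - 1) := Nat.mul_le_mul_right _ h1
    have h3 : r * (q * r) < r * (6 * (k - 1)) := by
      calc r * (q * r) = q * r * r := by ring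
        _ < 6 * r * (k - 1) := h2
        _ = r * (6 * (k - 1)) := by ring
    have h4 := Nat.lt_of_mul_lt_mul_left h3
    omega
  have hq1 : 1 ≤ q := by
    rcases Nat.eq_zero_or_pos q with rfl | h
    · simp at hkn; omega
    · exact h
  obtain ⟨q', t, V', _, G', hqt, hV', hreg', hF', hle⟩ := decomp r q V G hV hreg
  have hgap := gap_good hr1 hV' hreg' hF'
  -- real numbers
  have hr2' : (2 : ℝ) ≤ r := by exact_mod_cast hr2
  have hr0 : (0 : ℝ) < r := by linarith
  have hq1' : (1 : ℝ) ≤ q := by exact_mod_cast hq1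
  set l : ℝ := Real.log ((q : ℝ) * r + 1) with hl
  have hl1 : 1 ≤ l := by
    rw [hl, Real.le_log_iff_exp_le (by positivity)]
    have h1 : Real.exp 1 < 2.7182818286 := Real.exp_one_lt_d9
    have h2 : (2 : ℝ) ≤ q * r := by
      calc (2 : ℝ) = 1 * 2 := by norm_num
        _ ≤ q * r := mul_le_mul hq1' hr2' (by norm_num) (by linarith)
    norm_num at h1
    linarith
  set h : ℝ := (q' : ℝ) / (600000 * (r : ℝ) ^ 2) with hh
  have hq'0 : (0 : ℝ) ≤ q' := Nat.cast_nonneg _
  have hh0 : 0 ≤ h := by positivity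
  have hx0 : 1 / (12 * (r : ℝ)) * (12 * r) = 1 := by field_simp
  have hcard : ((mats G k).card : ℝ) ≤ (mats (KK q r) k).card := by
    rw [card_mats_KK, ← mp_coeff]
    refine (hle k).trans ?_
    have hkq' : (q : ℝ) * r ≤ 6 * k := by exact_mod_cast hkq
    rcases le_or_gt l h with hA | hB
    · -- Case A
      refine case_one (x0 := 1 / (12 * (r : ℝ))) (h := h) hr1 hk1 hkn
        (NN_mul NN_mp (NN_pow (NN_Lp r) t)) ?_ hA ?_
      · have e : 1 / (12 * (r : ℝ)) * (q * (r : ℝ) ^ 2) = q * r / 12 := by field_simp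
        rw [e]
        have : (0 : ℝ) ≤ k := Nat.cast_nonneg k
        linarith
      · intro x hx
        rw [Polynomial.eval_mul, Polynomial.eval_pow]
        have hx0 : 0 ≤ x := le_trans (by positivity) hx
        have hL := Lp_pos r hx0
        calc (mp G').eval x * (Lp r).eval x ^ t
            ≤ Real.exp (-h) * (Lp r).eval x ^ q' * (Lp r).eval x ^ t :=
              mul_le_mul_of_nonneg_right (hgap x hx) (pow_nonneg (by linarith) _)
          _ = Real.exp (-h) * (Lp r).eval x ^ q := by rw [mul_assoc, ← pow_add, hqt]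
    · -- Case B
      obtain ⟨ht3, ht4, htq'⟩ := fin_num hr2 hqt hl1 hq hB
      have hr3 : (0 : ℝ) < (r : ℝ) ^ 3 := by positivity
      have hr2p : (0 : ℝ) < (r : ℝ) ^ 2 := by positivity
      have hr3' : (1 : ℝ) ≤ (r : ℝ) ^ 3 := one_le_pow₀ (by linarith)
      have hr2'' : (1 : ℝ) ≤ (r : ℝ) ^ 2 := one_le_pow₀ (by linarith)
      have hr23 : (r : ℝ) ^ 2 * 2 ≤ (r : ℝ) ^ 3 := by
        have : (r : ℝ) ^ 3 = (r : ℝ) ^ 2 * r := by ring
        rw [this]
        exact mul_le_mul_of_nonneg_left hr2' hr2p.le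
      have ht1' : (1 : ℝ) ≤ t := by linarith
      have ht1 : 1 ≤ t := by exact_mod_cast ht1'
      have ht0 : (0 : ℝ) ≤ t := by linarith
      have hq't : 12 * q' ≤ t := by
        refine le_trans ?_ htq'
        have : q' * 1 ≤ q' * r := Nat.mul_le_mul_left _ hr1
        omega
      have hT : q' * r + t * r = q * r := by rw [← hqt]; ring
      set d : ℕ := q * r - k with hd
      have hdk : (q' + t) * r - d = k := by rw [hqt]; omega
      have hq'r : 12 * (q' * r) ≤ t * r := by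
        calc 12 * (q' * r) = 12 * q' * r := by ring
          _ ≤ t * r := Nat.mul_le_mul_right _ hq't
      have hd2 : t * r ≤ 12 * (t * r - d) := by omega
      have htr : 1 ≤ t * r := Nat.mul_pos ht1 hr1
      have hdt : d < t * r := by omega
      rw [← hqt]
      rw [← hdk]
      have hd0 : (0 : ℝ) ≤ d := Nat.cast_nonneg d
      rcases le_or_gt ((2 * (d : ℝ) + 1) * (600000 * (r : ℝ) ^ 2)) (t : ℝ) with hnear | hmid
      · have h2 : (2 * (d : ℝ) + 1) ≤ t := by
          refine le_trans ?_ hnear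
          calc (2 * (d : ℝ) + 1) = (2 * (d : ℝ) + 1) * 1 := by ring
            _ ≤ (2 * (d : ℝ) + 1) * (600000 * (r : ℝ) ^ 2) :=
              mul_le_mul_of_nonneg_left (by linarith) (by linarith)
        have h2d : 2 * d ≤ t := by
          have : (2 * d : ℝ) ≤ t := by linarith
          exact_mod_cast this
        refine case_near (x0 := 1 / (12 * (r : ℝ))) (h := h) hr1 ht1 h2d NN_mp
          (mp_natDegree_le hV') ?_ ?_ hgap
        · have h1 : (1 : ℝ) / (12 * r) ≤ 1 := by
            rw [div_le_one (by positivity)]; linarith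
          have h3 : (0 : ℝ) ≤ 2 * (d : ℝ) + 1 := by linarith
          calc 1 / (12 * (r : ℝ)) * (2 * d + 1) ≤ 1 * (2 * d + 1) :=
                mul_le_mul_of_nonneg_right h1 h3
            _ ≤ 1 * (t : ℝ) := by linarith
            _ ≤ r * t := mul_le_mul_of_nonneg_right (by linarith) ht0
        · rw [hh, div_mul_eq_mul_div, le_div_iff₀ (by positivity)]
          calc (q' : ℝ) * (2 * d + 1) * (600000 * (r : ℝ) ^ 2)
              = (q' : ℝ) * ((2 * d + 1) * (600000 * (r : ℝ) ^ 2)) := by ring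
            _ ≤ (q' : ℝ) * (t : ℝ) := mul_le_mul_of_nonneg_left hnear hq'0
      · have hd1 : 1 ≤ d := by
          by_contra h0
          have h00 : d = 0 := by omega
          rw [h00] at hmid
          push_cast at hmid
          linarith
        have hd1' : (1 : ℝ) ≤ d := by exact_mod_cast hd1
        have hd00 : (0 : ℝ) < d := by linarith
        refine case_mid (x0 := 1 / (12 * (r : ℝ))) (h := h) (Λ := 3600000 * (r : ℝ) ^ 3) hr1 hd1 hdt
          hd2 htq' NN_mp ?_ hh0 ?_ ?_ ?_ hgap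
        · rw [hx0]
        · rw [div_le_iff₀ hd00]
          have h1 : (t : ℝ) ≤ 1800000 * (r : ℝ) ^ 2 * d := by
            have h5 : (2 * (d : ℝ) + 1) * (600000 * (r : ℝ) ^ 2) ≤
                (3 * (d : ℝ)) * (600000 * (r : ℝ) ^ 2) :=
              mul_le_mul_of_nonneg_right (by linarith) (by positivity)
            calc (t : ℝ) ≤ (2 * (d : ℝ) + 1) * (600000 * (r : ℝ) ^ 2) := hmid.le
              _ ≤ (3 * (d : ℝ)) * (600000 * (r : ℝ) ^ 2) := h5
              _ = 1800000 * (r : ℝ) ^ 2 * d := by ring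
          calc 2 * ((t : ℝ) * r) = (t : ℝ) * (2 * r) := by ring
            _ ≤ 1800000 * (r : ℝ) ^ 2 * d * (2 * r) :=
              mul_le_mul_of_nonneg_right h1 (by linarith)
            _ = 3600000 * (r : ℝ) ^ 3 * d := by ring
        · have h5 : (r : ℝ) ≤ (r : ℝ) ^ 3 := by
            calc (r : ℝ) = r * 1 := by ring
              _ ≤ r * (r : ℝ) ^ 2 := mul_le_mul_of_nonneg_left hr2'' hr0.le
              _ = (r : ℝ) ^ 3 := by ring
          have h6 : (t : ℝ) * 2 ≤ t * r := mul_le_mul_of_nonneg_left hr2' ht0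
          linarith
        · rw [hh]
          have h7 : (0 : ℝ) < 600000 * (r : ℝ) ^ 2 := by positivity
          rw [← hh]
          have h8 : 192 * ((q' : ℝ) * r) * (1 + h) * (600000 * (r : ℝ) ^ 2) ≤ q' * (t : ℝ) := by
            have h9 : 115200000 * ((r : ℝ) ^ 3 * (1 + h)) ≤ (t : ℝ) := by
              have h10 : (1 + h) ≤ 2 * l := by linarith
              have h11 : (r : ℝ) ^ 3 * (1 + h) ≤ (r : ℝ) ^ 3 * (2 * l) :=
                mul_le_mul_of_nonneg_left h10 hr3.le
              have h12 : (0 : ℝ) ≤ (r : ℝ) ^ 3 * l := mul_nonneg hr3.le (by linarith)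
              have h13 : (r : ℝ) ^ 3 * (2 * l) = 2 * ((r : ℝ) ^ 3 * l) := by ring
              have h14 : 249700000 * (r : ℝ) ^ 3 * l = 249700000 * ((r : ℝ) ^ 3 * l) := by ring
              rw [h13] at h11
              rw [h14] at ht3
              linarith
            calc 192 * ((q' : ℝ) * r) * (1 + h) * (600000 * (r : ℝ) ^ 2)
                = q' * (115200000 * ((r : ℝ) ^ 3 * (1 + h))) := by ring
              _ ≤ q' * (t : ℝ) := mul_le_mul_of_nonneg_left h9 hq'0
          have h15 : h * t = (q' : ℝ) * t / (600000 * (r : ℝ) ^ 2) := by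
            rw [hh, div_mul_eq_mul_div]
          rw [h15, le_div_iff₀ h7]
          exact h8
  exact_mod_cast hcard

end Pool.Agent.Lib.MP_eeed5c_coT
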