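import Pool.Agent.Lib.MP_eeed5c_co_T.FD
import Pool.Agent.Lib.MP_eeed5c_co_T.UB
import Pool.Agent.Lib.MP_eeed5c_co_T.GA2
import Pool.Agent.Lib.MP_eeed5c_co_T.CA

/-!
# The upper matching conjecture for graphs with few 4-cycles
-/

set_option autoImplicit false

namespace Pool.Agent.Lib.MP_eeed5c_coT

open Finset Pool.Agent.Lib.MP_eeed5c_co

/-- The reduction to matchings with at least one sixth of the possible size. -/
theorem small_or {V : Type*} [Fintype V] {G : SimpleGraph V} {q r k : ℕ}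
    (hV : Fintype.card V = 2 * (q * r)) (hreg : Reg G r) :
    (mats G k).card ≤ (mats (KK q r) k).card ∨
      (1 ≤ k ∧ k ≤ q * r ∧ q * r ≤ 6 * k ∧ 2 ≤ r ∧ 1 ≤ q) := by
  by_cases hsmall : (6 * r - 5) * (k - 1) ≤ q * r ^ 2
  · exact Or.inl (small_matchings hV hreg hsmall)
  by_cases hkn : k ≤ q * r
  swap
  · left
    rw [card_mats_eq_zero (by omega)]
    exact Nat.zero_le _
  right
  have hsmall' := not_le.1 hsmall
  have hk1 : 1 ≤ k := by
    rcases Nat.eq_zero_or_pos k with rfl | h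
    · simp at hsmall'
    · exact h
  have hr2 : 2 ≤ r := by
    by_contra hlt
    have h01 : r = 0 ∨ r = 1 := by omega
    rcases h01 with rfl | rfl
    · simp at hsmall'
    · simp only [mul_one, one_pow] at hsmall' hkn
      omega
  have hkq : q * r ≤ 6 * k := by
    have h1 : 6 * r - 5 ≤ 6 * r := by omega
    have h2 : q * r * r < 6 * r * (k - 1) := by
      calc q * r * r = q * r ^ 2 := by ring
        _ < (6 * r - 5) * (k - 1) := hsmall'
        _ ≤ 6 * r * (k - 1) := Nat.mul_le_mul_right _ h1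
    have h3 : r * (q * r) < r * (6 * (k - 1)) := by
      calc r * (q * r) = q * r * r := by ring
        _ < 6 * r * (k - 1) := h2
        _ = r * (6 * (k - 1)) := by ring
    have h4 := Nat.lt_of_mul_lt_mul_left h3
    omega
  have hq1 : 1 ≤ q := by
    rcases Nat.eq_zero_or_pos q with rfl | h
    · simp at hkn; omega
    · exact h
  exact ⟨hk1, hkn, hkq, hr2, hq1⟩

/-- Graphs with a large total defect. -/
theorem main_defect {q r k : ℕ} {V : Type*} [Fintype V] {G : SimpleGraph V}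
    (hq : 104000 * (r : ℝ) ^ 4 * Real.log ((q : ℝ) * r + 1) ≤ dfc G r)
    (hV : Fintype.card V = 2 * (q * r)) (hreg : Reg G r) :
    (mats G k).card ≤ (mats (KK q r) k).card := by
  rcases small_or (k := k) hV hreg with h | ⟨hk1, hkn, hkq, hr2, hq1⟩
  · exact h
  have hr2' : (2 : ℝ) ≤ r := by exact_mod_cast hr2
  have hr0 : (0 : ℝ) < r := by linarith
  have hx0 : (0 : ℝ) < 1 / (6 * (r : ℝ)) := by positivity
  have hx1 : 1 / (6 * (r : ℝ)) * r ≤ 1 := by
    have : 1 / (6 * (r : ℝ)) * r = 1 / 6 := by field_simp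
    rw [this]; norm_num
  have hkq' : (q : ℝ) * r ≤ 6 * k := by exact_mod_cast hkq
  have hl : 0 ≤ Real.log ((q : ℝ) * r + 1) := Real.log_nonneg (by
    have : (0 : ℝ) ≤ (q : ℝ) * r := by positivity
    linarith)
  have hD0 : 0 ≤ dfc G r := le_trans (by positivity) hq
  have hcard : ((mats G k).card : ℝ) ≤ (mats (KK q r) k).card := by
    rw [card_mats_KK, ← mp_coeff]
    refine case_one (x0 := 1 / (6 * (r : ℝ)))
      (h := dfc G r * (1 / (6 * (r : ℝ))) ^ 4 / (8 * (1 + 2 * (1 / (6 * (r : ℝ))) * r) ^ 8))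
      (by omega) hk1 hkn NN_mp ?_ ?_ ?_
    · have e : 1 / (6 * (r : ℝ)) * (q * (r : ℝ) ^ 2) = q * r / 6 := by field_simp
      rw [e]
      linarith
    · have e : 1 + 2 * (1 / (6 * (r : ℝ))) * r = 4 / 3 := by field_simp; norm_num
      rw [e, le_div_iff₀ (by norm_num)]
      have e2 : dfc G r * (1 / (6 * (r : ℝ))) ^ 4 = dfc G r / (1296 * (r : ℝ) ^ 4) := by
        field_simp
        norm_num
      rw [e2, le_div_iff₀ (by positivity)]
      have h8 : (8 : ℝ) * (4 / 3) ^ 8 * 1296 ≤ 104000 := by norm_num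
      calc Real.log ((q : ℝ) * r + 1) * (8 * (4 / 3) ^ 8) * (1296 * (r : ℝ) ^ 4)
          = (8 * (4 / 3) ^ 8 * 1296) * ((r : ℝ) ^ 4 * Real.log ((q : ℝ) * r + 1)) := by ring
        _ ≤ 104000 * ((r : ℝ) ^ 4 * Real.log ((q : ℝ) * r + 1)) :=
          mul_le_mul_of_nonneg_right h8 (by positivity)
        _ = 104000 * (r : ℝ) ^ 4 * Real.log ((q : ℝ) * r + 1) := by ring
        _ ≤ dfc G r := hq
    · intro x hx
      exact gap2 (by omega) hV hreg hD0 (le_refl _) hx0 hx1 hx
  exact_mod_cast hcard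

/-- Graphs with few 4-cycles. -/
theorem main_c4 {q r k : ℕ} {V : Type*} [Fintype V] {G : SimpleGraph V}
    (hq : 104000 * (r : ℝ) ^ 4 * Real.log ((q : ℝ) * r + 1) ≤
      2 * q * (r : ℝ) ^ 2 * ((r : ℝ) - 1) ^ 2 - c4 G)
    (hV : Fintype.card V = 2 * (q * r)) (hreg : Reg G r) :
    (mats G k).card ≤ (mats (KK q r) k).card := by
  refine main_defect ?_ hV hreg
  rw [dfc_eq hreg, hV]
  push_cast
  linarith [show 2 * ((q : ℝ) * r) * r * ((r : ℝ) - 1) ^ 2 =
    2 * q * (r : ℝ) ^ 2 * ((r : ℝ) - 1) ^ 2 by ring]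

/-- The factor `2 q r ^ 2`. -/
theorem scale_num {q r : ℕ} {e : ℝ}
    (hq : 52000 * (r : ℝ) ^ 2 * Real.log ((q : ℝ) * r + 1) ≤ e * q) :
    104000 * (r : ℝ) ^ 4 * Real.log ((q : ℝ) * r + 1) ≤ ((2 * (q * r) : ℕ) : ℝ) * r * e := by
  have h : (2 * (r : ℝ) ^ 2) * (52000 * (r : ℝ) ^ 2 * Real.log ((q : ℝ) * r + 1)) ≤
      (2 * (r : ℝ) ^ 2) * (e * q) := mul_le_mul_of_nonneg_left hq (by positivity)
  push_cast
  calc 104000 * (r : ℝ) ^ 4 * Real.log ((q : ℝ) * r + 1)
      = (2 * (r : ℝ) ^ 2) * (52000 * (r : ℝ) ^ 2 * Real.log ((q : ℝ) * r + 1)) := by ring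
    _ ≤ (2 * (r : ℝ) ^ 2) * (e * q) := h
    _ = 2 * ((q : ℝ) * r) * r * e := by ring

/-- Graphs without a component with `2 r` vertices. -/
theorem main_noblock {q r k : ℕ} {V : Type*} [Fintype V] {G : SimpleGraph V}
    (hno : ∀ S : Set V, (∀ a b, G.Adj a b → (a ∈ S ↔ b ∈ S)) → S.ncard ≠ 2 * r)
    (hq : 52000 * (r : ℝ) ^ 2 * Real.log ((q : ℝ) * r + 1) ≤ q)
    (hV : Fintype.card V = 2 * (q * r)) (hreg : Reg G r) :
    (mats G k).card ≤ (mats (KK q r) k).card := by
  rcases small_or (k := k) hV hreg with h | ⟨hk1, hkn, hkq, hr2, hq1⟩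
  · exact h
  refine main_defect ?_ hV hreg
  have h1 := dfc_ge (e := 1) hreg (wc_le_noblock (by omega) hreg hno)
  refine le_trans ?_ h1
  rw [hV]
  exact scale_num (by rw [one_mul]; exact hq)

open scoped Classical in
/-- Graphs with small codegrees. -/
theorem main_codeg {q r s k : ℕ} {V : Type*} [Fintype V] {G : SimpleGraph V} (hs : 1 ≤ s)
    (hco : ∀ v u, v ≠ u → (univ.filter fun w => G.Adj v w ∧ G.Adj u w).card ≤ s)
    (hq : 52000 * (r : ℝ) ^ 2 * Real.log ((q : ℝ) * r + 1) ≤ ((r : ℝ) - 1) * (r - s) * q)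
    (hV : Fintype.card V = 2 * (q * r)) (hreg : Reg G r) :
    (mats G k).card ≤ (mats (KK q r) k).card := by
  rcases small_or (k := k) hV hreg with h | ⟨hk1, hkn, hkq, hr2, hq1⟩
  · exact h
  refine main_defect ?_ hV hreg
  have h1 := dfc_ge (e := ((r : ℝ) - 1) * (r - s)) hreg
    (wc_le_codeg (by omega) hs hreg hco)
  refine le_trans ?_ h1
  rw [hV]
  exact scale_num hq

/-- Counting walks of length two. -/
theorem card_walks {q r s : ℕ} {V : Type*} [Fintype V] {G : SimpleGraph V} (hr : 1 ≤ r)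
    (hco : ∀ v u, v ≠ u → (by classical exact (univ.filter fun w => G.Adj v w ∧ G.Adj u w).card) ≤ s)
    (hV : Fintype.card V = 2 * (q * r)) (hreg : Reg G r) (hq : 1 ≤ q) :
    r ≤ 2 * q * s + 1 := by
  classical
  have hVpos : 0 < Fintype.card V := by rw [hV]; positivity
  obtain ⟨v⟩ : Nonempty V := Fintype.card_pos_iff.1 hVpos
  -- pairs (a, c) with a ~ v, c ~ a
  have h1 : ∑ c : V, (univ.filter fun w => G.Adj v w ∧ G.Adj c w).card = r * r := by
    have : ∀ c : V, (univ.filter fun w => G.Adj v w ∧ G.Adj c w).card =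
        ∑ w ∈ univ.filter (fun w => G.Adj v w), if G.Adj c w then 1 else 0 := by
      intro c
      rw [← Finset.card_filter, Finset.filter_filter]
    rw [Finset.sum_congr rfl (fun c _ => this c), Finset.sum_comm]
    have h2 : ∀ w ∈ univ.filter (fun w => G.Adj v w),
        ∑ c : V, (if G.Adj c w then 1 else 0) = r := by
      intro w _
      rw [← Finset.card_filter, ← hreg w]
      congr 1
      ext c
      simp [G.adj_comm]
    rw [Finset.sum_congr rfl h2, Finset.sum_const, hreg v, smul_eq_mul]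
  have h3 : ∑ c : V, (univ.filter fun w => G.Adj v w ∧ G.Adj c w).card ≤
      r + Fintype.card V * s := by
    rw [← Finset.add_sum_erase univ _ (Finset.mem_univ v)]
    have e1 : (univ.filter fun w => G.Adj v w ∧ G.Adj v w).card = r := by
      rw [← hreg v]; congr 1; ext w; simp
    have e2 : ∑ c ∈ univ.erase v, (univ.filter fun w => G.Adj v w ∧ G.Adj c w).card ≤
        ∑ _c ∈ univ.erase v, s := by
      refine Finset.sum_le_sum fun c hc => ?_
      have hvc : v ≠ c := (Finset.ne_of_mem_erase hc).symm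
      exact hco v c hvc
    rw [Finset.sum_const, smul_eq_mul] at e2
    have e3 : (univ.erase v : Finset V).card * s ≤ Fintype.card V * s :=
      Nat.mul_le_mul_right _ (Finset.card_le_univ _)
    omega
  rw [h1, hV] at h3
  have h4 : r * r ≤ r * (2 * q * s + 1) := by
    calc r * r ≤ r + 2 * (q * r) * s := h3
      _ = r * (2 * q * s + 1) := by ring
  exact Nat.le_of_mul_le_mul_left h4 (by omega)

/-- A linear bound for the logarithm. -/
theorem log_le_lin {y a : ℝ} (hy : 0 < y) (ha : 0 < a) :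
    Real.log y ≤ y / a + Real.log a - 1 := by
  have h1 : Real.log (y / a) ≤ y / a - 1 := Real.log_le_sub_one_of_pos (by positivity)
  rw [Real.log_div hy.ne' ha.ne'] at h1
  linarith

/-- Numerical part of the corollary for large degree. -/
theorem codeg_num {q r s : ℕ} (hr : 2 ≤ r) (hs : 1 ≤ s)
    (hrs : 500000 * (s : ℝ) * Real.log r ≤ r) (hq : r ≤ 2 * q * s + 1) :
    s + 1 ≤ r ∧
      52000 * (r : ℝ) ^ 2 * Real.log ((q : ℝ) * r + 1) ≤ ((r : ℝ) - 1) * (r - s) * q := by
  have hr' : (2 : ℝ) ≤ r := by exact_mod_cast hr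
  have hs' : (1 : ℝ) ≤ s := by exact_mod_cast hs
  have hq' : (r : ℝ) ≤ 2 * q * s + 1 := by exact_mod_cast hq
  have hr0 : (0 : ℝ) < r := by linarith
  have hs0 : (0 : ℝ) < s := by linarith
  have hlog2 : 0.6931471803 < Real.log 2 := Real.log_two_gt_d9
  have hlog2' : Real.log 2 < 0.6931471808 := Real.log_two_lt_d9
  norm_num at hlog2 hlog2'
  set l : ℝ := Real.log r with hl
  have hl1 : 0.69 ≤ l := by
    have : Real.log 2 ≤ l := Real.log_le_log (by norm_num) hr'
    norm_num
    linarith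
  -- first bootstrap
  have hsl : l ≤ s * l := by
    calc l = 1 * l := by ring
      _ ≤ s * l := mul_le_mul_of_nonneg_right hs' (by linarith)
  have hrs' : 500000 * (s * l) ≤ r := by
    calc 500000 * (s * l) = 500000 * s * l := by ring
      _ ≤ (r : ℝ) := hrs
  have hr1 : (262144 : ℝ) ≤ r := by linarith
  have hl2 : 12.4 ≤ l := by
    have h1 : Real.log 262144 ≤ l := Real.log_le_log (by norm_num) hr1
    have h2 : Real.log 262144 = 18 * Real.log 2 := by
      rw [← Real.log_rpow (by norm_num)]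
      norm_num
    norm_num
    linarith
  have hr2 : (4194304 : ℝ) ≤ r := by linarith
  have hl3 : 15 ≤ l := by
    have h1 : Real.log 4194304 ≤ l := Real.log_le_log (by norm_num) hr2
    have h2 : Real.log 4194304 = 22 * Real.log 2 := by
      rw [← Real.log_rpow (by norm_num)]
      norm_num
    linarith
  have hsr : 7500000 * (s : ℝ) ≤ r := by
    have : 15 * (s : ℝ) ≤ s * l := by
      calc 15 * (s : ℝ) = s * 15 := by ring
        _ ≤ s * l := mul_le_mul_of_nonneg_left hl3 hs0.le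
    linarith
  have hsr' : s + 1 ≤ r := by
    have : (s : ℝ) + 1 ≤ r := by linarith
    exact_mod_cast this
  refine ⟨hsr', ?_⟩
  -- q is large
  have hqs : 0.499 * (r : ℝ) ≤ q * s := by
    norm_num
    linarith
  have hq0 : (0 : ℝ) ≤ q := Nat.cast_nonneg q
  have hql : 249500 * l ≤ q := by
    have h1 : 249500 * l * s ≤ q * s := by
      calc 249500 * l * s = 0.499 * (500000 * (s * l)) := by norm_num; ring
        _ ≤ 0.499 * r := by
          apply mul_le_mul_of_nonneg_left hrs'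
          norm_num
        _ ≤ q * s := hqs
    exact le_of_mul_le_mul_right h1 hs0
  have hqbig : (3742500 : ℝ) ≤ q := by linarith
  -- the logarithm
  have hlogq : Real.log ((q : ℝ) + 1) ≤ ((q : ℝ) + 1) / 1048576 + 13 := by
    have h1 := log_le_lin (y := (q : ℝ) + 1) (a := 1048576) (by linarith) (by norm_num)
    have h2 : Real.log 1048576 = 20 * Real.log 2 := by
      rw [← Real.log_rpow (by norm_num)]
      norm_num
    rw [h2] at h1
    linarith
  have hlogqr : Real.log ((q : ℝ) * r + 1) ≤ Real.log ((q : ℝ) + 1) + l := by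
    rw [hl, ← Real.log_mul (by linarith) (by linarith)]
    apply Real.log_le_log (by positivity)
    have : (1 : ℝ) ≤ r := by linarith
    linarith
  have hmain : 52000 * Real.log ((q : ℝ) * r + 1) ≤ 0.9 * q := by
    norm_num
    have h3 : ((q : ℝ) + 1) / 1048576 ≤ q / 1000000 := by
      rw [div_le_div_iff₀ (by norm_num) (by norm_num)]
      linarith
    linarith
  have hprod : 0.9 * (r : ℝ) ^ 2 ≤ ((r : ℝ) - 1 - s) * (r - s) := by
    have h1 : 0.96 * (r : ℝ) ≤ r - 1 - s := by norm_num; linarith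
    have h2 : 0.96 * (r : ℝ) ≤ r - s := by norm_num; linarith
    calc 0.9 * (r : ℝ) ^ 2 ≤ (0.96 * r) * (0.96 * r) := by
          have : (0 : ℝ) ≤ (r : ℝ) ^ 2 := sq_nonneg _
          norm_num
          linarith
      _ ≤ ((r : ℝ) - 1 - s) * (r - s) := mul_le_mul h1 h2 (by positivity) (by linarith)
  calc 52000 * (r : ℝ) ^ 2 * Real.log ((q : ℝ) * r + 1)
      = (r : ℝ) ^ 2 * (52000 * Real.log ((q : ℝ) * r + 1)) := by ring
    _ ≤ (r : ℝ) ^ 2 * (0.9 * q) := mul_le_mul_of_nonneg_left hmain (sq_nonneg _)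
    _ = 0.9 * (r : ℝ) ^ 2 * q := by ring
    _ ≤ ((r : ℝ) - 1 - s) * (r - s) * q := mul_le_mul_of_nonneg_right hprod hq0
    _ ≤ ((r : ℝ) - 1) * (r - s) * q := by
        refine mul_le_mul_of_nonneg_right ?_ hq0
        exact mul_le_mul_of_nonneg_right (by linarith) (by linarith)

open scoped Classical in
/-- Large degree, no condition on the number of blocks. -/
theorem main_codeg_large {q r s k : ℕ} {V : Type*} [Fintype V] {G : SimpleGraph V} (hs : 1 ≤ s)
    (hrs : 500000 * (s : ℝ) * Real.log r ≤ r)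
    (hco : ∀ v u, v ≠ u → (univ.filter fun w => G.Adj v w ∧ G.Adj u w).card ≤ s)
    (hV : Fintype.card V = 2 * (q * r)) (hreg : Reg G r) :
    (mats G k).card ≤ (mats (KK q r) k).card := by
  rcases small_or (k := k) hV hreg with h | ⟨hk1, hkn, hkq, hr2, hq1⟩
  · exact h
  have hw := card_walks (G := G) (by omega : 1 ≤ r) hco hV hreg hq1
  obtain ⟨h1, h2⟩ := codeg_num hr2 hs hrs hw
  exact main_codeg hs hco h2 hV hreg

end Pool.Agent.Lib.MP_eeed5c_coT
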