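import Pool.Agent.Lib.MP_eeed5c_co_T.Fin1
import Pool.Agent.Lib.MP_eeed5c_co_T.Fin2

/-!
# The polynomial form of the condition on the number of blocks
-/

set_option autoImplicit false

namespace Pool.Agent.Lib.MP_eeed5c_coT

open Finset Pool.Agent.Lib.MP_eeed5c_co

theorem poly_num {q r : ℕ} (hr : 2 ≤ r) (hq : 10000000000 * (r : ℝ) ^ 4 ≤ q) :
    250000000 * (r : ℝ) ^ 3 * Real.log ((q : ℝ) * r + 1) ≤ q := by
  have hr' : (2 : ℝ) ≤ r := by exact_mod_cast hr
  have hr0 : (0 : ℝ) < r := by linarith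
  have hq0 : (0 : ℝ) ≤ q := Nat.cast_nonneg q
  have hr3 : (0 : ℝ) < (r : ℝ) ^ 3 := by positivity
  have hr4 : (0 : ℝ) < (r : ℝ) ^ 4 := by positivity
  have hr5 : (0 : ℝ) < (r : ℝ) ^ 5 := by positivity
  have hlog2' : Real.log 2 < 0.6931471808 := Real.log_two_lt_d9
  norm_num at hlog2'
  -- the bound of the logarithm
  have h1 := log_le_lin (y := (q : ℝ) * r + 1) (a := 10000000000 * (r : ℝ) ^ 5)
    (by positivity) (by positivity)
  have h2 : Real.log (10000000000 * (r : ℝ) ^ 5) ≤ 24 + 5 * (r / 2) := by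
    rw [Real.log_mul (by norm_num) (by positivity), Real.log_pow]
    have h3 : Real.log r ≤ r / 2 := by
      have h4 := log_le_lin (y := (r : ℝ)) (a := 2) hr0 (by norm_num)
      linarith
    have h5 : Real.log 10000000000 ≤ 24 := by
      have h6 : Real.log 10000000000 ≤ Real.log 17179869184 :=
        Real.log_le_log (by norm_num) (by norm_num)
      have h7 : Real.log 17179869184 = 34 * Real.log 2 := by
        rw [← Real.log_rpow (by norm_num)]
        norm_num
      linarith
    push_cast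
    linarith
  have h3 : ((q : ℝ) * r + 1) / (10000000000 * (r : ℝ) ^ 5) ≤
      q / (10000000000 * (r : ℝ) ^ 4) + 1 := by
    have e : ((q : ℝ) * r + 1) / (10000000000 * (r : ℝ) ^ 5) =
        q / (10000000000 * (r : ℝ) ^ 4) + 1 / (10000000000 * (r : ℝ) ^ 5) := by
      field_simp
    rw [e]
    have h8 : (1 : ℝ) ≤ (r : ℝ) ^ 5 := one_le_pow₀ (by linarith)
    have : 1 / (10000000000 * (r : ℝ) ^ 5) ≤ 1 := by
      rw [div_le_one (by positivity)]
      linarith
    linarith
  have h4 : Real.log ((q : ℝ) * r + 1) ≤ q / (10000000000 * (r : ℝ) ^ 4) + 14.5 * r := by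
    norm_num
    linarith
  calc 250000000 * (r : ℝ) ^ 3 * Real.log ((q : ℝ) * r + 1)
      ≤ 250000000 * (r : ℝ) ^ 3 * (q / (10000000000 * (r : ℝ) ^ 4) + 14.5 * r) :=
        mul_le_mul_of_nonneg_left h4 (by positivity)
    _ = q / (40 * r) + 3625000000 * (r : ℝ) ^ 4 := by
        field_simp
        ring
    _ ≤ q / 80 + 0.3625 * q := by
        have h9 : (q : ℝ) / (40 * r) ≤ q / 80 := by
          apply div_le_div_of_nonneg_left hq0 (by norm_num)
          linarith
        norm_num
        linarith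
    _ ≤ q := by norm_num; linarith

/-- The polynomial form. -/
theorem main_poly {q r k : ℕ} {V : Type} [Fintype V] {G : SimpleGraph V}
    (hq : 10000000000 * r ^ 4 ≤ q)
    (hV : Fintype.card V = 2 * (q * r)) (hreg : Reg G r) :
    (mats G k).card ≤ (mats (KK q r) k).card := by
  rcases small_or (k := k) hV hreg with h | ⟨hk1, hkn, hkq, hr2, hq1⟩
  · exact h
  exact main_large (poly_num hr2 (by exact_mod_cast hq)) hV hreg

end Pool.Agent.Lib.MP_eeed5c_coT
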