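import Pool.Agent.Lib.MP_eeed5c_co_T.UB
import Pool.Agent.Lib.MP_eeed5c_co_T.PA

/-!
# Reverse log-concavity

* `second_moment_EE`: for every `r`-regular graph on `2 n` vertices: with `m = i + 1`, `m^2 m_m^2 ≤ m_{m-1} ((m-2)(m+1) m_{m+1} + (m + 2 r (n - m)) m_m)`. This is inside the proof of `ratio_bound` in `Pool.Agent.Lib.MP_eeed5c_co.Variance`: the facts `hb` and `hleft` there say
`∑_{N ∈ mats i} (EE N)^2 = (2(i+1) - 4) * (2 (i+2) m_{i+2}) + (4 (i+1) + 4 r (2n - 2(i+1))) m_{i+1}` (copy that part of the proof), `∑_{N ∈ mats i} EE N = 2 (i+1) m_{i+1}` (`sum_EE`), and Cauchy-Schwarz (`sq_sum_le_card_mul_sum_sq`): `(∑_N EE N)^2 ≤ m_i ∑_N (EE N)^2`. Divide by `4`.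
* `T_rev`: apply this to `KK t r` (`n = t r`, `KK_card`, `KK_deg`, `card_mats_KK`): with `m = i+1 ≤ t r`, `λ = T i / T (i+1)`: if `m ≤ 2` the left side of the claim is `≤ 0` (`2 r / m ≥ 1`, `λ ≥ 0`). For `m ≥ 3`: `T (m+1) T (m-1) (m-2)(m+1) ≥ T_m^2 (m^2 - λ (m + 2 r (n-m)))`; by `T_low`
(at `m-1`): `(n - m + 1) T (m-1) ≤ m T m`, so `λ (n - m) ≤ m` and `λ (m + 2 r (n-m)) ≤ m (λ + 2 r)`; hence `T (m+1) T (m-1) (m-2)(m+1) ≥ T_m^2 m^2 (1 - (λ + 2 r)/m)`. If `1 - (λ+2r)/m ≤ 0` the claim is trivial, otherwise use `(m-2)(m+1) ≤ m^2`.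
-/

set_option autoImplicit false

namespace Pool.Agent.Lib.MP_eeed5c_coT

open Finset Pool.Agent.Lib.MP_eeed5c_co

theorem second_moment_EE {V : Type*} [Fintype V] {G : SimpleGraph V} {r n : ℕ}
    (hV : Fintype.card V = 2 * n) (hreg : Reg G r) (i : ℕ) :
    ((i : ℝ) + 1) ^ 2 * ((mats G (i + 1)).card : ℝ) ^ 2 ≤ (mats G i).card *
      (((i : ℝ) - 1) * (i + 2) * (mats G (i + 2)).card +
        ((i + 1) + 2 * r * ((n : ℝ) - (i + 1))) * (mats G (i + 1)).card) := by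
  classical
  -- (b)
  have hb : ∑ N ∈ mats G i, (EE G N) ^ 2 =
      ∑ M ∈ mats G (i + 1), ((2 * (i + 1)) * (EE G M + 2) +
        4 * (r * (2 * n - 2 * (i + 1)) - EE G M)) := by
    have h1 := sum_insert (G := G) i (fun M p => EE G (M.erase s(p.1, p.2)))
    have h2 : ∑ N ∈ mats G i, ∑ p ∈ univ.filter
        (fun p : V × V => p.1 ∈ free N ∧ p.2 ∈ free N ∧ G.Adj p.1 p.2),
        EE G ((insert s(p.1, p.2) N).erase s(p.1, p.2)) = ∑ N ∈ mats G i, (EE G N) ^ 2 := by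
      refine Finset.sum_congr rfl fun N _ => ?_
      have h3 : ∀ p ∈ univ.filter
          (fun p : V × V => p.1 ∈ free N ∧ p.2 ∈ free N ∧ G.Adj p.1 p.2),
          EE G ((insert s(p.1, p.2) N).erase s(p.1, p.2)) = EE G N := by
        rintro ⟨a, b⟩ hp
        simp only [Finset.mem_filter, Finset.mem_univ, true_and] at hp
        have hnot : s(a, b) ∉ N := fun h' => mem_free.1 hp.1 _ h' (by simp)
        simp only [Finset.erase_insert hnot]
      rw [Finset.sum_congr rfl h3, sum_pairs N (fun _ => EE G N)]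
      have h4 : ∀ a ∈ free N, ∑ b ∈ nb G N a, EE G N = (D G N a : ℝ) * EE G N := by
        intro a _
        rw [Finset.sum_const, nsmul_eq_mul]; rfl
      rw [Finset.sum_congr rfl h4, ← Finset.sum_mul, sq]
      rfl
    rw [← h2, ← h1]
    refine Finset.sum_congr rfl fun M hM => ?_
    have h5 : ∀ p ∈ univ.filter (fun p : V × V => s(p.1, p.2) ∈ M),
        EE G (M.erase s(p.1, p.2)) = (EE G M + 2) + 2 * (D G M p.1 : ℝ) + 2 * (D G M p.2 : ℝ) := by
      rintro ⟨a, b⟩ hp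
      simp only [Finset.mem_filter, Finset.mem_univ, true_and] at hp
      rw [EE_erase hM hp]
      ring
    rw [Finset.sum_congr rfl h5, Finset.sum_add_distrib, Finset.sum_add_distrib,
      sum_darts hM (fun _ => EE G M + 2), ← Finset.mul_sum, ← Finset.mul_sum,
      sum_darts hM (fun a => (D G M a : ℝ)), sum_darts_snd hM (fun a => (D G M a : ℝ))]
    have h6 := sum_covered_D hreg M
    have h7 := card_covered hM
    have h8 := card_free hM
    have h8' : ((free M).card : ℝ) = 2 * n - 2 * (i + 1) := by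
      have : ((free M).card : ℝ) + 2 * ((i + 1 : ℕ) : ℝ) = ((2 * n : ℕ) : ℝ) := by
        rw [← hV]; exact_mod_cast h8
      push_cast at this
      linarith
    have h7' : ((univ.filter (fun a => a ∉ free M)).card : ℝ) = 2 * (i + 1) := by
      have : (univ.filter (fun a => a ∉ free M)).card = 2 * (i + 1) := h7
      rw [this]; push_cast; ring
    have h6' : ∑ a ∈ univ.filter (fun a => a ∉ free M), (D G M a : ℝ) =
      r * (free M).card - EE G M := h6
    rw [h6', Finset.sum_const, nsmul_eq_mul, h7', h8']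
    ring
  have hleft : ∑ M ∈ mats G (i + 1), ((2 * ((i : ℝ) + 1)) * (EE G M + 2) +
        4 * (r * (2 * n - 2 * (i + 1)) - EE G M)) =
      (2 * (i + 1) - 4) * (2 * ((i + 1 : ℕ) + 1) * (mats G (i + 1 + 1)).card) +
        (4 * (i + 1) + 4 * (r * (2 * n - 2 * (i + 1)))) * (mats G (i + 1)).card := by
    rw [← sum_EE (i + 1), Finset.mul_sum]
    have : ∀ M ∈ mats G (i + 1), (2 * ((i : ℝ) + 1)) * (EE G M + 2) +
        4 * (r * (2 * n - 2 * (i + 1)) - EE G M) = (2 * (i + 1) - 4) * EE G M +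
        (4 * (i + 1) + 4 * (r * (2 * n - 2 * (i + 1)))) := by
      intro M _
      ring
    rw [Finset.sum_congr rfl this, Finset.sum_add_distrib, Finset.sum_const, nsmul_eq_mul]
    ring
  have hcs := sq_sum_le_card_mul_sum_sq (s := mats G i) (f := fun N => EE G N)
  rw [sum_EE i, hb, hleft] at hcs
  push_cast at hcs
  have e1 : i + 1 + 1 = i + 2 := rfl
  rw [e1] at hcs
  have e2 : (2 * ((i : ℝ) + 1) * ((mats G (i + 1)).card : ℝ)) ^ 2 =
      4 * (((i : ℝ) + 1) ^ 2 * ((mats G (i + 1)).card : ℝ) ^ 2) := by ring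
  have e3 : ((mats G i).card : ℝ) * ((2 * ((i : ℝ) + 1) - 4) *
      (2 * ((i : ℝ) + 1 + 1) * ((mats G (i + 2)).card : ℝ)) +
      (4 * ((i : ℝ) + 1) + 4 * ((r : ℝ) * (2 * n - 2 * ((i : ℝ) + 1)))) *
        ((mats G (i + 1)).card : ℝ)) =
      4 * ((mats G i).card * (((i : ℝ) - 1) * (i + 2) * (mats G (i + 2)).card +
        ((i + 1) + 2 * r * ((n : ℝ) - (i + 1))) * (mats G (i + 1)).card)) := by ring
  rw [e2, e3] at hcs
  linarith

theorem T_rev {r t i : ℕ} (hr : 1 ≤ r) (hi : i + 1 ≤ t * r) :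
    T r t (i + 1) ^ 2 * (1 - (T r t i / T r t (i + 1) + 2 * r) / (i + 1)) ≤
      T r t (i + 2) * T r t i := by
  have hreg : Reg (KK t r) r := fun v => KK_deg t r v
  have h1 := second_moment_EE (G := KK t r) (n := t * r) (KK_card t r) hreg i
  rw [card_mats_KK, card_mats_KK, card_mats_KK] at h1
  have hB : 0 < T r t (i + 1) := T_pos hi
  have hA : 0 ≤ T r t i := T_nonneg r t i
  have hC : 0 ≤ T r t (i + 2) := T_nonneg r t (i + 2)
  have h2 := T_low r t i
  have hn : ((i : ℝ) + 1) ≤ (t : ℝ) * r := by exact_mod_cast hi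
  have hr1 : (1 : ℝ) ≤ r := by exact_mod_cast hr
  push_cast at h1
  set A := T r t i
  set B := T r t (i + 1)
  set C := T r t (i + 2)
  have hK : (0 : ℝ) < (i : ℝ) + 1 := by positivity
  have hCA : 0 ≤ C * A := mul_nonneg hC hA
  rcases le_or_gt (1 - (A / B + 2 * r) / ((i : ℝ) + 1)) 0 with hneg | hpos
  · have : B ^ 2 * (1 - (A / B + 2 * r) / ((i : ℝ) + 1)) ≤ 0 :=
      mul_nonpos_of_nonneg_of_nonpos (sq_nonneg B) hneg
    linarith
  · have h3 : ((i : ℝ) + 1) ^ 2 * (B ^ 2 * (1 - (A / B + 2 * r) / ((i : ℝ) + 1))) =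
        ((i : ℝ) + 1) ^ 2 * B ^ 2 - ((i : ℝ) + 1) * (A * B) - 2 * r * ((i : ℝ) + 1) * B ^ 2 := by
      field_simp
      ring
    -- the second inequality
    have h4 : A * ((t : ℝ) * r - (i + 1)) ≤ ((i : ℝ) + 1) * B := by
      have : A * ((t : ℝ) * r - (i + 1)) ≤ ((t : ℝ) * r - i) * A := by nlinarith
      linarith
    have h5 : 2 * (r : ℝ) * B * (A * ((t : ℝ) * r - (i + 1))) ≤
        2 * (r : ℝ) * B * (((i : ℝ) + 1) * B) :=
      mul_le_mul_of_nonneg_left h4 (by positivity)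
    have h6 : ((i : ℝ) + 1) ^ 2 * (B ^ 2 * (1 - (A / B + 2 * r) / ((i : ℝ) + 1))) ≤
        (((i : ℝ) - 1) * (i + 2)) * (C * A) := by
      rw [h3]
      nlinarith [h1, h5]
    have h7 : (((i : ℝ) - 1) * (i + 2)) * (C * A) ≤ ((i : ℝ) + 1) ^ 2 * (C * A) := by
      refine mul_le_mul_of_nonneg_right ?_ hCA
      have : (0 : ℝ) ≤ i := Nat.cast_nonneg i
      nlinarith
    exact le_of_mul_le_mul_left (h6.trans h7) (by positivity)

end Pool.Agent.Lib.MP_eeed5c_coT
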