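import Pool.Agent.Lib.MP_eeed5c_co_T.SA1

/-!
# The weighted sum of the step inequalities

(Everything is close to `step_le` in `Pool.Agent.Lib.MP_eeed5c_co.Step`; copy its proof and keep the lost terms.)
* `slack`. Put `P h = WS G x (fun N => ∑ v ∈ free N, h (D G N v))`. By `WS_levels` `P h = ∑_{i < K} x^i Phi G i h` for `K > card V` (any such `K`). Apply `step_strong` with `w = - u` for all `i < K`, multiply by `x^(i+1)` and sum (`Finset.sum_range_succ'`; `Phi G 0 ((r-d) w d) = 0` by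
`Phi_zero`): `P ((r-d) w d) + x δ BB ≤ x P (d (d-1) w (d-1))`. As `D ≤ r` (`D_le`) and `hu`: `P ((r-d) u d) - x P (d (d-1) u (d-1)) = P (α - β d) = α (card V * Z - 2 x Z') - β * 2 Z'`, where `Z = (mp G).eval x`, `Z' = (mp G).derivative.eval x`: `P 1 = ∑ x^i (card V - 2 i) m_i`
(`Phi_const`) and `P d = ∑ x^i 2 (i+1) m_{i+1}` (`Phi_D`); `Z' = ∑ (i+1) m_{i+1} x^i`. So `x δ BB ≤ α (card V * Z - 2 x Z') - 2 x (1-α) Z' = α card V Z - 2 x Z'`.
-/

set_option autoImplicit false

namespace Pool.Agent.Lib.MP_eeed5c_coT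

open Finset Pool.Agent.Lib.MP_eeed5c_co

section

variable {V : Type*} [Fintype V] {G : SimpleGraph V}

private theorem SA_lev (x : ℝ) (h : ℕ → ℝ) {K : ℕ} (hK : Fintype.card V < 2 * K) :
    WS G x (fun N => ∑ v ∈ free N, h (D G N v)) = ∑ i ∈ range K, x ^ i * Phi G i h :=
  WS_levels x _ hK

private theorem SA_eval (x : ℝ) : (mp G).eval x =
    ∑ i ∈ range (Fintype.card V + 1), x ^ i * ((mats G i).card : ℝ) := by
  rw [mp_eval]
  exact Finset.sum_congr rfl fun i _ => mul_comm _ _

private theorem SA_deriv (x : ℝ) : (mp G).derivative.eval x =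
    ∑ i ∈ range (Fintype.card V + 1), x ^ i * (((i : ℝ) + 1) * ((mats G (i + 1)).card : ℝ)) := by
  unfold mp
  rw [Polynomial.derivative_sum, Polynomial.eval_finsetSum, Finset.sum_range_succ',
    Finset.sum_range_succ _ (Fintype.card V)]
  have h0 : (mats G (Fintype.card V + 1)).card = 0 := card_mats_eq_zero (by omega)
  rw [h0]
  simp only [Polynomial.derivative_monomial, Polynomial.eval_monomial, Nat.cast_zero, mul_zero,
    zero_mul, add_zero, Nat.add_sub_cancel]
  refine Finset.sum_congr rfl fun i _ => ?_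
  push_cast
  ring

private theorem SA_xderiv (x : ℝ) : x * (mp G).derivative.eval x =
    ∑ i ∈ range (Fintype.card V + 1), x ^ i * ((i : ℝ) * ((mats G i).card : ℝ)) := by
  unfold mp
  rw [Polynomial.derivative_sum, Polynomial.eval_finsetSum, Finset.mul_sum]
  refine Finset.sum_congr rfl fun i _ => ?_
  rw [Polynomial.derivative_monomial, Polynomial.eval_monomial]
  rcases Nat.eq_zero_or_pos i with rfl | hi
  · simp
  · obtain ⟨j, rfl⟩ : ∃ j, i = j + 1 := ⟨i - 1, by omega⟩
    rw [Nat.add_sub_cancel, pow_succ]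
    push_cast
    ring

private theorem SA_one (x : ℝ) : WS G x (fun N => ∑ v ∈ free N, (1 : ℝ)) =
    Fintype.card V * (mp G).eval x - 2 * (x * (mp G).derivative.eval x) := by
  have h := SA_lev (G := G) x (fun _ => 1) (K := Fintype.card V + 1) (by omega)
  rw [h, SA_eval, SA_xderiv, Finset.mul_sum, Finset.mul_sum, ← Finset.sum_sub_distrib]
  refine Finset.sum_congr rfl fun i _ => ?_
  rw [Phi_const]
  ring

private theorem SA_D (x : ℝ) : WS G x (fun N => ∑ v ∈ free N, (D G N v : ℝ)) =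
    2 * (mp G).derivative.eval x := by
  have h := SA_lev (G := G) x (fun d => (d : ℝ)) (K := Fintype.card V + 1) (by omega)
  rw [h, SA_deriv, Finset.mul_sum]
  refine Finset.sum_congr rfl fun i _ => ?_
  rw [Phi_D]
  ring

end

theorem slack {V : Type*} [Fintype V] {G : SimpleGraph V} {r : ℕ} (hreg : Reg G r) {x : ℝ}
    (hx : 0 ≤ x) {α δ : ℝ} (hδ : 0 ≤ δ) (u : ℕ → ℝ)
    (hu : ∀ d : ℕ, d ≤ r → ((r : ℝ) - d) * u d - x * (d * ((d : ℝ) - 1) * u (d - 1)) =
      α - x * (1 - α) * d)
    (hmono : ∀ d, d + 1 < r → δ ≤ u d - u (d + 1)) :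
    x * δ * BB G x ≤ α * Fintype.card V * (mp G).eval x - 2 * (x * (mp G).derivative.eval x) := by
  have hreg' : ∀ v : V, (by classical exact (univ.filter fun u => G.Adj v u).card) = r :=
    fun v => hreg v
  obtain ⟨K, hKd⟩ : ∃ K, K = Fintype.card V + 1 := ⟨_, rfl⟩
  have hK : Fintype.card V < 2 * K := by omega
  have hstep := fun i : ℕ => step_strong hreg i (fun d => -u d) hδ
    (fun d hd => by have := hmono d hd; linarith)
  -- the sum over all levels
  have hsum : ∑ i ∈ range K, x ^ (i + 1) *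
      (Phi G (i + 1) (fun d => ((r : ℝ) - d) * -u d) + δ * ∑ N ∈ mats G i, bq G N) ≤
      ∑ i ∈ range K, x ^ (i + 1) * Phi G i (fun d => (d : ℝ) * (d - 1) * -u (d - 1)) :=
    Finset.sum_le_sum fun i _ => mul_le_mul_of_nonneg_left (hstep i) (pow_nonneg hx _)
  have h1 : WS G x (fun N => ∑ v ∈ free N, ((r : ℝ) - D G N v) * -u (D G N v)) =
      ∑ i ∈ range K, x ^ (i + 1) * Phi G (i + 1) (fun d => ((r : ℝ) - d) * -u d) := by
    have h := SA_lev (G := G) x (fun d => ((r : ℝ) - d) * -u d) (K := K + 1) (by omega)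
    rw [h, Finset.sum_range_succ', Phi_zero hreg']
    ring
  have h2 : x * WS G x (fun N => ∑ v ∈ free N, (D G N v : ℝ) * (D G N v - 1) *
      -u (D G N v - 1)) =
      ∑ i ∈ range K, x ^ (i + 1) * Phi G i (fun d => (d : ℝ) * (d - 1) * -u (d - 1)) := by
    have h := SA_lev (G := G) x (fun d => (d : ℝ) * (d - 1) * -u (d - 1)) hK
    rw [h, Finset.mul_sum]
    refine Finset.sum_congr rfl fun i _ => ?_
    rw [pow_succ]
    ring
  have h3 : x * δ * BB G x =
      ∑ i ∈ range K, x ^ (i + 1) * (δ * ∑ N ∈ mats G i, bq G N) := by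
    unfold BB
    rw [WS_levels x _ hK, Finset.mul_sum]
    refine Finset.sum_congr rfl fun i _ => ?_
    rw [pow_succ]
    ring
  have h4 : WS G x (fun N => ∑ v ∈ free N, ((r : ℝ) - D G N v) * -u (D G N v)) +
      x * δ * BB G x ≤ x * WS G x (fun N => ∑ v ∈ free N, (D G N v : ℝ) * (D G N v - 1) *
      -u (D G N v - 1)) := by
    rw [h1, h2, h3, ← Finset.sum_add_distrib]
    refine le_trans (le_of_eq ?_) hsum
    exact Finset.sum_congr rfl fun i _ => by ring
  -- the combination
  have h5 : x * WS G x (fun N => ∑ v ∈ free N, (D G N v : ℝ) * (D G N v - 1) *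
      -u (D G N v - 1)) -
      WS G x (fun N => ∑ v ∈ free N, ((r : ℝ) - D G N v) * -u (D G N v)) =
      α * WS G x (fun N => ∑ v ∈ free N, (1 : ℝ)) -
        x * (1 - α) * WS G x (fun N => ∑ v ∈ free N, (D G N v : ℝ)) := by
    rw [← WS_smul, ← WS_sub, ← WS_smul, ← WS_smul, ← WS_sub]
    refine WS_congr x fun N _ => ?_
    rw [Finset.mul_sum, Finset.mul_sum, Finset.mul_sum, ← Finset.sum_sub_distrib,
      ← Finset.sum_sub_distrib]
    refine Finset.sum_congr rfl fun v _ => ?_
    have h6 := hu (D G N v) (D_le hreg' N v)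
    linarith
  rw [SA_one, SA_D] at h5
  have h7 : x * δ * BB G x ≤ α * (Fintype.card V * (mp G).eval x -
      2 * (x * (mp G).derivative.eval x)) -
      x * (1 - α) * (2 * (mp G).derivative.eval x) := by
    rw [← h5]
    linarith
  refine h7.trans (le_of_eq ?_)
  ring

end Pool.Agent.Lib.MP_eeed5c_coT
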