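import Pool.Agent.Lib.MP_eeed5c_co_T.Base

/-!
# The step inequality with its loss

(Everything is close to `step_le` in `Pool.Agent.Lib.MP_eeed5c_co.Step`; copy its proof and keep the lost terms.)
* `step_strong`. `step_exact` (there with the hypothesis in the form `∀ v, (univ.filter fun u => G.Adj v u).card = r`, which is `Reg G r` unfolded): `Phi G (i+1) ((r-d) w d) = ∑_N ∑_a ∑_{b ∈ nb a} ∑_{v ∈ (nb a).erase b} w (D G (insert s(a,b) N) v)`. By `D_insert`,
`D(insert) v + 1 + [v ~ b] = D G N v =: D_v ≤ r`. So `w (D(insert) v) ≤ w (D_v - 1) - δ [v ~ b]` (equality if not adjacent; if adjacent `D(insert) v = D_v - 2`, `D_v - 2 + 1 < r`, `hw`). Summing over `v ∈ (nb a).erase b` the indicator gives the cardinality of `(nb a).filter (Adj · b)`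
(`b` itself is not adjacent to `b`). Next `sum_paths`: `∑_a ∑_b ∑_{v ∈ (nb a).erase b} w (D_v - 1) = ∑_a ∑_{v ∈ nb a} (D_a - 1) w (D_v - 1)`. As in `step_le` (`sum_nb_comm`, `hexp`):
`∑_a ∑_v (D_a - 1) w(D_v - 1) = ∑_a ∑_v (D_a - 1) w (D_a - 1) - (1/2) ∑_a ∑_v (D_a - D_v)(w (D_a - 1) - w (D_v - 1))`, and `(D_a - D_v)(w (D_a - 1) - w (D_v - 1)) ≥ δ (D_a - D_v)^2` because `w b - w a ≥ δ (b - a)` for `a ≤ b < r` (induction from `hw`), `D_a - 1, D_v - 1 < r`,
`D_a, D_v ≥ 1`.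
-/

set_option autoImplicit false

namespace Pool.Agent.Lib.MP_eeed5c_coT

open Finset Pool.Agent.Lib.MP_eeed5c_co

private theorem SA1_mono {r : ℕ} {w : ℕ → ℝ} {δ : ℝ}
    (hw : ∀ d, d + 1 < r → w d + δ ≤ w (d + 1)) (a k : ℕ) (h : a + k < r) :
    w a + δ * k ≤ w (a + k) := by
  induction k with
  | zero => simp
  | succ k ih =>
    have h1 := ih (by omega)
    have h2 := hw (a + k) (by omega)
    rw [← add_assoc]
    push_cast
    linarith

private theorem SA1_sq {r : ℕ} {w : ℕ → ℝ} {δ : ℝ}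
    (hw : ∀ d, d + 1 < r → w d + δ ≤ w (d + 1)) {a b : ℕ} (ha : 0 < a) (hab : a ≤ b)
    (hb : b ≤ r) : δ * ((b : ℝ) - a) ^ 2 ≤ ((b : ℝ) - a) * (w (b - 1) - w (a - 1)) := by
  have h1 := SA1_mono hw (a - 1) (b - a) (by omega)
  have e1 : a - 1 + (b - a) = b - 1 := by omega
  rw [e1, Nat.cast_sub hab] at h1
  have h2 : (0 : ℝ) ≤ (b : ℝ) - a := by
    have : (a : ℝ) ≤ b := by exact_mod_cast hab
    linarith
  have h3 := mul_le_mul_of_nonneg_left (show δ * ((b : ℝ) - a) ≤ w (b - 1) - w (a - 1) by linarith)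
    h2
  calc δ * ((b : ℝ) - a) ^ 2 = ((b : ℝ) - a) * (δ * ((b : ℝ) - a)) := by ring
    _ ≤ _ := h3

private theorem SA1_sq' {r : ℕ} {w : ℕ → ℝ} {δ : ℝ}
    (hw : ∀ d, d + 1 < r → w d + δ ≤ w (d + 1)) {a b : ℕ} (ha : 0 < a) (hb : 0 < b)
    (har : a ≤ r) (hbr : b ≤ r) :
    δ * ((a : ℝ) - b) ^ 2 ≤ ((a : ℝ) - b) * (w (a - 1) - w (b - 1)) := by
  rcases le_total b a with h | h
  · exact SA1_sq hw hb h har
  · have h1 := SA1_sq hw ha h hbr
    have e1 : δ * ((a : ℝ) - b) ^ 2 = δ * ((b : ℝ) - a) ^ 2 := by ring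
    have e2 : ((a : ℝ) - b) * (w (a - 1) - w (b - 1)) =
        ((b : ℝ) - a) * (w (b - 1) - w (a - 1)) := by ring
    rw [e1, e2]
    exact h1

open scoped Classical in
private theorem SA1_card {V : Type*} [Fintype V] {G : SimpleGraph V} (N : Finset (Sym2 V))
    (a b : V) :
    (((nb G N a).filter (fun v => G.Adj v b)).card : ℝ) =
      ∑ v ∈ (nb G N a).erase b, if G.Adj v b then (1 : ℝ) else 0 := by
  rw [Finset.sum_boole]
  have e : (nb G N a).filter (fun v => G.Adj v b) =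
      ((nb G N a).erase b).filter (fun v => G.Adj v b) := by
    ext v
    simp only [Finset.mem_filter, Finset.mem_erase]
    constructor
    · rintro ⟨h1, h2⟩
      exact ⟨⟨h2.ne, h1⟩, h2⟩
    · rintro ⟨⟨_, h1⟩, h2⟩
      exact ⟨h1, h2⟩
  rw [e]

theorem step_strong {V : Type*} [Fintype V] {G : SimpleGraph V} {r : ℕ} (hreg : Reg G r) (i : ℕ)
    (w : ℕ → ℝ) {δ : ℝ} (hδ : 0 ≤ δ) (hw : ∀ d, d + 1 < r → w d + δ ≤ w (d + 1)) :
    Phi G (i + 1) (fun d => ((r : ℝ) - d) * w d) + δ * ∑ N ∈ mats G i, bq G N ≤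
      Phi G i (fun d => (d : ℝ) * (d - 1) * w (d - 1)) := by
  classical
  have hreg' : ∀ v : V, (univ.filter fun u => G.Adj v u).card = r := by
    intro v
    have h := hreg v
    exact h
  rw [step_exact hreg' i w]
  unfold Phi
  rw [Finset.mul_sum, ← Finset.sum_add_distrib]
  refine Finset.sum_le_sum fun N hN => ?_
  have hDr : ∀ v, D G N v ≤ r := by
    intro v
    rw [← hreg' v]
    unfold D nb
    exact Finset.card_le_card (Finset.filter_subset_filter _ (Finset.subset_univ _))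
  have hA : ∑ a ∈ free N, ∑ b ∈ nb G N a, ∑ v ∈ (nb G N a).erase b,
      w (D G (insert s(a, b) N) v) +
      δ * ∑ a ∈ free N, ∑ b ∈ nb G N a, (((nb G N a).filter (fun v => G.Adj v b)).card : ℝ) ≤
      ∑ a ∈ free N, ∑ b ∈ nb G N a, ∑ v ∈ (nb G N a).erase b, w (D G N v - 1) := by
    rw [Finset.mul_sum, ← Finset.sum_add_distrib]
    refine Finset.sum_le_sum fun a ha => ?_
    rw [Finset.mul_sum, ← Finset.sum_add_distrib]
    refine Finset.sum_le_sum fun b hb => ?_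
    rw [SA1_card N a b, Finset.mul_sum, ← Finset.sum_add_distrib]
    refine Finset.sum_le_sum fun v hv => ?_
    have h1 := D_insert ha hb hv
    have h2 := hDr v
    by_cases hvb : G.Adj v b
    · rw [if_pos hvb] at h1 ⊢
      rw [mul_one]
      have h3 := hw (D G (insert s(a, b) N) v) (by omega)
      have e : D G N v - 1 = D G (insert s(a, b) N) v + 1 := by omega
      rw [e]
      exact h3
    · rw [if_neg hvb] at h1 ⊢
      have e : D G N v - 1 = D G (insert s(a, b) N) v := by omega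
      rw [e, mul_zero, add_zero]
  have hB : ∑ a ∈ free N, ∑ b ∈ nb G N a, ∑ v ∈ (nb G N a).erase b, w (D G N v - 1) =
      ∑ a ∈ free N, ∑ v ∈ nb G N a, ((D G N a : ℝ) - 1) * w (D G N v - 1) :=
    sum_paths N (fun v => w (D G N v - 1))
  have hnn : δ * ∑ a ∈ free N, ∑ v ∈ nb G N a, ((D G N a : ℝ) - D G N v) ^ 2 ≤
      ∑ a ∈ free N, ∑ v ∈ nb G N a,
        ((D G N a : ℝ) - D G N v) * (w (D G N a - 1) - w (D G N v - 1)) := by
    rw [Finset.mul_sum]
    refine Finset.sum_le_sum fun a ha => ?_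
    rw [Finset.mul_sum]
    refine Finset.sum_le_sum fun v hv => ?_
    exact SA1_sq' hw (Finset.card_pos.2 ⟨v, hv⟩)
      (Finset.card_pos.2 ⟨a, mem_nb.2 ⟨ha, (mem_nb.1 hv).2.symm⟩⟩) (hDr a) (hDr v)
  have hc1 := sum_nb_comm (G := G) N (fun a v => ((D G N a : ℝ) - 1) * w (D G N v - 1))
  have hc2 := sum_nb_comm (G := G) N (fun a v => ((D G N a : ℝ) - 1) * w (D G N a - 1))
  have hexp : ∑ a ∈ free N, ∑ v ∈ nb G N a,
      ((D G N a : ℝ) - D G N v) * (w (D G N a - 1) - w (D G N v - 1)) =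
      (∑ a ∈ free N, ∑ v ∈ nb G N a, ((D G N a : ℝ) - 1) * w (D G N a - 1)) +
      (∑ a ∈ free N, ∑ v ∈ nb G N a, ((D G N v : ℝ) - 1) * w (D G N v - 1)) -
      (∑ a ∈ free N, ∑ v ∈ nb G N a, ((D G N a : ℝ) - 1) * w (D G N v - 1)) -
      (∑ a ∈ free N, ∑ v ∈ nb G N a, ((D G N v : ℝ) - 1) * w (D G N a - 1)) := by
    rw [← Finset.sum_add_distrib, ← Finset.sum_sub_distrib, ← Finset.sum_sub_distrib]
    refine Finset.sum_congr rfl fun a _ => ?_
    rw [← Finset.sum_add_distrib, ← Finset.sum_sub_distrib, ← Finset.sum_sub_distrib]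
    refine Finset.sum_congr rfl fun v _ => ?_
    ring
  have hF : ∑ a ∈ free N, ∑ v ∈ nb G N a, ((D G N a : ℝ) - 1) * w (D G N a - 1) =
      ∑ a ∈ free N, (D G N a : ℝ) * (D G N a - 1) * w (D G N a - 1) := by
    refine Finset.sum_congr rfl fun a _ => ?_
    rw [Finset.sum_const, nsmul_eq_mul]
    unfold D
    ring
  have hbq : bq G N = (1 / 2) * ∑ a ∈ free N, ∑ v ∈ nb G N a, ((D G N a : ℝ) - D G N v) ^ 2 +
      ∑ a ∈ free N, ∑ b ∈ nb G N a, (((nb G N a).filter (fun v => G.Adj v b)).card : ℝ) := rfl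
  rw [hexp] at hnn
  rw [hbq]
  linarith

end Pool.Agent.Lib.MP_eeed5c_coT
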