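import Pool.Agent.Lib.MP_eeed5c_co_T.Base

/-!
# The weights

* `u_gap`. Let `(R d)` be `(r-d) u(d) - x d (d-1) u(d-1) = α - β d` for `0 ≤ d ≤ r`. `(R d) - (R (d+1))` for `0 ≤ d ≤ r-1` gives
`(E d): (1 + 2 x d) u(d) + (r-d-1)(u(d) - u(d+1)) - x d (d-1)(u(d-1) - u(d)) = β` (for `d = r-1` the coefficient of `u(r)` is `0`; for `d = 0` the last term is `0`).
Minimum principle: let `d0` be a minimum point of `u` on `{0, …, r-1}` (`Finset.exists_min_image`). Then in `(E d0)` `(r-d0-1)(u(d0) - u(d0+1)) ≤ 0` and `x d0 (d0-1)(u(d0-1) - u(d0)) ≥ 0`, so `(1 + 2 x d0) u(d0) ≥ β`: `u(d0) ≥ β/(1 + 2 x d0) ≥ β/(1 + 2 x r)`, hence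
`u(d) ≥ β / (1 + 2 x r)` for all `d ≤ r-1`. Put `Δ(d) = u(d-1) - u(d)`, `1 ≤ d ≤ r-1`. `(E (d-1)) - (E d)`:
`(1 + 2 x (d-1) + (r-d) + x d (d-1)) Δ(d) = 2 x u(d) + (r-d-1) Δ(d+1) + x (d-1)(d-2) Δ(d-1)` for `1 ≤ d ≤ r-1` (coefficient of `Δ(r)` is `0` for `d = r-1`, coefficient of `Δ(0)` is `0` for `d = 1`).
Minimum principle again at a minimum point `d0` of `Δ` on `{1, …, r-1}`: `(2 + 4 x (d0-1)) Δ(d0) ≥ 2 x u(d0)` since `1 + 2x(d-1) + (r-d) + x d(d-1) - (r-d-1) - x (d-1)(d-2) = 2 + 4 x (d-1)`. So `Δ(d0) ≥ x u(d0)/(1 + 2 x (d0-1)) ≥ x β / (1 + 2 x r)^2`.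
-/

set_option autoImplicit false

namespace Pool.Agent.Lib.MP_eeed5c_coT

open Finset Pool.Agent.Lib.MP_eeed5c_co

private theorem SB1_E {r : ℕ} {x α β : ℝ} (u : ℕ → ℝ)
    (hu : ∀ d : ℕ, d ≤ r → ((r : ℝ) - d) * u d - x * (d * ((d : ℝ) - 1) * u (d - 1)) = α - β * d)
    (d : ℕ) (hd : d + 1 ≤ r) :
    ((r : ℝ) - d + x * (d * (d + 1))) * u d - x * (d * ((d : ℝ) - 1)) * u (d - 1) -
      ((r : ℝ) - d - 1) * u (d + 1) = β := by
  have h1 := hu d (by omega)
  have h2 := hu (d + 1) hd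
  have h3 : d + 1 - 1 = d := by omega
  rw [h3] at h2
  push_cast at h2
  linear_combination h1 - h2

private theorem SB1_low {r : ℕ} {x α β : ℝ} (hx : 0 < x) (hβ : 0 ≤ β) (u : ℕ → ℝ)
    (hu : ∀ d : ℕ, d ≤ r → ((r : ℝ) - d) * u d - x * (d * ((d : ℝ) - 1) * u (d - 1)) = α - β * d)
    (d : ℕ) (hd : d < r) : β ≤ (1 + 2 * x * r) * u d := by
  obtain ⟨e, he, hmin⟩ := Finset.exists_min_image (range r) u ⟨d, mem_range.2 hd⟩
  have her : e < r := mem_range.1 he
  have hE := SB1_E u hu e (by omega)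
  have herR : (e : ℝ) + 1 ≤ r := by exact_mod_cast her
  have he0 : (0 : ℝ) ≤ e := Nat.cast_nonneg e
  have h1 : ((r : ℝ) - e - 1) * u e ≤ ((r : ℝ) - e - 1) * u (e + 1) := by
    by_cases h : e + 1 < r
    · exact mul_le_mul_of_nonneg_left (hmin _ (mem_range.2 h)) (by linarith)
    · have h2 : e + 1 = r := by omega
      have h3 : (r : ℝ) - e - 1 = 0 := by
        rw [← h2]
        push_cast
        ring
      rw [h3, zero_mul, zero_mul]
  have h2 : x * (e * ((e : ℝ) - 1)) * u e ≤ x * (e * ((e : ℝ) - 1)) * u (e - 1) := by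
    rcases Nat.eq_zero_or_pos e with h | h
    · have h3 : x * ((e : ℝ) * ((e : ℝ) - 1)) = 0 := by
        rw [h, Nat.cast_zero, zero_mul, mul_zero]
      rw [h3, zero_mul, zero_mul]
    · have h3 : (1 : ℝ) ≤ e := by exact_mod_cast h
      refine mul_le_mul_of_nonneg_left (hmin _ (mem_range.2 (by omega))) ?_
      exact mul_nonneg hx.le (mul_nonneg he0 (by linarith))
  have h3 : β ≤ (1 + 2 * x * e) * u e := by linarith
  have hpos : 0 < 1 + 2 * x * e := by
    have := mul_nonneg hx.le he0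
    linarith
  have hue : 0 ≤ u e := by
    have h4 : 0 ≤ (1 + 2 * x * e) * u e := hβ.trans h3
    exact nonneg_of_mul_nonneg_right h4 hpos
  have h4 : (1 + 2 * x * e) * u e ≤ (1 + 2 * x * r) * u e := by
    refine mul_le_mul_of_nonneg_right ?_ hue
    have := mul_le_mul_of_nonneg_left (show (e : ℝ) ≤ r by linarith) hx.le
    linarith
  have h5 : (1 + 2 * x * r) * u e ≤ (1 + 2 * x * r) * u d := by
    refine mul_le_mul_of_nonneg_left (hmin _ (mem_range.2 hd)) ?_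
    have := mul_nonneg hx.le (Nat.cast_nonneg r : (0 : ℝ) ≤ r)
    linarith
  linarith

theorem u_gap {r : ℕ} {x α β : ℝ} (hx : 0 < x) (hβ : 0 ≤ β) (u : ℕ → ℝ)
    (hu : ∀ d : ℕ, d ≤ r → ((r : ℝ) - d) * u d - x * (d * ((d : ℝ) - 1) * u (d - 1)) = α - β * d) :
    ∀ d, d + 1 < r → x * β / (1 + 2 * x * r) ^ 2 ≤ u d - u (d + 1) := by
  intro d hd
  obtain ⟨D, hD⟩ : ∃ D : ℕ → ℝ, ∀ k, D k = u k - u (k + 1) := ⟨_, fun _ => rfl⟩
  rw [← hD]
  obtain ⟨e, he, hmin⟩ := Finset.exists_min_image (range (r - 1)) D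
    ⟨d, mem_range.2 (by omega)⟩
  have her : e + 1 < r := by
    have := mem_range.1 he
    omega
  have hE := SB1_E u hu e (by omega)
  have hE' := SB1_E u hu (e + 1) (by omega)
  have h10 : e + 1 - 1 = e := by omega
  rw [h10] at hE'
  push_cast at hE'
  have herR : (e : ℝ) + 2 ≤ r := by exact_mod_cast her
  have he0 : (0 : ℝ) ≤ e := Nat.cast_nonneg e
  have hr0 : (0 : ℝ) ≤ r := Nat.cast_nonneg r
  have hkey : ((r : ℝ) - e + x * (e ^ 2 + 3 * e)) * D e = 2 * x * u (e + 1) +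
      x * (e * ((e : ℝ) - 1)) * (u (e - 1) - u e) + ((r : ℝ) - e - 2) * D (e + 1) := by
    rw [hD, hD]
    linear_combination hE - hE'
  have h1 : ((r : ℝ) - e - 2) * D e ≤ ((r : ℝ) - e - 2) * D (e + 1) := by
    by_cases h : e + 2 < r
    · exact mul_le_mul_of_nonneg_left (hmin _ (mem_range.2 (by omega))) (by linarith)
    · have h2 : e + 2 = r := by omega
      have h3 : (r : ℝ) - e - 2 = 0 := by
        rw [← h2]
        push_cast
        ring
      rw [h3, zero_mul, zero_mul]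
  have h2 : x * (e * ((e : ℝ) - 1)) * D e ≤ x * (e * ((e : ℝ) - 1)) * (u (e - 1) - u e) := by
    rcases Nat.eq_zero_or_pos e with h | h
    · have h3 : x * ((e : ℝ) * ((e : ℝ) - 1)) = 0 := by
        rw [h, Nat.cast_zero, zero_mul, mul_zero]
      rw [h3, zero_mul, zero_mul]
    · have h3 : (1 : ℝ) ≤ e := by exact_mod_cast h
      have h4 : u (e - 1) - u e = D (e - 1) := by
        rw [hD]
        have h5 : e - 1 + 1 = e := by omega
        rw [h5]
      rw [h4]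
      refine mul_le_mul_of_nonneg_left (hmin _ (mem_range.2 (by omega))) ?_
      exact mul_nonneg hx.le (mul_nonneg he0 (by linarith))
  have h3 : x * u (e + 1) ≤ (1 + 2 * x * e) * D e := by linarith
  have h4 := SB1_low hx hβ u hu (e + 1) her
  have hP : 0 < 1 + 2 * x * r := by
    have := mul_nonneg hx.le hr0
    linarith
  have h5 : x * β ≤ (1 + 2 * x * r) * ((1 + 2 * x * e) * D e) := by
    have h6 := mul_le_mul_of_nonneg_left h4 hx.le
    have h7 := mul_le_mul_of_nonneg_left h3 hP.le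
    linarith
  have hpos : 0 < 1 + 2 * x * e := by
    have := mul_nonneg hx.le he0
    linarith
  have hDe : 0 ≤ D e := by
    have h6 : 0 ≤ (1 + 2 * x * r) * ((1 + 2 * x * e) * D e) := (mul_nonneg hx.le hβ).trans h5
    exact nonneg_of_mul_nonneg_right (nonneg_of_mul_nonneg_right h6 hP) hpos
  have h6 : (1 + 2 * x * e) * D e ≤ (1 + 2 * x * r) * D e := by
    refine mul_le_mul_of_nonneg_right ?_ hDe
    have := mul_le_mul_of_nonneg_left (show (e : ℝ) ≤ r by linarith) hx.le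
    linarith
  have h7 : D e ≤ D d := hmin _ (mem_range.2 (by omega))
  have h8 : x * β ≤ (1 + 2 * x * r) ^ 2 * D d := by
    calc x * β ≤ (1 + 2 * x * r) * ((1 + 2 * x * e) * D e) := h5
      _ ≤ (1 + 2 * x * r) * ((1 + 2 * x * r) * D e) := mul_le_mul_of_nonneg_left h6 hP.le
      _ = (1 + 2 * x * r) ^ 2 * D e := by ring
      _ ≤ (1 + 2 * x * r) ^ 2 * D d := mul_le_mul_of_nonneg_left h7 (by positivity)
  rw [div_le_iff₀ (by positivity)]
  linarith

end Pool.Agent.Lib.MP_eeed5c_coT
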