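import Pool.Agent.Lib.MP_eeed5c_co_T.Base

/-!
# Matchings which do not cover given vertices

* `ZS_step`. Let `χ(N) = [S ⊆ free N]`. For `N ∈ Mt G`: `χ(N) ≤ [insert v S ⊆ free N] + χ(N) [v ∉ free N]`, and for `M ∈ Mt G` `[v ∉ free M] = ∑_{p : s(p.1,p.2) ∈ M} [p.1 = v]` (`sum_darts` with `f a = [a = v]`). By `WS_insert` with `F M p = [S ⊆ free M] [p.1 = v]`:
`WS χ(M) [v ∉ free M] = x WS (∑_{p : p.1, p.2 ∈ free N, adj} [S ⊆ free (insert s(p) N)] [p.1 = v]) ≤ x WS ([insert v S ⊆ free N] * r)`: a nonzero term has `p.1 = v ∈ free N` and `S ⊆ free (insert ..) ⊆ free N` (`mem_free_insert`), and the number of pairs `(v, c)` with `c ~ v` is at most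
`r`. So `ZS S ≤ (1 + x r) ZS (insert v S)`.
* The others: iterate from `ZS_empty` (`WS_one`); note that `{a, b, c} = insert a (insert b {c})`.
-/

set_option autoImplicit false

namespace Pool.Agent.Lib.MP_eeed5c_coT

open Finset Pool.Agent.Lib.MP_eeed5c_co

section

variable {V : Type*} [Fintype V] {G : SimpleGraph V}

theorem ZS_empty (x : ℝ) : ZS G x ∅ = (mp G).eval x := by
  rw [← WS_one]
  unfold ZS
  refine WS_congr x fun N _ => ?_
  rw [if_pos (Finset.empty_subset _)]

open scoped Classical in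
theorem ZS_step {r : ℕ} (hreg : Reg G r) {x : ℝ} (hx : 0 ≤ x) (S : Finset V) (v : V) :
    ZS G x S ≤ (1 + x * r) * ZS G x (insert v S) := by
  -- decomposition of the indicator
  have h1 : ZS G x S ≤ ZS G x (insert v S) + WS G x (fun M =>
      ∑ p ∈ univ.filter (fun p : V × V => s(p.1, p.2) ∈ M),
        (if S ⊆ free M then (1 : ℝ) else 0) * (if p.1 = v then 1 else 0)) := by
    unfold ZS
    rw [← WS_add]
    refine WS_mono hx fun N hN => ?_
    rw [← Finset.mul_sum, sum_darts (mem_Mt.1 hN) (fun a => if a = v then (1 : ℝ) else 0),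
      Finset.sum_ite_eq']
    by_cases hS : S ⊆ free N
    · by_cases hv : v ∈ free N
      · rw [if_pos hS, if_pos (Finset.insert_subset hv hS)]
        rw [if_neg (by simp only [Finset.mem_filter, not_and, not_not]; exact fun _ => hv)]
        norm_num
      · rw [if_pos hS, if_neg (fun h => hv (h (Finset.mem_insert_self _ _))),
          if_pos (show v ∈ univ.filter (fun a => a ∉ free N) from
            Finset.mem_filter.2 ⟨Finset.mem_univ v, hv⟩)]
        norm_num
    · rw [if_neg hS]
      have : 0 ≤ (if insert v S ⊆ free N then (1 : ℝ) else 0) := by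
        split_ifs <;> norm_num
      linarith
  have h2 := WS_insert (G := G) x (fun M p =>
    (if S ⊆ free M then (1 : ℝ) else 0) * (if p.1 = v then 1 else 0))
  have h3 : WS G x (fun N => ∑ p ∈ univ.filter
        (fun p : V × V => p.1 ∈ free N ∧ p.2 ∈ free N ∧ G.Adj p.1 p.2),
        (if S ⊆ free (insert s(p.1, p.2) N) then (1 : ℝ) else 0) * (if p.1 = v then 1 else 0)) ≤
      r * ZS G x (insert v S) := by
    unfold ZS
    rw [← WS_smul]
    refine WS_mono hx fun N hN => ?_
    by_cases hS : insert v S ⊆ free N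
    · rw [if_pos hS, mul_one]
      have h4 : ∑ p ∈ univ.filter
          (fun p : V × V => p.1 ∈ free N ∧ p.2 ∈ free N ∧ G.Adj p.1 p.2),
          (if S ⊆ free (insert s(p.1, p.2) N) then (1 : ℝ) else 0) *
            (if p.1 = v then 1 else 0) ≤
          ∑ p ∈ univ.filter
          (fun p : V × V => p.1 ∈ free N ∧ p.2 ∈ free N ∧ G.Adj p.1 p.2),
          (if p.1 = v then (1 : ℝ) else 0) := by
        refine Finset.sum_le_sum fun p _ => ?_
        split_ifs <;> norm_num
      refine h4.trans ?_
      rw [sum_pairs N (fun p => if p.1 = v then (1 : ℝ) else 0)]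
      have h5 : ∀ a ∈ free N, ∑ b ∈ nb G N a, (if a = v then (1 : ℝ) else 0) =
          if a = v then (D G N v : ℝ) else 0 := by
        intro a _
        rw [Finset.sum_const, nsmul_eq_mul]
        split_ifs with h
        · subst h
          rw [mul_one]; rfl
        · rw [mul_zero]
      rw [Finset.sum_congr rfl h5, Finset.sum_ite_eq', if_pos (hS (Finset.mem_insert_self _ _))]
      exact_mod_cast D_le hreg N v
    · rw [if_neg hS, mul_zero]
      refine le_of_eq (Finset.sum_eq_zero fun p hp => ?_)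
      simp only [Finset.mem_filter, Finset.mem_univ, true_and] at hp
      by_cases hpv : p.1 = v
      · rw [if_neg, zero_mul]
        intro h
        apply hS
        refine Finset.insert_subset (hpv ▸ hp.1) fun a ha => ?_
        exact (mem_free_insert.1 (h ha)).1
      · rw [if_neg hpv, mul_zero]
  rw [h2] at h1
  have h4 := mul_le_mul_of_nonneg_left h3 hx
  calc ZS G x S ≤ _ := h1
    _ ≤ ZS G x (insert v S) + x * (r * ZS G x (insert v S)) := by linarith
    _ = _ := by ring

private theorem SC_one {r : ℕ} {x : ℝ} (hx : 0 ≤ x) : 0 ≤ 1 + x * (r : ℝ) := by positivity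

open scoped Classical in
theorem ZS_three {r : ℕ} (hreg : Reg G r) {x : ℝ} (hx : 0 ≤ x) (a b c : V) :
    (mp G).eval x ≤ (1 + x * r) ^ 3 * ZS G x {a, b, c} := by
  have h0 := ZS_empty (G := G) x
  have h1 := ZS_step hreg hx (∅ : Finset V) c
  have h2 := mul_le_mul_of_nonneg_left (ZS_step hreg hx (insert c (∅ : Finset V)) b)
    (SC_one (r := r) hx)
  have h3 := mul_le_mul_of_nonneg_left (ZS_step hreg hx (insert b (insert c (∅ : Finset V))) a)
    (mul_nonneg (SC_one (r := r) hx) (SC_one (r := r) hx))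
  have e : ({a, b, c} : Finset V) = insert a (insert b (insert c (∅ : Finset V))) := rfl
  rw [e, ← h0]
  calc ZS G x ∅ ≤ _ := h1
    _ ≤ _ := h2
    _ = (1 + x * r) * (1 + x * r) * ZS G x (insert b (insert c ∅)) := by ring
    _ ≤ _ := h3
    _ = _ := by ring

open scoped Classical in
theorem ZS_four {r : ℕ} (hreg : Reg G r) {x : ℝ} (hx : 0 ≤ x) (a b c d : V) :
    (mp G).eval x ≤ (1 + x * r) ^ 4 * ZS G x {a, b, c, d} := by
  have h0 := ZS_three hreg hx b c d
  have h1 := mul_le_mul_of_nonneg_left (ZS_step hreg hx ({b, c, d} : Finset V) a)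
    (pow_nonneg (SC_one (r := r) hx) 3)
  have e : ({a, b, c, d} : Finset V) = insert a ({b, c, d} : Finset V) := rfl
  rw [e]
  calc (mp G).eval x ≤ _ := h0
    _ ≤ _ := h1
    _ = _ := by ring

end

end Pool.Agent.Lib.MP_eeed5c_coT
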