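import Pool.Agent.Lib.MP_eeed5c_co_T.Fin2

/-!
# The conclusion of the upper matching conjecture
-/

set_option autoImplicit false

namespace Pool.Agent.Lib.MP_eeed5c_coT

open Pool.Agent.Lib.MP_eeed5c_co

/-- The conclusion of the upper matching conjecture for the graph `G`, all numbers of edges `k`:
the number of `k`-matchings of `G` is at most the number of `k`-matchings of the disjoint union of
`q` copies of `K_{r,r}`. -/
def UMC (q r : ℕ) {V : Type} (G : SimpleGraph V) : Prop :=
  ∀ k : ℕ,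
    Set.ncard {s : Finset (Sym2 V) |
        (↑s : Set (Sym2 V)) ⊆ G.edgeSet ∧ s.card = k ∧
        (↑s : Set (Sym2 V)).Pairwise (fun e f => ∀ v : V, v ∈ e → v ∉ f)}
      ≤
    Set.ncard {s : Finset (Sym2 (Fin q × Fin 2 × Fin r)) |
        (↑s : Set (Sym2 (Fin q × Fin 2 × Fin r))) ⊆
          (SimpleGraph.fromRel
            (fun a b : Fin q × Fin 2 × Fin r => a.1 = b.1 ∧ a.2.1 ≠ b.2.1)).edgeSet ∧
        s.card = k ∧
        (↑s : Set (Sym2 (Fin q × Fin 2 × Fin r))).Pairwise
          (fun e f => ∀ v : Fin q × Fin 2 × Fin r, v ∈ e → v ∉ f)}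

theorem UMC_of {q r : ℕ} {V : Type} [Fintype V] {G : SimpleGraph V}
    (h : ∀ k, (mats G k).card ≤ (mats (KK q r) k).card) : UMC q r G := by
  intro k
  rw [ncard_eq G k]
  have h' := ncard_eq (KK q r) k
  unfold KK at h'
  rw [h']
  exact h k

theorem Reg_of {r : ℕ} {V : Type} [Fintype V] {G : SimpleGraph V}
    (h : ∀ v : V, (G.neighborSet v).ncard = r) : Reg G r := fun v => reg_of_ncard h v

open scoped Classical in
theorem co_of {s : ℕ} {V : Type} [Fintype V] {G : SimpleGraph V}
    (h : ∀ v u : V, v ≠ u → (G.neighborSet v ∩ G.neighborSet u).ncard ≤ s) :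
    ∀ v u : V, v ≠ u → (Finset.univ.filter fun w => G.Adj v w ∧ G.Adj u w).card ≤ s := by
  intro v u hvu
  have h1 := h v u hvu
  have e : G.neighborSet v ∩ G.neighborSet u =
      ((Finset.univ.filter fun w => G.Adj v w ∧ G.Adj u w : Finset V) : Set V) := by
    ext w
    simp
  rw [e, Set.ncard_coe_finset] at h1
  exact h1

end Pool.Agent.Lib.MP_eeed5c_coT
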