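import Pool.Agent.Lib.MP_eeed5c_co_T.Fin3
import Pool.Agent.Lib.MP_eeed5c_co_T.Stmt2

/-!
# Imports for the theorem on many blocks
-/
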