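import Pool.Agent.Lib.MP_eeed5c_co_T.Base

/-!
# The matching polynomial of a disjoint union

`G` on `V`, `G1` on `V1`, `G2` on `V2`; injections `f1 : V1 → V`, `f2 : V2 → V` with disjoint ranges covering `V`, `f1`, `f2` preserve and reflect adjacency, and no edge of `G` joins the two ranges. Then `mp G = mp G1 * mp G2`.

Proof. Compare coefficients (`mp_coeff`, `Polynomial.coeff_mul`): `|mats G k| = ∑_{(i,j) ∈ antidiagonal k} |mats G1 i| |mats G2 j|`. The right side is the cardinality of the finset `(antidiagonal k).sigma (fun p => mats G1 p.1 ×ˢ mats G2 p.2)` (or `Finset.card_sigma`, `Finset.card_product`).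
Bijection: `(N1, N2) ↦ N1.image (Sym2.map f1) ∪ N2.image (Sym2.map f2)` (use `Finset.card_bij` / `Finset.card_nbij'`; inverse `M ↦ (M.preimage (Sym2.map f1), M.preimage (Sym2.map f2))`, `Sym2.map.injective`). It is a matching: edges of `G` because `f1, f2` preserve adjacency; two different edges
of the same part are disjoint because `f1` is injective; edges of different parts are disjoint because the ranges are disjoint. The size is `|N1| + |N2|` (images of injective maps, disjoint: an edge of the first part contains a vertex of the range of `f1`).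
Conversely every edge `s(x,y)` of a matching `M` of `G` has both ends in the same range (no crossing edges, ranges cover), so it is the image of exactly one edge of `G1` or of `G2`; `M` is the union of the images of its two preimages, and these are matchings.
(`mats` and its API are in `Pool.Agent.Lib.MP_eeed5c_co.Basic`: `mem_mats`, …)
-/

set_option autoImplicit false

namespace Pool.Agent.Lib.MP_eeed5c_coT

open Finset Pool.Agent.Lib.MP_eeed5c_co

theorem mp_union {V V1 V2 : Type*} [Fintype V] [Fintype V1] [Fintype V2] {G : SimpleGraph V}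
    {G1 : SimpleGraph V1} {G2 : SimpleGraph V2} (f1 : V1 → V) (f2 : V2 → V)
    (hf1 : Function.Injective f1) (hf2 : Function.Injective f2) (hdis : ∀ a b, f1 a ≠ f2 b)
    (hcov : ∀ v, (∃ a, f1 a = v) ∨ ∃ b, f2 b = v)
    (h1 : ∀ a b, G.Adj (f1 a) (f1 b) ↔ G1.Adj a b) (h2 : ∀ a b, G.Adj (f2 a) (f2 b) ↔ G2.Adj a b)
    (hcr : ∀ a b, ¬ G.Adj (f1 a) (f2 b)) : mp G = mp G1 * mp G2 := by
  classical
  have hs1 : Function.Injective (Sym2.map f1) := Sym2.map.injective hf1
  have hs2 : Function.Injective (Sym2.map f2) := Sym2.map.injective hf2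
  have hd : ∀ (e : Sym2 V1) (e' : Sym2 V2) (v : V), v ∈ Sym2.map f1 e → v ∉ Sym2.map f2 e' := by
    intro e e' v hv hv'
    obtain ⟨a, _, ha⟩ := Sym2.mem_map.1 hv
    obtain ⟨b, _, hb⟩ := Sym2.mem_map.1 hv'
    exact hdis a b (ha.trans hb.symm)
  have hne : ∀ (e : Sym2 V1) (e' : Sym2 V2), Sym2.map f1 e ≠ Sym2.map f2 e' := by
    intro e e' h
    induction e using Sym2.ind with
    | _ a b =>
      have hv : f1 a ∈ Sym2.map f1 s(a, b) := Sym2.mem_map.2 ⟨a, by simp, rfl⟩
      exact hd _ _ _ hv (h ▸ hv)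
  have he1 : ∀ e : Sym2 V1, Sym2.map f1 e ∈ G.edgeSet ↔ e ∈ G1.edgeSet := by
    intro e
    induction e using Sym2.ind with
    | _ a b =>
      rw [Sym2.map_mk, SimpleGraph.mem_edgeSet, SimpleGraph.mem_edgeSet]
      exact h1 a b
  have he2 : ∀ e : Sym2 V2, Sym2.map f2 e ∈ G.edgeSet ↔ e ∈ G2.edgeSet := by
    intro e
    induction e using Sym2.ind with
    | _ a b =>
      rw [Sym2.map_mk, SimpleGraph.mem_edgeSet, SimpleGraph.mem_edgeSet]
      exact h2 a b
  have hcase : ∀ e ∈ G.edgeSet, (∃ e1, Sym2.map f1 e1 = e) ∨ ∃ e2, Sym2.map f2 e2 = e := by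
    intro e he
    induction e using Sym2.ind with
    | _ x y =>
      rw [SimpleGraph.mem_edgeSet] at he
      rcases hcov x with ⟨a, rfl⟩ | ⟨a, rfl⟩
      · rcases hcov y with ⟨b, rfl⟩ | ⟨b, rfl⟩
        · exact Or.inl ⟨s(a, b), Sym2.map_mk _ _ _⟩
        · exact absurd he (hcr a b)
      · rcases hcov y with ⟨b, rfl⟩ | ⟨b, rfl⟩
        · exact absurd he.symm (hcr b a)
        · exact Or.inr ⟨s(a, b), Sym2.map_mk _ _ _⟩
  have hm1 : ∀ (N1 : Finset (Sym2 V1)) (N2 : Finset (Sym2 V2)) (e : Sym2 V1),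
      Sym2.map f1 e ∈ N1.image (Sym2.map f1) ∪ N2.image (Sym2.map f2) ↔ e ∈ N1 := by
    intro N1 N2 e
    rw [Finset.mem_union, Finset.mem_image, Finset.mem_image]
    constructor
    · rintro (⟨a, ha, h⟩ | ⟨a, _, h⟩)
      · rwa [← hs1 h]
      · exact absurd h.symm (hne _ _)
    · intro h
      exact Or.inl ⟨e, h, rfl⟩
  have hm2 : ∀ (N1 : Finset (Sym2 V1)) (N2 : Finset (Sym2 V2)) (e : Sym2 V2),
      Sym2.map f2 e ∈ N1.image (Sym2.map f1) ∪ N2.image (Sym2.map f2) ↔ e ∈ N2 := by
    intro N1 N2 e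
    rw [Finset.mem_union, Finset.mem_image, Finset.mem_image]
    constructor
    · rintro (⟨a, _, h⟩ | ⟨a, ha, h⟩)
      · exact absurd h (hne _ _)
      · rwa [← hs2 h]
    · intro h
      exact Or.inr ⟨e, h, rfl⟩
  have hcu : ∀ (N1 : Finset (Sym2 V1)) (N2 : Finset (Sym2 V2)),
      (N1.image (Sym2.map f1) ∪ N2.image (Sym2.map f2)).card = N1.card + N2.card := by
    intro N1 N2
    rw [Finset.card_union_of_disjoint, Finset.card_image_of_injective _ hs1,
      Finset.card_image_of_injective _ hs2]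
    rw [Finset.disjoint_left]
    intro e he he'
    obtain ⟨a, _, ha⟩ := Finset.mem_image.1 he
    obtain ⟨b, _, hb⟩ := Finset.mem_image.1 he'
    exact hne a b (ha.trans hb.symm)
  -- the union is a matching
  have hU : ∀ (i j : ℕ) (N1 : Finset (Sym2 V1)) (N2 : Finset (Sym2 V2)), N1 ∈ mats G1 i →
      N2 ∈ mats G2 j → N1.image (Sym2.map f1) ∪ N2.image (Sym2.map f2) ∈ mats G (i + j) := by
    intro i j N1 N2 hN1 hN2
    obtain ⟨a1, a2, a3⟩ := mem_mats.1 hN1
    obtain ⟨b1, b2, b3⟩ := mem_mats.1 hN2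
    refine mem_mats.2 ⟨?_, ?_, ?_⟩
    · intro e he
      rcases Finset.mem_union.1 (Finset.mem_coe.1 he) with h | h
      · obtain ⟨a, ha, rfl⟩ := Finset.mem_image.1 h
        exact (he1 a).2 (a1 (Finset.mem_coe.2 ha))
      · obtain ⟨a, ha, rfl⟩ := Finset.mem_image.1 h
        exact (he2 a).2 (b1 (Finset.mem_coe.2 ha))
    · rw [hcu, a2, b2]
    · intro e he e' he' hee v hv hv'
      rcases Finset.mem_union.1 (Finset.mem_coe.1 he) with h | h
      · obtain ⟨a, ha, rfl⟩ := Finset.mem_image.1 h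
        rcases Finset.mem_union.1 (Finset.mem_coe.1 he') with h' | h'
        · obtain ⟨b, hb, rfl⟩ := Finset.mem_image.1 h'
          obtain ⟨x, hx, hxv⟩ := Sym2.mem_map.1 hv
          obtain ⟨y, hy, hyv⟩ := Sym2.mem_map.1 hv'
          have hxy : x = y := hf1 (hxv.trans hyv.symm)
          subst hxy
          exact a3 (Finset.mem_coe.2 ha) (Finset.mem_coe.2 hb) (fun h => hee (by rw [h])) x hx hy
        · obtain ⟨b, hb, rfl⟩ := Finset.mem_image.1 h'
          exact hd a b v hv hv'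
      · obtain ⟨a, ha, rfl⟩ := Finset.mem_image.1 h
        rcases Finset.mem_union.1 (Finset.mem_coe.1 he') with h' | h'
        · obtain ⟨b, hb, rfl⟩ := Finset.mem_image.1 h'
          exact hd b a v hv' hv
        · obtain ⟨b, hb, rfl⟩ := Finset.mem_image.1 h'
          obtain ⟨x, hx, hxv⟩ := Sym2.mem_map.1 hv
          obtain ⟨y, hy, hyv⟩ := Sym2.mem_map.1 hv'
          have hxy : x = y := hf2 (hxv.trans hyv.symm)
          subst hxy
          exact b3 (Finset.mem_coe.2 ha) (Finset.mem_coe.2 hb) (fun h => hee (by rw [h])) x hx hy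
  -- every matching is such a union
  have hS : ∀ (k : ℕ) (M : Finset (Sym2 V)), M ∈ mats G k → ∃ (N1 : Finset (Sym2 V1))
      (N2 : Finset (Sym2 V2)), N1 ∈ mats G1 N1.card ∧ N2 ∈ mats G2 N2.card ∧
      N1.image (Sym2.map f1) ∪ N2.image (Sym2.map f2) = M := by
    intro k M hM
    obtain ⟨a1, a2, a3⟩ := mem_mats.1 hM
    refine ⟨univ.filter fun e => Sym2.map f1 e ∈ M, univ.filter fun e => Sym2.map f2 e ∈ M,
      ?_, ?_, ?_⟩
    · refine mem_mats.2 ⟨?_, rfl, ?_⟩
      · intro e he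
        have h := (Finset.mem_filter.1 (Finset.mem_coe.1 he)).2
        exact (he1 e).1 (a1 (Finset.mem_coe.2 h))
      · intro e he e' he' hee v hv hv'
        have h := (Finset.mem_filter.1 (Finset.mem_coe.1 he)).2
        have h' := (Finset.mem_filter.1 (Finset.mem_coe.1 he')).2
        exact a3 (Finset.mem_coe.2 h) (Finset.mem_coe.2 h') (fun h => hee (hs1 h)) (f1 v)
          (Sym2.mem_map.2 ⟨v, hv, rfl⟩) (Sym2.mem_map.2 ⟨v, hv', rfl⟩)
    · refine mem_mats.2 ⟨?_, rfl, ?_⟩
      · intro e he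
        have h := (Finset.mem_filter.1 (Finset.mem_coe.1 he)).2
        exact (he2 e).1 (a1 (Finset.mem_coe.2 h))
      · intro e he e' he' hee v hv hv'
        have h := (Finset.mem_filter.1 (Finset.mem_coe.1 he)).2
        have h' := (Finset.mem_filter.1 (Finset.mem_coe.1 he')).2
        exact a3 (Finset.mem_coe.2 h) (Finset.mem_coe.2 h') (fun h => hee (hs2 h)) (f2 v)
          (Sym2.mem_map.2 ⟨v, hv, rfl⟩) (Sym2.mem_map.2 ⟨v, hv', rfl⟩)
    · ext e
      rw [Finset.mem_union, Finset.mem_image, Finset.mem_image]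
      constructor
      · rintro (⟨a, ha, rfl⟩ | ⟨a, ha, rfl⟩)
        · exact (Finset.mem_filter.1 ha).2
        · exact (Finset.mem_filter.1 ha).2
      · intro he
        rcases hcase e (a1 (Finset.mem_coe.2 he)) with ⟨a, rfl⟩ | ⟨a, rfl⟩
        · exact Or.inl ⟨a, Finset.mem_filter.2 ⟨Finset.mem_univ _, he⟩, rfl⟩
        · exact Or.inr ⟨a, Finset.mem_filter.2 ⟨Finset.mem_univ _, he⟩, rfl⟩
  have hcard : ∀ k : ℕ, (mats G k).card =
      ∑ p ∈ antidiagonal k, (mats G1 p.1).card * (mats G2 p.2).card := by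
    intro k
    have hsum : ∑ p ∈ antidiagonal k, (mats G1 p.1).card * (mats G2 p.2).card =
        ((antidiagonal k).sigma (fun p => mats G1 p.1 ×ˢ mats G2 p.2)).card := by
      rw [Finset.card_sigma]
      exact Finset.sum_congr rfl fun p _ => (Finset.card_product _ _).symm
    rw [hsum]
    symm
    refine Finset.card_bij
      (fun x _ => x.2.1.image (Sym2.map f1) ∪ x.2.2.image (Sym2.map f2)) ?_ ?_ ?_
    · rintro ⟨⟨i, j⟩, N1, N2⟩ hx
      obtain ⟨hx1, hx2⟩ := Finset.mem_sigma.1 hx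
      obtain ⟨hx3, hx4⟩ := Finset.mem_product.1 hx2
      rw [Finset.HasAntidiagonal.mem_antidiagonal] at hx1
      have := hU i j N1 N2 hx3 hx4
      rwa [show i + j = k from hx1] at this
    · rintro ⟨⟨i, j⟩, N1, N2⟩ hx ⟨⟨i', j'⟩, N1', N2'⟩ hx' heq
      obtain ⟨_, hx2⟩ := Finset.mem_sigma.1 hx
      obtain ⟨hx3, hx4⟩ := Finset.mem_product.1 hx2
      obtain ⟨_, hx2'⟩ := Finset.mem_sigma.1 hx'
      obtain ⟨hx3', hx4'⟩ := Finset.mem_product.1 hx2'
      have e1 : N1 = N1' := by
        ext e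
        rw [← hm1 N1 N2 e, ← hm1 N1' N2' e]
        exact iff_of_eq (congrArg (fun s => Sym2.map f1 e ∈ s) heq)
      have e2 : N2 = N2' := by
        ext e
        rw [← hm2 N1 N2 e, ← hm2 N1' N2' e]
        exact iff_of_eq (congrArg (fun s => Sym2.map f2 e ∈ s) heq)
      subst e1
      subst e2
      have c1 : i = i' := (mem_mats.1 hx3).2.1.symm.trans (mem_mats.1 hx3').2.1
      have c2 : j = j' := (mem_mats.1 hx4).2.1.symm.trans (mem_mats.1 hx4').2.1
      subst c1
      subst c2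
      rfl
    · intro M hM
      obtain ⟨N1, N2, hN1, hN2, hN⟩ := hS k M hM
      refine ⟨⟨(N1.card, N2.card), N1, N2⟩, ?_, hN⟩
      refine Finset.mem_sigma.2 ⟨?_, Finset.mem_product.2 ⟨hN1, hN2⟩⟩
      rw [Finset.HasAntidiagonal.mem_antidiagonal]
      change N1.card + N2.card = k
      rw [← hcu, hN]
      exact (mem_mats.1 hM).2.1
  ext k
  rw [mp_coeff, Polynomial.coeff_mul, hcard k]
  push_cast
  exact Finset.sum_congr rfl fun p _ => by rw [mp_coeff, mp_coeff]

end Pool.Agent.Lib.MP_eeed5c_coT
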