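import Pool.Agent.Lib.MP_eeed5c_co_T.UA

/-!
# Splitting along a closed set of vertices

* `mp_split`: `p : V → Prop` with `∀ a b, G.Adj a b → (p a ↔ p b)`; apply `mp_union` to `f1 = Subtype.val : {v // p v} → V`, `f2 = Subtype.val : {v // ¬ p v} → V`, `G1 = G.comap f1`, `G2 = G.comap f2` (`SimpleGraph.comap_adj`).
* `Reg_comap`: all neighbours of `v` (with `p v`) satisfy `p`, so the neighbours of `v` in `G.comap Subtype.val` are in bijection (`Subtype.val`, `Finset.card_map` / `Finset.card_bij`) with the neighbours in `G`.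
* `block_le`: `r`-regular graphs on `2 r` vertices: `one_block` for `k ≤ r` together with `mp_coeff`, and `|mats (KK 1 r) k| = ell r k` (as in `mp_KK_one`: `KK_one_rec`, `card_mats_zero`, `ell_succ`; prove it here again as a private lemma); for `k > r` `card_mats_eq_zero` and `ell_nonneg`.
`one_block` wants the regularity in the form `∀ v, (by classical exact (univ.filter fun u => G.Adj v u).card) = r`, which is the same as `Reg G r` (unfold).
-/

set_option autoImplicit false

namespace Pool.Agent.Lib.MP_eeed5c_coT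

open Finset Pool.Agent.Lib.MP_eeed5c_co

theorem mp_split {V : Type*} [Fintype V] {G : SimpleGraph V} (p : V → Prop)
    [Fintype {v // p v}] [Fintype {v // ¬ p v}] (hcl : ∀ a b, G.Adj a b → (p a ↔ p b)) :
    mp G = mp (G.comap (Subtype.val : {v // p v} → V)) *
      mp (G.comap (Subtype.val : {v // ¬ p v} → V)) := by
  refine mp_union (Subtype.val : {v // p v} → V) (Subtype.val : {v // ¬ p v} → V)
    Subtype.val_injective Subtype.val_injective ?_ ?_ ?_ ?_ ?_
  · intro a b h
    exact b.2 (h ▸ a.2)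
  · intro v
    by_cases hv : p v
    · exact Or.inl ⟨⟨v, hv⟩, rfl⟩
    · exact Or.inr ⟨⟨v, hv⟩, rfl⟩
  · intro a b
    exact SimpleGraph.comap_adj.symm
  · intro a b
    exact SimpleGraph.comap_adj.symm
  · intro a b h
    exact b.2 ((hcl a.1 b.1 h).1 a.2)

theorem Reg_comap {V : Type*} [Fintype V] {G : SimpleGraph V} {r : ℕ} (hreg : Reg G r)
    (p : V → Prop) [Fintype {v // p v}] (hcl : ∀ a b, G.Adj a b → (p a ↔ p b)) :
    Reg (G.comap (Subtype.val : {v // p v} → V)) r := by
  classical
  intro v
  refine Eq.trans ?_ (hreg v.1)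
  refine Finset.card_bij (fun u _ => u.1) ?_ ?_ ?_
  · intro u hu
    rw [Finset.mem_filter] at hu ⊢
    exact ⟨Finset.mem_univ _, SimpleGraph.comap_adj.1 hu.2⟩
  · intro u _ w _ h
    exact Subtype.ext h
  · intro u hu
    rw [Finset.mem_filter] at hu
    have hp : p u := (hcl v.1 u hu.2).1 v.2
    refine ⟨⟨u, hp⟩, ?_, rfl⟩
    rw [Finset.mem_filter]
    exact ⟨Finset.mem_univ _, SimpleGraph.comap_adj.2 hu.2⟩

private theorem UC_KK (r j : ℕ) : ((mats (KK 1 r) j).card : ℝ) = ell r j := by
  induction j with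
  | zero => rw [card_mats_zero, ell_zero, Nat.cast_one]
  | succ j ih =>
    have h1 := KK_one_rec r j
    have h2 := ell_succ r j
    rw [ih, ← h2] at h1
    have h3 : (j : ℝ) + 1 ≠ 0 := by positivity
    exact mul_left_cancel₀ h3 h1

theorem block_le {V : Type*} [Fintype V] {G : SimpleGraph V} {r : ℕ}
    (hV : Fintype.card V = 2 * r) (hreg : Reg G r) : CLe (mp G) (Lp r) := by
  intro m
  rw [mp_coeff, Lp_coeff]
  by_cases h : m ≤ r
  · rw [← UC_KK]
    exact_mod_cast one_block hV hreg m h
  · rw [card_mats_eq_zero (by rw [hV]; omega), Nat.cast_zero]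
    exact ell_nonneg r m

end Pool.Agent.Lib.MP_eeed5c_coT
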