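import Pool.Agent.Lib.MP_eeed5c_co_T.Base

/-!
# Graphs without small closed sets

* `far_or_closed`: suppose `Far G 1` fails: there are adjacent `v`, `u` with `loc G v u / 2 + 2 * tri G v u < 1`. `tri` is a natural number, so `tri = 0`: no common neighbours; and `loc < 2`. `loc` is the sum over ORIENTED edges `(a,c)` disjoint from `v`, `u` of the square of the
integer `sg G v u (a,c) = [a~u] + [c~u] - [a~v] - [c~v]`, invariant under `(a,c) ↦ (c,a)`; if one `sg G v u (a,c)` were nonzero then `(a,c)` and `(c,a)` (different) both contribute at least `1`, so `loc ≥ 2`. Hence all `sg G v u p = 0`, `p ∈ prs G v u`.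
Let `a ~ u`. Claim: all neighbours `c` of `a` are neighbours of `v`. If `a = v` this is trivial. Otherwise `a ≠ u`, `a` is not adjacent to `v` (no common neighbours of `v`, `u`). Let `c ~ a`. If `c = u`: `u ~ v`. If `c ≠ u`: `c ≠ v` (as `a` is not adjacent to `v`), so `(a,c) ∈ prs` and
`sg = 0`: `1 + [c~u] = 0 + [c~v]`, so `c ~ v`. Hence `N(a) ⊆ N(v)` and both have `r` elements: `N(a) = N(v)`. In the same way (exchange `u` and `v`, `sg G u v p = - sg G v u p`, or repeat the argument) `N(b) = N(u)` for all `b ~ v`.
Let `p w := G.Adj u w ∨ G.Adj v w`. If `G.Adj x y` and `p x`, say `x ~ u`: then `y ∈ N(x) = N(v)`: `p y`. Similarly if `x ~ v`. So `p` is closed (both directions by symmetry). The number of vertices with `p` is `|N(u)| + |N(v)| = 2 r` as there are no common neighbours.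
-/

set_option autoImplicit false

namespace Pool.Agent.Lib.MP_eeed5c_coT

open Finset Pool.Agent.Lib.MP_eeed5c_co

private theorem UD_sg_swap {V : Type*} [Fintype V] (G : SimpleGraph V) (v u a c : V) :
    sg G v u (c, a) = sg G v u (a, c) := by
  unfold sg
  ring

private theorem UD_sg_sq {V : Type*} [Fintype V] (G : SimpleGraph V) (v u : V) (p : V × V)
    (h : sg G v u p ≠ 0) : 1 ≤ (sg G v u p) ^ 2 := by
  classical
  obtain ⟨z, hz⟩ : ∃ z : ℤ, sg G v u p = (z : ℝ) := by
    refine ⟨(if G.Adj u p.1 then 1 else 0) + (if G.Adj u p.2 then 1 else 0) -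
      (if G.Adj v p.1 then 1 else 0) - (if G.Adj v p.2 then 1 else 0), ?_⟩
    unfold sg
    push_cast
    split_ifs <;> rfl
  rw [hz] at h ⊢
  have h1 : z ≠ 0 := by
    intro h0
    rw [h0] at h
    exact h Int.cast_zero
  have h2 : 0 < z ^ 2 := by positivity
  have h3 : 1 ≤ z ^ 2 := h2
  exact_mod_cast h3

open scoped Classical in
theorem far_or_closed {V : Type*} [Fintype V] {G : SimpleGraph V} {r : ℕ} (hreg : Reg G r) :
    Far G 1 ∨ ∃ p : V → Prop, (∀ a b, G.Adj a b → (p a ↔ p b)) ∧ (univ.filter p).card = 2 * r := by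
  by_cases hF : Far G 1
  · exact Or.inl hF
  right
  simp only [Far, not_forall, not_le] at hF
  obtain ⟨v, u, hvu, hlt⟩ := hF
  have hloc0 : 0 ≤ loc G v u := by
    unfold loc
    exact Finset.sum_nonneg fun _ _ => sq_nonneg _
  have htri0 : 0 ≤ tri G v u := by
    unfold tri
    positivity
  have hloc : loc G v u < 2 := by linarith
  have htri : tri G v u < 1 := by linarith
  -- no common neighbours
  have hno : ∀ w, G.Adj v w → ¬ G.Adj u w := by
    intro w h1 h2
    have h3 : 0 < (univ.filter fun w => G.Adj v w ∧ G.Adj u w).card :=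
      Finset.card_pos.2 ⟨w, Finset.mem_filter.2 ⟨Finset.mem_univ _, h1, h2⟩⟩
    have h4 : (1 : ℝ) ≤ tri G v u := by
      unfold tri
      exact_mod_cast h3
    linarith
  -- all changes vanish
  have hsg : ∀ a c, (a, c) ∈ prs G v u → sg G v u (a, c) = 0 := by
    intro a c hp
    by_contra hne
    have hp2 : G.Adj a c ∧ a ≠ v ∧ a ≠ u ∧ c ≠ v ∧ c ≠ u := by
      have := (Finset.mem_filter.1 hp).2
      exact this
    have hq : (c, a) ∈ prs G v u := by
      unfold prs
      exact Finset.mem_filter.2 ⟨Finset.mem_univ _, hp2.1.symm, hp2.2.2.2.1, hp2.2.2.2.2,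
        hp2.2.1, hp2.2.2.1⟩
    have hneq : (a, c) ≠ (c, a) := by
      intro h
      have h1 : a = c := congrArg Prod.fst h
      exact hp2.1.ne h1
    have hsub : ({(a, c), (c, a)} : Finset (V × V)) ⊆ prs G v u := by
      intro x hx
      rw [Finset.mem_insert, Finset.mem_singleton] at hx
      rcases hx with hx | hx
      · rw [hx]; exact hp
      · rw [hx]; exact hq
    have h1 : ∑ p ∈ ({(a, c), (c, a)} : Finset (V × V)), (sg G v u p) ^ 2 ≤ loc G v u := by
      unfold loc
      exact Finset.sum_le_sum_of_subset_of_nonneg hsub fun _ _ _ => sq_nonneg _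
    rw [Finset.sum_pair hneq, UD_sg_swap G v u a c] at h1
    have h2 := UD_sg_sq G v u (a, c) hne
    linarith
  -- neighbours of neighbours of `u` are neighbours of `v`
  have c1 : ∀ a c, G.Adj u a → G.Adj a c → G.Adj v c := by
    intro a c hua hac
    by_cases hav : a = v
    · rw [hav] at hac
      exact hac
    have hva : ¬ G.Adj v a := fun h => hno a h hua
    by_cases hcu : c = u
    · rw [hcu]
      exact hvu
    have hcv : c ≠ v := by
      intro h
      rw [h] at hac
      exact hva hac.symm
    have hp : (a, c) ∈ prs G v u := by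
      unfold prs
      exact Finset.mem_filter.2 ⟨Finset.mem_univ _, hac, hav, hua.ne', hcv, hcu⟩
    have h0 := hsg a c hp
    by_contra hvc
    unfold sg at h0
    simp only [if_pos hua, if_neg hva, if_neg hvc] at h0
    split_ifs at h0 <;> norm_num at h0
  have c2 : ∀ a c, G.Adj v a → G.Adj a c → G.Adj u c := by
    intro a c hva hac
    by_cases hau : a = u
    · rw [hau] at hac
      exact hac
    have hua : ¬ G.Adj u a := fun h => hno a hva h
    by_cases hcv : c = v
    · rw [hcv]
      exact hvu.symm
    have hcu : c ≠ u := by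
      intro h
      rw [h] at hac
      exact hua hac.symm
    have hp : (a, c) ∈ prs G v u := by
      unfold prs
      exact Finset.mem_filter.2 ⟨Finset.mem_univ _, hac, hva.ne', hau, hcv, hcu⟩
    have h0 := hsg a c hp
    by_contra huc
    unfold sg at h0
    simp only [if_neg hua, if_pos hva, if_neg huc] at h0
    split_ifs at h0 <;> norm_num at h0
  refine ⟨fun w => G.Adj u w ∨ G.Adj v w, ?_, ?_⟩
  · have key : ∀ a b, G.Adj a b → (G.Adj u a ∨ G.Adj v a) → (G.Adj u b ∨ G.Adj v b) := by
      intro a b hab h
      rcases h with h | h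
      · exact Or.inr (c1 a b h hab)
      · exact Or.inl (c2 a b h hab)
    intro a b hab
    exact ⟨key a b hab, key b a hab.symm⟩
  · have h2 : Disjoint (univ.filter fun w => G.Adj u w) (univ.filter fun w => G.Adj v w) := by
      rw [Finset.disjoint_left]
      intro w hw1 hw2
      exact hno w (Finset.mem_filter.1 hw2).2 (Finset.mem_filter.1 hw1).2
    have e1 := hreg u
    have e2 := hreg v
    have h3 : ((univ.filter fun w => G.Adj u w) ∪ (univ.filter fun w => G.Adj v w)).card =
        2 * r := by
      rw [Finset.card_union_of_disjoint h2, e1, e2]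
      ring
    rw [← h3]
    refine congrArg Finset.card ?_
    ext w
    simp only [Finset.mem_filter, Finset.mem_univ, true_and, Finset.mem_union]

end Pool.Agent.Lib.MP_eeed5c_coT
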