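import Pool.Agent.Lib.MP_eeed5c_co_T.UC
import Pool.Agent.Lib.MP_eeed5c_co_T.UD

/-!
# The decomposition

Induction on `q` (for all `V`, `G`). If `Far G 1`: take `q' = q`, `t = 0`, `G' = G` (`pow_zero`, `mul_one`, `CLe_refl`). Otherwise `far_or_closed` gives a closed `p` with `2 r` vertices. If `q = 0` the vertex type is empty and `Far G 1` holds trivially (no vertices), so we may assume
`q = q0 + 1`. `V1 = {v // p v}` has `2 r` vertices and `V2 = {v // ¬ p v}` has `2 (q0+1) r - 2 r = 2 q0 r` vertices; with `H = G.comap val` on `V1` and `G2` on `V2`: `mp G = mp H * mp G2` (`mp_split`), both are `r`-regular (`Reg_comap`; for `¬ p` the closedness is the same), and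
`CLe (mp H) (Lp r)` (`block_le`). Induction hypothesis for `G2`: `CLe (mp G2) (mp G' * Lp r ^ t)`, `q' + t = q0`. Then `mp G = mp H * mp G2 ≤ Lp r * mp G2 ≤ Lp r * (mp G' * Lp r ^ t) = mp G' * Lp r ^ (t+1)` coefficientwise (`CLe_mul_right`, `CLe_mul_left`, `NN_mp`, `NN_Lp`).
-/

set_option autoImplicit false

namespace Pool.Agent.Lib.MP_eeed5c_coT

open Finset Pool.Agent.Lib.MP_eeed5c_co

theorem decomp (r : ℕ) (q : ℕ) : ∀ (V : Type) [Fintype V] (G : SimpleGraph V),
    Fintype.card V = 2 * (q * r) → Reg G r →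
    ∃ (q' t : ℕ) (V' : Type) (_ : Fintype V') (G' : SimpleGraph V'),
      q' + t = q ∧ Fintype.card V' = 2 * (q' * r) ∧ Reg G' r ∧ Far G' 1 ∧
      CLe (mp G) (mp G' * (Lp r) ^ t) := by
  classical
  induction q with
  | zero =>
    intro V _ G hV hreg
    refine ⟨0, 0, V, inferInstance, G, rfl, hV, hreg, ?_, ?_⟩
    · intro v
      have h0 : IsEmpty V := Fintype.card_eq_zero_iff.1 (by omega)
      exact h0.elim v
    · rw [pow_zero, mul_one]
      exact CLe_refl _
  | succ q ih =>
    intro V _ G hV hreg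
    rcases far_or_closed hreg with h | ⟨p, hp, hc⟩
    · refine ⟨q + 1, 0, V, inferInstance, G, rfl, hV, hreg, h, ?_⟩
      rw [pow_zero, mul_one]
      exact CLe_refl _
    · have hp' : ∀ a b, G.Adj a b → (¬ p a ↔ ¬ p b) := fun a b hab => not_congr (hp a b hab)
      have c1 : Fintype.card {v // p v} = 2 * r := by
        rw [Fintype.card_subtype]
        exact hc
      have c2 : Fintype.card {v // ¬ p v} = 2 * (q * r) := by
        rw [Fintype.card_subtype_compl, c1, hV]
        have e : 2 * ((q + 1) * r) = 2 * (q * r) + 2 * r := by ring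
        omega
      obtain ⟨q', t, V', i, G', e, hc', hr', hf', hle⟩ :=
        ih {v // ¬ p v} (G.comap Subtype.val) c2 (Reg_comap hreg (fun v => ¬ p v) hp')
      refine ⟨q', t + 1, V', i, G', by omega, hc', hr', hf', ?_⟩
      have h1 := block_le c1 (Reg_comap hreg p hp)
      have h2 := CLe_trans
        (CLe_mul_right h1 (NN_mp (G := G.comap (Subtype.val : {v // ¬ p v} → V))))
        (CLe_mul_left hle (NN_Lp r))
      have h3 : Lp r * (mp G' * Lp r ^ t) = mp G' * Lp r ^ (t + 1) := by
        rw [pow_succ]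
        ring
      rw [mp_split p hp, ← h3]
      exact h2

end Pool.Agent.Lib.MP_eeed5c_coT
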