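import Pool.Agent.Lib.MP_eeed5c_co_T.Base

/-!
# Mean and variance of the number of edges in one block
-/

set_option autoImplicit false

namespace Pool.Agent.Lib.MP_eeed5c_coT

open Finset Pool.Agent.Lib.MP_eeed5c_co

/-- The mean number of edges in one block. -/
noncomputable def mb (r : ℕ) (x : ℝ) : ℝ := x * (Lp r).derivative.eval x / (Lp r).eval x

/-- The variance of the number of edges in one block. -/
noncomputable def vb (r : ℕ) (x : ℝ) : ℝ :=
  (∑ j ∈ range (r + 1), ((j : ℝ) - mb r x) ^ 2 * (ell r j * x ^ j)) / (Lp r).eval x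

end Pool.Agent.Lib.MP_eeed5c_coT
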